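import Pool.Agent.Lib.MP_399f8e_an.Ur.Defs

open Set Filter Topology Metric Complex
open scoped Real
open Pool.Agent.Lib.MP_399f8e_an.Rg

noncomputable section

namespace Pool.Agent.Lib.MP_399f8e_an.Ur

namespace MeanAux

theorem floor_inj {V : Set ℝ} {δ : ℝ} (hδ : 0 < δ) (hV : Sep V δ) (a b : ℝ) :
    InjOn (fun t => ⌊(t - a) / δ⌋₊) (V ∩ Icc a b) := by
  intro s hs t ht hst
  have hs0 : 0 ≤ (s - a) / δ := div_nonneg (by linarith [hs.2.1]) hδ.le
  have ht0 : 0 ≤ (t - a) / δ := div_nonneg (by linarith [ht.2.1]) hδ.le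
  have h1 := Nat.floor_le hs0
  have h2 := Nat.lt_floor_add_one ((s - a) / δ)
  have h3 := Nat.floor_le ht0
  have h4 := Nat.lt_floor_add_one ((t - a) / δ)
  have hst' : (⌊(s - a) / δ⌋₊ : ℝ) = ⌊(t - a) / δ⌋₊ := by exact_mod_cast hst
  have e : s - t = ((s - a) / δ - (t - a) / δ) * δ := by field_simp; ring
  apply hV s hs.1 t ht.1
  rw [e, abs_le]
  constructor <;> nlinarith

theorem floor_mem {δ : ℝ} (hδ : 0 < δ) {a b t : ℝ} (ht : t ∈ Icc a b) :
    ⌊(t - a) / δ⌋₊ ∈ Finset.range (⌊(b - a) / δ⌋₊ + 1) := by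
  rw [Finset.mem_range, Nat.lt_succ_iff]
  exact Nat.floor_le_floor (div_le_div_of_nonneg_right (by linarith [ht.2]) hδ.le)

theorem fin_Icc {V : Set ℝ} {δ : ℝ} (hδ : 0 < δ) (hV : Sep V δ) (a b : ℝ) :
    (V ∩ Icc a b).Finite := by
  refine Set.Finite.of_finite_image (f := fun t => ⌊(t - a) / δ⌋₊) ?_ (floor_inj hδ hV a b)
  refine (Finset.range (⌊(b - a) / δ⌋₊ + 1)).finite_toSet.subset ?_
  rintro _ ⟨t, ht, rfl⟩
  exact floor_mem hδ ht.2

theorem card_le {V : Set ℝ} {δ : ℝ} (hδ : 0 < δ) (hV : Sep V δ) {a b : ℝ} (hab : a ≤ b)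
    (T : Finset ℝ) (hT : ∀ t ∈ T, t ∈ V ∩ Icc a b) : (T.card : ℝ) ≤ (b - a) / δ + 1 := by
  have h1 : T.card ≤ (Finset.range (⌊(b - a) / δ⌋₊ + 1)).card :=
    Finset.card_le_card_of_injOn (fun t => ⌊(t - a) / δ⌋₊)
      (fun t ht => floor_mem hδ (hT t ht).2)
      ((floor_inj hδ hV a b).mono fun t ht => hT t ht)
  rw [Finset.card_range] at h1
  have h2 : (T.card : ℝ) ≤ (⌊(b - a) / δ⌋₊ : ℝ) + 1 := by exact_mod_cast h1
  have h3 := Nat.floor_le (div_nonneg (sub_nonneg.2 hab) hδ.le)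
  linarith

/-- the sum over the times in `[0, N)` -/
def sm (f : ℝ → ℝ) (N : ℕ) : ℝ := ∑ᶠ t ∈ Ico (0 : ℝ) N, f t

/-- the average -/
def av (f : ℝ → ℝ) (N : ℕ) : ℝ := sm f N / N

/-- the mean -/
def mu (f : ℝ → ℝ) : ℝ := limUnder (hyperfilter ℕ : Filter ℕ) (av f)

theorem exists_fin {V : Set ℝ} {δ : ℝ} (hδ : 0 < δ) (hV : Sep V δ) (N : ℕ) :
    ∃ T : Finset ℝ, ∀ t, t ∈ T ↔ t ∈ V ∧ t ∈ Ico (0 : ℝ) N := by
  have h : (V ∩ Ico (0 : ℝ) N).Finite :=
    (fin_Icc hδ hV 0 N).subset (inter_subset_inter_right _ Ico_subset_Icc_self)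
  exact ⟨h.toFinset, fun t => by simp [Set.Finite.mem_toFinset]⟩

theorem sm_eq {V : Set ℝ} {f : ℝ → ℝ} (hf : ∀ t, t ∉ V → f t = 0) {N : ℕ} {T : Finset ℝ}
    (hT : ∀ t, t ∈ T ↔ t ∈ V ∧ t ∈ Ico (0 : ℝ) N) : sm f N = ∑ t ∈ T, f t := by
  unfold sm
  apply finsum_mem_eq_sum_of_inter_support_eq
  ext t
  simp only [mem_inter_iff, Function.mem_support, Finset.mem_coe, hT]
  constructor
  · rintro ⟨h1, h2⟩
    exact ⟨⟨by_contra fun h => h2 (hf t h), h1⟩, h2⟩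
  · rintro ⟨⟨_, h1⟩, h2⟩
    exact ⟨h1, h2⟩

theorem abs_sum_le {f : ℝ → ℝ} {C : ℝ} (hC : ∀ t, |f t| ≤ C) (T : Finset ℝ) :
    |∑ t ∈ T, f t| ≤ T.card * C := by
  refine (Finset.abs_sum_le_sum_abs _ _).trans ?_
  have := Finset.sum_le_card_nsmul T (fun t => |f t|) C (fun t _ => hC t)
  simpa using this

theorem av_bdd {V : Set ℝ} {δ : ℝ} (hδ : 0 < δ) (hV : Sep V δ) {f : ℝ → ℝ} (hf : Sp V f) :
    ∃ K : ℝ, ∀ N, |av f N| ≤ K := by
  obtain ⟨h0, C, hC⟩ := hf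
  have hC0 : 0 ≤ C := (abs_nonneg _).trans (hC 0)
  refine ⟨(1 / δ + 1) * C, fun N => ?_⟩
  rcases Nat.eq_zero_or_pos N with rfl | hN
  · simp only [av, Nat.cast_zero, div_zero, abs_zero]
    positivity
  · obtain ⟨T, hT⟩ := exists_fin hδ hV N
    have hN' : (1 : ℝ) ≤ N := by exact_mod_cast hN
    have hc := card_le hδ hV (a := 0) (b := N) (by linarith) T
      (fun t ht => ⟨((hT t).1 ht).1, Ico_subset_Icc_self ((hT t).1 ht).2⟩)
    have h1 := abs_sum_le hC T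
    rw [av, sm_eq h0 hT, abs_div, abs_of_pos (by linarith : (0 : ℝ) < N),
      div_le_iff₀ (by linarith)]
    have h2 : (T.card : ℝ) ≤ (1 / δ + 1) * N := by
      have : ((N : ℝ) - 0) / δ = 1 / δ * N := by ring
      rw [this] at hc
      nlinarith
    nlinarith

theorem tends {V : Set ℝ} {δ : ℝ} (hδ : 0 < δ) (hV : Sep V δ) {f : ℝ → ℝ} (hf : Sp V f) :
    Tendsto (av f) (hyperfilter ℕ : Filter ℕ) (𝓝 (mu f)) := by
  obtain ⟨K, hK⟩ := av_bdd hδ hV hf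
  have h : (↑((hyperfilter ℕ).map (av f)) : Filter ℝ) ≤ 𝓟 (Icc (-K) K) := by
    rw [Ultrafilter.coe_map, le_principal_iff, mem_map]
    exact univ_mem' fun N => abs_le.1 (hK N)
  obtain ⟨x, _, hx⟩ := isCompact_Icc.ultrafilter_le_nhds _ h
  exact tendsto_nhds_limUnder ⟨x, hx⟩

theorem sp_add {V : Set ℝ} {f f' : ℝ → ℝ} (hf : Sp V f) (hf' : Sp V f') :
    Sp V (fun t => f t + f' t) := by
  obtain ⟨h0, C, hC⟩ := hf
  obtain ⟨h0', C', hC'⟩ := hf'
  refine ⟨fun t ht => by simp [h0 t ht, h0' t ht], C + C', fun t => ?_⟩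
  exact (abs_add_le _ _).trans (add_le_add (hC t) (hC' t))

theorem sp_smul {V : Set ℝ} (c : ℝ) {f : ℝ → ℝ} (hf : Sp V f) : Sp V (fun t => c * f t) := by
  obtain ⟨h0, C, hC⟩ := hf
  refine ⟨fun t ht => by simp [h0 t ht], |c| * C, fun t => ?_⟩
  rw [abs_mul]
  exact mul_le_mul_of_nonneg_left (hC t) (abs_nonneg _)

theorem card_ends {V : Set ℝ} {δ : ℝ} (hδ : 0 < δ) (hV : Sep V δ) {B x : ℝ} (hB : 0 ≤ B)
    (T : Finset ℝ) (hT : ∀ t ∈ T, t ∈ V ∧ (t ∈ Icc 0 B ∨ t ∈ Icc (x - B) x)) :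
    (T.card : ℝ) ≤ 2 * (B / δ + 1) := by
  classical
  have h1 := card_le hδ hV (a := 0) (b := B) hB (T.filter fun t => t ∈ Icc 0 B)
    (fun t ht => ⟨(hT t (Finset.mem_filter.1 ht).1).1, (Finset.mem_filter.1 ht).2⟩)
  have h2 := card_le hδ hV (a := x - B) (b := x) (by linarith)
    (T.filter fun t => ¬ t ∈ Icc 0 B)
    (fun t ht => ⟨(hT t (Finset.mem_filter.1 ht).1).1,
      (hT t (Finset.mem_filter.1 ht).1).2.resolve_left (Finset.mem_filter.1 ht).2⟩)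
  have h3 := Finset.card_filter_add_card_filter_not (s := T) (fun t => t ∈ Icc 0 B)
  have h4 : ((T.filter fun t => t ∈ Icc 0 B).card : ℝ)
      + (T.filter fun t => ¬ t ∈ Icc 0 B).card = T.card := by exact_mod_cast h3
  have e1 : (B - 0) / δ = B / δ := by ring
  have e2 : (x - (x - B)) / δ = B / δ := by ring
  rw [e1] at h1
  rw [e2] at h2
  linarith

theorem sm_shift {V V' : Set ℝ} {δ : ℝ} {f f' : ℝ → ℝ} {b : ℝ → ℝ} {B : ℝ} (hδ : 0 < δ)
    (hV : Sep V δ) (hV' : Sep V' δ) (hf : Sp V f) (hf' : Sp V' f')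
    (hb : InjOn b {t | f t ≠ 0}) (h1 : ∀ t, f t ≠ 0 → f' (b t) = f t ∧ |b t - t| ≤ B)
    (h2 : ∀ t', f' t' ≠ 0 → ∃ t, f t ≠ 0 ∧ b t = t') :
    ∃ K : ℝ, ∀ N, |sm f N - sm f' N| ≤ K := by
  classical
  obtain ⟨h0, C, hC⟩ := hf
  obtain ⟨h0', C', hC'⟩ := hf'
  have hC0 : 0 ≤ C := (abs_nonneg _).trans (hC 0)
  have hC0' : 0 ≤ C' := (abs_nonneg _).trans (hC' 0)
  have hs : Sep {t | f t ≠ 0} δ := fun s hs t ht =>
    hV s (by_contra fun h => hs (h0 s h)) t (by_contra fun h => ht (h0 t h))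
  have hs' : Sep {t | f' t ≠ 0} δ := fun s hs t ht =>
    hV' s (by_contra fun h => hs (h0' s h)) t (by_contra fun h => ht (h0' t h))
  refine ⟨2 * (|B| / δ + 1) * C + 2 * (|B| / δ + 1) * C', fun N => ?_⟩
  obtain ⟨T, hT⟩ := exists_fin hδ hs N
  obtain ⟨T', hT'⟩ := exists_fin hδ hs' N
  rw [sm_eq (V := {t | f t ≠ 0}) (fun t ht => by simpa using ht) hT,
    sm_eq (V := {t | f' t ≠ 0}) (fun t ht => by simpa using ht) hT']
  set T0 := T.filter fun t => b t ∈ Ico (0 : ℝ) N with hT0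
  have hsub : T0.image b ⊆ T' := by
    intro t' ht'
    obtain ⟨t, ht, rfl⟩ := Finset.mem_image.1 ht'
    have ht1 := Finset.mem_filter.1 ht
    have ht2 := ((hT t).1 ht1.1).1
    refine (hT' _).2 ⟨?_, ht1.2⟩
    show f' (b t) ≠ 0
    rw [(h1 t ht2).1]
    exact ht2
  have hsub0 : T0 ⊆ T := Finset.filter_subset _ _
  have e0 : ∑ t' ∈ T0.image b, f' t' = ∑ t ∈ T0, f t := by
    rw [Finset.sum_image (fun s hs t ht hst =>
      hb ((hT s).1 (hsub0 hs)).1 ((hT t).1 (hsub0 ht)).1 hst)]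
    exact Finset.sum_congr rfl fun t ht => (h1 t ((hT t).1 (hsub0 ht)).1).1
  have e1 := Finset.sum_sdiff (f := f) hsub0
  have e2 := Finset.sum_sdiff (f := f') hsub
  have hB := le_abs_self B
  have c1 := card_ends hδ hs (B := |B|) (x := N) (abs_nonneg _) (T \ T0) (by
    intro t ht
    obtain ⟨ht1, ht2⟩ := Finset.mem_sdiff.1 ht
    obtain ⟨ht3, ht4⟩ := (hT t).1 ht1
    refine ⟨ht3, ?_⟩
    have h5 := abs_le.1 (h1 t ht3).2
    have h6 : ¬ b t ∈ Ico (0 : ℝ) N := fun h => ht2 (Finset.mem_filter.2 ⟨ht1, h⟩)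
    rw [mem_Ico, not_and_or, not_le, not_lt] at h6
    rcases h6 with h6 | h6
    · exact Or.inl ⟨ht4.1, by linarith [h5.1]⟩
    · exact Or.inr ⟨by linarith [h5.2], ht4.2.le⟩)
  have c2 := card_ends hδ hs' (B := |B|) (x := N) (abs_nonneg _) (T' \ T0.image b) (by
    intro t' ht'
    obtain ⟨ht1, ht2⟩ := Finset.mem_sdiff.1 ht'
    obtain ⟨ht3, ht4⟩ := (hT' t').1 ht1
    refine ⟨ht3, ?_⟩
    obtain ⟨t, ht, rfl⟩ := h2 t' ht3
    have h5 := abs_le.1 (h1 t ht).2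
    have h6 : ¬ t ∈ Ico (0 : ℝ) N := fun h =>
      ht2 (Finset.mem_image.2 ⟨t, Finset.mem_filter.2 ⟨(hT t).2 ⟨ht, h⟩, ht4⟩, rfl⟩)
    rw [mem_Ico, not_and_or, not_le, not_lt] at h6
    rcases h6 with h6 | h6
    · exact Or.inl ⟨ht4.1, by linarith [h5.2]⟩
    · exact Or.inr ⟨by linarith [h5.1], ht4.2.le⟩)
  have a1 := abs_le.1 ((abs_sum_le hC (T \ T0)).trans (mul_le_mul_of_nonneg_right c1 hC0))
  have a2 := abs_le.1
    ((abs_sum_le hC' (T' \ T0.image b)).trans (mul_le_mul_of_nonneg_right c2 hC0'))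
  rw [abs_le]
  constructor <;> linarith [a1.1, a1.2, a2.1, a2.2]

theorem sm_pos {V : Set ℝ} {δ : ℝ} {f : ℝ → ℝ} {B : ℝ} (hδ : 0 < δ) (hV : Sep V δ)
    (hf : Sp V f) (h0 : ∀ t, 0 ≤ f t) (h1 : ∀ t, ∃ s ∈ Icc t (t + B), 1 ≤ f s) (N : ℕ) :
    (N : ℝ) / (|B| + 1) - 1 ≤ sm f N := by
  classical
  choose s hs hs1 using h1
  obtain ⟨T, hT⟩ := exists_fin hδ hV N
  rw [sm_eq hf.1 hT]
  have hB := le_abs_self B
  have hB0 := abs_nonneg B
  have hL : (0 : ℝ) < |B| + 1 := by linarith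
  set M := ⌊(N : ℝ) / (|B| + 1)⌋₊ with hM
  set p : ℕ → ℝ := fun k => s (k * (|B| + 1)) with hp
  have hp1 : ∀ k : ℕ, (k : ℝ) * (|B| + 1) ≤ p k := fun k => (hs _).1
  have hp2 : ∀ k : ℕ, p k < ((k : ℝ) + 1) * (|B| + 1) := fun k => by
    have := (hs (k * (|B| + 1))).2
    have e : ((k : ℝ) + 1) * (|B| + 1) = k * (|B| + 1) + (|B| + 1) := by ring
    rw [e]
    exact lt_of_le_of_lt this (by linarith)
  have hmono : StrictMono p := strictMono_nat_of_lt_succ fun k => by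
    have := hp1 (k + 1)
    push_cast at this
    exact (hp2 k).trans_le this
  have hsub : (Finset.range M).image p ⊆ T := by
    intro t ht
    obtain ⟨k, hk, rfl⟩ := Finset.mem_image.1 ht
    have hk' : (k : ℝ) + 1 ≤ M := by exact_mod_cast Finset.mem_range.1 hk
    have hM' : (M : ℝ) ≤ N / (|B| + 1) := Nat.floor_le (by positivity)
    have hM'' : (M : ℝ) * (|B| + 1) ≤ N := (le_div_iff₀ hL).1 hM'
    refine (hT _).2 ⟨by_contra fun h => ?_, ?_, ?_⟩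
    · have h2 := hs1 (k * (|B| + 1))
      have h3 : f (p k) = 0 := hf.1 _ h
      simp only [hp] at h3
      linarith
    · exact le_trans (by positivity) (hp1 k)
    · exact (hp2 k).trans_le ((mul_le_mul_of_nonneg_right hk' hL.le).trans hM'')
  have h2 : ∑ t ∈ (Finset.range M).image p, f t ≤ ∑ t ∈ T, f t :=
    Finset.sum_le_sum_of_subset_of_nonneg hsub fun t _ _ => h0 t
  rw [Finset.sum_image (fun a _ b _ hab => hmono.injective hab)] at h2
  have h3 : (M : ℝ) ≤ ∑ k ∈ Finset.range M, f (p k) := by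
    have := Finset.card_nsmul_le_sum (Finset.range M) (fun k => f (p k)) 1
      (fun k _ => hs1 _)
    simpa using this
  have h4 := Nat.lt_floor_add_one ((N : ℝ) / (|B| + 1))
  linarith

end MeanAux

open MeanAux in
theorem exists_mean : ∃ μ, IsMean μ := by
  refine ⟨mu, ?_, ?_, ?_, ?_, ?_⟩
  · intro V δ f f' hδ hV hf hf'
    refine tendsto_nhds_unique (tends hδ hV (sp_add hf hf')) ?_
    refine ((tends hδ hV hf).add (tends hδ hV hf')).congr fun N => ?_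
    obtain ⟨T, hT⟩ := exists_fin hδ hV N
    simp only [av, sm_eq hf.1 hT, sm_eq hf'.1 hT, sm_eq (sp_add hf hf').1 hT,
      Finset.sum_add_distrib, add_div]
  · intro V δ c f hδ hV hf
    refine tendsto_nhds_unique (tends hδ hV (sp_smul c hf)) ?_
    refine ((tends hδ hV hf).const_mul c).congr fun N => ?_
    obtain ⟨T, hT⟩ := exists_fin hδ hV N
    simp only [av, sm_eq hf.1 hT, sm_eq (sp_smul c hf).1 hT, ← Finset.mul_sum, mul_div_assoc]
  · intro V δ f f' hδ hV hf hf' hle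
    refine le_of_tendsto_of_tendsto' (tends hδ hV hf) (tends hδ hV hf') fun N => ?_
    obtain ⟨T, hT⟩ := exists_fin hδ hV N
    simp only [av, sm_eq hf.1 hT, sm_eq hf'.1 hT]
    exact div_le_div_of_nonneg_right (Finset.sum_le_sum fun t _ => hle t) (Nat.cast_nonneg _)
  · intro V V' δ f f' b B hδ hV hV' hf hf' hb h1 h2
    obtain ⟨K, hK⟩ := sm_shift hδ hV hV' hf hf' hb h1 h2
    have hz : Tendsto (fun N : ℕ => av f N - av f' N) atTop (𝓝 0) := by
      refine squeeze_zero_norm (a := fun N : ℕ => K / N) (fun N => ?_)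
        (tendsto_const_div_atTop_nhds_zero_nat K)
      rw [Real.norm_eq_abs, av, av, ← sub_div, abs_div, Nat.abs_cast]
      exact div_le_div_of_nonneg_right (hK N) (Nat.cast_nonneg _)
    have h3 := tendsto_nhds_unique ((tends hδ hV hf).sub (tends hδ hV' hf'))
      (hz.mono_left Nat.hyperfilter_le_atTop)
    linarith
  · intro V δ f B hδ hV hf h0 h1
    have hL : (0 : ℝ) < |B| + 1 := by positivity
    have hz : Tendsto (fun N : ℕ => 1 / (|B| + 1) - 1 / (N : ℝ)) atTop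
        (𝓝 (1 / (|B| + 1) - 0)) :=
      tendsto_const_nhds.sub (tendsto_const_div_atTop_nhds_zero_nat 1)
    have h3 : 1 / (|B| + 1) - 0 ≤ mu f := by
      refine le_of_tendsto_of_tendsto (hz.mono_left Nat.hyperfilter_le_atTop)
        (tends hδ hV hf) (Eventually.filter_mono Nat.hyperfilter_le_atTop ?_)
      filter_upwards [eventually_gt_atTop 0] with N hN
      have hN' : (0 : ℝ) < N := by exact_mod_cast hN
      have h4 := sm_pos hδ hV hf h0 h1 N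
      rw [av, le_div_iff₀ hN']
      have e : (1 / (|B| + 1) - 1 / (N : ℝ)) * N = N / (|B| + 1) - 1 := by field_simp
      rw [e]
      exact h4
    have h5 : (0 : ℝ) < 1 / (|B| + 1) := by positivity
    linarith

end Pool.Agent.Lib.MP_399f8e_an.Ur
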