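import Pool.Agent.Lib.MP_399f8e_an.Ur.BoxB

open Set Filter Topology Metric Complex
open scoped Real
open Pool.Agent.Lib.MP_399f8e_an.Rg

noncomputable section

namespace Pool.Agent.Lib.MP_399f8e_an.Ur

variable {φ : ℝ → S → S} {lam δ : ℝ} {Y : S → ℂ → S} {pr : S → S → ℂ} {T : S → S → ℝ}

namespace RtExAux

theorem conn : IsPreconnected (univ : Set S) := by
  have h : 1 < Module.rank ℝ E := by
    rw [← Module.finrank_eq_rank, finrank_euclideanSpace_fin]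
    exact Nat.one_lt_ofNat.trans_le' (by simp) |> fun h : 1 < 4 => by exact_mod_cast h
  have := isPreconnected_iff_preconnectedSpace.1 (isConnected_sphere h (0 : E) zero_le_one).2
  exact isPreconnected_univ

theorem gap {X : Type} [TopologicalSpace X] {s : Set X} (hs : IsPreconnected s) {F : X → ℝ}
    (hF : ContinuousOn F s) (hδ : 0 < δ) (h : ∀ x ∈ s, F x ≤ 9 * δ / 10 → F x ≤ δ / 10) {a b : X}
    (ha : a ∈ s) (hb : b ∈ s) (h1 : F a ≤ δ / 2) (h2 : δ / 2 ≤ F b) : False := by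
  obtain ⟨x, hx, e⟩ := hs.intermediate_value ha hb hF ⟨h1, h2⟩
  have := h x hx (by rw [e]; linarith)
  rw [e] at this
  linarith

theorem unif (hφ : IsFl φ) (δ : ℝ) {ε : ℝ} (hε : 0 < ε) : ∃ η : ℝ, 0 < η ∧ ∀ t, |t| ≤ δ →
    ∀ x y : S, ‖(x : E) - y‖ ≤ η → ‖(φ t x : E) - φ t y‖ ≤ ε := by
  have hK : IsCompact (Icc (-δ) δ ×ˢ (univ : Set S)) := isCompact_Icc.prod isCompact_univ
  obtain ⟨η, hη, h⟩ := Metric.uniformContinuousOn_iff_le.1
    (hK.uniformContinuousOn_of_continuous hφ.cont.continuousOn) ε hε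
  refine ⟨η, hη, fun t ht x y hxy => ?_⟩
  have := h (t, x) ⟨abs_le.1 ht, mem_univ _⟩ (t, y) ⟨abs_le.1 ht, mem_univ _⟩ (by
    rw [Prod.dist_eq, dist_self, Subtype.dist_eq, dist_eq_norm]
    exact max_le hη.le hxy)
  rwa [Subtype.dist_eq, dist_eq_norm] at this

theorem steps {τ : S → ℝ} (hφ : IsFl φ) (hδ : 0 < δ) (hR : Rt φ τ lam δ) (y : S) (n : ℕ) :
    ∀ s t : ℝ, n * δ ≤ t - s → t - s ≤ (n + 1) * δ →
      9 * δ / 10 * n - δ / 10 ≤ t + τ (φ t y) - (s + τ (φ s y)) := by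
  have one : ∀ s t : ℝ, 0 ≤ t - s → t - s ≤ δ →
      t - s - δ / 10 ≤ t + τ (φ t y) - (s + τ (φ s y)) := fun s t h1 h2 => by
    have := hR.coarse (φ s y) (t - s) (abs_le.2 ⟨by linarith, h2⟩)
    rw [← hφ.add, sub_add_cancel] at this
    linarith [(abs_le.1 this).1]
  induction n with
  | zero =>
    intro s t h1 h2
    simp only [Nat.cast_zero, zero_mul, zero_add, one_mul, mul_zero] at h1 h2 ⊢
    linarith [one s t h1 h2]
  | succ n ih =>
    intro s t h1 h2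
    push_cast at h1 h2 ⊢
    have h3 := ih (s + δ) t (by linarith) (by linarith)
    have h4 := one s (s + δ) (by linarith) (by linarith)
    linarith

theorem far {τ : S → ℝ} (hφ : IsFl φ) (hδ : 0 < δ) (hR : Rt φ τ lam δ) (y : S) {s t : ℝ}
    (h : δ ≤ t - s) : 8 * δ / 10 ≤ t + τ (φ t y) - (s + τ (φ s y)) := by
  have h0 : 0 ≤ (t - s) / δ := div_nonneg (by linarith) hδ.le
  have h1 : (1 : ℝ) ≤ (⌊(t - s) / δ⌋₊ : ℝ) := by
    exact_mod_cast (Nat.one_le_floor_iff _).2 ((one_le_div hδ).2 h)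
  have h2 := steps hφ hδ hR y ⌊(t - s) / δ⌋₊ s t ((le_div_iff₀ hδ).1 (Nat.floor_le h0))
    ((div_le_iff₀ hδ).1 (Nat.lt_floor_add_one _).le)
  have h3 : 9 * δ / 10 * 1 ≤ 9 * δ / 10 * (⌊(t - s) / δ⌋₊ : ℝ) :=
    mul_le_mul_of_nonneg_left h1 (by linarith)
  linarith

end RtExAux

theorem exists_rt (hφ : IsFl φ) (hB : Box φ lam δ Y pr T) : ∃ η : ℝ, 0 < η ∧ ∀ τ : S → ℝ,
    Continuous τ → (∀ x, ‖(φ (τ x) x : E) - x‖ ≤ η) → (∃ x, δ ≤ |τ x|) → Rt φ τ lam δ := by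
  have hl := hB.lam_pos
  have hδ := hB.δ_pos
  obtain ⟨η, hη, hu⟩ := RtExAux.unif hφ δ hl
  refine ⟨min η (lam / 10), lt_min hη (by linarith), fun τ hτ hn ⟨x₀, hx₀⟩ => ?_⟩
  have hn1 : ∀ x, ‖(φ (τ x) x : E) - x‖ ≤ η := fun x => (hn x).trans (min_le_left _ _)
  have hn2 : ∀ x, ‖(φ (τ x) x : E) - x‖ ≤ lam / 10 := fun x => (hn x).trans (min_le_right _ _)
  refine ⟨hτ, hn2, fun x => ?_, fun y t ht => ?_⟩
  · by_contra hx
    exact RtExAux.gap RtExAux.conn (F := fun x => |τ x|) hτ.abs.continuousOn hδ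
      (fun z _ hz => hB.dich hφ ((hn2 z).trans (by linarith)) hz) (mem_univ x) (mem_univ x₀)
      (not_le.1 hx).le (by linarith)
  · have d : ∀ s ∈ Icc (-δ) δ, |τ (φ s y) - τ y| ≤ 9 * δ / 10 → |τ (φ s y) - τ y| ≤ δ / 10 :=
      fun s hs h => by
        refine hB.dich hφ (x := φ s (φ (τ y) y)) ?_ h
        have e : φ (τ (φ s y) - τ y) (φ s (φ (τ y) y)) = φ (τ (φ s y)) (φ s y) := by
          rw [← hφ.add, ← hφ.add, ← hφ.add]
          congr 1
          ring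
        have h1 := hn2 (φ s y)
        have h2 := hu s (abs_le.2 hs) _ _ (hn1 y)
        have h3 := norm_sub_le_norm_sub_add_norm_sub (φ (τ (φ s y)) (φ s y) : E) (φ s y)
          (φ s (φ (τ y) y))
        rw [norm_sub_rev] at h2
        rw [e]
        linarith
    by_contra hx
    have hc : Continuous fun s => |τ (φ s y) - τ y| :=
      ((hτ.comp (hφ.cont.comp (continuous_id.prodMk continuous_const))).sub continuous_const).abs
    refine RtExAux.gap isPreconnected_Icc hc.continuousOn hδ d (a := 0) (b := t)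
      ⟨by linarith, hδ.le⟩ (abs_le.1 ht) (by rw [hφ.zero, sub_self, abs_zero]; linarith) ?_
    by_contra h2
    exact hx (d t (abs_le.1 ht) (by linarith [not_le.1 h2]))

theorem Rt.small {τ : S → ℝ} (hφ : IsFl φ) (hδ : 0 < δ) (hR : Rt φ τ lam δ) (y : S) {t : ℝ}
    (h : |t + τ (φ t y) - τ y| ≤ 2 * δ / 10) : |t| ≤ δ := by
  obtain ⟨h1, h2⟩ := abs_le.1 h
  refine abs_le.2 ⟨?_, ?_⟩
  · by_contra h3
    have := RtExAux.far hφ hδ hR y (s := t) (t := 0) (by linarith [not_le.1 h3])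
    rw [hφ.zero] at this
    linarith
  · by_contra h3
    have := RtExAux.far hφ hδ hR y (s := 0) (t := t) (by linarith [not_le.1 h3])
    rw [hφ.zero] at this
    linarith

theorem Rt.onto {τ : S → ℝ} (hφ : IsFl φ) (hδ : 0 < δ) (hR : Rt φ τ lam δ) (y : S) :
    ∃ t : ℝ, t + τ (φ t y) = 0 := by
  obtain ⟨C, hC⟩ := isCompact_univ.exists_bound_of_continuousOn hR.cont.continuousOn
  have hc : Continuous fun t => t + τ (φ t y) :=
    continuous_id.add (hR.cont.comp (hφ.cont.comp (continuous_id.prodMk continuous_const)))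
  have h1 := abs_le.1 (hC (φ C y) (mem_univ _))
  have h2 := abs_le.1 (hC (φ (-C) y) (mem_univ _))
  exact mem_range_of_exists_le_of_exists_ge hc ⟨-C, by linarith [h2.2]⟩ ⟨C, by linarith [h1.1]⟩

theorem exists_inverse {g : ℂ → ℂ} {R₁ R₂ b : ℝ} (hc : Continuous g)
    (hi : InjOn g (closedBall 0 R₁)) (hn : ∀ z, ‖g z - z‖ ≤ b)
    (hs : ∀ z, ‖z‖ ≤ R₂ → ∃ w, ‖w - z‖ ≤ b ∧ g w = z) (hR : R₂ + b ≤ R₁) (h0 : 0 < R₂) :
    ∃ g' : ℂ → ℂ, Continuous g' ∧ (∀ z, ‖g' z - z‖ ≤ b) ∧ (∀ z, ‖z‖ ≤ R₂ → g (g' z) = z) ∧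
      ∀ z, ‖z‖ + b ≤ R₂ → g' (g z) = z := by
  have hb : 0 ≤ b := (norm_nonneg _).trans (hn 0)
  obtain ⟨c, cc, c1, c2⟩ : ∃ c : ℂ → ℂ, Continuous c ∧ (∀ z, ‖c z‖ ≤ R₂) ∧
      ∀ z, ‖z‖ ≤ R₂ → c z = z := by
    have hm : ∀ z : ℂ, 0 < max R₂ ‖z‖ := fun z => lt_max_of_lt_left h0
    refine ⟨fun z => ((R₂ / max R₂ ‖z‖ : ℝ) : ℂ) * z, (continuous_ofReal.comp
      (continuous_const.div (continuous_const.max continuous_norm) fun z => (hm z).ne')).mul
        continuous_id, fun z => ?_, fun z hz => ?_⟩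
    · rw [norm_mul, norm_real, Real.norm_of_nonneg (div_pos h0 (hm z)).le, div_mul_eq_mul_div,
        div_le_iff₀ (hm z)]
      exact mul_le_mul_of_nonneg_left (le_max_right _ _) h0.le
    · simp only [max_eq_left hz, div_self h0.ne', ofReal_one, one_mul]
  choose w hw1 hw2 using fun z => hs (c z) (c1 z)
  have hw3 : ∀ z, w z ∈ closedBall (0 : ℂ) R₁ := fun z => by
    have := norm_sub_norm_le (w z) (c z)
    exact mem_closedBall_zero_iff.2 (by linarith [hw1 z, c1 z])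
  have hG : IsClosedEmbedding fun x : closedBall (0 : ℂ) R₁ => g x :=
    (hc.comp continuous_subtype_val).isClosedEmbedding fun x y h => Subtype.ext (hi x.2 y.2 h)
  have hF : Continuous fun z => (⟨w z, hw3 z⟩ : closedBall (0 : ℂ) R₁) :=
    hG.isInducing.continuous_iff.2 (cc.congr fun z => (hw2 z).symm)
  have hw : Continuous w := continuous_subtype_val.comp hF
  refine ⟨fun z => w z + (z - c z), hw.add (continuous_id.sub cc), fun z => ?_, fun z hz => ?_,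
    fun z hz => ?_⟩
  · rw [show w z + (z - c z) - z = w z - c z by ring]
    exact hw1 z
  · simp only [c2 z hz, sub_self, add_zero]
    rw [hw2, c2 z hz]
  · have h1 : ‖g z‖ ≤ R₂ := by linarith [norm_sub_norm_le (g z) z, hn z]
    simp only [c2 _ h1, sub_self, add_zero]
    exact hi (hw3 _) (mem_closedBall_zero_iff.2 (by linarith)) (by rw [hw2, c2 _ h1])

end Pool.Agent.Lib.MP_399f8e_an.Ur
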