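import Pool.Agent.Lib.MP_399f8e_an.Ur.BoxB

open Set Filter Topology Metric Complex
open scoped Real
open Pool.Agent.Lib.MP_399f8e_an.Rg

noncomputable section

namespace Pool.Agent.Lib.MP_399f8e_an.Ur

variable {φ : ℝ → S → S} {lam δ : ℝ} {Y : S → ℂ → S} {pr : S → S → ℂ} {T : S → S → ℝ}
variable {μ : (ℝ → ℝ) → ℝ}

namespace VisitAux

theorem back (hφ : IsFl φ) {x y : S} {a t : ℝ} (h : φ t x = φ a y) : φ (t - a) x = y := by
  rw [sub_eq_neg_add, hφ.add, h, ← hφ.add, neg_add_cancel, hφ.zero]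

theorem pr_eq (hB : Box φ lam δ Y pr T) {c q : S} {z : ℂ} (hz : ‖z‖ ≤ 200000) (h : q = Y c z) :
    pr c q = z := by
  rw [h, hB.pr_Y c (by linarith)]

theorem pr_vis (hB : Box φ lam δ Y pr T) {c : S} {t : ℝ} (ht : t ∈ vis φ Y c) :
    pr c (φ t pole) ∈ Zs φ Y c ∧ φ t pole = Y c (pr c (φ t pole)) := by
  obtain ⟨z, h1, h2⟩ := ht
  rw [pr_eq hB h1 h2]
  exact ⟨⟨h1, t, h2⟩, h2⟩

theorem sp (hB : Box φ lam δ Y pr T) {c : S} {w : ℂ → ℝ} (hw : Bd (Zs φ Y c) w) :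
    Sp (vis φ Y c) ((vis φ Y c).indicator fun t => w (pr c (φ t pole))) := by
  obtain ⟨C, hC⟩ := hw
  refine ⟨fun t ht => indicator_of_notMem ht _, |C|, fun t => ?_⟩
  by_cases ht : t ∈ vis φ Y c
  · rw [indicator_of_mem ht]
    exact (hC _ (pr_vis hB ht).1).trans (le_abs_self C)
  · rw [indicator_of_notMem ht, abs_zero]
    exact abs_nonneg C

end VisitAux

open VisitAux

theorem vis_sep (hφ : IsFl φ) (hB : Box φ lam δ Y pr T) (c : S) : Sep (vis φ Y c) δ := by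
  rintro s ⟨z, h1, h2⟩ t ⟨z', h3, h4⟩ h
  have : φ (s - t) (Y c z') = Y c z := by rw [← h4, ← hφ.add, sub_add_cancel, h2]
  exact sub_eq_zero.1 (hB.uniq c z' z _ h (by linarith) (by linarith) this).1

theorem Zs_countable (hφ : IsFl φ) (hB : Box φ lam δ Y pr T) (c : S) : (Zs φ Y c).Countable := by
  have h1 : (vis φ Y c).Countable := by
    refine MapsTo.countable_of_injOn (f := fun t : ℝ => ⌊t / δ⌋) (mapsTo_univ _ _)
      (fun s hs t ht h => vis_sep hφ hB c s hs t ht ?_) countable_univ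
    have := Int.abs_sub_lt_one_of_floor_eq_floor h
    rw [← sub_div, abs_div, abs_of_pos hB.δ_pos, div_lt_one hB.δ_pos] at this
    exact this.le
  refine (h1.image fun t => pr c (φ t pole)).mono ?_
  rintro z ⟨h2, t, h3⟩
  exact ⟨t, ⟨z, h2, h3⟩, pr_eq hB h2 h3⟩

theorem Zs_iff (hφ : IsFl φ) {c c' : S} {z z' : ℂ} {a : ℝ} (hz : ‖z‖ ≤ 200000)
    (hz' : ‖z'‖ ≤ 200000) (h : Y c' z' = φ a (Y c z)) : z' ∈ Zs φ Y c' ↔ z ∈ Zs φ Y c := by
  constructor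
  · rintro ⟨_, t, ht⟩
    exact ⟨hz, t - a, back hφ (ht.trans h)⟩
  · rintro ⟨_, t, ht⟩
    exact ⟨hz', a + t, by rw [hφ.add, ht, h]⟩

theorem nu_add (hμ : IsMean μ) (hφ : IsFl φ) (hB : Box φ lam δ Y pr T) (c : S) (w w' : ℂ → ℝ)
    (hw : Bd (Zs φ Y c) w) (hw' : Bd (Zs φ Y c) w') :
    nu μ φ Y pr c (fun z => w z + w' z) = nu μ φ Y pr c w + nu μ φ Y pr c w' := by
  unfold nu
  rw [← hμ.add _ δ _ _ hB.δ_pos (vis_sep hφ hB c) (sp hB hw) (sp hB hw'), indicator_add]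

theorem nu_smul (hμ : IsMean μ) (hφ : IsFl φ) (hB : Box φ lam δ Y pr T) (c : S) (a : ℝ)
    (w : ℂ → ℝ) (hw : Bd (Zs φ Y c) w) :
    nu μ φ Y pr c (fun z => a * w z) = a * nu μ φ Y pr c w := by
  unfold nu
  rw [← hμ.smul _ δ a _ hB.δ_pos (vis_sep hφ hB c) (sp hB hw)]
  congr 1
  funext t
  exact indicator_const_mul _ _ _ _

theorem nu_mono (hμ : IsMean μ) (hφ : IsFl φ) (hB : Box φ lam δ Y pr T) (c : S) (w w' : ℂ → ℝ)
    (hw : Bd (Zs φ Y c) w) (hw' : Bd (Zs φ Y c) w') (h : ∀ z ∈ Zs φ Y c, w z ≤ w' z) :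
    nu μ φ Y pr c w ≤ nu μ φ Y pr c w' := by
  refine hμ.mono _ δ _ _ hB.δ_pos (vis_sep hφ hB c) (sp hB hw) (sp hB hw') fun t => ?_
  by_cases ht : t ∈ vis φ Y c
  · rw [indicator_of_mem ht, indicator_of_mem ht]
    exact h _ (pr_vis hB ht).1
  · rw [indicator_of_notMem ht, indicator_of_notMem ht]

theorem nu_pos (hμ : IsMean μ) (hφ : IsFl φ) (hmin : ∀ x, Dense (range fun t : ℝ => φ t x))
    (hB : Box φ lam δ Y pr T) (c : S) (x : ℂ) (r : ℝ) (hx : ‖x‖ ≤ 100000) (hr : 0 < r) :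
    0 < nu μ φ Y pr c (ind x r) := by
  have hl := hB.lam_pos
  have hδ := hB.δ_pos
  set O : Set S := {q : S | ‖(q : E) - c‖ < 10 ^ 6 * lam} ∩ pr c ⁻¹' ball x (min r 1) with hO
  have h1 : IsOpen O := ((hB.prcont c).mono fun q hq => le_of_lt hq).isOpen_inter_preimage
    (isOpen_lt (continuous_subtype_val.sub continuous_const).norm continuous_const) isOpen_ball
  have h2 : O.Nonempty := by
    refine ⟨Y c x, (hB.Ynear c x).trans_lt (by nlinarith), ?_⟩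
    rw [mem_preimage, hB.pr_Y c (by linarith)]
    exact mem_ball_self (lt_min hr one_pos)
  obtain ⟨F, hF⟩ := isCompact_univ.elim_finite_subcover (fun s : ℝ => {y : S | φ s y ∈ O})
    (fun s => h1.preimage (hφ.cont.comp (Continuous.prodMk_right s))) fun y _ => by
      obtain ⟨_, ⟨s, rfl⟩, hs⟩ := (hmin y).exists_mem_open h1 h2
      exact mem_iUnion.2 ⟨s, hs⟩
  have h3 : ∀ z, 0 ≤ ind x r z ∧ ind x r z ≤ 1 := fun z => by
    unfold ind
    by_cases hz : z ∈ ball x r <;> simp [hz]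
  refine hμ.pos _ δ _ (2 * (∑ s ∈ F, |s|) + 2 * δ) hδ (vis_sep hφ hB c)
    (sp hB ⟨1, fun z _ => abs_le.2 ⟨by linarith [(h3 z).1], (h3 z).2⟩⟩)
    (fun t => indicator_nonneg (fun _ _ => (h3 _).1) t) fun t => ?_
  obtain ⟨s, hs, hq⟩ := mem_iUnion₂.1 (hF (mem_univ (φ (t + ∑ s ∈ F, |s| + δ) pole)))
  have h4 := abs_le.1 (Finset.single_le_sum (f := fun s : ℝ => |s|) (fun _ _ => abs_nonneg _) hs)
  set q := φ s (φ (t + ∑ s ∈ F, |s| + δ) pole) with hq'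
  have h5 : ‖(q : E) - c‖ ≤ 10 ^ 6 * lam := le_of_lt hq.1
  have h6 := abs_le.1 (hB.Tle c q h5)
  have h7 : φ (T c q + (s + (t + ∑ s ∈ F, |s| + δ))) pole = Y c (pr c q) := by
    rw [hφ.add, hφ.add, hB.flow c q h5]
  have h8 : ‖pr c q - x‖ < min r 1 := mem_ball_iff_norm.1 hq.2
  have h9 : ‖pr c q‖ ≤ 200000 := by
    linarith [norm_sub_norm_le (pr c q) x, min_le_right r 1]
  refine ⟨T c q + (s + (t + ∑ s ∈ F, |s| + δ)), ⟨by linarith, by linarith⟩, ?_⟩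
  rw [indicator_of_mem (show _ ∈ vis φ Y c from ⟨_, h9, h7⟩), pr_eq hB h9 h7, ind,
    indicator_of_mem (mem_ball_iff_norm.2 (h8.trans_le (min_le_left r 1)))]

theorem nu_transfer (hμ : IsMean μ) (hφ : IsFl φ) (aper : ∀ x t, φ t x = x → t = 0)
    (hB : Box φ lam δ Y pr T) {h : ℂ → ℂ} {c c' : S} {R₁ R₂ B : ℝ} (h1 : R₁ ≤ 200000)
    (h2 : R₂ ≤ 200000) (hfl : ∀ z, ‖z‖ ≤ R₁ → ∃ a : ℝ, |a| ≤ B ∧ Y c' (h z) = φ a (Y c z))
    (hinj : InjOn h (closedBall 0 R₁)) (hsurj : ∀ z', ‖z'‖ < R₂ → ∃ z, ‖z‖ ≤ R₁ ∧ h z = z')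
    (hout : ∀ z, ‖h z‖ < R₂ → ‖z‖ ≤ R₁) {w : ℂ → ℝ} (hw : Bd (Zs φ Y c') w)
    (h0 : ∀ z, R₂ ≤ ‖z‖ → w z = 0) : nu μ φ Y pr c (fun z => w (h z)) = nu μ φ Y pr c' w := by
  choose! a ha1 ha2 using hfl
  have hlt : ∀ z, w z ≠ 0 → ‖z‖ < R₂ := fun z hz => not_le.1 fun hc => hz (h0 z hc)
  set f := (vis φ Y c).indicator fun t => w (h (pr c (φ t pole))) with hf
  set f' := (vis φ Y c').indicator fun t => w (pr c' (φ t pole)) with hf'
  have key : ∀ t, f t ≠ 0 → ‖pr c (φ t pole)‖ ≤ R₁ ∧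
      pr c' (φ (t + a (pr c (φ t pole))) pole) = h (pr c (φ t pole)) ∧
      f' (t + a (pr c (φ t pole))) = f t := fun t ht => by
    have b1 : t ∈ vis φ Y c := mem_of_indicator_ne_zero ht
    rw [hf, indicator_of_mem b1] at ht ⊢
    have b2 := hlt _ ht
    have b3 := hout _ b2
    have b4 : φ (t + a (pr c (φ t pole))) pole = Y c' (h (pr c (φ t pole))) := by
      rw [ha2 _ b3, ← (pr_vis hB b1).2, add_comm, hφ.add]
    have b5 := pr_eq hB (b2.le.trans h2) b4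
    refine ⟨b3, b5, ?_⟩
    rw [hf', indicator_of_mem (show _ ∈ vis φ Y c' from ⟨_, b2.le.trans h2, b4⟩), b5]
  have s' : Sp (vis φ Y c') f' := sp hB hw
  refine hμ.shift _ _ δ f f' (fun t => t + a (pr c (φ t pole))) B hB.δ_pos (vis_sep hφ hB c)
    (vis_sep hφ hB c') ⟨fun t ht => indicator_of_notMem ht _, ?_⟩ s' (fun s hs t ht e => ?_)
    (fun t ht => ⟨(key t ht).2.2, by rw [add_sub_cancel_left]; exact ha1 _ (key t ht).1⟩)
    fun t' ht' => ?_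
  · obtain ⟨C, hC⟩ := s'.2
    refine ⟨C, fun t => ?_⟩
    by_cases ht : f t = 0
    · rw [ht, abs_zero]
      exact (abs_nonneg _).trans (hC 0)
    · rw [← (key t ht).2.2]
      exact hC _
  · have e' : s + a (pr c (φ s pole)) = t + a (pr c (φ t pole)) := e
    have b1 : pr c (φ s pole) = pr c (φ t pole) :=
      hinj (mem_closedBall_zero_iff.2 (key s hs).1) (mem_closedBall_zero_iff.2 (key t ht).1)
        (by rw [← (key s hs).2.1, ← (key t ht).2.1, e'])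
    rw [b1] at e'
    exact add_right_cancel e'
  · have b1 : t' ∈ vis φ Y c' := mem_of_indicator_ne_zero ht'
    rw [hf', indicator_of_mem b1] at ht'
    obtain ⟨z, b2, b3⟩ := hsurj _ (hlt _ ht')
    have b4 : φ (t' - a z) pole = Y c z := back hφ (by rw [← ha2 z b2, b3, ← (pr_vis hB b1).2])
    have b5 := pr_eq hB (b2.trans h1) b4
    refine ⟨t' - a z, ?_, by rw [b5, sub_add_cancel]⟩
    rwa [hf, indicator_of_mem (show _ ∈ vis φ Y c from ⟨_, b2.trans h1, b4⟩), b5, b3]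

end Pool.Agent.Lib.MP_399f8e_an.Ur
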