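import Pool.Agent.Lib.MP_399f8e_an.Ur.Tame

open Set Filter Topology Metric Complex
open scoped Real
open Pool.Agent.Lib.MP_399f8e_an.Rg

noncomputable section

namespace Pool.Agent.Lib.MP_399f8e_an.Ur

variable {g g' : ℂ → ℂ} {ν : (ℂ → ℝ) → ℝ} {Z : Set ℂ} {ψ : ℂ ≃ₜ ℂ}

namespace ConjAux

theorem up (h1 : NearI ψ univ (1 / 10)) (x y : ℂ) : ‖ψ x - ψ y‖ ≤ 11 / 10 * ‖x - y‖ := by
  have h := h1 x (mem_univ _) y (mem_univ _)
  have e : ψ x - ψ y = (ψ x - ψ y - (x - y)) + (x - y) := by ring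
  have := norm_add_le (ψ x - ψ y - (x - y)) (x - y)
  rw [← e] at this
  linarith

theorem low (h1 : NearI ψ univ (1 / 10)) (x y : ℂ) : 9 / 10 * ‖x - y‖ ≤ ‖ψ x - ψ y‖ := by
  have h := h1 x (mem_univ _) y (mem_univ _)
  have e : x - y = (ψ x - ψ y) - (ψ x - ψ y - (x - y)) := by ring
  have := norm_sub_le (ψ x - ψ y) (ψ x - ψ y - (x - y))
  rw [← e] at this
  linarith

theorem symm_near (h1 : NearI ψ univ (1 / 10)) : NearI ψ.symm univ (1 / 9) := by
  intro x _ y _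
  have h := h1 (ψ.symm x) (mem_univ _) (ψ.symm y) (mem_univ _)
  have h' := low h1 (ψ.symm x) (ψ.symm y)
  simp only [Homeomorph.apply_symm_apply] at h h'
  rw [norm_sub_rev] at h
  linarith

theorem symm_bd (h2 : ∀ x, ‖ψ x - x‖ ≤ 5) (z : ℂ) : ‖ψ.symm z‖ ≤ ‖z‖ + 5 := by
  have h := h2 (ψ.symm z)
  rw [Homeomorph.apply_symm_apply] at h
  have e : ψ.symm z = z - (z - ψ.symm z) := by ring
  have := norm_sub_le z (z - ψ.symm z)
  rw [← e] at this
  linarith

theorem mem_img {z : ℂ} : z ∈ ψ '' Z ↔ ψ.symm z ∈ Z := by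
  constructor
  · rintro ⟨x, hx, rfl⟩
    rwa [Homeomorph.symm_apply_apply]
  · intro h
    exact ⟨_, h, ψ.apply_symm_apply z⟩

theorem bd_comp {w : ℂ → ℝ} (h : Bd (ψ '' Z) w) : Bd Z fun z => w (ψ z) := by
  obtain ⟨C, hC⟩ := h
  exact ⟨C, fun z hz => hC _ ⟨z, hz, rfl⟩⟩

theorem ind_abs (x : ℂ) (r : ℝ) (z : ℂ) : |ind x r z| ≤ 1 := by
  unfold ind
  by_cases h : z ∈ ball x r
  · simp [indicator_of_mem h]
  · simp [indicator_of_notMem h]

theorem near_conj (h1 : NearI ψ univ (1 / 10)) {f : ℂ → ℂ} (hf : ∀ z, ‖f z - z‖ ≤ 1 / 2)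
    (z : ℂ) : ‖ψ (f (ψ.symm z)) - z‖ ≤ 1 := by
  have h := up h1 (f (ψ.symm z)) (ψ.symm z)
  rw [Homeomorph.apply_symm_apply] at h
  have := hf (ψ.symm z)
  linarith

theorem md_conj (h1 : NearI ψ univ (1 / 10)) (h2 : ∀ x, ‖ψ x - x‖ ≤ 5) {f : ℂ → ℂ} {t e : ℝ}
    (hf : ∀ x y, ‖x‖ ≤ 4000 → ‖y‖ ≤ 4000 → ‖x - y‖ ≤ e → ‖f x - f y‖ ≤ t) (x y : ℂ)
    (hx : ‖x‖ ≤ 3000) (hy : ‖y‖ ≤ 3000) (hxy : ‖x - y‖ ≤ e / 2) :
    ‖ψ (f (ψ.symm x)) - ψ (f (ψ.symm y))‖ ≤ 2 * t := by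
  have a1 := symm_bd h2 x
  have a2 := symm_bd h2 y
  have a3 := low h1 (ψ.symm x) (ψ.symm y)
  simp only [Homeomorph.apply_symm_apply] at a3
  have a4 := norm_nonneg (x - y)
  have a5 := hf (ψ.symm x) (ψ.symm y) (by linarith) (by linarith) (by linarith)
  have a6 := up h1 (f (ψ.symm x)) (f (ψ.symm y))
  have a7 := norm_nonneg (f (ψ.symm x) - f (ψ.symm y))
  linarith

end ConjAux

open ConjAux

theorem conj_good (hG : Good g g' ν Z 100000 (1 / 2)) (h1 : NearI ψ univ (1 / 10))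
    (h2 : ∀ x, ‖ψ x - x‖ ≤ 5) : Good (fun z => ψ (g (ψ.symm z))) (fun z => ψ (g' (ψ.symm z)))
      (fun w => ν fun z => w (ψ z)) (ψ '' Z) 3000 1 := by
  have hb : ∀ z : ℂ, ‖z‖ ≤ 3000 → ‖ψ.symm z‖ ≤ 100000 := fun z hz => by
    have := symm_bd h2 z
    linarith
  refine
    { cont := ψ.continuous.comp (hG.cont.comp ψ.symm.continuous)
      cont' := ψ.continuous.comp (hG.cont'.comp ψ.symm.continuous)
      near := near_conj h1 hG.near
      near' := near_conj h1 hG.near'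
      inv := fun z hz => ?_
      inv' := fun z hz => ?_
      nofix := fun z hz h => ?_
      tw := ?_
      cnt := hG.cnt.image _
      Zg := fun z hz => ?_
      add := fun w w' hw hw' => hG.add _ _ (bd_comp hw) (bd_comp hw')
      smul := fun c w hw => hG.smul c _ (bd_comp hw)
      mono := fun w w' hw hw' h =>
        hG.mono _ _ (bd_comp hw) (bd_comp hw') fun z hz => h _ ⟨z, hz, rfl⟩
      pos := fun x r hx hr => ?_
      invν := fun w hw h0 => ?_ }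
  · rw [Homeomorph.symm_apply_apply, hG.inv _ (hb z hz), Homeomorph.apply_symm_apply]
  · rw [Homeomorph.symm_apply_apply, hG.inv' _ (hb z hz), Homeomorph.apply_symm_apply]
  · refine hG.nofix _ (hb z hz) (ψ.injective ?_)
    rw [Homeomorph.apply_symm_apply]
    exact h
  · obtain ⟨C, hC⟩ := hG.tw
    refine ⟨π + C + π, fun P a b z hP hO hz => ?_⟩
    have hs := symm_near h1
    have t1 := hs.twOn (by norm_num) P a b z hP (fun _ _ => mem_univ _) (mem_univ _)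
    have o1 : Off (fun t => ψ.symm (P t)) a b (ψ.symm z) :=
      hs.off (by norm_num) hP (fun _ _ => mem_univ _) (mem_univ _)
    have hz' : ‖ψ.symm z‖ ≤ 100000 := hb z (mem_closedBall_zero_iff.1 hz)
    have hP' : ∀ t ∈ uIcc a b, ‖ψ.symm (P t)‖ ≤ 100000 := fun t ht =>
      hb _ (mem_closedBall_zero_iff.1 (hO t ht))
    have t2 := hC _ a b _ o1 (fun t ht => mem_closedBall_zero_iff.2 (hP' t ht))
      (mem_closedBall_zero_iff.2 hz')
    have o2 : Off (fun t => g (ψ.symm (P t))) a b (g (ψ.symm z)) := by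
      refine ⟨hG.cont.comp_continuousOn o1.1, fun t ht h => o1.2 t ht ?_⟩
      have h' : g (ψ.symm (P t)) = g (ψ.symm z) := h
      show ψ.symm (P t) = ψ.symm z
      rw [← hG.inv _ (hP' t ht), h', hG.inv _ hz']
    have t3 := h1.twOn (by norm_num) _ a b _ o2 (fun _ _ => mem_univ _) (mem_univ _)
    rw [abs_le] at t1 t2 t3 ⊢
    constructor <;> linarith [t1.1, t1.2, t2.1, t2.2, t3.1, t3.2]
  · rw [mem_img, mem_img, Homeomorph.symm_apply_apply]
    exact hG.Zg _ (hb z hz)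
  · refine (hG.pos (ψ.symm x) (r / 2) (hb x hx) (by linarith)).trans_le
      (hG.mono _ _ ⟨1, fun z _ => ind_abs _ _ _⟩ ⟨1, fun z _ => ind_abs _ _ _⟩ fun z _ => ?_)
    unfold ind
    by_cases h : z ∈ ball (ψ.symm x) (r / 2)
    · have h' : ψ z ∈ ball x r := by
        have a := up h1 z (ψ.symm x)
        rw [Homeomorph.apply_symm_apply] at a
        rw [mem_ball, dist_eq_norm] at h ⊢
        linarith
      rw [indicator_of_mem h, indicator_of_mem h']
    · rw [indicator_of_notMem h]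
      exact indicator_nonneg (fun _ _ => zero_le_one) _
  · simp only [Homeomorph.symm_apply_apply]
    refine hG.invν (fun z => w (ψ z)) (bd_comp hw) fun z hz => h0 _ ?_
    have := symm_bd h2 (ψ z)
    rw [Homeomorph.symm_apply_apply] at this
    linarith

theorem conj_tame (h1 : NearI ψ univ (1 / 10)) (h2 : ∀ x, ‖ψ x - x‖ ≤ 5) {r b : ℝ} {k : ℝ → ℂ}
    (hk : Tame (ψ '' Z) r k b) : Tame Z (r + 5) (fun t => ψ.symm (k t)) b := by
  refine ⟨ψ.symm.continuous.comp hk.cont, hk.nn, fun t ht => ?_,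
    fun t ht h => hk.off t ht (mem_img.2 h), ?_⟩
  · have := symm_bd h2 (k t)
    have := hk.bd t ht
    linarith
  · obtain ⟨C, hC⟩ := hk.bv
    refine ⟨C + π, fun z hz => ?_⟩
    have hz' : ψ z ∈ ψ '' Z := ⟨z, hz, rfl⟩
    have t1 := (symm_near h1).twOn (by norm_num) k 0 b (ψ z) (hk.isOff hz')
      (fun _ _ => mem_univ _) (mem_univ _)
    rw [Homeomorph.symm_apply_apply] at t1
    have t2 := hC _ hz'
    rw [abs_le] at t1 t2 ⊢
    constructor <;> linarith [t1.1, t1.2, t2.1, t2.2]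

theorem conj_step {P : (ℝ → ℂ) → ℝ → ℝ} (hG : Good g g' ν Z 100000 (1 / 2))
    (hS : Step g ν Z P 40000) (h1 : NearI ψ univ (1 / 10)) (h2 : ∀ x, ‖ψ x - x‖ ≤ 5) :
    Step (fun z => ψ (g (ψ.symm z))) (fun w => ν fun z => w (ψ z)) (ψ '' Z)
      (fun k l => P (fun t => ψ.symm (k t)) l) 3000 := by
  intro k l k' l' β b hk hk' hβ e1 e2 e3 e4
  have tk := conj_tame h1 h2 hk
  have tk' := conj_tame h1 h2 hk'
  have tβ := conj_tame h1 h2 hβ
  have f1 : ψ.symm (k l) = g (ψ.symm (k 0)) := by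
    rw [e1]; exact ψ.symm_apply_apply _
  have f2 : ψ.symm (k' l') = g (ψ.symm (k' 0)) := by
    rw [e2]; exact ψ.symm_apply_apply _
  have f3 : ψ.symm (β 0) = ψ.symm (k 0) := by rw [e3]
  have f4 : ψ.symm (β b) = ψ.symm (k' 0) := by rw [e4]
  have main := hS _ l _ l' _ b (tk.mono (by norm_num)) (tk'.mono (by norm_num))
    (tβ.mono (by norm_num)) f1 f2 f3 f4
  show P (fun t => ψ.symm (k' t)) l' = P (fun t => ψ.symm (k t)) l +
    ν fun z => Wn (fun z => ψ (g (ψ.symm z))) k l k' l' β b (ψ z)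
  rw [main]
  congr 1
  refine hG.nu_congr (hG.wn_bd (by norm_num) tk tk' tβ (by norm_num)) fun z hz => ?_
  have tg := hG.tame_map (by norm_num) tβ (by norm_num)
  have v1 := h1.var_eq (by norm_num) (tk.isOff hz) (fun _ _ => mem_univ _) (mem_univ _)
  have v2 := h1.var_eq (by norm_num) (tk'.isOff hz) (fun _ _ => mem_univ _) (mem_univ _)
  have v3 := h1.var_eq (by norm_num) (tβ.isOff hz) (fun _ _ => mem_univ _) (mem_univ _)
  have v4 := h1.var_eq (by norm_num) (tg.isOff hz) (fun _ _ => mem_univ _) (mem_univ _)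
  have c1 : (fun t => ψ (ψ.symm (k t))) = k := funext fun t => ψ.apply_symm_apply _
  have c2 : (fun t => ψ (ψ.symm (k' t))) = k' := funext fun t => ψ.apply_symm_apply _
  have c3 : (fun t => ψ (ψ.symm (β t))) = β := funext fun t => ψ.apply_symm_apply _
  rw [c1, f1] at v1
  rw [c2, f2] at v2
  rw [c3, f3, f4] at v3
  rw [f3, f4] at v4
  unfold Wn
  linarith

theorem conj_fine {d t e : ℝ} (hF : Fine g g' 4000 d t e) (h1 : NearI ψ univ (1 / 10))
    (h2 : ∀ x, ‖ψ x - x‖ ≤ 5) : Fine (fun z => ψ (g (ψ.symm z))) (fun z => ψ (g' (ψ.symm z)))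
      3000 (d / 2) (2 * t) (e / 2) := by
  refine ⟨fun z hz => ?_, md_conj h1 h2 hF.md, md_conj h1 h2 hF.md'⟩
  have a1 := symm_bd h2 z
  have a2 := hF.low (ψ.symm z) (by linarith)
  have a3 := low h1 (g (ψ.symm z)) (ψ.symm z)
  rw [Homeomorph.apply_symm_apply] at a3
  have a4 := norm_nonneg (g (ψ.symm z) - ψ.symm z)
  show d / 2 ≤ ‖ψ (g (ψ.symm z)) - z‖
  linarith

end Pool.Agent.Lib.MP_399f8e_an.Ur
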