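import Pool.Agent.Lib.MP_399f8e_an.Ur.Rot

open Set Filter Topology Metric Complex
open scoped Real
open Pool.Agent.Lib.MP_399f8e_an.Rg

noncomputable section

namespace Pool.Agent.Lib.MP_399f8e_an.Ur

variable {P Q : ℝ → ℂ} {a b c d : ℝ} {z : ℂ}

namespace VarAux

theorem rot_repar {f : ℝ → ℂ} {u v : ℝ → ℝ} {a b : ℝ} (hu : Continuous u) (hv : Continuous v)
    (huv : ∀ t, u (v t) = t) (mu : ∀ t ∈ uIcc a b, u t ∈ uIcc (u a) (u b))
    (mv : ∀ t ∈ uIcc (u a) (u b), v t ∈ uIcc a b) :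
    rot (fun t => f (u t)) a b = rot f (u a) (u b) := by
  by_cases h : ∃ Lg, IsLog Lg f (u a) (u b)
  · obtain ⟨Lg, hL⟩ := h
    have hL' : IsLog (fun t => Lg (u t)) (fun t => f (u t)) a b :=
      ⟨hL.1.comp hu.continuousOn mu, fun t ht => hL.2 _ (mu t ht)⟩
    rw [rot_eq hL, rot_eq hL']
  · have h' : ¬∃ Lg, IsLog Lg (fun t => f (u t)) a b := by
      rintro ⟨Lg, hL⟩
      refine h ⟨fun t => Lg (v t), hL.1.comp hv.continuousOn mv, fun t ht => ?_⟩
      have := hL.2 _ (mv t ht)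
      simp only [huv] at this
      exact this
    unfold rot
    rw [dif_neg h, dif_neg h']

theorem re_pos {u w : ℂ} (hw : w ≠ 0) (h : ‖u - w‖ < ‖w‖) : 0 < (u / w).re := by
  have e : u / w = 1 + (u - w) / w := by field_simp; ring
  have h1 : ‖(u - w) / w‖ < 1 := by
    rw [norm_div, div_lt_one (norm_pos_iff.mpr hw)]
    exact h
  have h2 := Complex.abs_re_le_norm ((u - w) / w)
  rw [e, add_re, one_re]
  linarith [neg_abs_le ((u - w) / w).re]

theorem arg_sub_le {u w : ℂ} (hu : 0 < u.re) (hw : 0 < w.re) : |arg u - arg w| ≤ π := by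
  have h1 := Complex.abs_arg_lt_pi_div_two_iff.mpr (Or.inl hu)
  have h2 := Complex.abs_arg_lt_pi_div_two_iff.mpr (Or.inl hw)
  rw [abs_lt] at h1 h2
  rw [abs_le]
  constructor <;> linarith [h1.1, h1.2, h2.1, h2.2]

theorem near_re {h : ℂ → ℂ} {O : Set ℂ} {κ : ℝ} (hh : NearI h O κ) (hκ : κ < 1) {x y : ℂ}
    (hx : x ∈ O) (hy : y ∈ O) (hxy : x ≠ y) : 0 < ((h x - h y) / (x - y)).re := by
  have hne : x - y ≠ 0 := sub_ne_zero.mpr hxy
  have hp : 0 < ‖x - y‖ := norm_pos_iff.mpr hne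
  refine re_pos hne ((hh x hx y hy).trans_lt ?_)
  nlinarith

/-- the segment from `u` to `v`, run through in time one half -/
def sg (u v : ℂ) (t : ℝ) : ℂ := u + ((2 * t : ℝ) : ℂ) * (v - u)

theorem sg_zero (u v : ℂ) : sg u v 0 = u := by simp [sg]

theorem sg_half (u v : ℂ) : sg u v (1 / 2) = v := by simp [sg]

theorem sg_cont (u v : ℂ) : Continuous (sg u v) := by
  unfold sg
  fun_prop

theorem sg_norm {u v o : ℂ} {R t : ℝ} (hu : ‖u - o‖ ≤ R) (hv : ‖v - o‖ ≤ R)
    (ht : t ∈ Icc (0 : ℝ) (1 / 2)) : ‖sg u v t - o‖ ≤ R := by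
  have e : sg u v t - o = ((1 - 2 * t : ℝ) : ℂ) * (u - o) + ((2 * t : ℝ) : ℂ) * (v - o) := by
    rw [sg]; push_cast; ring
  have h1 : 0 ≤ 1 - 2 * t := by linarith [ht.2]
  have h2 : 0 ≤ 2 * t := by linarith [ht.1]
  rw [e]
  refine (norm_add_le _ _).trans ?_
  rw [norm_mul, norm_mul, Complex.norm_real, Complex.norm_real, Real.norm_eq_abs, Real.norm_eq_abs,
    abs_of_nonneg h1, abs_of_nonneg h2]
  nlinarith [mul_le_mul_of_nonneg_left hu h1, mul_le_mul_of_nonneg_left hv h2]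

theorem sg_var {u v z : ℂ} (h : Off (sg u v) 0 (1 / 2) z) : |var (sg u v) 0 (1 / 2) z| ≤ π := by
  have h02 : (0 : ℝ) ≤ 1 / 2 := by norm_num
  have hw : u - z ≠ 0 := by
    have := h.2 0 left_mem_uIcc
    rw [sg_zero] at this
    exact sub_ne_zero.mpr this
  have hs : ∀ t ∈ uIcc (0 : ℝ) (1 / 2), (sg u v t - z) / (u - z) ∈ slitPlane := by
    intro t ht
    by_contra hn
    rw [mem_slitPlane_iff, not_or, not_lt, not_not] at hn
    set q : ℂ := (sg u v t - z) / (u - z) with hq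
    have hq' : sg u v t - z = (q.re : ℂ) * (u - z) := by
      have : (q.re : ℂ) = q := Complex.ext (by simp) (by simp [hn.2])
      rw [this, hq]
      field_simp
    have hpos : 0 < 1 - q.re := by linarith [hn.1]
    rw [uIcc_of_le h02] at ht
    have hm : t / (1 - q.re) ∈ uIcc (0 : ℝ) (1 / 2) := by
      rw [uIcc_of_le h02]
      refine ⟨div_nonneg ht.1 hpos.le, ?_⟩
      rw [div_le_iff₀ hpos]
      nlinarith [ht.2, hn.1]
    refine h.2 _ hm ?_
    have hne : (1 : ℂ) - (q.re : ℂ) ≠ 0 := by exact_mod_cast hpos.ne'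
    unfold sg at hq' ⊢
    push_cast at hq' ⊢
    field_simp
    linear_combination hq'
  have e : var (sg u v) 0 (1 / 2) z
      = arg ((sg u v (1 / 2) - z) / (u - z)) - arg ((sg u v 0 - z) / (u - z)) :=
    rot_slit (f := fun t => sg u v t - z) hw (h.1.sub continuousOn_const) hs
  rw [e, sg_zero, div_self hw, Complex.arg_one, sub_zero]
  exact Complex.abs_arg_le_pi _

end VarAux

theorem Off.ok (h : Off P a b z) : Ok (fun t => P t - z) a b := by
  exact ⟨h.1.sub continuousOn_const, fun t ht => sub_ne_zero.mpr (h.2 t ht)⟩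

theorem Off.symm (h : Off P a b z) : Off P b a z := by
  unfold Off
  rw [uIcc_comm]
  exact h

theorem off_of_icc (hP : Continuous P) (hab : a ≤ b) (hz : z ∉ P '' Icc a b) : Off P a b z := by
  refine ⟨hP.continuousOn, fun t ht e => hz ⟨t, ?_, e⟩⟩
  rwa [uIcc_of_le hab] at ht

theorem var_self (P : ℝ → ℂ) (a : ℝ) (z : ℂ) : var P a a z = 0 := by
  exact rot_self _ _

theorem var_symm (P : ℝ → ℂ) (a b : ℝ) (z : ℂ) : var P b a z = -var P a b z := by
  exact rot_symm _ _ _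

theorem var_congr (h : EqOn P Q (uIcc a b)) (z : ℂ) : var P a b z = var Q a b z := by
  refine rot_congr fun t ht => ?_
  simp only [h ht]

theorem var_add (h1 : Off P a b z) (h2 : Off P b c z) : var P a b z + var P b c z = var P a c z := by
  exact rot_add h1.ok h2.ok

theorem var_const (x : ℂ) (a b : ℝ) (z : ℂ) : var (fun _ => x) a b z = 0 := by
  by_cases hx : x = z
  · unfold var rot
    rw [dif_neg]
    rintro ⟨Lg, hL⟩
    have := hL.2 a left_mem_uIcc
    simp only [hx, sub_self] at this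
    exact Complex.exp_ne_zero _ this
  · have hL : IsLog (fun _ => Complex.log (x - z)) (fun _ : ℝ => x - z) a b :=
      ⟨continuousOn_const, fun _ _ => Complex.exp_log (sub_ne_zero.mpr hx)⟩
    unfold var
    rw [rot_eq hL]
    simp

theorem var_shift (P : ℝ → ℂ) (a b c : ℝ) (z : ℂ) :
    var (fun t => P (t + c)) a b z = var P (a + c) (b + c) z := by
  refine VarAux.rot_repar (f := fun t => P t - z) (u := fun t => t + c) (v := fun t => t - c)
    (by fun_prop) (by fun_prop) (fun t => by ring) (fun t ht => ?_) (fun t ht => ?_)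
  · rw [mem_uIcc] at ht ⊢
    rcases ht with h | h
    · left; constructor <;> linarith [h.1, h.2]
    · right; constructor <;> linarith [h.1, h.2]
  · rw [mem_uIcc] at ht ⊢
    rcases ht with h | h
    · left; constructor <;> linarith [h.1, h.2]
    · right; constructor <;> linarith [h.1, h.2]

theorem var_rev (P : ℝ → ℂ) (a b c : ℝ) (z : ℂ) :
    var (fun t => P (c - t)) a b z = var P (c - a) (c - b) z := by
  refine VarAux.rot_repar (f := fun t => P t - z) (u := fun t => c - t) (v := fun t => c - t)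
    (by fun_prop) (by fun_prop) (fun t => by ring) (fun t ht => ?_) (fun t ht => ?_)
  · rw [mem_uIcc] at ht ⊢
    rcases ht with h | h
    · right; constructor <;> linarith [h.1, h.2]
    · left; constructor <;> linarith [h.1, h.2]
  · rw [mem_uIcc] at ht ⊢
    rcases ht with h | h
    · right; constructor <;> linarith [h.1, h.2]
    · left; constructor <;> linarith [h.1, h.2]

theorem var_cont (hP : ContinuousOn P (uIcc a b)) : ContinuousOn (var P a b) (P '' uIcc a b)ᶜ := by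
  refine rot_cont (X := ℂ) (F := fun x t => P t - x) ?_ ?_
  · refine ContinuousOn.sub ?_ continuousOn_fst
    exact hP.comp continuousOn_snd fun p hp => hp.2
  · intro x hx t ht e
    exact hx ⟨t, ht, sub_eq_zero.mp e⟩

theorem var_two_int (hP : Off P a b z) (hQ : Off Q c d z) (h1 : P a = Q c) (h2 : P b = Q d) :
    ∃ n : ℤ, var P a b z - var Q c d z = 2 * π * n := by
  obtain ⟨ρ, hρ, e⟩ := rot_polar hP.ok
  obtain ⟨ρ', hρ', e'⟩ := rot_polar hQ.ok
  have hne : P a - z ≠ 0 := sub_ne_zero.mpr (hP.2 a left_mem_uIcc)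
  refine int_of_exp hρ hρ' (mul_right_cancel₀ hne ?_)
  unfold var
  rw [← e, h2, e', h1]

theorem var_far {o : ℂ} {r : ℝ} (hP : ContinuousOn P (uIcc a b))
    (hr : ∀ t ∈ uIcc a b, ‖P t - o‖ ≤ r) (hz : r < ‖z - o‖) :
    var P a b z = arg ((P b - z) / (o - z)) - arg ((P a - z) / (o - z)) ∧ |var P a b z| ≤ π := by
  have hw : o - z ≠ 0 := by
    intro e
    have h0 : z - o = 0 := by linear_combination -e
    have := hr a left_mem_uIcc
    rw [h0, norm_zero] at hz
    linarith [norm_nonneg (P a - o)]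
  have hre : ∀ t ∈ uIcc a b, 0 < ((P t - z) / (o - z)).re := by
    intro t ht
    refine VarAux.re_pos hw ?_
    have e : P t - z - (o - z) = P t - o := by ring
    rw [e, norm_sub_rev o z]
    exact (hr t ht).trans_lt hz
  have e : var P a b z = arg ((P b - z) / (o - z)) - arg ((P a - z) / (o - z)) :=
    rot_slit (f := fun t => P t - z) hw (hP.sub continuousOn_const)
      fun t ht => Or.inl (hre t ht)
  refine ⟨e, ?_⟩
  rw [e]
  exact VarAux.arg_sub_le (hre b right_mem_uIcc) (hre a left_mem_uIcc)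

theorem continuous_cat (hP : Continuous P) (hQ : Continuous Q) (h : P a = Q b) :
    Continuous (cat P a Q b) := by
  unfold cat
  refine Continuous.if_le hP (hQ.comp (by fun_prop)) continuous_id continuous_const ?_
  rintro t rfl
  simpa using h

theorem cat_le {t : ℝ} (ht : t ≤ a) : cat P a Q b t = P t := by
  simp only [cat, if_pos ht]

theorem cat_ge {t : ℝ} (h : P a = Q b) (ht : a ≤ t) : cat P a Q b t = Q (t - a + b) := by
  rcases ht.eq_or_lt with rfl | hlt
  · rw [cat_le le_rfl, h]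
    simp
  · simp only [cat, if_neg (not_le.mpr hlt)]

theorem image_cat (h : P b = Q c) (hab : a ≤ b) (hcd : c ≤ d) :
    cat P b Q c '' Icc a (b + (d - c)) = P '' Icc a b ∪ Q '' Icc c d := by
  ext w
  constructor
  · rintro ⟨t, ht, rfl⟩
    rcases le_total t b with h1 | h1
    · exact Or.inl ⟨t, ⟨ht.1, h1⟩, (cat_le h1).symm⟩
    · exact Or.inr ⟨t - b + c, ⟨by linarith, by linarith [ht.2]⟩, (cat_ge h h1).symm⟩
  · rintro (⟨t, ht, rfl⟩ | ⟨t, ht, rfl⟩)
    · exact ⟨t, ⟨ht.1, by linarith [ht.2]⟩, cat_le ht.2⟩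
    · refine ⟨t - c + b, ⟨by linarith [ht.1], by linarith [ht.2]⟩, ?_⟩
      rw [cat_ge h (by linarith [ht.1])]
      congr 1
      ring

theorem injOn_cat (h : P b = Q c) (hcd : c ≤ d) (hP : InjOn P (Icc a b)) (hQ : InjOn Q (Icc c d))
    (hm : ∀ s ∈ Icc a b, ∀ t ∈ Icc c d, P s = Q t → s = b) :
    InjOn (cat P b Q c) (Icc a (b + (d - c))) := by
  have key : ∀ s ∈ Icc a (b + (d - c)), ∀ t ∈ Icc a (b + (d - c)), s ≤ b → b < t →
      cat P b Q c s ≠ cat P b Q c t := by
    intro s hs t ht h1 h2 e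
    rw [cat_le h1, cat_ge h h2.le] at e
    have hm1 : t - b + c ∈ Icc c d := ⟨by linarith, by linarith [ht.2]⟩
    have hs' := hm s ⟨hs.1, h1⟩ _ hm1 e
    rw [hs', h] at e
    have := hQ ⟨le_rfl, hcd⟩ hm1 e
    linarith
  intro s hs t ht e
  rcases le_or_gt s b with h1 | h1 <;> rcases le_or_gt t b with h2 | h2
  · rw [cat_le h1, cat_le h2] at e
    exact hP ⟨hs.1, h1⟩ ⟨ht.1, h2⟩ e
  · exact absurd e (key s hs t ht h1 h2)
  · exact absurd e.symm (key t ht s hs h2 h1)
  · rw [cat_ge h h1.le, cat_ge h h2.le] at e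
    have := hQ (⟨by linarith, by linarith [hs.2]⟩ : s - b + c ∈ Icc c d)
      (⟨by linarith, by linarith [ht.2]⟩ : t - b + c ∈ Icc c d) e
    linarith

theorem var_cat (h : P b = Q c) (hab : a ≤ b) (hcd : c ≤ d) (hP : Off P a b z) (hQ : Off Q c d z) :
    var (cat P b Q c) a (b + (d - c)) z = var P a b z + var Q c d z := by
  have hbe : b ≤ b + (d - c) := by linarith
  have e1 : EqOn (cat P b Q c) P (uIcc a b) := by
    intro t ht
    rw [uIcc_of_le hab] at ht
    exact cat_le ht.2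
  have e2 : EqOn (cat P b Q c) (fun t => Q (t + (c - b))) (uIcc b (b + (d - c))) := by
    intro t ht
    rw [uIcc_of_le hbe] at ht
    rw [cat_ge h ht.1]
    congr 1
    ring
  have hm : ∀ t ∈ uIcc b (b + (d - c)), t + (c - b) ∈ uIcc c d := by
    intro t ht
    rw [uIcc_of_le hbe] at ht
    rw [uIcc_of_le hcd]
    exact ⟨by linarith [ht.1], by linarith [ht.2]⟩
  have o1 : Off (cat P b Q c) a b z :=
    ⟨hP.1.congr e1, fun t ht => by rw [e1 ht]; exact hP.2 t ht⟩
  have o2 : Off (cat P b Q c) b (b + (d - c)) z := by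
    refine ⟨ContinuousOn.congr ?_ e2, fun t ht => by rw [e2 ht]; exact hQ.2 _ (hm t ht)⟩
    exact hQ.1.comp (by fun_prop) hm
  rw [← var_add o1 o2, var_congr e1, var_congr e2, var_shift]
  congr 2 <;> ring

theorem NearI.off {h : ℂ → ℂ} {O : Set ℂ} {κ : ℝ} (hh : NearI h O κ) (hκ : κ < 1)
    (hP : Off P a b z) (hO : ∀ t ∈ uIcc a b, P t ∈ O) (hz : z ∈ O) :
    Off (fun t => h (P t)) a b (h z) := by
  refine ⟨fun t ht => ?_, fun t ht e => ?_⟩
  · have hc := hP.1 t ht
    rw [ContinuousWithinAt, tendsto_iff_norm_sub_tendsto_zero] at hc ⊢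
    have h2 := hc.const_mul 2
    rw [mul_zero] at h2
    refine squeeze_zero' (Eventually.of_forall fun _ => norm_nonneg _) ?_ h2
    filter_upwards [self_mem_nhdsWithin] with s hs
    have h3 := hh _ (hO s hs) _ (hO t ht)
    have h4 : h (P s) - h (P t) = (h (P s) - h (P t) - (P s - P t)) + (P s - P t) := by ring
    have h5 := norm_add_le (h (P s) - h (P t) - (P s - P t)) (P s - P t)
    rw [← h4] at h5
    nlinarith [norm_nonneg (P s - P t)]
  · have h3 := hh _ (hO t ht) _ hz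
    have hp : 0 < ‖P t - z‖ := norm_pos_iff.mpr (sub_ne_zero.mpr (hP.2 t ht))
    simp only [] at e
    rw [e, sub_self, zero_sub, norm_neg] at h3
    nlinarith

theorem NearI.var_eq {h : ℂ → ℂ} {O : Set ℂ} {κ : ℝ} (hh : NearI h O κ) (hκ : κ < 1)
    (hP : Off P a b z) (hO : ∀ t ∈ uIcc a b, P t ∈ O) (hz : z ∈ O) :
    var (fun t => h (P t)) a b (h z) = var P a b z + arg ((h (P b) - h z) / (P b - z))
      - arg ((h (P a) - h z) / (P a - z)) := by
  have ho := hh.off hκ hP hO hz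
  have hne : ∀ t ∈ uIcc a b, P t - z ≠ 0 := hP.ok.2
  have hq : Ok (fun t => (h (P t) - h z) / (P t - z)) a b :=
    ⟨ho.ok.1.div hP.ok.1 hne, fun t ht => div_ne_zero (ho.ok.2 t ht) (hne t ht)⟩
  have e1 : rot (fun t => (h (P t) - h z) / (P t - z)) a b
      = arg ((h (P b) - h z) / (P b - z) / 1) - arg ((h (P a) - h z) / (P a - z) / 1) := by
    refine rot_slit one_ne_zero hq.1 fun t ht => Or.inl ?_
    rw [div_one]
    exact VarAux.near_re hh hκ (hO t ht) hz (hP.2 t ht)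
  have e2 := rot_mul hP.ok hq
  have e3 : var (fun t => h (P t)) a b (h z)
      = rot (fun t => (P t - z) * ((h (P t) - h z) / (P t - z))) a b := by
    refine rot_congr fun t ht => ?_
    have := hne t ht
    simp only []
    field_simp
  rw [e3, e2, e1, div_one, div_one]
  unfold var
  ring

theorem NearI.twOn {h : ℂ → ℂ} {O : Set ℂ} {κ : ℝ} (hh : NearI h O κ) (hκ : κ < 1) :
    TwOn h O π := by
  intro P a b z hP hO hz
  rw [hh.var_eq hκ hP hO hz]
  have e : ∀ u v w : ℝ, u + v - w - u = v - w := fun u v w => by ring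
  rw [e]
  exact VarAux.arg_sub_le (VarAux.near_re hh hκ (hO b right_mem_uIcc) hz (hP.2 b right_mem_uIcc))
    (VarAux.near_re hh hκ (hO a left_mem_uIcc) hz (hP.2 a left_mem_uIcc))

theorem exists_avoid {Z : Set ℂ} (hZ : Z.Countable) {x y o : ℂ} {r η : ℝ} (hη : 0 < η)
    (hx : x ∉ Z) (hy : y ∉ Z) (hxr : ‖x - o‖ ≤ r) (hyr : ‖y - o‖ ≤ r) :
    ∃ β : ℝ → ℂ, Continuous β ∧ β 0 = x ∧ β 1 = y ∧
      (∀ t ∈ Icc (0 : ℝ) 1, ‖β t - o‖ ≤ r + η ∧ β t ∉ Z) ∧ ∀ z ∈ Z, |var β 0 1 z| ≤ 2 * π := by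
  by_cases hxy : x = y
  · refine ⟨fun _ => x, continuous_const, rfl, hxy, fun t _ => ⟨by linarith, hx⟩, fun z _ => ?_⟩
    rw [var_const, abs_zero]
    positivity
  have hd : y - x ≠ 0 := sub_ne_zero.mpr (Ne.symm hxy)
  have hd' : x - y ≠ 0 := sub_ne_zero.mpr hxy
  have hn : 0 < ‖y - x‖ := norm_pos_iff.mpr hd
  have hB : ((fun z : ℂ => ((z - x) / (y - x)).im / (2 * ((z - x) / (y - x)).re)) '' Z ∪
      (fun z : ℂ => -(((z - y) / (x - y)).im / (2 * ((z - y) / (x - y)).re))) '' Z).Countable :=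
    (hZ.image _).union (hZ.image _)
  obtain ⟨s, hsB, hs0, hs1⟩ := (hB.dense_compl ℝ).exists_between (div_pos hη hn)
  rw [lt_div_iff₀ hn] at hs1
  set p : ℂ := (x + y) / 2 + s * I * (y - x) with hp
  have hpr : ‖p - o‖ ≤ r + η := by
    have e : p - o = (1 / 2 : ℝ) * (x - o) + (1 / 2 : ℝ) * (y - o) + s * I * (y - x) := by
      rw [hp]; push_cast; ring
    rw [e]
    refine (norm_add_le _ _).trans (add_le_add ((norm_add_le _ _).trans ?_) ?_)
    · rw [norm_mul, norm_mul, Complex.norm_real, Real.norm_eq_abs, abs_of_pos (by norm_num)]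
      linarith
    · rw [norm_mul, norm_mul, Complex.norm_real, Complex.norm_I, Real.norm_eq_abs, abs_of_pos hs0]
      linarith
  have a1 : ∀ t ∈ Icc (0 : ℝ) (1 / 2), VarAux.sg x p t ∉ Z := by
    intro t _ hz
    refine hsB (Or.inl ⟨_, hz, ?_⟩)
    have ht0 : t ≠ 0 := by
      rintro rfl
      rw [VarAux.sg_zero] at hz
      exact hx hz
    have e : (VarAux.sg x p t - x) / (y - x) = (t : ℂ) + ((2 * t * s : ℝ) : ℂ) * I := by
      rw [div_eq_iff hd, VarAux.sg, hp]; push_cast; ring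
    simp only [e, add_im, add_re, ofReal_re, ofReal_im, mul_re, mul_im, I_re, I_im]
    rw [div_eq_iff (by simpa using ht0)]
    ring
  have a2 : ∀ t ∈ Icc (0 : ℝ) (1 / 2), VarAux.sg p y t ∉ Z := by
    intro t _ hz
    refine hsB (Or.inr ⟨_, hz, ?_⟩)
    have ht0 : 1 - 2 * t ≠ 0 := by
      intro e
      have : t = 1 / 2 := by linarith
      rw [this, VarAux.sg_half] at hz
      exact hy hz
    have e : (VarAux.sg p y t - y) / (x - y)
        = (((1 - 2 * t) / 2 : ℝ) : ℂ) + ((-((1 - 2 * t) * s) : ℝ) : ℂ) * I := by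
      rw [div_eq_iff hd', VarAux.sg, hp]; push_cast; ring
    simp only [e, add_im, add_re, ofReal_re, ofReal_im, mul_re, mul_im, I_re, I_im]
    rw [neg_eq_iff_eq_neg, div_eq_iff (fun e => ht0 (by linarith))]
    ring
  have hj : VarAux.sg x p (1 / 2) = VarAux.sg p y 0 := by rw [VarAux.sg_half, VarAux.sg_zero]
  have h02 : (0 : ℝ) ≤ 1 / 2 := by norm_num
  refine ⟨cat (VarAux.sg x p) (1 / 2) (VarAux.sg p y) 0,
    continuous_cat (VarAux.sg_cont _ _) (VarAux.sg_cont _ _) hj, ?_, ?_, fun t ht => ?_,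
    fun z hz => ?_⟩
  · rw [cat_le h02, VarAux.sg_zero]
  · rw [cat_ge hj (by norm_num)]
    have e : (1 : ℝ) - 1 / 2 + 0 = 1 / 2 := by norm_num
    rw [e, VarAux.sg_half]
  · rcases le_total t (1 / 2) with h1 | h1
    · rw [cat_le h1]
      exact ⟨VarAux.sg_norm (by linarith) hpr ⟨ht.1, h1⟩, a1 t ⟨ht.1, h1⟩⟩
    · rw [cat_ge hj h1]
      have hm : t - 1 / 2 + 0 ∈ Icc (0 : ℝ) (1 / 2) := ⟨by linarith, by linarith [ht.2]⟩
      exact ⟨VarAux.sg_norm hpr (by linarith) hm, a2 _ hm⟩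
  · have o1 : Off (VarAux.sg x p) 0 (1 / 2) z :=
      off_of_icc (VarAux.sg_cont _ _) h02 (by rintro ⟨t, ht, rfl⟩; exact a1 t ht hz)
    have o2 : Off (VarAux.sg p y) 0 (1 / 2) z :=
      off_of_icc (VarAux.sg_cont _ _) h02 (by rintro ⟨t, ht, rfl⟩; exact a2 t ht hz)
    have e := var_cat hj h02 h02 o1 o2
    have e1 : (1 : ℝ) / 2 + (1 / 2 - 0) = 1 := by norm_num
    rw [e1] at e
    rw [e]
    have b1 := VarAux.sg_var o1
    have b2 := VarAux.sg_var o2
    exact (abs_add_le _ _).trans (by linarith)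

end Pool.Agent.Lib.MP_399f8e_an.Ur
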