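import Pool.Agent.Lib.MP_399f8e_an.Ur.Edge
import Pool.Agent.Lib.MP_399f8e_an.Ur.Var

open Set Filter Topology Metric Complex
open scoped Real
open Pool.Agent.Lib.MP_399f8e_an.Rg

noncomputable section

namespace Pool.Agent.Lib.MP_399f8e_an.Ur

namespace GapAux

theorem one {f : ℝ → ℂ} (hf : Continuous f) {ε : ℝ} (hε : 0 < ε) (m : ℂ) :
    ∀ᶠ γ in 𝓝[>] (0 : ℝ), (∀ x ∈ Icc 0 ε, f x ≠ m) → ∀ x ∈ Icc 0 ε, γ ≤ ‖f x - m‖ := by
  by_cases h : ∀ x ∈ Icc 0 ε, f x ≠ m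
  · obtain ⟨x₀, hx₀, hmin⟩ := isCompact_Icc.exists_isMinOn (nonempty_Icc.2 hε.le)
      (f := fun x => ‖f x - m‖) (by fun_prop)
    have h0 : 0 < ‖f x₀ - m‖ := norm_pos_iff.2 (sub_ne_zero.2 (h x₀ hx₀))
    filter_upwards [Ioo_mem_nhdsGT h0] with γ hγ _ x hx
    exact hγ.2.le.trans (hmin hx)
  · exact Eventually.of_forall fun _ h' => absurd h' h

theorem dir_finite : {d : ℂ | Dir d}.Finite :=
  (Set.toFinite ({1, -1, I, -I} : Set ℂ)).subset fun d hd => by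
    simpa [Dir] using hd

theorem base {o : ℂ} (ho : o ≠ 0) {Q : ℝ → ℂ} {a b : ℝ} {z : ℂ} (hab : a ≤ b) (h : Off Q a b z)
    (hs : ∀ t ∈ Ioo a b, (Q t - z) / o ∈ slitPlane) : |var Q a b z| ≤ 2 * π := by
  rcases hab.eq_or_lt with e | hlt
  · subst e
    rw [var_self, abs_zero]
    positivity
  have hok := h.ok
  have hsub : ∀ {s t : ℝ}, s ∈ Icc a b → t ∈ Icc a b → Ok (fun t => Q t - z) s t := by
    intro s t h1 h2
    have h3 : uIcc s t ⊆ uIcc a b := by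
      rw [uIcc_of_le hab]
      exact uIcc_subset_Icc h1 h2
    exact ⟨hok.1.mono h3, fun x hx => hok.2 x (h3 hx)⟩
  obtain ⟨c, hc⟩ : (Ioo a b).Nonempty := nonempty_Ioo.2 hlt
  have hG := rot_cont_end hok
  rw [uIcc_of_le hab, ← closure_Ioo hlt.ne] at hG
  have key : ∀ t ∈ Ioo a b, |rot (fun t => Q t - z) a t - rot (fun t => Q t - z) a c +
      arg ((Q c - z) / o)| ≤ π := by
    intro t ht
    have h1 := rot_add (hsub (left_mem_Icc.2 hab) (Ioo_subset_Icc_self hc))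
      (hsub (Ioo_subset_Icc_self hc) (Ioo_subset_Icc_self ht))
    have h2 := rot_slit ho (hsub (Ioo_subset_Icc_self hc) (Ioo_subset_Icc_self ht)).1
      fun x hx => hs x (ordConnected_Ioo.uIcc_subset hc ht hx)
    rw [← h1, h2]
    have := abs_arg_le_pi ((Q t - z) / o)
    simpa using this
  have key2 := le_on_closure key ((hG.sub continuousOn_const).add continuousOn_const).abs
    continuousOn_const
  rw [closure_Ioo hlt.ne] at key2
  have h1 := key2 (left_mem_Icc.2 hab)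
  have h2 := key2 (right_mem_Icc.2 hab)
  rw [rot_self] at h1
  rw [abs_le] at h1 h2 ⊢
  unfold var
  constructor <;> linarith [h1.1, h1.2, h2.1, h2.2]

theorem off_sub {Q : ℝ → ℂ} {a b s t : ℝ} {z : ℂ} (hab : a ≤ b) (h : Off Q a b z)
    (h1 : s ∈ Icc a b) (h2 : t ∈ Icc a b) : Off Q s t z := by
  have h3 : uIcc s t ⊆ uIcc a b := by
    rw [uIcc_of_le hab]
    exact uIcc_subset_Icc h1 h2
  exact ⟨h.1.mono h3, fun x hx => h.2 x (h3 hx)⟩

theorem diag {w : ℂ} (h : w / (-(1 + I)) ∉ slitPlane) : w.re = w.im := by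
  rw [mem_slitPlane_iff, not_or, not_not] at h
  have h0 : (-(1 + I) : ℂ) ≠ 0 := fun e => by simpa using congrArg Complex.re e
  have h1 : w = w / (-(1 + I)) * (-(1 + I)) := (div_mul_cancel₀ w h0).symm
  have h2 := congrArg Complex.re h1
  have h3 := congrArg Complex.im h1
  simp only [mul_re, mul_im, h.2, neg_re, neg_im, add_re, add_im, one_re, one_im, I_re, I_im] at h2 h3
  linarith

end GapAux

theorem exists_gap {g : ℂ → ℂ} {ε t e R : ℝ} (hg : Continuous g) (hε : 0 < ε) (ht : 0 < t)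
    (he : ε ≤ e) (hmd : ∀ x y, ‖x‖ ≤ R → ‖y‖ ≤ R → ‖x - y‖ ≤ e → ‖g x - g y‖ ≤ t) :
    ∃ γ : ℝ, 0 < γ ∧ ∀ (k : ℝ → ℂ) (a b : ℝ) (v d : ℂ), Continuous k → InjOn k (Icc a b) →
      (∀ p ∈ Icc a b, k p ∈ Grid ε ∧ ‖k p‖ ≤ R) → v ∈ Vtx ε → ‖v‖ ≤ R → Dir d →
      (∀ p ∈ Icc a b, g (k p) ≠ v + ε / 2 * d) → 2 * t ≤ ‖g (k a) - (v + ε / 2 * d)‖ →
      2 * t ≤ ‖g (k b) - (v + ε / 2 * d)‖ → ∀ p ∈ Icc a b, γ ≤ ‖g (k p) - (v + ε / 2 * d)‖ := by
  have hA := (vtx_finite hε R).prod GapAux.dir_finite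
  have h1 : ∀ᶠ γ in 𝓝[>] (0 : ℝ), ∀ q ∈ ({v | v ∈ Vtx ε ∧ ‖v‖ ≤ R} ×ˢ {d : ℂ | Dir d}) ×ˢ
      ({v | v ∈ Vtx ε ∧ ‖v‖ ≤ R} ×ˢ {d : ℂ | Dir d}),
      (∀ x ∈ Icc 0 ε, g (q.2.1 + (x : ℝ) * q.2.2) ≠ q.1.1 + ε / 2 * q.1.2) →
        ∀ x ∈ Icc 0 ε, γ ≤ ‖g (q.2.1 + (x : ℝ) * q.2.2) - (q.1.1 + ε / 2 * q.1.2)‖ :=
    (eventually_all_finite (hA.prod hA)).2 fun q _ =>
      GapAux.one (f := fun x : ℝ => g (q.2.1 + x * q.2.2)) (by fun_prop) hε _
  obtain ⟨γ, hγ, hγt⟩ := (h1.and (Ioo_mem_nhdsGT ht)).exists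
  refine ⟨γ, hγt.1, fun k a b v d hk hi hgr hv hvR hd hne ha hb p hp => ?_⟩
  have hab : a ≤ b := hp.1.trans hp.2
  have near : ∀ q ∈ Icc a b, 2 * t ≤ ‖g (k q) - (v + ε / 2 * d)‖ → ‖k p - k q‖ ≤ ε →
      γ ≤ ‖g (k p) - (v + ε / 2 * d)‖ := by
    intro q hq h2 h3
    have h4 := hmd _ _ (hgr p hp).2 (hgr q hq).2 (h3.trans he)
    have h5 := norm_sub_le_norm_sub_add_norm_sub (g (k q)) (g (k p)) (v + ε / 2 * d)
    rw [norm_sub_rev (g (k q)) (g (k p))] at h5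
    linarith [hγt.2]
  by_cases h2 : ‖k p - k a‖ ≤ ε
  · exact near a (left_mem_Icc.2 hab) ha h2
  by_cases h3 : ‖k p - k b‖ ≤ ε
  · exact near b (right_mem_Icc.2 hab) hb h3
  obtain ⟨s, s₁, v', d', e1, e2, e3, e4, hv', hd', hS⟩ :=
    edge_at hε hk hi (fun q hq => (hgr q hq).1) hp (not_le.1 h2) (not_le.1 h3)
  have hv'R : ‖v'‖ ≤ R := by
    rw [← hS.fst]
    exact (hgr s ⟨e1, e2.trans hp.2⟩).2
  have hd0 : d' ≠ 0 := fun e => by simpa [e] using hd'.norm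
  obtain ⟨x, hx, hxe⟩ := hS.mem p ⟨e2, e3⟩
  rw [hxe]
  refine hγ ((v, d), (v', d')) ⟨⟨⟨hv, hvR⟩, hd⟩, ⟨hv', hv'R⟩, hd'⟩ (fun y hy => ?_) x hx
  obtain ⟨q, hq, hqe⟩ := seg_surj hk hS hd0 hy
  have := hne q ⟨e1.trans hq.1, hq.2.trans e4⟩
  rwa [hqe] at this

theorem var_count {o : ℂ} (ho : o ≠ 0) (n : ℕ) : ∀ (Q : ℝ → ℂ) (a b : ℝ) (z : ℂ) (F : Finset ℝ),
    a ≤ b → Off Q a b z → F.card ≤ n →
    (∀ t ∈ Ioo a b, (Q t - z) / o ∉ slitPlane → t ∈ F) → |var Q a b z| ≤ 2 * π * (n + 1) := by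
  induction n with
  | zero =>
    intro Q a b z F hab h hF hs
    have hF0 : F = ∅ := Finset.card_eq_zero.1 (Nat.le_zero.1 hF)
    have := GapAux.base ho hab h fun t ht => by
      by_contra h1
      simpa [hF0] using hs t ht h1
    simpa using this
  | succ n ih =>
    intro Q a b z F hab h hF hs
    classical
    have hpi := Real.pi_pos
    rcases (F.filter fun t => t ∈ Ioo a b).eq_empty_or_nonempty with h0 | h0
    · have h1 := GapAux.base ho hab h fun t ht => by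
        by_contra h1
        have : t ∈ F.filter fun t => t ∈ Ioo a b := Finset.mem_filter.2 ⟨hs t ht h1, ht⟩
        rw [h0] at this
        exact Finset.notMem_empty t this
      have h2 : (0 : ℝ) ≤ n := Nat.cast_nonneg n
      push_cast
      nlinarith
    · obtain ⟨c, hc, hmax⟩ := Finset.exists_max_image _ (fun t : ℝ => t) h0
      obtain ⟨hcF, hc⟩ := Finset.mem_filter.1 hc
      have o1 := GapAux.off_sub hab h (left_mem_Icc.2 hab) (Ioo_subset_Icc_self hc)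
      have o2 := GapAux.off_sub hab h (Ioo_subset_Icc_self hc) (right_mem_Icc.2 hab)
      have h1 := ih Q a c z (F.erase c) hc.1.le o1
        (by rw [Finset.card_erase_of_mem hcF]; omega) fun t ht h2 =>
          Finset.mem_erase.2 ⟨ht.2.ne, hs t ⟨ht.1, ht.2.trans hc.2⟩ h2⟩
      have h2 := GapAux.base ho hc.2.le o2 fun t ht => by
        by_contra h3
        have h4 : t ∈ Ioo a b := ⟨hc.1.trans ht.1, ht.2⟩
        exact absurd (hmax t (Finset.mem_filter.2 ⟨hs t h4 h3, h4⟩)) (not_le.2 ht.1)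
      rw [← var_add o1 o2]
      have h3 := abs_add_le (var Q a c z) (var Q c b z)
      push_cast
      linarith

theorem grid_bound {ε : ℝ} (hε : 0 < ε) (r : ℝ) : ∃ C : ℝ, ∀ (Q : ℝ → ℂ) (a b : ℝ), a ≤ b →
    Continuous Q → InjOn Q (Icc a b) → (∀ t ∈ Icc a b, Q t ∈ Grid ε ∧ ‖Q t‖ ≤ r) →
    ∀ z, z ∉ Grid ε → |var Q a b z| ≤ C := by
  classical
  obtain ⟨N, hN⟩ := exists_nat_ge (r / ε)
  rw [div_le_iff₀ hε] at hN
  set J : Finset ℤ := Finset.Icc (-(N : ℤ)) N with hJ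
  refine ⟨2 * π * ((J.card + J.card : ℕ) + 1), fun Q a b hab hQ hi hg z hz => ?_⟩
  set T : Finset ℂ := J.image (fun m : ℤ => (⟨m * ε, m * ε - z.re + z.im⟩ : ℂ)) ∪
    J.image (fun m : ℤ => (⟨m * ε - z.im + z.re, m * ε⟩ : ℂ)) with hT
  have hTc : T.card ≤ J.card + J.card :=
    (Finset.card_union_le _ _).trans (add_le_add Finset.card_image_le Finset.card_image_le)
  have hS : {t | t ∈ Icc a b ∧ Q t ∈ T}.Finite :=
    Set.Finite.of_injOn (f := Q) (t := (T : Set ℂ)) (fun t ht => ht.2) (hi.mono fun t ht => ht.1)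
      T.finite_toSet
  have hm : ∀ m : ℤ, |(m : ℝ) * ε| ≤ r → m ∈ J := by
    intro m h
    rw [abs_mul, abs_of_pos hε] at h
    have h1 : |(m : ℝ)| ≤ N := le_of_mul_le_mul_right (h.trans hN) hε
    have h2 : |m| ≤ (N : ℤ) := by exact_mod_cast h1
    exact Finset.mem_Icc.2 (abs_le.1 h2)
  have h0 : (-(1 + I) : ℂ) ≠ 0 := fun e => by simpa using congrArg Complex.re e
  refine var_count h0 _ Q a b z hS.toFinset hab (off_of_icc hQ hab ?_) ?_ fun t ht hs => ?_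
  · rintro ⟨t, ht, rfl⟩
    exact hz (hg t ht).1
  · refine le_trans (Finset.card_le_card_of_injOn Q (fun t ht => ?_) fun s h1 t h2 e => ?_) hTc
    · exact (hS.mem_toFinset.1 (Finset.mem_coe.1 ht)).2
    · exact hi (hS.mem_toFinset.1 (Finset.mem_coe.1 h1)).1
        (hS.mem_toFinset.1 (Finset.mem_coe.1 h2)).1 e
  · have ht' := Ioo_subset_Icc_self ht
    refine hS.mem_toFinset.2 ⟨ht', ?_⟩
    have hd := GapAux.diag hs
    rw [sub_re, sub_im] at hd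
    rcases (hg t ht').1 with ⟨m, e⟩ | ⟨m, e⟩
    · refine Finset.mem_union_left _ (Finset.mem_image.2 ⟨m, hm m ?_, Complex.ext e.symm ?_⟩)
      · rw [← e]
        exact (abs_re_le_norm _).trans (hg t ht').2
      · simp only
        linarith
    · refine Finset.mem_union_right _ (Finset.mem_image.2 ⟨m, hm m ?_, Complex.ext ?_ e.symm⟩)
      · rw [← e]
        exact (abs_im_le_norm _).trans (hg t ht').2
      · simp only
        linarith

end Pool.Agent.Lib.MP_399f8e_an.Ur
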