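import Pool.Agent.Lib.MP_399f8e_an.Ur.Last

open Set Filter Topology Metric Complex
open scoped Real
open Pool.Agent.Lib.MP_399f8e_an.Rg

noncomputable section

namespace Pool.Agent.Lib.MP_399f8e_an.Ur

namespace PhaseAux

theorem om_norm {z : ℂ} (h : z ∈ Om) : ‖z‖ ≤ 2000 :=
  (Complex.norm_le_abs_re_add_abs_im z).trans (by linarith [h.1, h.2])

theorem om_of_norm {z : ℂ} (h : ‖z‖ ≤ 200) : z ∈ Om :=
  ⟨(Complex.abs_re_le_norm z).trans (by linarith), (Complex.abs_im_le_norm z).trans (by linarith)⟩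

theorem dir_ne {d : ℂ} (h : Dir d) : d ≠ 0 := fun e => by
  have := h.norm
  rw [e, norm_zero] at this
  exact zero_ne_one this

theorem cell_om {v u : ℂ} {ε p q : ℝ} (hu : Dir u) (hv : v ∈ Om) (hv' : v + ε * u ∈ Om)
    (hh : (v / (I * u)).re + ε ≤ 1000) (hp : p ∈ Icc 0 ε) (hq : q ∈ Icc 0 ε) :
    v + p * u + q * (I * u) ∈ Om := by
  have u0 := dir_ne hu
  rw [mem_Om] at hv hv' ⊢
  intro d hd
  have d0 := dir_ne hd
  rcases hu.cases hd with rfl | rfl | rfl | e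
  · have e1 : (v + p * d + q * (I * d)) / d = v / d + p + q * I := by field_simp
    have e2 : (v + ε * d) / d = v / d + ε := by field_simp
    have := hv' d hd
    rw [e2] at this
    rw [e1]
    simp only [add_re, ofReal_re, mul_re, I_re, mul_zero, ofReal_im, I_im, zero_mul, sub_zero,
      add_zero] at this ⊢
    linarith [hp.2]
  · have e1 : (v + p * u + q * (I * u)) / (I * u) = v / (I * u) - p * I + q := by
      have := I_ne_zero
      field_simp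
      linear_combination (p * u) * I_sq
    rw [e1]
    simp only [add_re, sub_re, ofReal_re, mul_re, I_re, mul_zero, ofReal_im, I_im, zero_mul,
      sub_zero]
    linarith [hq.2]
  · have e1 : (v + p * u + q * (I * u)) / (-u) = v / (-u) - p - q * I := by field_simp; ring
    have := hv _ hd
    rw [e1]
    simp only [sub_re, ofReal_re, mul_re, I_re, mul_zero, ofReal_im, I_im, zero_mul, sub_zero]
    linarith [hp.1]
  · have e1 : (v + p * u + q * (I * u)) / d = v / d + p * I - q := by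
      rw [e]
      field_simp
      linear_combination (q * d) * I_sq
    have := hv _ hd
    rw [e1]
    simp only [add_re, sub_re, ofReal_re, mul_re, I_re, mul_zero, ofReal_im, I_im, zero_mul,
      sub_zero, add_zero]
    linarith [hq.1]

theorem cell_ne {v u u₀ : ℂ} {p q y : ℝ} (hu : Dir u) (ht : u₀ = u ∨ u₀ = I * u) (hp : 0 ≤ p)
    (hq : 0 ≤ q) (hy : 0 < y) : v + p * u + q * (I * u) ≠ v - y * u₀ := by
  intro h
  have u0 := dir_ne hu
  rcases ht with rfl | rfl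
  · have : (p : ℂ) + q * I + y = 0 := by
      apply mul_right_cancel₀ u0
      linear_combination h
    have := congrArg Complex.re this
    simp only [add_re, ofReal_re, mul_re, I_re, mul_zero, ofReal_im, I_im, zero_mul, sub_zero,
      add_zero, zero_re] at this
    linarith
  · have : (p : ℂ) + q * I + y * I = 0 := by
      apply mul_right_cancel₀ u0
      linear_combination h
    have := congrArg Complex.im this
    simp only [add_im, ofReal_im, mul_im, ofReal_re, I_im, mul_one, I_re, mul_zero, add_zero,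
      zero_add, zero_im] at this
    linarith

theorem cell_norm {v u : ℂ} {ε p q : ℝ} (hu : Dir u) (hp : p ∈ Icc 0 ε) (hq : q ∈ Icc 0 ε) :
    ‖v + p * u + q * (I * u) - v‖ ≤ 2 * ε := by
  have e : v + p * u + q * (I * u) - v = p * u + q * (I * u) := by ring
  rw [e]
  refine (norm_add_le _ _).trans ?_
  rw [norm_mul, norm_mul, hu.mulI.norm, hu.norm, Complex.norm_real, Complex.norm_real,
    Real.norm_of_nonneg hp.1, Real.norm_of_nonneg hq.1]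
  linarith [hp.2, hq.2]

end PhaseAux

open PhaseAux

theorem exists_start {g g' : ℂ → ℂ} {ε : ℝ} {n : ℕ} (hT : Top g g' 2995) (hn : n * ε = 1) :
    ∃ k l, GArc g ε 200 k l := by
  obtain ⟨σ, T, -, hc, hi, -, hb, hit⟩ := exists_sq (v := 0) (d := 1) hT hn
    ⟨⟨0, by simp⟩, 0, by simp⟩ (Or.inl rfl) (by norm_num)
  have hb' : ∀ x ∈ Icc 0 T, ‖σ x‖ ≤ 20 := fun x hx => by simpa using (hb x hx).2.1
  obtain ⟨κ, l, hκ, hs⟩ := arc_of_contact hT hc hi (fun x hx => by linarith [hb' x hx]) hit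
  refine ⟨κ, l, hκ, fun p hp => ?_, fun p hp => ?_⟩
  · obtain ⟨x, hx, e⟩ := hs ⟨p, hp, rfl⟩
    exact e ▸ (hb x hx).1
  · obtain ⟨x, hx, e⟩ := hs ⟨p, hp, rfl⟩
    rw [← e]
    linarith [hb' x hx]

theorem phase {g g' : ℂ → ℂ} {ν : (ℂ → ℝ) → ℝ} {Z : Set ℂ} {P : (ℝ → ℂ) → ℝ → ℝ} {ε d t e : ℝ}
    {n : ℕ} (hG : Good g g' ν Z 3000 1) (hS : Step g ν Z P 3000) (hn : n * ε = 1) (hε : 0 < ε)
    (hF : Fine g g' 3000 d t e) (ht0 : 0 < t) (ht : t ≤ d / 40) (he : ε ≤ e) (hd : ε ≤ d / 1000)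
    (hZ : ∀ z ∈ Z, z ∉ Grid ε) : ∃ δ : ℝ, 0 < δ ∧ ∀ k l, GArc g ε 200 k l →
      ∃ κ l' v, GArc g ε 2000 κ l' ∧ 1000 ≤ ‖v‖ ∧ ‖v‖ ≤ 1415 ∧
        (∀ p ∈ Icc 0 l', ‖κ p - v‖ ≤ 100) ∧ P k l + δ ≤ P κ l' := by
  obtain ⟨δ, hδ, hmove⟩ := gmove hG hS hε hF ht0 ht he hd hZ
  obtain ⟨M, hM⟩ := garc_bound hG hS hε hZ
  refine ⟨δ, hδ, fun k l hk => ?_⟩
  obtain ⟨A, hA⟩ : ∃ A : Set ℝ, ∀ x, x ∈ A ↔ ∃ κ l', Arc g κ l' ∧
      (∀ p ∈ Icc 0 l', κ p ∈ Grid ε ∧ κ p ∈ Om) ∧ P k l ≤ P κ l' ∧ x = P κ l' :=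
    ⟨{x | _}, fun _ => Iff.rfl⟩
  have mk : ∀ {κ : ℝ → ℂ} {l' : ℝ}, Arc g κ l' → (∀ p ∈ Icc 0 l', κ p ∈ Grid ε ∧ κ p ∈ Om) →
      GArc g ε 2000 κ l' := fun h1 h2 =>
    ⟨h1, fun p hp => (h2 p hp).1, fun p hp => om_norm (h2 p hp).2⟩
  have hne : A.Nonempty := ⟨_, (hA _).2 ⟨k, l, hk.arc,
    fun p hp => ⟨hk.grid p hp, om_of_norm (hk.bd p hp)⟩, le_rfl, rfl⟩⟩
  have hbd : BddAbove A := ⟨M, fun x hx => by
    obtain ⟨κ, l', h1, h2, -, rfl⟩ := (hA x).1 hx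
    exact hM _ _ (mk h1 h2)⟩
  obtain ⟨x, hx, hlt⟩ := exists_lt_of_lt_csSup hne (sub_lt_self (sSup A) hδ)
  obtain ⟨k₀, l₀, hk₀, hg₀, hle, rfl⟩ := (hA x).1 hx
  have hT : Top g g' 2995 := by
    have := hG.top le_rfl
    norm_num at this
    exact this
  have hst : ∀ s₀ s s₁ v u u₀, GV ε k₀ l₀ s₀ s s₁ v u u₀ → Far g g' (k₀ 0) (d / 15) v →
      (v / (I * u)).re = 1000 := by
    intro s₀ s s₁ v u u₀ hV hfar
    by_contra hne'
    have hs : s ∈ Icc 0 l₀ := ⟨hV.h0.trans hV.inn.lt.le, hV.out.lt.le.trans hV.h1⟩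
    have hs₁ : s₁ ∈ Icc 0 l₀ := ⟨hs.1.trans hV.out.lt.le, hV.h1⟩
    have hv : v ∈ Om := hV.out.fst ▸ (hg₀ s hs).2
    have hv' : v + ε * u ∈ Om := hV.out.snd ▸ (hg₀ s₁ hs₁).2
    obtain ⟨m, hm⟩ := vtx_height hV.vt hV.du.mulI
    have hh : (v / (I * u)).re + ε ≤ 1000 := by
      have h1 := mem_Om.1 hv _ hV.du.mulI
      have h2 : (m : ℝ) * ε < (1000 * n) * ε := by
        rw [mul_assoc, hn, mul_one, ← hm]
        exact lt_of_le_of_ne h1 hne'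
      have h3 : (m : ℝ) < 1000 * n := lt_of_mul_lt_mul_right h2 hε.le
      have h4 : m + 1 ≤ 1000 * (n : ℤ) := by exact_mod_cast h3
      have h5 : (m : ℝ) + 1 ≤ 1000 * n := by exact_mod_cast h4
      have h6 := mul_le_mul_of_nonneg_right h5 hε.le
      rw [mul_assoc, hn] at h6
      rw [hm]
      linarith
    obtain ⟨σ, hc, hi, h0, h3, hσ⟩ := exists_cell hε hV.vt hV.du
    have hom : ∀ y ∈ Icc 0 (3 * ε), σ y ∈ Grid ε ∧ σ y ∈ Om := fun y hy => by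
      obtain ⟨a, ⟨p, hp, q, hq, e⟩, -⟩ := hσ y hy
      exact ⟨a, e ▸ cell_om hV.du hv hv' hh hp hq⟩
    obtain ⟨κ, l', hκ, ⟨r₁, hr₁, r₂, hr₂, hsub, -⟩, hP⟩ := hmove k₀ σ l₀ s₀ s s₁ (3 * ε) v u u₀
      (mk hk₀ hg₀) hV hfar hc (by linarith) hi h0
      (fun y hy => ⟨(hom y hy).1, om_norm (hom y hy).2⟩)
      (fun y hy z hz => by
        obtain ⟨-, ⟨p, hp, q, hq, e⟩, hn'⟩ := hσ y hy
        exact ⟨hn' z hz, e ▸ cell_ne hV.du hV.turn hp.1 hq.1 hz.1⟩)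
      (fun y hy _ z hz => by
        obtain ⟨-, ⟨p, hp, q, hq, e⟩, -⟩ := hσ z ⟨hz.1, hz.2.trans hy.2⟩
        have := cell_norm (v := v) hV.du hp hq
        rw [e]
        linarith)
      (Or.inl ⟨3 * ε, ⟨by linarith, le_rfl⟩, s₁, hs₁, hV.out.snd.trans h3.symm⟩)
    have hmem : P κ l' ∈ A := (hA _).2 ⟨κ, l', hκ, fun p hp => by
      rcases hsub ⟨p, hp, rfl⟩ with ⟨y, hy, e⟩ | ⟨y, hy, e⟩
      · exact e ▸ hg₀ y ⟨hr₁.1.trans hy.1, hy.2.trans hr₂.2⟩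
      · exact e ▸ hom y hy, by linarith, rfl⟩
    have := le_csSup hbd hmem
    linarith
  obtain ⟨κ, l', v, h1, h2, h3, h4, h5⟩ := last_move hT hn hε hF hd hmove hk₀ hg₀ hst
  exact ⟨κ, l', v, h1, h2, h3, h4, by linarith⟩

end Pool.Agent.Lib.MP_399f8e_an.Ur
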