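import Pool.Agent.Lib.MP_399f8e_an.Ur.Defs

open Set Filter Topology Metric Complex
open scoped Real
open Pool.Agent.Lib.MP_399f8e_an.Rg

noncomputable section

namespace Pool.Agent.Lib.MP_399f8e_an.Ur

namespace HybAux

theorem avoid {Z : Set ℂ} (hZ : Z.Countable) (ε : ℝ) (a : ℂ → ℂ) (b : ℂ → ℝ)
    (hb : ∀ z ∈ Z, b z ≠ 0) :
    ∃ s : ℝ, 0 < s ∧ s < 1 ∧ ∀ z ∈ Z, a z + ((s * b z : ℝ) : ℂ) * (1 + I) ∉ Grid ε := by
  have hB : (⋃ z ∈ Z, ⋃ m : ℤ,
      ({(m * ε - (a z).re) / b z, (m * ε - (a z).im) / b z} : Set ℝ)).Countable :=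
    hZ.biUnion fun z _ => countable_iUnion fun m => (toFinite _).countable
  obtain ⟨s, hs, hs'⟩ := (hB.dense_compl ℝ).inter_open_nonempty (Ioo (0 : ℝ) 1) isOpen_Ioo
    ⟨1 / 2, by norm_num, by norm_num⟩
  refine ⟨s, hs.1, hs.2, fun z hz hg => hs' ?_⟩
  have hbz := hb z hz
  simp only [mem_iUnion]
  rcases hg with ⟨m, hm⟩ | ⟨m, hm⟩
  · refine ⟨z, hz, m, Or.inl ?_⟩
    simp at hm
    field_simp
    linarith
  · refine ⟨z, hz, m, Or.inr ?_⟩
    simp at hm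
    rw [mem_singleton_iff]
    field_simp
    linarith

theorem norm_one_add_I : ‖(1 + I : ℂ)‖ ≤ 2 := by
  have := norm_add_le (1 : ℂ) I
  simp only [norm_one, Complex.norm_I] at this
  linarith

/-- the cut-off -/
def chi (z : ℂ) : ℝ := max 0 (min 1 ((400 - ‖z‖) / 250))

theorem chi_nonneg (z : ℂ) : 0 ≤ chi z := le_max_left _ _

theorem chi_le (z : ℂ) : chi z ≤ 1 := max_le zero_le_one (min_le_left _ _)

theorem chi_one {z : ℂ} (h : ‖z‖ ≤ 150) : chi z = 1 := by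
  unfold chi
  rw [min_eq_left (by rw [le_div_iff₀ (by norm_num)]; linarith), max_eq_right zero_le_one]

theorem chi_zero {z : ℂ} (h : 400 ≤ ‖z‖) : chi z = 0 := by
  unfold chi
  refine max_eq_left ((min_le_right _ _).trans ?_)
  exact div_nonpos_of_nonpos_of_nonneg (by linarith) (by norm_num)

theorem chi_mid {z : ℂ} (h1 : 150 < ‖z‖) (h2 : ‖z‖ < 400) : chi z * (1 - chi z) ≠ 0 := by
  have h3 : (400 - ‖z‖) / 250 < 1 := by rw [div_lt_iff₀ (by norm_num)]; linarith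
  have h4 : 0 < (400 - ‖z‖) / 250 := div_pos (by linarith) (by norm_num)
  have h5 : chi z = (400 - ‖z‖) / 250 := by
    unfold chi
    rw [min_eq_right h3.le, max_eq_right h4.le]
  rw [h5]
  exact mul_ne_zero h4.ne' (by linarith)

theorem chi_lip (x y : ℂ) : |chi x - chi y| ≤ ‖x - y‖ / 250 := by
  unfold chi
  have h1 := abs_max_sub_max_le_max (0 : ℝ) (min 1 ((400 - ‖x‖) / 250)) 0
    (min 1 ((400 - ‖y‖) / 250))
  have h2 := abs_min_sub_min_le_max (1 : ℝ) ((400 - ‖x‖) / 250) 1 ((400 - ‖y‖) / 250)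
  have h3 : |(400 - ‖x‖) / 250 - (400 - ‖y‖) / 250| ≤ ‖x - y‖ / 250 := by
    have h4 : (400 - ‖x‖) / 250 - (400 - ‖y‖) / 250 = (‖y‖ - ‖x‖) / 250 := by ring
    rw [h4, abs_div, abs_of_pos (show (0 : ℝ) < 250 by norm_num), abs_sub_comm]
    exact div_le_div_of_nonneg_right (abs_norm_sub_norm_le x y) (by norm_num)
  have h0 : 0 ≤ ‖x - y‖ / 250 := by positivity
  rw [sub_self, abs_zero] at h1 h2
  exact h1.trans (max_le h0 (h2.trans (max_le h0 h3)))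

theorem cut_lip {E : ℂ → ℂ} (hb : ∀ z, ‖z‖ ≤ 500 → ‖E z‖ ≤ 3 / 2)
    (hl : ∀ x y, ‖x‖ ≤ 500 → ‖y‖ ≤ 500 → ‖E x - E y‖ ≤ 1 / 1000 * ‖x - y‖) (x y : ℂ) :
    ‖(chi x : ℂ) * E x - (chi y : ℂ) * E y‖ ≤ 1 / 100 * ‖x - y‖ := by
  have key : ∀ x y : ℂ, 500 < ‖x‖ →
      ‖(chi x : ℂ) * E x - (chi y : ℂ) * E y‖ ≤ 1 / 100 * ‖x - y‖ := by
    intro x y hx
    have hx0 : chi x = 0 := chi_zero (by linarith)
    by_cases hy : 400 ≤ ‖y‖
    · rw [hx0, chi_zero hy]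
      simp
    · have h1 := chi_lip x y
      have h2 := hb y (by linarith)
      rw [hx0] at h1 ⊢
      rw [zero_sub, abs_neg] at h1
      rw [Complex.ofReal_zero, zero_mul, zero_sub, norm_neg, norm_mul, Complex.norm_real,
        Real.norm_eq_abs]
      have h3 : |chi y| * ‖E y‖ ≤ ‖x - y‖ / 250 * (3 / 2) :=
        mul_le_mul h1 h2 (norm_nonneg _) (by positivity)
      have := norm_nonneg (x - y)
      linarith
  by_cases hx : 500 < ‖x‖
  · exact key x y hx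
  by_cases hy : 500 < ‖y‖
  · rw [norm_sub_rev, norm_sub_rev x y]
    exact key y x hy
  push Not at hx hy
  have h1 : (chi x : ℂ) * E x - (chi y : ℂ) * E y =
      ((chi x - chi y : ℝ) : ℂ) * E x + (chi y : ℂ) * (E x - E y) := by
    push_cast
    ring
  rw [h1]
  refine (norm_add_le _ _).trans ?_
  rw [norm_mul, norm_mul, Complex.norm_real, Complex.norm_real, Real.norm_eq_abs,
    Real.norm_eq_abs, abs_of_nonneg (chi_nonneg y)]
  have h3 : |chi x - chi y| * ‖E x‖ ≤ ‖x - y‖ / 250 * (3 / 2) :=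
    mul_le_mul (chi_lip x y) (hb x hx) (norm_nonneg _) (by positivity)
  have h4 : chi y * ‖E x - E y‖ ≤ 1 * (1 / 1000 * ‖x - y‖) :=
    mul_le_mul (chi_le y) (hl x y hx hy) (norm_nonneg _) zero_le_one
  have := norm_nonneg (x - y)
  linarith

theorem bump_lip (x y : ℂ) :
    |chi x * (1 - chi x) - chi y * (1 - chi y)| ≤ ‖x - y‖ / 250 := by
  have h1 : chi x * (1 - chi x) - chi y * (1 - chi y) = (chi x - chi y) * (1 - chi x - chi y) := by
    ring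
  have h2 : |1 - chi x - chi y| ≤ 1 := by
    rw [abs_le]
    constructor <;> linarith [chi_nonneg x, chi_nonneg y, chi_le x, chi_le y]
  rw [h1, abs_mul]
  calc |chi x - chi y| * |1 - chi x - chi y| ≤ ‖x - y‖ / 250 * 1 :=
        mul_le_mul (chi_lip x y) h2 (abs_nonneg _) (by positivity)
    _ = _ := mul_one _

theorem exists_homeo {f : ℂ → ℂ} (hf : NearI f univ (1 / 10)) : ∃ ψ : ℂ ≃ₜ ℂ, ∀ x, ψ x = f x := by
  have h : ApproximatesLinearOn f
      ((ContinuousLinearEquiv.refl ℂ ℂ : ℂ ≃L[ℂ] ℂ) : ℂ →L[ℂ] ℂ) univ (1 / 10) := by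
    intro x hx y hy
    have := hf x hx y hy
    simpa using this
  refine ⟨ApproximatesLinearOn.toHomeomorph f h (Or.inr ?_), fun x => rfl⟩
  have h1 : (((ContinuousLinearEquiv.refl ℂ ℂ : ℂ ≃L[ℂ] ℂ).symm : ℂ ≃L[ℂ] ℂ) : ℂ →L[ℂ] ℂ) =
      ContinuousLinearMap.id ℂ ℂ := rfl
  rw [h1, ContinuousLinearMap.nnnorm_id, inv_one]
  norm_num

theorem finite_pos {ι : Type} (F : Finset ι) (P : ι → ℝ → Prop)
    (hm : ∀ i r r', P i r → r' ≤ r → P i r') (h : ∀ i, ∃ r, 0 < r ∧ P i r) :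
    ∃ r, 0 < r ∧ ∀ i ∈ F, P i r := by
  classical
  induction F using Finset.induction_on with
  | empty => exact ⟨1, one_pos, by simp⟩
  | insert j F _ ih =>
    obtain ⟨r, hr, hF⟩ := ih
    obtain ⟨r', hr', hj⟩ := h j
    refine ⟨min r r', lt_min hr hr', fun i hi => ?_⟩
    rcases Finset.mem_insert.1 hi with rfl | hi
    · exact hm _ _ _ hj (min_le_right _ _)
    · exact hm _ _ _ (hF i hi) (min_le_left _ _)

theorem modulus {g : ℂ → ℂ} (hc : Continuous g) (R : ℝ) {t : ℝ} (ht : 0 < t) :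
    ∃ e, 0 < e ∧ ∀ x y : ℂ, ‖x‖ ≤ R → ‖y‖ ≤ R → ‖x - y‖ ≤ e → ‖g x - g y‖ ≤ t := by
  have hu := (isCompact_closedBall (0 : ℂ) R).uniformContinuousOn_of_continuous hc.continuousOn
  obtain ⟨e, he, h⟩ := Metric.uniformContinuousOn_iff_le.1 hu t ht
  refine ⟨e, he, fun x y hx hy hxy => ?_⟩
  have := h x (mem_closedBall_zero_iff.2 hx) y (mem_closedBall_zero_iff.2 hy)
    (by rwa [dist_eq_norm])
  rwa [dist_eq_norm] at this

end HybAux

open HybAux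

theorem exists_offset {Z : Set ℂ} (hZ : Z.Countable) (ε : ℝ) :
    ∃ o : ℂ, ‖o‖ ≤ 1 ∧ ∀ z ∈ Z, z - o ∉ Grid ε := by
  obtain ⟨s, h0, h1, h⟩ := avoid hZ ε id (fun _ => -(1 / 2)) (fun _ _ => by norm_num)
  refine ⟨((s / 2 : ℝ) : ℂ) * (1 + I), ?_, fun z hz => ?_⟩
  · rw [norm_mul, Complex.norm_real, Real.norm_eq_abs, abs_of_pos (by linarith)]
    have := norm_one_add_I
    nlinarith [norm_nonneg (1 + I : ℂ)]
  · have h2 := h z hz
    have h3 : z - ((s / 2 : ℝ) : ℂ) * (1 + I) = id z + ((s * -(1 / 2) : ℝ) : ℂ) * (1 + I) := by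
      simp only [id]
      push_cast
      ring
    rwa [h3]

theorem exists_hyb {S₀ : ℂ → ℂ} (hS : NearI S₀ (closedBall 0 500) (1 / 1000)) {o c : ℂ}
    (ho : ‖o‖ ≤ 1) (hc : ‖S₀ 0 - c‖ ≤ 1) (ε : ℝ) {Z : Set ℂ} (hZ : Z.Countable)
    (h1 : ∀ z ∈ Z, z - o ∉ Grid ε) (h2 : ∀ z ∈ Z, ‖z‖ ≤ 150 → S₀ z - c - o ∉ Grid ε) :
    ∃ ψ : ℂ ≃ₜ ℂ, NearI ψ univ (1 / 10) ∧ (∀ x, ‖ψ x - x‖ ≤ 5) ∧
      (∀ x, ‖x‖ ≤ 150 → ψ x = S₀ x - c - o) ∧ (∀ x, 400 ≤ ‖x‖ → ψ x = x - o) ∧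
      ∀ z ∈ Z, ψ z ∉ Grid ε := by
  set E : ℂ → ℂ := fun z => S₀ z - c - z with hE
  have hl : ∀ x y, ‖x‖ ≤ 500 → ‖y‖ ≤ 500 → ‖E x - E y‖ ≤ 1 / 1000 * ‖x - y‖ := by
    intro x y hx hy
    have h3 := hS x (mem_closedBall_zero_iff.2 hx) y (mem_closedBall_zero_iff.2 hy)
    have h4 : E x - E y = S₀ x - S₀ y - (x - y) := by
      simp only [hE]
      ring
    rwa [h4]
  have hb : ∀ z, ‖z‖ ≤ 500 → ‖E z‖ ≤ 3 / 2 := by
    intro z hz
    have h3 := hl z 0 hz (by simp)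
    have h4 : E z = (E z - E 0) + (S₀ 0 - c) := by
      simp only [hE]
      ring
    rw [sub_zero] at h3
    have h5 := norm_add_le (E z - E 0) (S₀ 0 - c)
    rw [← h4] at h5
    linarith
  obtain ⟨s, s0, s1, hs⟩ := avoid (Z := Z ∩ {z | 150 < ‖z‖ ∧ ‖z‖ < 400}) (hZ.mono inter_subset_left)
    ε (fun z => z + (chi z : ℂ) * E z - o) (fun z => chi z * (1 - chi z))
    (fun z hz => chi_mid hz.2.1 hz.2.2)
  set f : ℂ → ℂ := fun z =>
    z + (chi z : ℂ) * E z - o + ((s * (chi z * (1 - chi z)) : ℝ) : ℂ) * (1 + I) with hf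
  have hn : NearI f univ (1 / 10) := by
    intro x _ y _
    have h3 : f x - f y - (x - y) = ((chi x : ℂ) * E x - (chi y : ℂ) * E y) +
        ((s * (chi x * (1 - chi x) - chi y * (1 - chi y)) : ℝ) : ℂ) * (1 + I) := by
      simp only [hf]
      push_cast
      ring
    rw [h3]
    refine (norm_add_le _ _).trans ?_
    have h4 := cut_lip hb hl x y
    have h5 := bump_lip x y
    have h6 : ‖((s * (chi x * (1 - chi x) - chi y * (1 - chi y)) : ℝ) : ℂ) * (1 + I)‖ ≤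
        1 * (‖x - y‖ / 250) * 2 := by
      rw [norm_mul, Complex.norm_real, Real.norm_eq_abs, abs_mul, abs_of_pos s0]
      exact mul_le_mul (mul_le_mul s1.le h5 (abs_nonneg _) zero_le_one) norm_one_add_I
        (norm_nonneg _) (by positivity)
    have := norm_nonneg (x - y)
    linarith
  have hin : ∀ x, ‖x‖ ≤ 150 → f x = S₀ x - c - o := by
    intro x hx
    simp only [hf, hE, chi_one hx]
    push_cast
    ring
  have hout : ∀ x, 400 ≤ ‖x‖ → f x = x - o := by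
    intro x hx
    simp only [hf, chi_zero hx]
    push_cast
    ring
  obtain ⟨ψ, hψ⟩ := exists_homeo hn
  have hψ' : (ψ : ℂ → ℂ) = f := funext hψ
  refine ⟨ψ, hψ' ▸ hn, fun x => ?_, fun x hx => (hψ x).trans (hin x hx),
    fun x hx => (hψ x).trans (hout x hx), fun z hz => ?_⟩
  · rw [hψ]
    by_cases hx : 400 ≤ ‖x‖
    · rw [hout x hx, sub_sub_cancel_left, norm_neg]
      linarith
    · have h3 : f x - x = (chi x : ℂ) * E x - o +
          ((s * (chi x * (1 - chi x)) : ℝ) : ℂ) * (1 + I) := by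
        simp only [hf]
        ring
      rw [h3]
      have c0 := chi_nonneg x
      have c1 := chi_le x
      have h4 : ‖(chi x : ℂ) * E x‖ ≤ 1 * (3 / 2) := by
        rw [norm_mul, Complex.norm_real, Real.norm_eq_abs, abs_of_nonneg c0]
        exact mul_le_mul c1 (hb x (by linarith)) (norm_nonneg _) zero_le_one
      have h5 : ‖((s * (chi x * (1 - chi x)) : ℝ) : ℂ) * (1 + I)‖ ≤ 1 * 2 := by
        have h6 : 0 ≤ chi x * (1 - chi x) := mul_nonneg c0 (by linarith)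
        have h7 : chi x * (1 - chi x) ≤ 1 := by nlinarith
        rw [norm_mul, Complex.norm_real, Real.norm_eq_abs, abs_of_nonneg (by positivity)]
        exact mul_le_mul (by nlinarith) norm_one_add_I (norm_nonneg _) zero_le_one
      have h6 := norm_add_le ((chi x : ℂ) * E x - o)
        (((s * (chi x * (1 - chi x)) : ℝ) : ℂ) * (1 + I))
      have h7 := norm_sub_le ((chi x : ℂ) * E x) o
      linarith
  · rw [hψ]
    by_cases hx : ‖z‖ ≤ 150
    · rw [hin z hx]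
      exact h2 z hz hx
    by_cases hy : 400 ≤ ‖z‖
    · rw [hout z hy]
      exact h1 z hz
    · exact hs z ⟨hz, not_le.1 hx, not_le.1 hy⟩

theorem exists_fine {ι : Type} (F : Finset ι) (g g' : ι → ℂ → ℂ) (hc : ∀ i, Continuous (g i))
    (hc' : ∀ i, Continuous (g' i)) (hf : ∀ i z, ‖z‖ ≤ 4000 → g i z ≠ z) :
    ∃ d t e : ℝ, 0 < d ∧ 0 < t ∧ t ≤ d / 160 ∧ 0 < e ∧ ∀ i ∈ F, Fine (g i) (g' i) 4000 d t e := by
  obtain ⟨d, hd, h1⟩ := finite_pos F (fun i r => ∀ z : ℂ, ‖z‖ ≤ 4000 → r ≤ ‖g i z - z‖)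
    (fun i r r' h hr z hz => hr.trans (h z hz)) (fun i => by
      obtain ⟨z, hz, hm⟩ := (isCompact_closedBall (0 : ℂ) 4000).exists_isMinOn
        ⟨0, mem_closedBall_self (by norm_num)⟩
        (((hc i).sub continuous_id).norm.continuousOn)
      refine ⟨‖g i z - z‖, norm_pos_iff.2 (sub_ne_zero.2 (hf i z (mem_closedBall_zero_iff.1 hz))),
        fun w hw => hm (mem_closedBall_zero_iff.2 hw)⟩)
  have ht : 0 < d / 160 := by positivity
  obtain ⟨e, he, h2⟩ := finite_pos F (fun i r =>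
      (∀ x y : ℂ, ‖x‖ ≤ 4000 → ‖y‖ ≤ 4000 → ‖x - y‖ ≤ r → ‖g i x - g i y‖ ≤ d / 160) ∧
      ∀ x y : ℂ, ‖x‖ ≤ 4000 → ‖y‖ ≤ 4000 → ‖x - y‖ ≤ r → ‖g' i x - g' i y‖ ≤ d / 160)
    (fun i r r' h hr => ⟨fun x y hx hy hxy => h.1 x y hx hy (hxy.trans hr),
      fun x y hx hy hxy => h.2 x y hx hy (hxy.trans hr)⟩) (fun i => by
      obtain ⟨e, he, h⟩ := modulus (hc i) 4000 ht
      obtain ⟨e', he', h'⟩ := modulus (hc' i) 4000 ht
      exact ⟨min e e', lt_min he he', fun x y hx hy hxy => h x y hx hy (hxy.trans (min_le_left _ _)),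
        fun x y hx hy hxy => h' x y hx hy (hxy.trans (min_le_right _ _))⟩)
  exact ⟨d, d / 160, e, hd, ht, le_rfl, he, fun i hi => ⟨h1 i hi, (h2 i hi).1, (h2 i hi).2⟩⟩

end Pool.Agent.Lib.MP_399f8e_an.Ur
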