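import Pool.Agent.Lib.MP_399f8e_an.Ur.Regrid
import Pool.Agent.Lib.MP_399f8e_an.Ur.Hyb
import Pool.Agent.Lib.MP_399f8e_an.Ur.Phase

open Set Filter Topology Metric Complex
open scoped Real
open Pool.Agent.Lib.MP_399f8e_an.Rg

noncomputable section

namespace Pool.Agent.Lib.MP_399f8e_an.Ur

variable {lam : ℝ} {Y : S → ℂ → S} {γ : S → S → ℂ → ℂ} {g g' : S → ℂ → ℂ}
  {ν : S → (ℂ → ℝ) → ℝ} {Z : S → Set ℂ}

namespace FinalAux

/-- a nonempty bounded set of reals cannot have uniform successors -/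
theorem no_succ {V : Set ℝ} {M δ : ℝ} (hδ : 0 < δ) (hne : V.Nonempty) (hM : ∀ x ∈ V, x ≤ M)
    (hs : ∀ x ∈ V, ∃ y ∈ V, x + δ ≤ y) : False := by
  have hb : BddAbove V := ⟨M, hM⟩
  obtain ⟨x, hx, hlt⟩ := exists_lt_of_lt_csSup hne (show sSup V - δ < sSup V by linarith)
  obtain ⟨y, hy, hxy⟩ := hs x hx
  have := le_csSup hb hy
  linarith

theorem exists_min {ι : Type} (F : Finset ι) (δ : ι → ℝ) (h : ∀ i, 0 < δ i) :
    ∃ a : ℝ, 0 < a ∧ ∀ i ∈ F, a ≤ δ i := by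
  classical
  induction F using Finset.induction_on with
  | empty => exact ⟨1, one_pos, by simp⟩
  | insert i F _ ih =>
    obtain ⟨a, ha, hF⟩ := ih
    refine ⟨min a (δ i), lt_min ha (h i), fun j hj => ?_⟩
    rcases Finset.mem_insert.1 hj with rfl | hj
    · exact min_le_right _ _
    · exact (min_le_left _ _).trans (hF j hj)

theorem exists_max {ι : Type} (F : Finset ι) (M : ι → ℝ) : ∃ a : ℝ, ∀ i ∈ F, M i ≤ a := by
  obtain ⟨a, ha⟩ := (F.finite_toSet.image M).bddAbove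
  exact ⟨a, fun i hi => ha ⟨i, hi, rfl⟩⟩

theorem garc_mono {g : ℂ → ℂ} {ε r r' l : ℝ} {k : ℝ → ℂ} (h : GArc g ε r k l) (hr : r ≤ r') :
    GArc g ε r' k l :=
  ⟨h.arc, h.grid, fun p hp => (h.bd p hp).trans hr⟩

end FinalAux

theorem no_atlas (hA : Atlas lam Y γ g g' ν Z) : False := by
  classical
  have hl := hA.lam_pos
  obtain ⟨F₀, -, hfin, hcov⟩ := finite_cover_balls_of_compact (isCompact_univ (X := S)) hl
  set F : Finset S := hfin.toFinset with hFdef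
  have hnet : ∀ q : S, ∃ m ∈ F, dist q m ≤ lam := by
    intro q
    have := hcov (mem_univ q)
    simp only [mem_iUnion] at this
    obtain ⟨m, hm, hq⟩ := this
    exact ⟨m, hfin.mem_toFinset.2 hm, (mem_ball.1 hq).le⟩
  obtain ⟨P, hS, hP⟩ := exists_global hA
  obtain ⟨d, t, e, hd, ht, htd, he, hF⟩ := exists_fine F g g' (fun i => (hA.good i).cont)
    (fun i => (hA.good i).cont') (fun i z hz => (hA.good i).nofix z (by linarith))
  obtain ⟨n, hn⟩ := exists_nat_one_div_lt (K := ℝ)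
    (show 0 < min (e / 2) (min (d / 2000) (1 / 2)) from
      lt_min (by linarith) (lt_min (by linarith) (by norm_num)))
  set ε : ℝ := 1 / ((n : ℝ) + 1) with hεdef
  have hε : 0 < ε := by positivity
  have hnε : ((n + 1 : ℕ) : ℝ) * ε = 1 := by
    rw [hεdef]; push_cast; field_simp
  have hε1 : ε ≤ e / 2 := (hn.trans_le (min_le_left _ _)).le
  have hε2 : ε ≤ d / 2000 := (hn.trans_le ((min_le_right _ _).trans (min_le_left _ _))).le
  have hε3 : ε ≤ 1 / 2 := (hn.trans_le ((min_le_right _ _).trans (min_le_right _ _))).le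
  have hZc : (⋃ i ∈ F₀, Z i).Countable :=
    hfin.countable.biUnion fun i _ => (hA.good i).cnt
  obtain ⟨o, ho, hoZ⟩ := exists_offset hZc ε
  have hoZ' : ∀ i ∈ F, ∀ z ∈ Z i, z - o ∉ Grid ε := fun i hi z hz =>
    hoZ z (mem_biUnion (hfin.mem_toFinset.1 hi) hz)
  -- the hybrid charts
  have key : ∀ p : S × S, ∃ (c : ℂ) (ψ : ℂ ≃ₜ ℂ) (δ M : ℝ), 0 < δ ∧ (p.1 ∈ F → p.2 ∈ F →
      dist p.1 p.2 ≤ 4000 * lam → c ∈ Vtx ε ∧ NearI ψ univ (1 / 10) ∧ (∀ x, ‖ψ x - x‖ ≤ 5) ∧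
      (∀ x, ‖x‖ ≤ 150 → ψ x = γ p.1 p.2 x - c - o) ∧ (∀ x, 400 ≤ ‖x‖ → ψ x = x - o) ∧
      (∀ z ∈ Z p.1, ψ z ∉ Grid ε) ∧
      (∃ k l, GArc (fun z => ψ (g p.1 (ψ.symm z))) ε 200 k l) ∧
      (∀ k l, GArc (fun z => ψ (g p.1 (ψ.symm z))) ε 2000 k l →
        P p.1 (fun t => ψ.symm (k t)) l ≤ M) ∧
      ∀ k l, GArc (fun z => ψ (g p.1 (ψ.symm z))) ε 200 k l →
        ∃ κ l' v, GArc (fun z => ψ (g p.1 (ψ.symm z))) ε 2000 κ l' ∧ 1000 ≤ ‖v‖ ∧ ‖v‖ ≤ 1415 ∧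
          (∀ p ∈ Icc 0 l', ‖κ p - v‖ ≤ 100) ∧
          P p.1 (fun t => ψ.symm (k t)) l + δ ≤ P p.1 (fun t => ψ.symm (κ t)) l') := by
    rintro ⟨j, i⟩
    by_cases hadm : j ∈ F ∧ i ∈ F ∧ dist j i ≤ 4000 * lam
    · obtain ⟨hj, hi, hji⟩ := hadm
      have hji' : dist j i ≤ 8000 * lam := by linarith
      obtain ⟨c, hc, hc2⟩ := exists_vtx_near hε (γ j i 0)
      have hnear : NearI (γ j i) (closedBall 0 500) (1 / 1000) := fun x hx y hy =>
        hA.near j i hji' x (closedBall_subset_closedBall (by norm_num) hx) y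
          (closedBall_subset_closedBall (by norm_num) hy)
      obtain ⟨ψ, h1, h2, h3, h4, h5⟩ := exists_hyb hnear ho (hc2.trans (by linarith)) ε
        (hA.good j).cnt (hoZ' j hj) (fun z hz hz' hmem => by
          have h6 : γ j i z ∈ Z i := (hA.mem j i hji' z (by linarith)).2 hz
          refine hoZ' i hi _ h6 ((grid_sub hc).1 ?_)
          rwa [sub_right_comm] at hmem)
      have hG := conj_good (hA.good j) h1 h2
      have hSt := conj_step (hA.good j) (hS j) h1 h2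
      have hFi := conj_fine (hF j hj) h1 h2
      have hZ : ∀ z ∈ ψ '' Z j, z ∉ Grid ε := by
        rintro _ ⟨z, hz, rfl⟩
        exact h5 z hz
      obtain ⟨δ, hδ, hph⟩ := phase hG hSt hnε hε hFi (by linarith) (by linarith) hε1
        (by linarith) hZ
      obtain ⟨M, hM⟩ := garc_bound hG hSt hε hZ
      have hT := hG.top le_rfl
      have h7 : (3000 : ℝ) - 5 = 2995 := by norm_num
      rw [h7] at hT
      exact ⟨c, ψ, δ, M, hδ, fun _ _ _ =>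
        ⟨hc, h1, h2, h3, h4, h5, exists_start hT hnε, hM, hph⟩⟩
    · exact ⟨0, Homeomorph.refl ℂ, 1, 0, one_pos, fun h1 h2 h3 => (hadm ⟨h1, h2, h3⟩).elim⟩
  choose c ψ δ M hδ hk using key
  obtain ⟨δ₀, hδ₀, hδle⟩ := FinalAux.exists_min (F ×ˢ F) δ hδ
  obtain ⟨M₀, hM₀⟩ := FinalAux.exists_max (F ×ˢ F) M
  refine FinalAux.no_succ (V := {x | ∃ p : S × S, p.1 ∈ F ∧ p.2 ∈ F ∧
    dist p.1 p.2 ≤ 4000 * lam ∧ ∃ k l, GArc (fun z => ψ p (g p.1 ((ψ p).symm z))) ε 200 k l ∧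
      x = P p.1 (fun t => (ψ p).symm (k t)) l}) (M := M₀) hδ₀ ?_ ?_ ?_
  · obtain ⟨i, hi, -⟩ := hnet pole
    have hii : dist i i ≤ 4000 * lam := by rw [dist_self]; linarith
    obtain ⟨-, -, -, -, -, -, ⟨k, l, hkl⟩, -, -⟩ := hk (i, i) hi hi hii
    exact ⟨_, (i, i), hi, hi, hii, k, l, hkl, rfl⟩
  · rintro x ⟨p, h1, h2, h3, k, l, hkl, rfl⟩
    obtain ⟨-, -, -, -, -, -, -, hb, -⟩ := hk p h1 h2 h3
    exact (hb k l (FinalAux.garc_mono hkl (by norm_num))).trans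
      (hM₀ p (Finset.mem_product.2 ⟨h1, h2⟩))
  · rintro x ⟨p, h1, h2, h3, k, l, hkl, rfl⟩
    obtain ⟨-, a1, a2, -, a4, a5, -, -, hph⟩ := hk p h1 h2 h3
    obtain ⟨κ, l', v, hκ, hv, hv', hb, hinc⟩ := hph k l hkl
    obtain ⟨m, hm, hmv⟩ := hnet (Y p.1 v)
    have hmj : dist m p.1 ≤ 4000 * lam := by
      have e1 := hA.Ynear p.1 v
      have e2 := dist_triangle_left m p.1 (Y p.1 v)
      have e3 : 2 * lam * ‖v‖ ≤ 2 * lam * 1415 := mul_le_mul_of_nonneg_left hv' (by linarith)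
      linarith
    obtain ⟨b0, -, b2, b3, -, -, -, -, -⟩ := hk (m, p.1) hm h1 hmj
    obtain ⟨r1, r2⟩ := regrid hA hP hε ho b0 a1 a2 a4 a5 b2 b3 hv hv' hmv hκ hb
    refine ⟨_, ⟨(m, p.1), hm, h1, hmj, _, l', r1, rfl⟩, ?_⟩
    have := hδle p (Finset.mem_product.2 ⟨h1, h2⟩)
    have r3 : P m (fun t => (ψ (m, p.1)).symm (κ t - c (m, p.1))) l' =
      P p.1 (fun t => (ψ p).symm (κ t)) l' := r2
    show _ ≤ P m (fun t => (ψ (m, p.1)).symm (κ t - c (m, p.1))) l'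
    rw [r3]
    linarith

end Pool.Agent.Lib.MP_399f8e_an.Ur
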