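import Pool.Agent.Lib.MP_399f8e_an.Ur.Time
import Pool.Agent.Lib.MP_399f8e_an.Rg.Cross

open Set Filter Topology Metric Complex
open scoped Real RealInnerProductSpace
open Pool.Agent.Lib.MP_399f8e_an.Rg

noncomputable section

namespace Pool.Agent.Lib.MP_399f8e_an.Ur

variable {φ : ℝ → S → S} {X : S → E} {m M L : ℝ}

namespace FrameAux

theorem short (h : FD φ X m M L) :
    ∃ d : ℝ, 0 < d ∧ ∀ (t : ℝ) (y : S), |t| ≤ d → ‖(φ t y : E) - y‖ ≤ 1 / 2 := by
  obtain ⟨δ, hδ, hu⟩ := h.unif 1 one_pos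
  have hM : 0 ≤ M := (norm_nonneg _).trans (h.up pole)
  refine ⟨min δ (1 / (2 * (M + 1))), lt_min hδ (by positivity), fun t y ht => ?_⟩
  have h1 := hu y y y t 0 (by simpa using hδ.le) (by simpa using hδ.le)
    (ht.trans (min_le_left _ _)) (by simpa using hδ.le)
  rw [hext_coe, hext_coe, h.zero, sub_self, sub_zero, sub_zero, norm_zero, zero_add, one_mul] at h1
  have h2 : ‖(φ t y : E) - y‖ ≤ ‖(φ t y : E) - y - t • X y‖ + ‖t • X y‖ := by
    refine le_trans (le_of_eq ?_) (norm_add_le _ _)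
    rw [sub_add_cancel]
  rw [norm_smul, Real.norm_eq_abs] at h2
  have h3 : |t| * ‖X y‖ ≤ |t| * M := mul_le_mul_of_nonneg_left (h.up y) (abs_nonneg t)
  have h4 : |t| ≤ 1 / (2 * (M + 1)) := ht.trans (min_le_right _ _)
  rw [le_div_iff₀ (by positivity)] at h4
  nlinarith

theorem contX (h : FD φ X m M L) : Continuous X := by
  have : LipschitzWith ⟨L, h.L_nonneg⟩ X := LipschitzWith.of_dist_le_mul fun x y => by
    rw [dist_eq_norm, Subtype.dist_eq, dist_eq_norm]
    exact h.lip x y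
  exact this.continuous

theorem preconn : PreconnectedSpace S := by
  refine Subtype.preconnectedSpace (isConnected_sphere ?_ (0 : E) zero_le_one).isPreconnected
  rw [← Module.finrank_eq_rank, finrank_euclideanSpace_fin]
  norm_num

end FrameAux

open FrameAux in
theorem exists_frame2 (h : FD φ X m M L) (aper : ∀ x t, φ t x = x → t = 0) (ε : ℝ) (hε : 0 < ε) :
    ∃ η : ℝ, 0 < η ∧ ∀ τ : S → ℝ, Continuous τ → (∀ x, ‖(φ (τ x) x : E) - x‖ ≤ η) →
      (∃ x, ε < |τ x|) → ∃ u n : S → E, Continuous u ∧ Continuous n ∧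
        ∀ x : S, Frame x (X x) (u x) (n x) := by
  obtain ⟨ϱ, δ, C, hϱ, hδ, hC, T, hTc, hT, hTu⟩ := exists_time h
  obtain ⟨d, hd, hshort⟩ := short h
  set a : ℝ := min ε (min (δ / 2) d) with ha
  have ha0 : 0 < a := lt_min hε (lt_min (half_pos hδ) hd)
  have ha1 : a ≤ ε := min_le_left _ _
  have ha2 : a ≤ δ / 2 := (min_le_right _ _).trans (min_le_left _ _)
  have ha3 : a ≤ d := (min_le_right _ _).trans (min_le_right _ _)
  refine ⟨min (min ϱ (1 / 2)) (a / C), lt_min (lt_min hϱ (by norm_num)) (div_pos ha0 hC),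
    fun τ hτ hnear hbig => ?_⟩
  have n1 : ∀ x : S, ‖(φ (τ x) x : E) - x‖ ≤ ϱ := fun x =>
    (hnear x).trans ((min_le_left _ _).trans (min_le_left _ _))
  have n2 : ∀ x : S, ‖(φ (τ x) x : E) - x‖ ≤ 1 / 2 := fun x =>
    (hnear x).trans ((min_le_left _ _).trans (min_le_right _ _))
  have n3 : ∀ x : S, |T x (φ (τ x) x)| ≤ a := fun x => by
    have h1 := (hT x _ (n1 x)).1
    have h2 : ‖(φ (τ x) x : E) - x‖ ≤ a / C := (hnear x).trans (min_le_right _ _)
    rw [le_div_iff₀ hC] at h2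
    linarith
  have dich : ∀ x : S, |τ x| ≤ δ → |τ x| ≤ a := fun x hx => by
    have h1 : -τ x = T x (φ (τ x) x) := by
      refine hTu x _ _ (n1 x) (by rwa [abs_neg]) ?_
      rw [← h.add, neg_add_cancel, h.zero]
      exact h.perp x
    rw [← abs_neg, h1]
    exact n3 x
  have far : ∀ x : S, a < |τ x| := by
    intro x
    by_contra hx
    obtain ⟨x₀, hx₀⟩ := hbig
    have h1 : δ < |τ x₀| := by
      by_contra h1
      have := dich x₀ (not_lt.1 h1)
      linarith
    haveI := preconn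
    obtain ⟨y, hy⟩ := intermediate_value_univ x x₀ hτ.abs
      (show δ ∈ Icc |τ x| |τ x₀| from ⟨by linarith [not_lt.1 hx], h1.le⟩)
    have h2 : |τ y| = δ := hy
    have := dich y h2.le
    linarith
  have hq : Continuous fun x : S => φ (τ x) x := h.cont.comp (hτ.prodMk continuous_id)
  have hTx : Continuous fun x : S => T x (φ (τ x) x) :=
    hTc.comp_continuous (continuous_id.prodMk hq) n1
  have hG : Continuous fun x : S => φ (T x (φ (τ x) x)) (φ (τ x) x) := h.cont.comp (hTx.prodMk hq)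
  have hX := contX h
  have h0 : ∀ x, X x ≠ 0 := fun x => norm_pos_iff.1 (h.m_pos.trans_le (h.low x))
  obtain ⟨u, n, l, hn, hF⟩ := exists_frame X (fun x : S => φ (T x (φ (τ x) x)) (φ (τ x) x)) hX hG
    h.perp h0 (fun x hx => by
      rw [← h.add] at hx
      have h1 := aper x _ hx
      have h2 : τ x = -T x (φ (τ x) x) := by linarith
      have h3 := far x
      rw [h2, abs_neg] at h3
      exact absurd (n3 x) (not_le.2 h3)) 1 le_rfl (fun x => by
      have h1 := hshort _ (φ (τ x) x) ((n3 x).trans ha3)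
      have h2 := n2 x
      have h3 := norm_sub_le_norm_sub_add_norm_sub (φ (T x (φ (τ x) x)) (φ (τ x) x) : E)
        (φ (τ x) x : E) (x : E)
      linarith) (fun x => by
      rw [inner_sub_left, (hT x _ (n1 x)).2, h.perp x, sub_zero])
  have hne : ∀ x : S, CrossAux.cr x (X x) (n x) ≠ 0 := fun x =>
    CrossAux.cr_ne (ne_zero_of_mem_unit_sphere x) (h0 x)
      (norm_ne_zero_iff.1 (by rw [(hF x).1.nn]; exact one_ne_zero)) (h.perp x) (hF x).1.xn
      (hF x).1.wn
  have hcr : Continuous fun x : S => CrossAux.cr x (X x) (n x) :=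
    CrossAux.continuous_cr continuous_subtype_val hX hn
  refine ⟨fun x => ‖CrossAux.cr x (X x) (n x)‖⁻¹ • CrossAux.cr x (X x) (n x), n,
    (hcr.norm.inv₀ fun x => norm_ne_zero_iff.2 (hne x)).smul hcr, hn, fun x =>
    ⟨?_, (hF x).1.nn, ?_, (hF x).1.xn, ?_, (hF x).1.wn, ?_⟩⟩
  · rw [norm_smul, norm_inv, norm_norm, inv_mul_cancel₀ (norm_ne_zero_iff.2 (hne x))]
  · rw [inner_smul_right, CrossAux.cr_a, mul_zero]
  · rw [inner_smul_right, CrossAux.cr_b, mul_zero]
  · rw [real_inner_comm, inner_smul_right, CrossAux.cr_c, mul_zero]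

end Pool.Agent.Lib.MP_399f8e_an.Ur
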