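import Pool.Agent.Lib.MP_399f8e_an.Ur.Tame

open Set Filter Topology Metric Complex
open scoped Real
open Pool.Agent.Lib.MP_399f8e_an.Rg

noncomputable section

namespace Pool.Agent.Lib.MP_399f8e_an.Ur

variable {g g' : ℂ → ℂ} {ν : (ℂ → ℝ) → ℝ} {Z : Set ℂ} {R b : ℝ}

namespace PotAux

theorem bd_add {w w' : ℂ → ℝ} (h : Bd Z w) (h' : Bd Z w') : Bd Z fun z => w z + w' z := by
  obtain ⟨C, hC⟩ := h
  obtain ⟨C', hC'⟩ := h'
  exact ⟨C + C', fun z hz => (abs_add_le _ _).trans (add_le_add (hC z hz) (hC' z hz))⟩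

theorem bd_sub {w w' : ℂ → ℝ} (h : Bd Z w) (h' : Bd Z w') : Bd Z fun z => w z - w' z := by
  obtain ⟨C, hC⟩ := h
  obtain ⟨C', hC'⟩ := h'
  exact ⟨C + C', fun z hz => (abs_sub _ _).trans (add_le_add (hC z hz) (hC' z hz))⟩

theorem tame_join (hZ : Z.Countable) {x y : ℂ} {r : ℝ} (hx : x ∉ Z) (hy : y ∉ Z) (hxr : ‖x‖ ≤ r)
    (hyr : ‖y‖ ≤ r) : ∃ β, Tame Z (r + 1) β 1 ∧ β 0 = x ∧ β 1 = y := by
  obtain ⟨β, h1, h2, h3, h4, h5⟩ := exists_avoid hZ (o := 0) (r := r) one_pos hx hy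
    (by simpa using hxr) (by simpa using hyr)
  exact ⟨β, ⟨h1, zero_le_one, fun t ht => by simpa using (h4 t ht).1, fun t ht => (h4 t ht).2,
    ⟨_, h5⟩⟩, h2, h3⟩

theorem loop_far {p q s : ℝ → ℂ} {a c d r : ℝ} {z : ℂ} (hp : Continuous p) (hq : Continuous q)
    (hs : Continuous s) (ha : 0 ≤ a) (hc : 0 ≤ c) (hd : 0 ≤ d) (bp : ∀ t ∈ Icc 0 a, ‖p t‖ ≤ r)
    (bq : ∀ t ∈ Icc 0 c, ‖q t‖ ≤ r) (bs : ∀ t ∈ Icc 0 d, ‖s t‖ ≤ r) (e1 : p 0 = s 0)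
    (e2 : p a = q 0) (e3 : q c = s d) (hz : r < ‖z‖) :
    var p 0 a z + var q 0 c z - var s 0 d z = 0 := by
  have hz' : r < ‖z - 0‖ := by simpa using hz
  rw [(var_far (o := 0) hp.continuousOn (fun t ht => by
      rw [uIcc_of_le ha] at ht; simpa using bp t ht) hz').1,
    (var_far (o := 0) hq.continuousOn (fun t ht => by
      rw [uIcc_of_le hc] at ht; simpa using bq t ht) hz').1,
    (var_far (o := 0) hs.continuousOn (fun t ht => by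
      rw [uIcc_of_le hd] at ht; simpa using bs t ht) hz').1, e1, e2, e3]
  ring

theorem loop_map (h : Good g g' ν Z R b) (hb : b ≤ 1) {p q s : ℝ → ℂ} {a c d r : ℝ}
    (hr : r + 10 ≤ R) (hp : Tame Z r p a) (hq : Tame Z r q c) (hs : Tame Z r s d) (e1 : p 0 = s 0)
    (e2 : p a = q 0) (e3 : q c = s d) {z : ℂ} (hz : z ∈ Z) :
    var (fun t => g (p t)) 0 a z + var (fun t => g (q t)) 0 c z - var (fun t => g (s t)) 0 d z =
      var p 0 a (g' z) + var q 0 c (g' z) - var s 0 d (g' z) := by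
  have hn : ∀ x, ‖g x - x‖ ≤ 1 := fun x => (h.near x).trans hb
  have hn' : |‖g' z‖ - ‖z‖| ≤ 1 := (abs_norm_sub_norm_le _ _).trans ((h.near' z).trans hb)
  rw [abs_le] at hn'
  rcases le_or_gt ‖z‖ (r + 2) with h1 | h1
  · obtain ⟨A, hA⟩ := exists_A (r := r + 3) h.cont hn fun x hx y hy e => by
      rw [mem_closedBall_zero_iff] at hx hy
      rw [← h.inv x (by linarith), e, h.inv y (by linarith)]
    have hy : g' z ∈ Z := (h.Zg' (by linarith)).2 hz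
    have hyn : ‖g' z‖ ≤ r + 3 := by linarith [hn'.2]
    have key : ∀ {k : ℝ → ℂ} {l : ℝ}, Tame Z r k l → var (fun t => g (k t)) 0 l z =
        var k 0 l (g' z) + A (k l) (g' z) - A (k 0) (g' z) := by
      intro k l hk
      have h2 := var_map hA h.cont (hk.isOff hy) (fun t ht => by
        rw [uIcc_of_le hk.nn] at ht
        linarith [hk.bd t ht]) hyn
      rwa [h.inv' z (by linarith)] at h2
    rw [key hp, key hq, key hs, e1, e2, e3]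
    ring
  · have bg : ∀ {k : ℝ → ℂ} {l : ℝ}, Tame Z r k l → ∀ t ∈ Icc 0 l, ‖g (k t)‖ ≤ r + 1 := by
      intro k l hk t ht
      linarith [norm_sub_norm_le (g (k t)) (k t), hn (k t), hk.bd t ht]
    rw [loop_far (r := r + 1) (h.cont.comp' hp.cont) (h.cont.comp' hq.cont) (h.cont.comp' hs.cont)
        hp.nn hq.nn hs.nn (bg hp) (bg hq) (bg hs) (by rw [e1]) (by rw [e2]) (by rw [e3])
        (by linarith),
      loop_far hp.cont hq.cont hs.cont hp.nn hq.nn hs.nn hp.bd hq.bd hs.bd e1 e2 e3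
        (by linarith [hn'.1])]

end PotAux

open PotAux in
theorem exists_ref (h : Good g g' ν Z R b) (hb : b ≤ 1) (hR : 1 ≤ R) :
    ∃ k, Tame Z 3 k 1 ∧ k 1 = g (k 0) := by
  obtain ⟨a, ha1, ha2⟩ := (h.cnt.dense_compl ℂ).inter_open_nonempty (ball 0 1) isOpen_ball
    ⟨0, mem_ball_self one_pos⟩
  have hn : ‖a‖ ≤ 1 := (mem_ball_zero_iff.1 ha1).le
  have hg : ‖g a‖ ≤ 2 := by linarith [norm_sub_norm_le (g a) a, h.near a]
  obtain ⟨β, h1, h2, h3⟩ := tame_join h.cnt (r := 2) ha2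
    (fun hh => ha2 ((h.Zg a (hn.trans hR)).1 hh)) (by linarith) hg
  refine ⟨β, h1.mono (by norm_num), by rw [h3, h2]⟩

open PotAux in
theorem exists_pot (h : Good g g' ν Z R b) (hb : b ≤ 1) {ρ : ℝ} (h3 : 3 ≤ ρ) (hρ : ρ + 20 ≤ R) :
    ∃ P, Step g ν Z P ρ := by
  obtain ⟨k₀, hk₀, -⟩ := exists_ref h hb (by linarith)
  have z1 : (0 : ℝ) ∈ Icc (0 : ℝ) 1 := ⟨le_rfl, zero_le_one⟩
  have hex : ∀ x : ℂ, ∃ β : ℝ → ℂ, x ∉ Z → ‖x‖ ≤ ρ →
      Tame Z (ρ + 1) β 1 ∧ β 0 = k₀ 0 ∧ β 1 = x := by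
    intro x
    by_cases hx : x ∉ Z ∧ ‖x‖ ≤ ρ
    · obtain ⟨β, hβ⟩ := tame_join h.cnt (hk₀.off 0 z1) hx.1 ((hk₀.bd 0 z1).trans h3) hx.2
      exact ⟨β, fun _ _ => hβ⟩
    · exact ⟨fun _ => 0, fun h1 h2 => absurd ⟨h1, h2⟩ hx⟩
  choose B hB using hex
  refine ⟨fun k l => ν (Wn g k₀ 1 k l (B (k 0)) 1), fun k l k' l' β c hk hk' hβ _ _ e3 e4 => ?_⟩
  obtain ⟨t1, a1, b1⟩ := hB (k 0) (hk.off 0 ⟨le_rfl, hk.nn⟩) (hk.bd 0 ⟨le_rfl, hk.nn⟩)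
  obtain ⟨t3, a3, b3⟩ := hB (k' 0) (hk'.off 0 ⟨le_rfl, hk'.nn⟩) (hk'.bd 0 ⟨le_rfl, hk'.nn⟩)
  have hle : ρ ≤ ρ + 1 := by linarith
  have t0 : Tame Z (ρ + 1) k₀ 1 := hk₀.mono (by linarith)
  have t2 := hβ.mono hle
  have u := hk.mono hle
  have u' := hk'.mono hle
  have hr : ρ + 1 + 3 ≤ R := by linarith
  have w1 := h.wn_bd hb t0 u t1 hr
  have w2 := h.wn_bd hb u u' t2 hr
  have w3 := h.wn_bd hb t0 u' t3 hr
  have e1 : B (k 0) 0 = B (k' 0) 0 := by rw [a1, a3]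
  have e2 : B (k 0) 1 = β 0 := by rw [b1, e3]
  have e5 : β c = B (k' 0) 1 := by rw [b3, e4]
  set w : ℂ → ℝ := fun z => var (B (k 0)) 0 1 z + var β 0 c z - var (B (k' 0)) 0 1 z with hw
  have wb : Bd Z w := bd_sub (bd_add t1.bv t2.bv) t3.bv
  obtain ⟨i1, i2⟩ := h.inv_nu' wb fun z hz =>
    loop_far t1.cont t2.cont t3.cont t1.nn t2.nn t3.nn t1.bd t2.bd t3.bd e1 e2 e5 (by linarith)
  have key : ν (Wn g k₀ 1 k' l' (B (k' 0)) 1) =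
      ν fun z => (Wn g k₀ 1 k l (B (k 0)) 1 z + Wn g k l k' l' β c z) - (w (g' z) - w z) := by
    refine h.nu_congr w3 fun z hz => ?_
    have h1 := loop_map h hb (by linarith) t1 t2 t3 e1 e2 e5 hz
    simp only [Wn, hw]
    linarith
  show ν (Wn g k₀ 1 k' l' (B (k' 0)) 1) = ν (Wn g k₀ 1 k l (B (k 0)) 1) + ν (Wn g k l k' l' β c)
  rw [key, h.nu_sub (bd_add w1 w2) (bd_sub i1 wb), h.add _ _ w1 w2, h.nu_sub i1 wb, i2]
  ring

end Pool.Agent.Lib.MP_399f8e_an.Ur
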