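import Pool.Agent.Lib.MP_399f8e_an.Ur.Defs
import Pool.Agent.Lib.MP_399f8e_an.Rg.Lift

open Set Filter Topology Metric Complex
open scoped Real RealInnerProductSpace
open Pool.Agent.Lib.MP_399f8e_an.Rg

noncomputable section

namespace Pool.Agent.Lib.MP_399f8e_an.Ur

namespace PrimAux

/-- a locally constant function on a preconnected set is constant -/
theorem const_of_loc {X : Type} [TopologicalSpace X] {O : Set X} (hO : IsPreconnected O)
    (D : X → ℝ) (h : ∀ x ∈ O, ∀ᶠ y in 𝓝[O] x, D y = D x) {a b : X} (ha : a ∈ O) (hb : b ∈ O) :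
    D a = D b := by
  refine hO.induction₂' (fun x y => D x = D y) (fun x hx => ?_)
    (fun _ _ _ _ _ _ h1 h2 => h1.trans h2) ha hb
  filter_upwards [h x hx] with y hy
  exact ⟨hy.symm, hy⟩

/-- two local primitives differ by a constant -/
theorem uniq {X : Type} [TopologicalSpace X] {O : Set X} (hO : IsPreconnected O)
    (G : X → X → ℝ) (H H' : X → ℝ) (h : ∀ x ∈ O, ∀ᶠ y in 𝓝 x, H y - H x = G x y)
    (h' : ∀ x ∈ O, ∀ᶠ y in 𝓝 x, H' y - H' x = G x y) {a b : X} (ha : a ∈ O) (hb : b ∈ O) :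
    H a - H' a = H b - H' b := by
  refine const_of_loc hO (fun x => H x - H' x) (fun x hx => ?_) ha hb
  refine Filter.Eventually.filter_mono nhdsWithin_le_nhds ?_
  filter_upwards [h x hx, h' x hx] with y h1 h2
  linarith

variable (F : S → S → ℝ) (r : ℝ) (hr : 0 < r)
  (coc : ∀ p q s, dist p q ≤ r → dist q s ≤ r → dist p s ≤ r → F p q + F q s = F p s)

include hr coc in
theorem self (p : S) : F p p = 0 := by
  have := coc p p p (by simp [hr.le]) (by simp [hr.le]) (by simp [hr.le])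
  linarith

include hr coc in
/-- the ladder lemma -/
theorem ladder (a b : ℕ → S) (n : ℕ) (h0 : a 0 = b 0)
    (h1 : ∀ k < n, dist (a k) (a (k + 1)) ≤ r / 2) (h2 : ∀ k < n, dist (b k) (b (k + 1)) ≤ r / 2)
    (h3 : ∀ k ≤ n, dist (a k) (b k) ≤ r / 2) :
    ∑ k ∈ Finset.range n, F (b k) (b (k + 1)) - ∑ k ∈ Finset.range n, F (a k) (a (k + 1))
      = F (a n) (b n) := by
  induction n with
  | zero => simp [h0, self F r hr coc]
  | succ n ih =>
    have ih' := ih (fun k hk => h1 k (by omega)) (fun k hk => h2 k (by omega))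
      (fun k hk => h3 k (by omega))
    rw [Finset.sum_range_succ, Finset.sum_range_succ]
    have d1 := h1 n (by omega)
    have d2 := h2 n (by omega)
    have d3 := h3 n (by omega)
    have d4 := h3 (n + 1) le_rfl
    have d5 : dist (a n) (b (n + 1)) ≤ r := (dist_triangle _ (b n) _).trans (by linarith)
    have e1 := coc (a n) (b n) (b (n + 1)) (by linarith) (by linarith) d5
    have e2 := coc (a n) (a (n + 1)) (b (n + 1)) (by linarith) (by linarith) d5
    linarith

/-- the model space -/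
abbrev V : Type := EuclideanSpace ℝ (Fin 3)

include hr coc in
theorem ball_prim (c : V → S) (hc : Continuous c) (R : ℝ) :
    ∃ H : V → ℝ, H 0 = 0 ∧ ∀ y ∈ ball (0 : V) R, ∀ᶠ y' in 𝓝 y, H y' - H y = F (c y) (c y') := by
  have hu : UniformContinuousOn c (closedBall (0 : V) R) :=
    (isCompact_closedBall (0 : V) R).uniformContinuousOn_of_continuous hc.continuousOn
  obtain ⟨δ, hδ, hd⟩ := Metric.uniformContinuousOn_iff.1 hu (r / 2) (by linarith)
  obtain ⟨m, hm⟩ := exists_nat_gt (|R| / δ)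
  have hn0 : (0 : ℝ) < (m + 1 : ℕ) := by positivity
  set n : ℕ := m + 1 with hn
  have hRn : |R| / n < δ := by
    rw [div_lt_iff₀ hn0]
    rw [div_lt_iff₀ hδ] at hm
    have : (m : ℝ) ≤ n := by rw [hn]; push_cast; linarith
    nlinarith
  have hmem : ∀ y ∈ ball (0 : V) R, ∀ k ≤ n, ((k : ℝ) / n) • y ∈ closedBall (0 : V) R := by
    intro y hy k hk
    rw [mem_ball_zero_iff] at hy
    rw [mem_closedBall_zero_iff, norm_smul, Real.norm_of_nonneg (by positivity)]
    have hk' : (k : ℝ) / n ≤ 1 := by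
      rw [div_le_one hn0]; exact_mod_cast hk
    have := norm_nonneg y
    nlinarith
  have hstep : ∀ y ∈ ball (0 : V) R, ∀ k < n,
      dist (c (((k : ℝ) / n) • y)) (c ((((k + 1 : ℕ) : ℝ) / n) • y)) ≤ r / 2 := by
    intro y hy k hk
    refine (hd _ (hmem y hy k hk.le) _ (hmem y hy (k + 1) hk) ?_).le
    rw [dist_eq_norm, ← sub_smul, norm_smul]
    have e : (k : ℝ) / n - ((k + 1 : ℕ) : ℝ) / n = -(1 / n) := by push_cast; ring
    rw [e, norm_neg, Real.norm_of_nonneg (by positivity)]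
    rw [mem_ball_zero_iff] at hy
    have h1 : ‖y‖ ≤ |R| := hy.le.trans (le_abs_self R)
    calc 1 / (n : ℝ) * ‖y‖ ≤ 1 / (n : ℝ) * |R| := by gcongr
      _ = |R| / n := by ring
      _ < δ := hRn
  refine ⟨fun y => ∑ k ∈ Finset.range n,
    F (c (((k : ℝ) / n) • y)) (c ((((k + 1 : ℕ) : ℝ) / n) • y)), ?_, fun y hy => ?_⟩
  · simp [self F r hr coc]
  · filter_upwards [isOpen_ball.mem_nhds hy, ball_mem_nhds y hδ] with y' hy' hyy
    have h := ladder F r hr coc (fun k => c (((k : ℝ) / n) • y)) (fun k => c (((k : ℝ) / n) • y'))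
      n (by simp) (hstep y hy) (hstep y' hy') (fun k hk => by
        refine (hd _ (hmem y hy k hk) _ (hmem y' hy' k hk) ?_).le
        rw [dist_eq_norm, ← smul_sub, norm_smul, Real.norm_of_nonneg (by positivity)]
        have hk' : (k : ℝ) / n ≤ 1 := by
          rw [div_le_one hn0]; exact_mod_cast hk
        rw [mem_ball, dist_comm, dist_eq_norm] at hyy
        have := norm_nonneg (y - y')
        have hk0 : 0 ≤ (k : ℝ) / n := by positivity
        nlinarith)
    simp only [div_self hn0.ne', one_smul] at h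
    exact h

include hr coc in
theorem space_prim (c : V → S) (hc : Continuous c) :
    ∃ H : V → ℝ, ∀ y, ∀ᶠ y' in 𝓝 y, H y' - H y = F (c y) (c y') := by
  choose Hn h0 hl using fun n : ℕ => ball_prim F r hr coc c hc n
  have key : ∀ (y : V) (n m : ℕ), ‖y‖ < n → ‖y‖ < m → Hn n y = Hn m y := by
    intro y n m hn hm
    have hp : 0 < min (n : ℝ) m := (norm_nonneg y).trans_lt (lt_min hn hm)
    have h := uniq (convex_ball (0 : V) (min (n : ℝ) m)).isPreconnected
      (fun x z => F (c x) (c z)) (Hn n) (Hn m)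
      (fun x hx => hl n x (ball_subset_ball (min_le_left _ _) hx))
      (fun x hx => hl m x (ball_subset_ball (min_le_right _ _) hx))
      (a := y) (b := 0) (mem_ball_zero_iff.2 (lt_min hn hm)) (mem_ball_self hp)
    rw [h0, h0] at h
    linarith
  have hlt : ∀ y : V, ‖y‖ < ((⌈‖y‖⌉₊ + 1 : ℕ) : ℝ) := fun y => by
    push_cast
    linarith [Nat.le_ceil ‖y‖]
  refine ⟨fun y => Hn (⌈‖y‖⌉₊ + 1) y, fun y => ?_⟩
  have hy : y ∈ ball (0 : V) ((⌈‖y‖⌉₊ + 1 : ℕ) : ℝ) := mem_ball_zero_iff.2 (hlt y)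
  filter_upwards [isOpen_ball.mem_nhds hy, hl _ y hy] with y' h1 h2
  rw [key y' _ (⌈‖y‖⌉₊ + 1) (hlt y') (mem_ball_zero_iff.1 h1)]
  exact h2

include hr coc in
theorem off_prim (v : S) :
    ∃ H : S → ℝ, ∀ x ∈ ({v}ᶜ : Set S), ∀ᶠ y in 𝓝 x, H y - H x = F x y := by
  obtain ⟨e, hs, ht⟩ := LiftAux.chart v
  have hc : Continuous e.symm := by
    rw [← continuousOn_univ, ← ht]
    exact e.continuousOn_symm
  have hm : ∀ x ∈ ({v}ᶜ : Set S), e.symm (e x) = x := fun x hx =>
    e.left_inv (by rw [hs]; exact hx)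
  obtain ⟨H, hH⟩ := space_prim F r hr coc e.symm hc
  refine ⟨fun x => H (e x), fun x hx => ?_⟩
  have he : ContinuousAt e x := e.continuousAt (by rw [hs]; exact hx)
  filter_upwards [he.eventually (hH (e x)), isOpen_compl_singleton.mem_nhds hx] with y h1 h2
  rw [hm x hx, hm y h2] at h1
  exact h1

include hr coc in
theorem loc_prim : ∃ H : S → ℝ, ∀ x, ∀ᶠ y in 𝓝 x, H y - H x = F x y := by
  classical
  have hw : -pole ≠ pole := (ne_neg_of_mem_unit_sphere ℝ pole).symm
  have hconn := LiftAux.conn pole (-pole) hw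
  obtain ⟨a, ha⟩ := hconn.nonempty
  obtain ⟨A, hA⟩ := off_prim F r hr coc pole
  obtain ⟨B, hB⟩ := off_prim F r hr coc (-pole)
  have hAB : ∀ x ∈ ({pole}ᶜ ∩ {-pole}ᶜ : Set S), A x - B x = A a - B a := fun x hx =>
    uniq hconn.isPreconnected F A B (fun z hz => hA z hz.1) (fun z hz => hB z hz.2) hx ha
  refine ⟨fun x => if x = pole then B x + (A a - B a) else A x, fun x => ?_⟩
  by_cases hx : x = pole
  · have hx' : x ∈ ({-pole}ᶜ : Set S) := by
      rw [hx]; exact hw.symm
    filter_upwards [isOpen_compl_singleton.mem_nhds hx', hB x hx'] with y hy h1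
    rw [if_pos hx]
    by_cases hyp : y = pole
    · rw [if_pos hyp]; linarith
    · rw [if_neg hyp]
      have := hAB y ⟨hyp, hy⟩
      linarith
  · have hx' : x ∈ ({pole}ᶜ : Set S) := hx
    filter_upwards [isOpen_compl_singleton.mem_nhds hx', hA x hx'] with y hy h1
    rw [if_neg hx, if_neg (show ¬ y = pole from hy)]
    exact h1

end PrimAux

theorem prim (F : S → S → ℝ) (r : ℝ) (hr : 0 < r) (hr1 : r ≤ 1)
    (coc : ∀ p q s, dist p q ≤ r → dist q s ≤ r → dist p s ≤ r → F p q + F q s = F p s) :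
    ∃ H : S → ℝ, ∀ p q, dist p q ≤ r / 2 → H q - H p = F p q := by
  obtain ⟨H, hH⟩ := PrimAux.loc_prim F r hr coc
  refine ⟨H, fun p q hpq => ?_⟩
  have hd : ‖(q : E) - p‖ ≤ r / 2 := by
    rw [← dist_eq_norm, dist_comm]; exact hpq
  have hnear : ∀ t ∈ Icc (0 : ℝ) 1, ‖((p : E) + t • ((q : E) - p)) - p‖ ≤ r / 2 := by
    intro t ht
    rw [add_sub_cancel_left, norm_smul, Real.norm_of_nonneg ht.1]
    have := norm_nonneg ((q : E) - p)
    nlinarith [ht.1, ht.2]
  have hdist : ∀ t ∈ Icc (0 : ℝ) 1, dist p (N ((p : E) + t • ((q : E) - p))) ≤ r := by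
    intro t ht
    have h1 := N_near p _ ((hnear t ht).trans_lt (by linarith))
    rw [dist_comm, Subtype.dist_eq, dist_eq_norm]
    linarith [hnear t ht]
  have hcont : ∀ t ∈ Icc (0 : ℝ) 1, ContinuousAt (fun s : ℝ => N ((p : E) + s • ((q : E) - p))) t := by
    intro t ht
    have h0 : (p : E) + t • ((q : E) - p) ≠ 0 :=
      ne_zero_of_near (x := p) ((hnear t ht).trans_lt (by linarith))
    exact ContinuousAt.comp (f := fun s : ℝ => (p : E) + s • ((q : E) - p)) (continuousAt_N h0)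
      (by fun_prop)
  have h := PrimAux.const_of_loc (O := Icc (0 : ℝ) 1) isPreconnected_Icc
    (fun t => H (N ((p : E) + t • ((q : E) - p))) - F p (N ((p : E) + t • ((q : E) - p))))
    (fun t ht => by
      have h1 := (hcont t ht).eventually (hH _)
      have h2 := (hcont t ht).eventually (closedBall_mem_nhds _ hr)
      filter_upwards [Filter.Eventually.filter_mono nhdsWithin_le_nhds h1,
        Filter.Eventually.filter_mono nhdsWithin_le_nhds h2, self_mem_nhdsWithin] with s e1 e2 hs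
      have e3 := coc p (N ((p : E) + t • ((q : E) - p))) (N ((p : E) + s • ((q : E) - p)))
        (hdist t ht) (by rw [dist_comm]; exact e2) (hdist s hs)
      linarith)
    (a := 0) (b := 1) ⟨le_rfl, zero_le_one⟩ ⟨zero_le_one, le_rfl⟩
  simp only [zero_smul, add_zero, one_smul, add_sub_cancel, N_coe,
    PrimAux.self F r hr coc] at h
  linarith

end Pool.Agent.Lib.MP_399f8e_an.Ur
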