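import Pool.Agent.Lib.MP_399f8e_an.Ur.Time

/-! Existence of a family of flow boxes. -/

open Set Filter Topology Metric
open scoped RealInnerProductSpace
open Pool.Agent.Lib.MP_399f8e_an.Rg

noncomputable section

namespace Pool.Agent.Lib.MP_399f8e_an.Ur

namespace BoxAux

/-- plane coordinate of a vector -/
def co (u n v : E) : ℂ := ⟨⟪v, u⟫, ⟪v, n⟫⟩

/-- the vector with a given plane coordinate -/
def em (u n : E) (z : ℂ) : E := z.re • u + z.im • n

theorem co_add (u n v w : E) : co u n (v + w) = co u n v + co u n w := by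
  apply Complex.ext <;> simp [co, inner_add_left]

theorem co_sub (u n v w : E) : co u n (v - w) = co u n v - co u n w := by
  apply Complex.ext <;> simp [co, inner_sub_left]

theorem co_smul (u n v : E) (r : ℝ) : co u n (r • v) = r * co u n v := by
  apply Complex.ext <;> simp [co, inner_smul_left]

theorem em_sub (u n : E) (z w : ℂ) : em u n (z - w) = em u n z - em u n w := by
  simp only [em, Complex.sub_re, Complex.sub_im]; module

theorem em_mul (u n : E) (r : ℝ) (z : ℂ) : em u n (r * z) = r • em u n z := by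
  simp only [em, Complex.re_ofReal_mul, Complex.im_ofReal_mul]; module

theorem sq1 {v : E} (h : ‖v‖ = 1) : ⟪v, v⟫ = (1 : ℝ) := by
  rw [real_inner_self_eq_norm_sq, h]; norm_num

theorem sw {x y : E} (e : ⟪x, y⟫ = (0 : ℝ)) : ⟪y, x⟫ = (0 : ℝ) := by
  rw [real_inner_comm]; exact e

variable {a b u n : E}

theorem co_a (h : Frame a b u n) : co u n a = 0 := Complex.ext h.xu h.xn

theorem co_b (h : Frame a b u n) : co u n b = 0 := Complex.ext h.wu h.wn

theorem co_em (h : Frame a b u n) (z : ℂ) : co u n (em u n z) = z := by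
  apply Complex.ext
  · simp only [co, em, inner_add_left, real_inner_smul_left, sq1 h.nu, sw h.un]; ring
  · simp only [co, em, inner_add_left, real_inner_smul_left, sq1 h.nn, h.un]; ring

theorem em_a (h : Frame a b u n) (z : ℂ) : ⟪em u n z, a⟫ = (0 : ℝ) := by
  simp only [em, inner_add_left, real_inner_smul_left, sw h.xu, sw h.xn]; ring

theorem em_b (h : Frame a b u n) (z : ℂ) : ⟪em u n z, b⟫ = (0 : ℝ) := by
  simp only [em, inner_add_left, real_inner_smul_left, sw h.wu, sw h.wn]; ring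

theorem inner_em (v : E) (z : ℂ) :
    ⟪v, em u n z⟫ = z.re * (co u n v).re + z.im * (co u n v).im := by
  simp only [em, co, inner_add_right, real_inner_smul_right]

theorem norm_em (h : Frame a b u n) (z : ℂ) : ‖em u n z‖ = ‖z‖ := by
  refine (pow_left_inj₀ (norm_nonneg _) (norm_nonneg _) two_ne_zero).1 ?_
  rw [← real_inner_self_eq_norm_sq, inner_em, co_em h, Complex.sq_norm, Complex.normSq_apply]

theorem co_le (h : Frame a b u n) (v : E) : ‖co u n v‖ ≤ ‖v‖ := by
  have h1 := real_inner_le_norm v (em u n (co u n v))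
  rw [inner_em, norm_em h, ← Complex.normSq_apply, ← Complex.sq_norm] at h1
  nlinarith [norm_nonneg (co u n v), norm_nonneg v]

theorem expand (h : Frame a b u n) (ha : ‖a‖ = 1) (hb : b ≠ 0) (hab : ⟪a, b⟫ = (0 : ℝ)) (v : E)
    (hv : ⟪v, b⟫ = (0 : ℝ)) : v = (⟪v, a⟫ : ℝ) • a + em u n (co u n v) := by
  have k : ∀ x : E, ⟪x, b⟫ = (0 : ℝ) → ⟪x, (N b : E)⟫ = (0 : ℝ) := fun x e => by
    rw [coe_N hb, real_inner_smul_right, e, mul_zero]
  have h1 := k a hab
  have h2 := k u (sw h.wu)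
  have h3 := k n (sw h.wn)
  have ho : Orthonormal ℝ ![a, (N b : E), u, n] := by
    refine ⟨fun i => ?_, fun i j hij => ?_⟩
    · fin_cases i
      exacts [ha, norm_coe _, h.nu, h.nn]
    · fin_cases i <;> fin_cases j <;> first
        | exact absurd rfl hij
        | exact h1 | exact h2 | exact h3 | exact sw h1 | exact sw h2 | exact sw h3
        | exact h.xu | exact h.xn | exact h.un | exact sw h.xu | exact sw h.xn | exact sw h.un
  have hc : Fintype.card (Fin 4) = Module.finrank ℝ E := by simp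
  let B : OrthonormalBasis (Fin 4) ℝ E :=
    (basisOfOrthonormalOfCardEqFinrank ho hc).toOrthonormalBasis (by simpa using ho)
  have hB : ∀ i, B i = ![a, (N b : E), u, n] i := fun i => by simp [B]
  have := B.sum_repr' v
  rw [Fin.sum_univ_four, hB, hB, hB, hB] at this
  have e : ⟪a, v⟫ • a + ⟪(N b : E), v⟫ • (N b : E) + ⟪u, v⟫ • u + ⟪n, v⟫ • n = v := this
  rw [sw (k v hv), zero_smul, add_zero] at e
  simp only [em, co, real_inner_comm a v, real_inner_comm u v, real_inner_comm n v]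
  rw [← add_assoc]
  exact e.symm

/-- the section -/
def sec (lam : ℝ) (u n : E) (c : S) (z : ℂ) : S := N (c + em u n (lam * z))

variable {c : S} {lam : ℝ}

theorem ne0 (h : Frame c b u n) (z : ℂ) : (c : E) + em u n z ≠ 0 := fun e => by
  have := congrArg (fun v : E => (⟪v, (c : E)⟫ : ℝ)) e
  simp only [inner_add_left, em_a h, sq1 (norm_coe c), inner_zero_left] at this
  norm_num at this

theorem sec_cont (h : Frame c b u n) : Continuous (sec lam u n c) := by
  rw [continuous_iff_continuousAt]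
  intro z
  have : Continuous fun z : ℂ => (c : E) + em u n (lam * z) := by unfold em; fun_prop
  exact ContinuousAt.comp (f := fun z : ℂ => (c : E) + em u n (lam * z))
    (continuousAt_N (ne0 h _)) this.continuousAt

theorem sub_c (h : Frame c b u n) (hl : 0 < lam) (z : ℂ) :
    ‖(c : E) + em u n (lam * z) - c‖ = lam * ‖z‖ := by
  rw [add_sub_cancel_left, norm_em h, norm_mul, Complex.norm_real, Real.norm_of_nonneg hl.le]

theorem sec_near (h : Frame c b u n) (hl : 0 < lam) (z : ℂ) :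
    ‖(sec lam u n c z : E) - c‖ ≤ 2 * lam * ‖z‖ := by
  by_cases h1 : lam * ‖z‖ < 1
  · have := N_near c _ ((sub_c h hl z).trans_lt h1)
    rw [sub_c h hl, ← mul_assoc] at this
    exact this
  · have := norm_sub_le (sec lam u n c z : E) c
    rw [norm_coe, norm_coe] at this
    linarith [not_lt.1 h1]

theorem sec_zero : sec lam u n c 0 = c := by simp [sec, em, N_coe]

theorem sec_b (h : Frame c b u n) (hab : ⟪(c : E), b⟫ = (0 : ℝ)) (z : ℂ) :
    ⟪(sec lam u n c z : E), b⟫ = (0 : ℝ) := by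
  rw [sec, coe_N (ne0 h _), real_inner_smul_left, inner_add_left, hab, em_b h]; ring

theorem sec_est (h : Frame c b u n) (hl : 0 < lam) {d : ℝ} (hd : d ≤ 1 / 4) {z z' : ℂ}
    (hz : lam * ‖z‖ ≤ d) (hz' : lam * ‖z'‖ ≤ d) :
    ‖(sec lam u n c z : E) - sec lam u n c z' - em u n (lam * (z - z'))‖
      ≤ 4 * d * (lam * ‖z - z'‖) := by
  have := N_est c _ _ d hd ((sub_c h hl z).trans_le hz) ((sub_c h hl z').trans_le hz')
  rw [add_sub_add_left_eq_sub, ← em_sub, ← mul_sub, em_a h, norm_em h, norm_mul, Complex.norm_real,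
    Real.norm_of_nonneg hl.le, abs_zero, mul_zero, zero_add] at this
  exact this

/-- points of the hyperplane near `c` lie on the section -/
theorem sec_surj (h : Frame c b u n) (hb : b ≠ 0) (hab : ⟪(c : E), b⟫ = (0 : ℝ)) (hl : 0 < lam)
    (p : S) (hp : ⟪(p : E), b⟫ = (0 : ℝ)) (h1 : ‖(p : E) - c‖ ≤ 1 / 2) :
    ∃ z, p = sec lam u n c z ∧ lam * ‖z‖ ≤ 2 * ‖(p : E) - c‖ := by
  obtain ⟨r, hr⟩ : ∃ r : ℝ, r = ⟪(p : E), (c : E)⟫ := ⟨_, rfl⟩
  have h2 : 1 / 2 ≤ r := by
    have := abs_real_inner_le_norm ((p : E) - c) c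
    rw [inner_sub_left, sq1 (norm_coe c), norm_coe, mul_one, ← hr] at this
    linarith [(abs_le.1 (this.trans h1)).1]
  have h3 : 0 < r := by linarith
  have h4 : ‖co u n p‖ ≤ ‖(p : E) - c‖ := by
    have := co_le h ((p : E) - c)
    rwa [co_sub, co_a h, sub_zero] at this
  refine ⟨((lam * r)⁻¹ : ℝ) * co u n p, ?_, ?_⟩
  · have e : (p : E) = r • ((c : E) + em u n (lam * (((lam * r)⁻¹ : ℝ) * co u n p))) := by
      rw [em_mul, em_mul, smul_add, smul_smul, smul_smul,
        show r * lam * (lam * r)⁻¹ = 1 by field_simp, one_smul, hr]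
      exact expand h (norm_coe c) hb hab p hp
    rw [sec, ← N_smul h3, ← e, N_coe]
  · rw [norm_mul, Complex.norm_real, Real.norm_of_nonneg (by positivity), ← mul_assoc,
      show lam * (lam * r)⁻¹ = r⁻¹ by field_simp, inv_mul_le_iff₀ h3]
    nlinarith [norm_nonneg ((p : E) - c)]

/-- the arithmetic of the basic estimate -/
theorem arith {m κ k d A W D σ : ℝ} (hm : 0 < m) (hk : 0 < k) (hk1 : k ≤ 1 / 4)
    (hκ : κ ≤ k / 16) (hκm : κ ≤ k * m / 8) (hd : d ≤ k / 16) (hA : 0 ≤ A) (hW : 0 ≤ W)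
    (hσ : 0 ≤ σ) (h1 : σ * m ≤ W + κ * (2 * A + σ)) (h2 : D ≤ 4 * d * A + κ * (2 * A + σ))
    (h3 : A ≤ W + D) : A ≤ 2 * W ∧ D ≤ k * W ∧ σ * m ≤ 4 * W := by
  have a1 : κ * σ ≤ σ * m / 2 := by nlinarith [mul_nonneg hσ hm.le]
  have a2 : κ * A ≤ k / 16 * A := mul_le_mul_of_nonneg_right hκ hA
  have a3 : d * A ≤ k / 16 * A := mul_le_mul_of_nonneg_right hd hA
  have a4 : k * A ≤ 1 / 4 * A := mul_le_mul_of_nonneg_right hk1 hA
  have a5 : k * W ≤ 1 / 4 * W := mul_le_mul_of_nonneg_right hk1 hW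
  have a6 : σ * m ≤ 2 * W + A / 16 := by nlinarith
  have a7 : κ * σ ≤ k / 8 * (σ * m) := by nlinarith
  have a8 : k / 8 * (σ * m) ≤ k / 8 * (2 * W + A / 16) :=
    mul_le_mul_of_nonneg_left a6 (by positivity)
  have a9 : D ≤ k * A / 2 + k * W / 4 := by nlinarith [mul_nonneg hk.le hA]
  have b1 : A ≤ 3 / 2 * W := by linarith
  have b2 : k * A ≤ k * (3 / 2 * W) := mul_le_mul_of_nonneg_left b1 hk.le
  exact ⟨by linarith, by linarith, by linarith⟩

end BoxAux

open BoxAux in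
theorem exists_box {φ : ℝ → S → S} {X : S → E} {m M L : ℝ} (h : FD φ X m M L) {u n : S → E}
    (hu : Continuous u) (hn : Continuous n) (hF : ∀ x : S, Frame x (X x) (u x) (n x)) (e : ℝ)
    (he : 0 < e) : ∃ (lam δ : ℝ) (Y : S → ℂ → S) (pr : S → S → ℂ) (T : S → S → ℝ),
      δ ≤ e ∧ Box φ lam δ Y pr T := by
  have hm := h.m_pos
  have hM : 0 < M := hm.trans_le ((h.low pole).trans (h.up pole))
  have hX0 : ∀ x, X x ≠ 0 := fun x => norm_pos_iff.1 (hm.trans_le (h.low x))
  obtain ⟨k, hk⟩ : ∃ k : ℝ, k = 1 / 10000 := ⟨_, rfl⟩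
  have hk0 : 0 < k := by rw [hk]; norm_num
  obtain ⟨κ, hκ0, hκ1, hκ2⟩ : ∃ κ : ℝ, 0 < κ ∧ κ ≤ k / 16 ∧ κ ≤ k * m / 8 :=
    ⟨min (k / 16) (k * m / 8), by positivity, min_le_left _ _, min_le_right _ _⟩
  obtain ⟨δ₀, hδ₀, hU⟩ := h.unif κ hκ0
  obtain ⟨d, hd0, hd1, hd2⟩ : ∃ d : ℝ, 0 < d ∧ d ≤ k / 16 ∧ d ≤ δ₀ / 2 :=
    ⟨min (k / 16) (δ₀ / 2), by positivity, min_le_left _ _, min_le_right _ _⟩
  obtain ⟨δ, hδ0, hδe, hδ1, hδ2⟩ : ∃ δ : ℝ, 0 < δ ∧ δ ≤ e ∧ δ ≤ δ₀ ∧ δ * (M + 1) ≤ d := by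
    refine ⟨min (min e δ₀) (d / (M + 1)), by positivity, (min_le_left _ _).trans (min_le_left _ _),
      (min_le_left _ _).trans (min_le_right _ _), ?_⟩
    rw [← le_div_iff₀ (by positivity)]
    exact min_le_right _ _
  obtain ⟨r₁, hr₁, hu1⟩ := Metric.uniformContinuous_iff.1
    (CompactSpace.uniformContinuous_of_continuous hu) k hk0
  obtain ⟨r₂, hr₂, hn1⟩ := Metric.uniformContinuous_iff.1
    (CompactSpace.uniformContinuous_of_continuous hn) k hk0
  obtain ⟨ρ, hρ0, hρ1, hρ2, hρ3, hρ4⟩ : ∃ ρ : ℝ, 0 < ρ ∧ ρ ≤ d / 4 ∧ ρ ≤ δ * m / 20 ∧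
      ρ ≤ r₁ / 6 ∧ ρ ≤ r₂ / 6 :=
    ⟨min (min (d / 4) (δ * m / 20)) (min (r₁ / 6) (r₂ / 6)), by positivity,
      (min_le_left _ _).trans (min_le_left _ _), (min_le_left _ _).trans (min_le_right _ _),
      (min_le_right _ _).trans (min_le_left _ _), (min_le_right _ _).trans (min_le_right _ _)⟩
  obtain ⟨lam, hlam⟩ : ∃ lam : ℝ, 10 ^ 6 * lam = ρ := ⟨ρ / 10 ^ 6, by ring⟩
  have hl : 0 < lam := by linarith
  have hd4 : d ≤ 1 / 4 := by linarith
  obtain ⟨Y, hY⟩ : ∃ Y : S → ℂ → S, Y = fun c => sec lam (u c) (n c) c := ⟨_, rfl⟩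
  have Ynear : ∀ c z, ‖(Y c z : E) - c‖ ≤ 2 * lam * ‖z‖ := fun c z => by
    rw [hY]; exact sec_near (hF c) hl z
  have Yest : ∀ c z z', lam * ‖z‖ ≤ d → lam * ‖z'‖ ≤ d →
      ‖(Y c z : E) - Y c z' - em (u c) (n c) (lam * (z - z'))‖ ≤ 4 * d * (lam * ‖z - z'‖) :=
    fun c z z' hz hz' => by rw [hY]; exact sec_est (hF c) hl hd4 hz hz'
  have nem : ∀ c z, ‖em (u c) (n c) (lam * z)‖ = lam * ‖z‖ := fun c z => by
    rw [norm_em (hF c), norm_mul, Complex.norm_real, Real.norm_of_nonneg hl.le]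
  have Ylip : ∀ c z z', lam * ‖z‖ ≤ d → lam * ‖z'‖ ≤ d →
      ‖(Y c z : E) - Y c z'‖ ≤ 2 * (lam * ‖z - z'‖) := fun c z z' hz hz' => by
    have h1 := norm_le_insert' ((Y c z : E) - Y c z') (em (u c) (n c) (lam * (z - z')))
    have h2 := Yest c z z' hz hz'
    rw [nem] at h1
    nlinarith [mul_nonneg hl.le (norm_nonneg (z - z'))]
  -- the basic estimate
  have key : ∀ (c : S) (z z' : ℂ) (s s' : ℝ), lam * ‖z‖ ≤ d → lam * ‖z'‖ ≤ d → |s| ≤ δ → |s'| ≤ δ →
      lam * ‖z - z'‖ ≤ 2 * ‖(φ s (Y c z) : E) - φ s' (Y c z')‖ ∧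
      ‖co (u c) (n c) ((φ s (Y c z) : E) - φ s' (Y c z')) - lam * (z - z')‖
        ≤ k * ‖(φ s (Y c z) : E) - φ s' (Y c z')‖ ∧
      |s - s'| * m ≤ 4 * ‖(φ s (Y c z) : E) - φ s' (Y c z')‖ := by
    intro c z z' s s' hz hz' hs hs'
    have h1 := hU c (Y c z) (Y c z') s s' (by linarith [Ynear c z]) (by linarith [Ynear c z'])
      (hs.trans hδ1) (hs'.trans hδ1)
    rw [hext_coe, hext_coe] at h1
    obtain ⟨w, hw⟩ : ∃ w : E, w = (φ s (Y c z) : E) - φ s' (Y c z') := ⟨_, rfl⟩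
    obtain ⟨v, hv⟩ : ∃ v : E, v = (Y c z : E) - Y c z' := ⟨_, rfl⟩
    have h2 := Ylip c z z' hz hz'
    have h3 := Yest c z z' hz hz'
    have h4 : ⟪v, X c⟫ = (0 : ℝ) := by
      rw [hv, inner_sub_left, hY, sec_b (hF c) (h.perp c), sec_b (hF c) (h.perp c), sub_zero]
    rw [← hw, ← hv] at h1
    rw [← hv] at h2 h3
    rw [← hw]
    have h5 : ‖w - v - (s - s') • X c‖ ≤ κ * (2 * (lam * ‖z - z'‖) + |s - s'|) :=
      h1.trans (mul_le_mul_of_nonneg_left (by linarith) hκ0.le)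
    refine arith (κ := κ) (d := d) hm hk0 (by linarith) hκ1 hκ2 hd1 (by positivity)
      (norm_nonneg _) (abs_nonneg _) ?_ ?_ ?_
    · have e1 : ⟪w - (w - v - (s - s') • X c), X c⟫ = (s - s') * ‖X c‖ ^ 2 := by
        rw [show w - (w - v - (s - s') • X c) = v + (s - s') • X c by abel, inner_add_left, h4,
          real_inner_smul_left, real_inner_self_eq_norm_sq, zero_add]
      have e2 := abs_real_inner_le_norm (w - (w - v - (s - s') • X c)) (X c)
      rw [e1, abs_mul, abs_of_nonneg (sq_nonneg ‖X c‖), sq, ← mul_assoc] at e2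
      have e3 := le_of_mul_le_mul_right e2 (hm.trans_le (h.low c))
      have e4 := norm_sub_le w (w - v - (s - s') • X c)
      have e5 := mul_le_mul_of_nonneg_left (h.low c) (abs_nonneg (s - s'))
      linarith
    · have e1 : co (u c) (n c) w - lam * (z - z') = co (u c) (n c) (v - em (u c) (n c)
          (lam * (z - z'))) + co (u c) (n c) (w - v - (s - s') • X c) := by
        rw [co_sub, co_sub, co_sub, co_smul, co_b (hF c), co_em (hF c)]; ring
      rw [e1]
      exact (norm_add_le _ _).trans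
        (add_le_add ((co_le (hF c) _).trans h3) ((co_le (hF c) _).trans h5))
    · have e1 := norm_le_insert (co (u c) (n c) w) (lam * (z - z'))
      rw [norm_mul, Complex.norm_real, Real.norm_of_nonneg hl.le] at e1
      linarith [co_le (hF c) w]
  -- the hitting time
  have hit : ∀ c q : S, ∃ p : ℝ × ℂ, ‖(q : E) - c‖ ≤ 10 ^ 6 * lam →
      |p.1| ≤ δ / 10 ∧ φ p.1 q = Y c p.2 ∧ lam * ‖p.2‖ ≤ d := by
    intro c q
    by_cases hq : ‖(q : E) - c‖ ≤ 10 ^ 6 * lam
    swap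
    · exact ⟨0, fun h' => absurd h' hq⟩
    rw [hlam] at hq
    have h1 : ∀ t, |t| ≤ δ / 10 → ‖(φ t q : E) - q - t • X c‖ ≤ κ * |t| := fun t ht => by
      have := hU c q q t 0 (by linarith) (by linarith) (by linarith) (by simpa using hδ₀.le)
      rwa [hext_coe, hext_coe, h.zero, sub_self, sub_zero, sub_zero, norm_zero, zero_add] at this
    have hXc := h.low c
    have h2 : ∀ t, |t| ≤ δ / 10 →
        |⟪(φ t q : E), X c⟫ - t * ‖X c‖ ^ 2| ≤ (ρ + κ * |t|) * ‖X c‖ := fun t ht => by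
      have e1 : ⟪(φ t q : E), X c⟫ - t * ‖X c‖ ^ 2
          = ⟪((q : E) - c) + ((φ t q : E) - q - t • X c), X c⟫ := by
        simp only [inner_add_left, inner_sub_left, real_inner_smul_left, h.perp c,
          real_inner_self_eq_norm_sq]
        ring
      rw [e1]
      exact (abs_real_inner_le_norm _ _).trans (mul_le_mul_of_nonneg_right
        ((norm_add_le _ _).trans (add_le_add hq (h1 t ht))) (norm_nonneg _))
    have hc : Continuous fun t : ℝ => (⟪(φ t q : E), X c⟫ : ℝ) :=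
      (continuous_subtype_val.comp (h.cont.comp (continuous_id.prodMk continuous_const))).inner
        continuous_const
    have h3 : (ρ + κ * (δ / 10)) * ‖X c‖ ≤ δ / 10 * ‖X c‖ ^ 2 := by
      rw [sq, ← mul_assoc]
      refine mul_le_mul_of_nonneg_right ?_ (norm_nonneg _)
      have : κ ≤ m / 2 := by nlinarith
      nlinarith
    have a1 : |δ / 10| = δ / 10 := abs_of_pos (by positivity)
    have a2 : |-(δ / 10)| = δ / 10 := by rw [abs_neg, a1]
    have h4 := abs_le.1 (h2 _ a1.le)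
    have h5 := abs_le.1 (h2 _ a2.le)
    rw [a1] at h4
    rw [a2] at h5
    obtain ⟨t, ht, ht0⟩ := intermediate_value_Icc (show -(δ / 10) ≤ δ / 10 by linarith)
      hc.continuousOn (show (0 : ℝ) ∈ Icc _ _ from ⟨by linarith [h5.2], by linarith [h4.1]⟩)
    have ht' : |t| ≤ δ / 10 := abs_le.2 ht
    have h6 : ‖(φ t q : E) - c‖ ≤ d / 2 := by
      have e1 : (φ t q : E) - c = ((q : E) - c) + ((φ t q : E) - q - t • X c) + t • X c := by abel
      have e2 : ‖t • X c‖ ≤ |t| * M := by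
        rw [norm_smul, Real.norm_eq_abs]
        exact mul_le_mul_of_nonneg_left (h.up c) (abs_nonneg _)
      have e3 : κ * |t| ≤ 1 * |t| := mul_le_mul_of_nonneg_right (by linarith) (abs_nonneg _)
      have e4 : |t| * (M + 1) ≤ δ / 10 * (M + 1) := mul_le_mul_of_nonneg_right ht' (by positivity)
      rw [e1]
      linarith [norm_add₃_le (a := (q : E) - c) (b := (φ t q : E) - q - t • X c) (c := t • X c),
        h1 t ht']
    obtain ⟨z, hz, hz'⟩ := sec_surj (hF c) (hX0 c) (h.perp c) hl (φ t q) ht0 (by linarith)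
    exact ⟨(t, z), fun _ => ⟨ht', by rw [hY]; exact hz, by linarith⟩⟩
  choose p hp using hit
  have back : ∀ c q : S, ‖(q : E) - c‖ ≤ 10 ^ 6 * lam → φ (-(p c q).1) (Y c (p c q).2) = q :=
    fun c q hq => by rw [← (hp c q hq).2.1, ← h.add, neg_add_cancel, h.zero]
  have key2 : ∀ c q q' : S, ‖(q : E) - c‖ ≤ 10 ^ 6 * lam → ‖(q' : E) - c‖ ≤ 10 ^ 6 * lam →
      lam * ‖(p c q).2 - (p c q').2‖ ≤ 2 * ‖(q : E) - q'‖ ∧
      ‖co (u c) (n c) ((q : E) - q') - lam * ((p c q).2 - (p c q').2)‖ ≤ k * ‖(q : E) - q'‖ := by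
    intro c q q' hq hq'
    have := key c _ _ (-(p c q).1) (-(p c q').1) (hp c q hq).2.2 (hp c q' hq').2.2
      (by rw [abs_neg]; linarith [(hp c q hq).1]) (by rw [abs_neg]; linarith [(hp c q' hq').1])
    rw [back c q hq, back c q' hq'] at this
    exact ⟨this.1, this.2.1⟩
  have big : ∀ z : ℂ, ‖z‖ ≤ 2 * 10 ^ 6 → lam * ‖z‖ ≤ 2 * ρ := fun z hz => by
    nlinarith
  refine ⟨lam, δ, Y, fun c q => (p c q).2, fun c q => (p c q).1, hδe, hl, by linarith, hδ0,
    fun c => by rw [hY]; exact sec_cont (hF c), Ynear, fun c => ?_, fun c q hq => (hp c q hq).2.1,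
    fun c q hq => (hp c q hq).1, fun c q hq => ?_, fun c z z' t ht hz hz' he => ?_,
    fun c c' z z' hz hz' hq hq' => ?_⟩
  · refine (LipschitzOnWith.of_dist_le_mul (K := ⟨2 / lam, by positivity⟩)
      fun q hq q' hq' => ?_).continuousOn
    rw [dist_eq_norm, Subtype.dist_eq, dist_eq_norm]
    show _ ≤ 2 / lam * _
    rw [div_mul_eq_mul_div, le_div_iff₀' hl]
    exact (key2 c q q' hq hq').1
  · have := (key c (p c q).2 0 (-(p c q).1) 0 (hp c q hq).2.2 (by simpa using hd0.le)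
      (by rw [abs_neg]; linarith [(hp c q hq).1]) (by simpa using hδ0.le)).1
    have e0 : Y c 0 = c := by rw [hY]; exact sec_zero
    rwa [back c q hq, h.zero, sub_zero, e0] at this
  · obtain ⟨h1, -, h2⟩ := key c z z' t 0 (by linarith [big z hz]) (by linarith [big z' hz']) ht
      (by simpa using hδ0.le)
    rw [he, h.zero, sub_self, norm_zero, mul_zero] at h1 h2
    rw [sub_zero] at h2
    exact ⟨abs_nonpos_iff.1 (by nlinarith [abs_nonneg t]),
      sub_eq_zero.1 (norm_le_zero_iff.1 (by nlinarith [norm_nonneg (z - z')]))⟩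
  · have h1 := (key2 c' _ _ hq hq').2
    have h2 := Ylip c z z' (by linarith [big z hz]) (by linarith [big z' hz'])
    have h3 := Yest c z z' (by linarith [big z hz]) (by linarith [big z' hz'])
    have h4 : dist c c' ≤ 5 * ρ := by
      rw [Subtype.dist_eq, dist_eq_norm]
      have := norm_sub_le_norm_sub_add_norm_sub (c : E) (Y c z) c'
      rw [norm_sub_rev (c : E) (Y c z)] at this
      linarith [Ynear c z, big z hz]
    have h5 := hu1 (a := c) (b := c') (by linarith)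
    have h6 := hn1 (a := c) (b := c') (by linarith)
    rw [dist_eq_norm] at h5 h6
    obtain ⟨ζ, hζ⟩ : ∃ ζ : ℂ, ζ = lam * (z - z') := ⟨_, rfl⟩
    have hA : ‖ζ‖ = lam * ‖z - z'‖ := by
      rw [hζ, norm_mul, Complex.norm_real, Real.norm_of_nonneg hl.le]
    have h7 : ‖em (u c) (n c) ζ - em (u c') (n c') ζ‖ ≤ 2 * k * ‖ζ‖ := by
      have e1 : em (u c) (n c) ζ - em (u c') (n c') ζ
          = ζ.re • (u c - u c') + ζ.im • (n c - n c') := by
        simp only [BoxAux.em]; module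
      rw [e1]
      refine (norm_add_le _ _).trans ?_
      rw [norm_smul, norm_smul, Real.norm_eq_abs, Real.norm_eq_abs]
      have e2 := mul_le_mul (Complex.abs_re_le_norm ζ) h5.le (norm_nonneg _) (norm_nonneg _)
      have e3 := mul_le_mul (Complex.abs_im_le_norm ζ) h6.le (norm_nonneg _) (norm_nonneg _)
      linarith
    rw [← hζ, ← hA] at h3
    rw [← hA] at h2
    obtain ⟨v, hv⟩ : ∃ v : E, v = (Y c z : E) - Y c z' := ⟨_, rfl⟩
    rw [← hv] at h1 h2 h3
    have e1 : (lam : ℂ) * ((p c' (Y c z)).2 - (p c' (Y c z')).2 - (z - z'))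
        = co (u c') (n c') (v - em (u c) (n c) ζ)
          + co (u c') (n c') (em (u c) (n c) ζ - em (u c') (n c') ζ)
          - (co (u c') (n c') v - lam * ((p c' (Y c z)).2 - (p c' (Y c z')).2)) := by
      rw [co_sub, co_sub, co_em (hF c'), hζ]; ring
    have e2 := norm_sub_le (co (u c') (n c') (v - em (u c) (n c) ζ)
      + co (u c') (n c') (em (u c) (n c) ζ - em (u c') (n c') ζ))
      (co (u c') (n c') v - lam * ((p c' (Y c z)).2 - (p c' (Y c z')).2))
    have e3 := norm_add_le (co (u c') (n c') (v - em (u c) (n c) ζ))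
      (co (u c') (n c') (em (u c) (n c) ζ - em (u c') (n c') ζ))
    rw [← e1, norm_mul, Complex.norm_real, Real.norm_of_nonneg hl.le] at e2
    have e4 := (co_le (hF c') _).trans h3
    have e5 := (co_le (hF c') _).trans h7
    have e6 := mul_le_mul_of_nonneg_left h2 hk0.le
    have e7 := mul_le_mul_of_nonneg_right hd1 (norm_nonneg ζ)
    refine le_of_mul_le_mul_left ?_ hl
    rw [mul_left_comm, ← hA]
    rw [hk] at h1 e5 e6 e7
    linarith [norm_nonneg ζ]

end Pool.Agent.Lib.MP_399f8e_an.Ur
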