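import Pool.Agent.Lib.MP_399f8e_an.Ur.Var

open Set Filter Topology Metric Complex
open scoped Real
open Pool.Agent.Lib.MP_399f8e_an.Rg

noncomputable section

namespace Pool.Agent.Lib.MP_399f8e_an.Ur

namespace JumpAux

theorem conv (μ d : ℂ) (σ : ℝ) : Convex ℝ {z : ℂ | 0 < σ * ((z - μ) / d).im} := by
  intro x hx y hy p q hp hq hpq
  simp only [mem_ofPred_eq] at hx hy ⊢
  have hq' : (q : ℂ) = 1 - p := by
    have : q = 1 - p := by linarith
    rw [this]; push_cast; ring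
  have e : (p • x + q • y - μ) / d = (p : ℂ) * ((x - μ) / d) + (q : ℂ) * ((y - μ) / d) := by
    simp only [Complex.real_smul]
    rw [hq']; ring
  rw [e]
  simp only [Complex.add_im, Complex.mul_im, Complex.ofReal_re, Complex.ofReal_im, zero_mul,
    add_zero]
  rcases hp.eq_or_lt with h | h
  · have : q = 1 := by linarith
    subst h; subst this; simpa using hy
  · have h1 : 0 < p * (σ * ((x - μ) / d).im) := mul_pos h hx
    have h2 : 0 ≤ q * (σ * ((y - μ) / d).im) := mul_nonneg hq hy.le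
    nlinarith

theorem side {w rest : ℂ → ℝ} {P : ℝ → ℂ} {a b r : ℝ} {μ d : ℂ} (hP : ContinuousOn P (uIcc a b))
    (hline : ∀ t ∈ uIcc a b, ((P t - μ) / d).im = 0) (hr : ContinuousOn rest (ball μ r))
    (hw : ∀ z ∈ ball μ r, ((z - μ) / d).im ≠ 0 →
      w z = var P a b z + rest z ∧ ∃ n : ℤ, w z = 2 * π * n) (σ : ℝ) :
    ∀ z ∈ ball μ r, ∀ z' ∈ ball μ r, 0 < σ * ((z - μ) / d).im → 0 < σ * ((z' - μ) / d).im →
      w z = w z' := by
  intro z hz z' hz' h h'
  set H : Set ℂ := ball μ r ∩ {z : ℂ | 0 < σ * ((z - μ) / d).im} with hH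
  have hne : ∀ x ∈ H, ((x - μ) / d).im ≠ 0 := by
    intro x hx h0
    have := hx.2
    simp only [mem_ofPred_eq, h0, mul_zero] at this
    exact lt_irrefl _ this
  have hpre : IsPreconnected H := ((convex_ball μ r).inter (conv μ d σ)).isPreconnected
  have hsub : H ⊆ (P '' uIcc a b)ᶜ := by
    rintro x hx ⟨t, ht, rfl⟩
    exact hne _ hx (hline t ht)
  have hcont : ContinuousOn w H := by
    have h1 : ContinuousOn (fun x => var P a b x + rest x) H :=
      ((var_cont hP).mono hsub).add (hr.mono inter_subset_left)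
    exact h1.congr fun x hx => (hw x hx.1 (hne x hx)).1
  exact int_const hpre hcont (fun x hx => (hw x hx.1 (hne x hx)).2) z ⟨hz, h⟩ z' ⟨hz', h'⟩

theorem div_eq (x d : ℂ) (σ : ℝ) (hσ : σ = 1 ∨ σ = -1) :
    x / (-(σ : ℂ) * I * d) = σ * I * (x / d) := by
  rcases eq_or_ne d 0 with rfl | hd
  · simp
  rcases hσ with rfl | rfl
  · push_cast
    field_simp
    simp
  · push_cast
    field_simp
    simp

theorem var_side {P : ℝ → ℂ} {a b : ℝ} {μ d z : ℂ} (hP : ContinuousOn P (uIcc a b))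
    (hd : d ≠ 0) (hline : ∀ t ∈ uIcc a b, ((P t - μ) / d).im = 0) {σ : ℝ} (hσ : σ = 1 ∨ σ = -1)
    (hz : 0 < σ * ((z - μ) / d).im) :
    var P a b z = arg (σ * I * ((P b - z) / d)) - arg (σ * I * ((P a - z) / d)) := by
  have hσ0 : (σ : ℂ) ≠ 0 := by
    rcases hσ with rfl | rfl <;> simp
  have hw : (-(σ : ℂ) * I * d) ≠ 0 :=
    mul_ne_zero (mul_ne_zero (neg_ne_zero.mpr hσ0) I_ne_zero) hd
  have := rot_slit (f := fun t => P t - z) (a := a) (b := b) hw (hP.sub continuousOn_const) (by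
    intro t ht
    rw [div_eq _ _ _ hσ]
    left
    have e : (P t - z) / d = (P t - μ) / d - (z - μ) / d := by ring
    rw [e]
    simp only [Complex.mul_re, Complex.mul_im, Complex.sub_re, Complex.sub_im, Complex.ofReal_re,
      Complex.ofReal_im, Complex.I_re, Complex.I_im, hline t ht]
    linarith)
  rw [div_eq _ _ _ hσ, div_eq _ _ _ hσ] at this
  exact this

theorem argc {x d μ : ℂ} {σ : ℝ} (him : ((x - μ) / d).im = 0) (hre : σ * ((x - μ) / d).re ≠ 0)
    (c : ℂ) :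
    ContinuousAt (fun y : ℝ => arg (σ * I * ((x - (μ + y * c)) / d))) 0 := by
  have h1 : ContinuousAt (fun y : ℝ => (σ : ℂ) * I * ((x - (μ + y * c)) / d)) 0 := by
    fun_prop
  have h2 : (σ : ℂ) * I * ((x - (μ + ((0 : ℝ) : ℂ) * c)) / d) ∈ slitPlane := by
    right
    simp only [Complex.ofReal_zero, zero_mul, add_zero, Complex.mul_re, Complex.mul_im,
      Complex.ofReal_re, Complex.ofReal_im, Complex.I_re, Complex.I_im, him]
    simpa using hre
  exact ContinuousAt.comp (f := fun y : ℝ => (σ : ℂ) * I * ((x - (μ + y * c)) / d))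
    (continuousAt_arg h2) h1

theorem arg_up {u : ℂ} {σ : ℝ} (him : u.im = 0) (hre : 0 < σ * u.re) :
    arg (σ * I * u) = π / 2 := by
  rw [Complex.arg_eq_pi_div_two_iff]
  simp only [Complex.mul_re, Complex.mul_im, Complex.ofReal_re, Complex.ofReal_im, Complex.I_re,
    Complex.I_im, him]
  constructor <;> linarith

theorem arg_down {u : ℂ} {σ : ℝ} (him : u.im = 0) (hre : σ * u.re < 0) :
    arg (σ * I * u) = -(π / 2) := by
  rw [Complex.arg_eq_neg_pi_div_two_iff]
  simp only [Complex.mul_re, Complex.mul_im, Complex.ofReal_re, Complex.ofReal_im, Complex.I_re,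
    Complex.I_im, him]
  constructor <;> linarith

theorem im_pt {μ d : ℂ} (hd : d ≠ 0) (y : ℝ) : ((μ + y * (I * d) - μ) / d).im = y := by
  have : (μ + y * (I * d) - μ) / d = y * I := by field_simp; ring
  rw [this]; simp

theorem im_pt' {μ d : ℂ} (hd : d ≠ 0) (y : ℝ) : ((μ + y * (-(I * d)) - μ) / d).im = -y := by
  have : (μ + y * (-(I * d)) - μ) / d = -(y * I) := by field_simp; ring
  rw [this]; simp

end JumpAux

open JumpAux

theorem jump {w rest : ℂ → ℝ} {P : ℝ → ℂ} {a b r : ℝ} {μ d : ℂ} (hP : ContinuousOn P (uIcc a b))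
    (hd : d ≠ 0) (hline : ∀ t ∈ uIcc a b, ((P t - μ) / d).im = 0) (ha : ((P a - μ) / d).re < 0)
    (hb : 0 < ((P b - μ) / d).re) (hr : ContinuousOn rest (ball μ r))
    (hw : ∀ z ∈ ball μ r, ((z - μ) / d).im ≠ 0 →
      w z = var P a b z + rest z ∧ ∃ n : ℤ, w z = 2 * π * n) :
    ∀ z ∈ ball μ r, ∀ z' ∈ ball μ r, 0 < ((z - μ) / d).im → ((z' - μ) / d).im < 0 →
      w z = w z' + 2 * π := by
  intro z hz z' hz' h h'
  have hr0 : 0 < r := lt_of_le_of_lt dist_nonneg (mem_ball.mp hz)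
  have hia := hline a left_mem_uIcc
  have hib := hline b right_mem_uIcc
  have hrc : ContinuousAt rest μ := hr.continuousAt (ball_mem_nhds μ hr0)
  have hpt : ∀ c : ℂ, Tendsto (fun y : ℝ => μ + y * c) (𝓝 0) (𝓝 μ) := by
    intro c
    have : ContinuousAt (fun y : ℝ => μ + y * c) 0 := by fun_prop
    simpa using this.tendsto
  set H : ℝ → ℝ := fun y =>
    (arg ((1 : ℝ) * I * ((P b - (μ + y * (I * d))) / d))
      - arg ((1 : ℝ) * I * ((P a - (μ + y * (I * d))) / d)) + rest (μ + y * (I * d)))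
    - (arg ((-1 : ℝ) * I * ((P b - (μ + y * (-(I * d)))) / d))
      - arg ((-1 : ℝ) * I * ((P a - (μ + y * (-(I * d)))) / d)) + rest (μ + y * (-(I * d))))
    with hH
  have hlim : Tendsto H (𝓝 0) (𝓝 (2 * π)) := by
    have t1 := (argc (σ := 1) hib (by linarith) (I * d)).tendsto
    have t2 := (argc (σ := 1) hia (by linarith) (I * d)).tendsto
    have t3 := (argc (σ := -1) hib (by linarith) (-(I * d))).tendsto
    have t4 := (argc (σ := -1) hia (by linarith) (-(I * d))).tendsto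
    simp only [Complex.ofReal_zero, zero_mul, add_zero] at t1 t2 t3 t4
    rw [arg_up hib (by linarith)] at t1
    rw [arg_down hia (by linarith)] at t2
    rw [arg_down hib (by linarith)] at t3
    rw [arg_up hia (by linarith)] at t4
    have t5 := hrc.tendsto.comp (hpt (I * d))
    have t6 := hrc.tendsto.comp (hpt (-(I * d)))
    have := ((t1.sub t2).add t5).sub ((t3.sub t4).add t6)
    have e : π / 2 - -(π / 2) + rest μ - (-(π / 2) - π / 2 + rest μ) = 2 * π := by ring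
    rw [e] at this
    exact this
  have ev1 : ∀ᶠ y in 𝓝 (0 : ℝ), H y ∈ Ioo (0 : ℝ) (4 * π) :=
    hlim (Ioo_mem_nhds (by positivity) (by linarith [Real.pi_pos]))
  have ev2 : ∀ᶠ y : ℝ in 𝓝 0, μ + y * (I * d) ∈ ball μ r := hpt _ (ball_mem_nhds μ hr0)
  have ev3 : ∀ᶠ y : ℝ in 𝓝 0, μ + y * (-(I * d)) ∈ ball μ r := hpt _ (ball_mem_nhds μ hr0)
  obtain ⟨y, ⟨h1, h2, h3⟩, hy⟩ : ∃ y : ℝ, (H y ∈ Ioo (0 : ℝ) (4 * π) ∧ μ + y * (I * d) ∈ ball μ r ∧
      μ + y * (-(I * d)) ∈ ball μ r) ∧ 0 < y :=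
    (((ev1.and (ev2.and ev3)).filter_mono nhdsWithin_le_nhds).and
      (self_mem_nhdsWithin (s := Ioi (0 : ℝ)))).exists
  have i1 := im_pt (μ := μ) hd y
  have i2 := im_pt' (μ := μ) hd y
  have e1 : w z = w (μ + y * (I * d)) :=
    side hP hline hr hw 1 z hz _ h2 (by linarith) (by rw [i1]; linarith)
  have e2 : w z' = w (μ + y * (-(I * d))) :=
    side hP hline hr hw (-1) z' hz' _ h3 (by linarith) (by rw [i2]; linarith)
  obtain ⟨f1, n, hn⟩ := hw _ h2 (by rw [i1]; exact hy.ne')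
  obtain ⟨f2, m, hm⟩ := hw _ h3 (by rw [i2]; linarith)
  rw [var_side (σ := 1) hP hd hline (Or.inl rfl) (by rw [i1]; linarith)] at f1
  rw [var_side (σ := -1) hP hd hline (Or.inr rfl) (by rw [i2]; linarith)] at f2
  have hHy : H y = 2 * π * n - 2 * π * m := by
    rw [← hn, ← hm, f1, f2]
  rw [hHy] at h1
  have hπ := Real.pi_pos
  have k1 : (m : ℝ) < n := by nlinarith [h1.1]
  have k2 : (n : ℝ) < m + 2 := by nlinarith [h1.2]
  have k3 : n = m + 1 := by
    have a1 : m < n := by exact_mod_cast k1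
    have a2 : n < m + 2 := by exact_mod_cast k2
    omega
  rw [e1, e2, hn, hm, k3]
  push_cast
  ring

theorem gain {J U V K : Set ℂ} {w rest : ℂ → ℝ} {c : ℝ} (hJ : Jor J U V)
    (hc : c = 2 * π ∨ c = -(2 * π)) (hU : ∀ z ∈ U, w z = c) (hV : ∀ z ∈ V, w z = 0)
    {L : ℝ → ℂ} {s s₁ e γ η ρ : ℝ} {v d : ℂ} (hL : Continuous L) (hseg : Seg L s s₁ v d e)
    (he : 0 < e) (hd : ‖d‖ = 1) (hJK : J = L '' Icc s s₁ ∪ K) (hr : ContinuousOn rest Kᶜ)
    (hw : ∀ z, z ∉ J → w z = var L s s₁ z + rest z) (hη : η = 1 ∨ η = -1) (hρ : 0 < ρ)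
    (hK : ∀ z ∈ K, ‖z - v‖ < ρ → ((z - v) / d).re ≤ 0)
    (hside : ∀ z, ‖z - v‖ < ρ → η * ((z - v) / d).im < 0 → z ∈ V) (hγ : 0 < γ)
    (hKγ : ∀ z ∈ K, γ ≤ ‖z - (v + e / 2 * d)‖) :
    c = η * (2 * π) ∧ ball (v + e / 2 * d + η * γ / 2 * (I * d)) (γ / 2) ⊆ U := by
  have hd0 : d ≠ 0 := by
    rintro rfl
    simp at hd
  have hπ := Real.pi_pos
  have hab : ∀ x μ : ℂ, |((x - μ) / d).re| ≤ ‖x - μ‖ ∧ |((x - μ) / d).im| ≤ ‖x - μ‖ := by
    intro x μ
    have e1 : ‖(x - μ) / d‖ = ‖x - μ‖ := by rw [norm_div, hd, div_one]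
    exact ⟨e1 ▸ Complex.abs_re_le_norm _, e1 ▸ Complex.abs_im_le_norm _⟩
  have hval : ∀ z, z ∉ J → (z ∈ U ∧ w z = c) ∨ (z ∈ V ∧ w z = 0) := by
    intro z hz
    rcases hJ.cover z with h | h | h
    · exact absurd h hz
    · exact Or.inl ⟨h, hU z h⟩
    · exact Or.inr ⟨h, hV z h⟩
  have key : ∀ (x r : ℝ), 0 < x → x < e → (∀ z ∈ ball (v + x * d) r, z ∉ K) →
      (∀ z ∈ ball (v + x * d) r, ((z - (v + x * d)) / d).im ≠ 0 → z ∉ J) ∧
      ∀ z ∈ ball (v + x * d) r, ∀ z' ∈ ball (v + x * d) r, 0 < ((z - (v + x * d)) / d).im →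
        ((z' - (v + x * d)) / d).im < 0 → w z = w z' + 2 * π := by
    intro x r hx hxe hK'
    have hq : ∀ t : ℝ, (v + t * d - (v + x * d)) / d = ((t - x : ℝ) : ℂ) := by
      intro t
      push_cast
      field_simp
      ring
    have hline : ∀ t ∈ uIcc s s₁, ((L t - (v + x * d)) / d).im = 0 := by
      intro t ht
      rw [uIcc_of_le hseg.lt.le] at ht
      obtain ⟨y, -, hy⟩ := hseg.mem t ht
      rw [hy, hq, Complex.ofReal_im]
    have hoff : ∀ z ∈ ball (v + x * d) r, ((z - (v + x * d)) / d).im ≠ 0 → z ∉ J := by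
      intro z hz hi hzJ
      rw [hJK] at hzJ
      rcases hzJ with ⟨t, ht, rfl⟩ | h
      · exact hi (hline t (by rwa [uIcc_of_le hseg.lt.le]))
      · exact hK' z hz h
    refine ⟨hoff, jump (rest := rest) (P := L) (a := s) (b := s₁) hL.continuousOn hd0 hline ?_ ?_
      (hr.mono hK') ?_⟩
    · have := hq 0
      simp only [Complex.ofReal_zero, zero_mul, add_zero] at this
      rw [hseg.fst, this, Complex.ofReal_re]
      linarith
    · rw [hseg.snd, hq, Complex.ofReal_re]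
      linarith
    · intro z hz hi
      refine ⟨hw z (hoff z hz hi), ?_⟩
      rcases hval z (hoff z hz hi) with ⟨-, h⟩ | ⟨-, h⟩
      · rcases hc with h' | h'
        · exact ⟨1, by rw [h, h']; simp⟩
        · exact ⟨-1, by rw [h, h']; simp⟩
      · exact ⟨0, by rw [h]; simp⟩
  have hb1 : ∀ (μ : ℂ) (r : ℝ), 0 < r → μ + ((r / 2 : ℝ) : ℂ) * (I * d) ∈ ball μ r := by
    intro μ r hr0
    rw [mem_ball, dist_eq_norm, add_sub_cancel_left, norm_mul, norm_mul, Complex.norm_I, hd,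
      Complex.norm_real, Real.norm_eq_abs, abs_of_pos (by linarith)]
    linarith
  have hb2 : ∀ (μ : ℂ) (r : ℝ), 0 < r → μ + ((r / 2 : ℝ) : ℂ) * (-(I * d)) ∈ ball μ r := by
    intro μ r hr0
    rw [mem_ball, dist_eq_norm, add_sub_cancel_left, norm_mul, norm_neg, norm_mul, Complex.norm_I,
      hd, Complex.norm_real, Real.norm_eq_abs, abs_of_pos (by linarith)]
    linarith
  have hceq : c = η * (2 * π) := by
    set x : ℝ := min ρ e / 2 with hx
    have hx0 : 0 < x := by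
      have := lt_min hρ he
      linarith
    have hx1 : 2 * x ≤ ρ := by
      have := min_le_left ρ e
      linarith
    have hx2 : x < e := by
      have := min_le_right ρ e
      linarith
    have hsh : ∀ z : ℂ, (z - v) / d = (z - (v + x * d)) / d + x := by
      intro z
      field_simp
      ring
    have hnear : ∀ z ∈ ball (v + x * d) x, ‖z - v‖ < ρ := by
      intro z hz
      rw [mem_ball, dist_eq_norm] at hz
      have e1 : z - v = (z - (v + x * d)) + x * d := by ring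
      have e2 : ‖(x : ℂ) * d‖ = x := by
        rw [norm_mul, hd, Complex.norm_real, Real.norm_eq_abs, abs_of_pos hx0, mul_one]
      have := norm_add_le (z - (v + x * d)) (x * d)
      rw [e1]
      linarith
    obtain ⟨hoff, hj⟩ := key x x hx0 hx2 (by
      intro z hz hzK
      have h1 := hK z hzK (hnear z hz)
      rw [hsh, Complex.add_re, Complex.ofReal_re] at h1
      rw [mem_ball, dist_eq_norm] at hz
      have := (abs_le.mp (hab z (v + x * d)).1).1
      linarith)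
    have i1 := im_pt (μ := v + x * d) hd0 (x / 2)
    have i2 := im_pt' (μ := v + x * d) hd0 (x / 2)
    have m1 := hb1 (v + x * d) x hx0
    have m2 := hb2 (v + x * d) x hx0
    have hjj := hj _ m1 _ m2 (by rw [i1]; linarith) (by rw [i2]; linarith)
    rcases hη with rfl | rfl
    · have h0 := hV _ (hside _ (hnear _ m2) (by
        rw [hsh, Complex.add_im, Complex.ofReal_im, i2]; linarith))
      rcases hval _ (hoff _ m1 (by rw [i1]; linarith)) with ⟨-, h⟩ | ⟨-, h⟩
      · linarith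
      · linarith
    · have h0 := hV _ (hside _ (hnear _ m1) (by
        rw [hsh, Complex.add_im, Complex.ofReal_im, i1]; linarith))
      rcases hval _ (hoff _ m2 (by rw [i2]; linarith)) with ⟨-, h⟩ | ⟨-, h⟩
      · linarith
      · linarith
  refine ⟨hceq, ?_⟩
  have hμ : v + (e : ℂ) / 2 * d = v + ((e / 2 : ℝ) : ℂ) * d := by push_cast; ring
  rw [hμ] at hKγ ⊢
  obtain ⟨hoff, hj⟩ := key (e / 2) γ (by linarith) (by linarith) (by
    intro z hz hzK
    rw [mem_ball, dist_eq_norm] at hz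
    exact absurd (hKγ z hzK) (not_le.mpr hz))
  set μ : ℂ := v + ((e / 2 : ℝ) : ℂ) * d with hμd
  have i1 := im_pt (μ := μ) hd0 (γ / 2)
  have i2 := im_pt' (μ := μ) hd0 (γ / 2)
  have m1 := hb1 μ γ hγ
  have m2 := hb2 μ γ hγ
  intro z hz
  rw [mem_ball, dist_eq_norm] at hz
  have hzb : z ∈ ball μ γ := by
    rw [mem_ball, dist_eq_norm]
    have e1 : z - μ = (z - (μ + η * γ / 2 * (I * d))) + ((η * γ / 2 : ℝ) : ℂ) * (I * d) := by
      push_cast
      ring
    have e2 : ‖((η * γ / 2 : ℝ) : ℂ) * (I * d)‖ = γ / 2 := by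
      rw [norm_mul, norm_mul, Complex.norm_I, hd, Complex.norm_real, Real.norm_eq_abs]
      rcases hη with rfl | rfl
      · rw [abs_of_pos (by linarith)]; ring
      · rw [abs_of_neg (by linarith)]; ring
    have := norm_add_le (z - (μ + η * γ / 2 * (I * d))) (((η * γ / 2 : ℝ) : ℂ) * (I * d))
    rw [e1]
    linarith
  have him : ((z - μ) / d).im = ((z - (μ + η * γ / 2 * (I * d))) / d).im + η * γ / 2 := by
    have : (z - μ) / d = (z - (μ + η * γ / 2 * (I * d))) / d + ((η * γ / 2 : ℝ) : ℂ) * I := by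
      push_cast
      field_simp
      ring
    rw [this, Complex.add_im, Complex.mul_im, Complex.ofReal_re, Complex.ofReal_im]
    simp
  have hbd := abs_le.mp (hab z (μ + η * γ / 2 * (I * d))).2
  rcases hη with rfl | rfl
  · have hp : 0 < ((z - μ) / d).im := by linarith [hbd.1]
    have hjj := hj _ hzb _ m2 hp (by rw [i2]; linarith)
    rcases hval _ (hoff _ hzb hp.ne') with ⟨h, -⟩ | ⟨-, h⟩
    · exact h
    · exfalso
      rcases hval _ (hoff _ m2 (by rw [i2]; linarith)) with ⟨-, h'⟩ | ⟨-, h'⟩ <;> linarith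
  · have hp : ((z - μ) / d).im < 0 := by linarith [hbd.2]
    have hjj := hj _ m1 _ hzb (by rw [i1]; linarith) hp
    rcases hval _ (hoff _ hzb hp.ne) with ⟨h, -⟩ | ⟨-, h⟩
    · exact h
    · exfalso
      rcases hval _ (hoff _ m1 (by rw [i1]; linarith)) with ⟨-, h'⟩ | ⟨-, h'⟩ <;> linarith

end Pool.Agent.Lib.MP_399f8e_an.Ur
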