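import Pool.Agent.Lib.MP_399f8e_an.Ur.Sep
import Pool.Agent.Lib.MP_399f8e_an.Ur.Jump

open Set Filter Topology Metric Complex
open scoped Real
open Pool.Agent.Lib.MP_399f8e_an.Rg

noncomputable section

namespace Pool.Agent.Lib.MP_399f8e_an.Ur

namespace JordanAux

/-- removing a small open piece of `P` from the loop leaves an arc -/
theorem arc_piece {P Q : ℝ → ℂ} {a b c d t₁ t₂ : ℝ} (hP : Continuous P) (hQ : Continuous Q)
    (hcd : c ≤ d) (iP : InjOn P (Icc a b)) (iQ : InjOn Q (Icc c d)) (h1 : P a = Q c)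
    (h2 : P b = Q d) (hm : ∀ s ∈ Icc a b, ∀ t ∈ Icc c d, P s = Q t → s = a ∨ s = b)
    (k1 : a < t₁) (k2 : t₁ < t₂) (k3 : t₂ < b) :
    IsPreconnected (P '' Icc t₂ b ∪ Q '' Icc c d ∪ P '' Icc a t₁)ᶜ := by
  have hR : Continuous fun t : ℝ => Q (d - t) := hQ.comp (continuous_const.sub continuous_id)
  have e1 : P b = (fun t : ℝ => Q (d - t)) 0 := by simpa using h2
  have hdc : (0 : ℝ) ≤ d - c := sub_nonneg.2 hcd
  have iR : InjOn (fun t : ℝ => Q (d - t)) (Icc 0 (d - c)) := fun s hs t ht e => by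
    have := iQ ⟨by linarith [hs.2], by linarith [hs.1]⟩ ⟨by linarith [ht.2], by linarith [ht.1]⟩ e
    linarith
  have imR : (fun t : ℝ => Q (d - t)) '' Icc 0 (d - c) = Q '' Icc c d := by
    ext z
    constructor
    · rintro ⟨t, ht, rfl⟩
      exact ⟨d - t, ⟨by linarith [ht.2], by linarith [ht.1]⟩, rfl⟩
    · rintro ⟨t, ht, rfl⟩
      exact ⟨d - t, ⟨by linarith [ht.2], by linarith [ht.1]⟩, by simp⟩
  have i1 : InjOn (cat P b (fun t : ℝ => Q (d - t)) 0) (Icc t₂ (b + (d - c - 0))) := by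
    refine injOn_cat e1 hdc (iP.mono (Icc_subset_Icc (by linarith) le_rfl)) iR ?_
    intro s hs t ht e
    rcases hm s ⟨by linarith [hs.1], hs.2⟩ (d - t) ⟨by linarith [ht.2], by linarith [ht.1]⟩ e with
      h | h
    · linarith [hs.1]
    · exact h
  have e2 : cat P b (fun t : ℝ => Q (d - t)) 0 (b + (d - c - 0)) = P a := by
    rw [cat_ge (Q := fun t : ℝ => Q (d - t)) e1 (by linarith), h1]
    congr 1
    ring
  have i2 : InjOn (cat (cat P b (fun t : ℝ => Q (d - t)) 0) (b + (d - c - 0)) P a)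
      (Icc t₂ (b + (d - c - 0) + (t₁ - a))) := by
    refine injOn_cat e2 k1.le i1 (iP.mono (Icc_subset_Icc le_rfl (by linarith))) ?_
    intro s hs t ht e
    rcases le_total s b with h | h
    · rw [cat_le h] at e
      have := iP ⟨by linarith [hs.1], h⟩ ⟨ht.1, by linarith [ht.2]⟩ e
      linarith [hs.1, ht.2]
    · rw [cat_ge (Q := fun t : ℝ => Q (d - t)) e1 h] at e
      have hmem : d - (s - b + 0) ∈ Icc c d := ⟨by linarith [hs.2], by linarith⟩
      rcases hm t ⟨ht.1, by linarith [ht.2]⟩ _ hmem e.symm with h' | h'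
      · have : d - (s - b + 0) = c := iQ hmem ⟨le_rfl, hcd⟩ (by rw [← h1, ← h']; exact e)
        linarith
      · linarith [ht.2]
  have := arc_compl (continuous_cat (continuous_cat hP hR e1) hP e2) (by linarith) i2
  rwa [image_cat e2 (by linarith) k1.le, image_cat (Q := fun t : ℝ => Q (d - t)) e1 k3.le hdc,
    imR] at this

theorem near_piece {P : ℝ → ℂ} {a b s : ℝ} {N : Set ℂ} (hP : Continuous P) (hab : a < b)
    (hs : s ∈ Icc a b) (hN : IsOpen N) (h : P s ∈ N) :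
    ∃ t₁ t₂, a < t₁ ∧ t₁ < t₂ ∧ t₂ < b ∧ ∀ t ∈ Icc t₁ t₂, P t ∈ N := by
  have ho : IsOpen (P ⁻¹' N) := hN.preimage hP
  have hc : s ∈ closure (Ioo a b) := by rw [closure_Ioo hab.ne]; exact hs
  obtain ⟨t, ht1, ht2⟩ := mem_closure_iff.1 hc _ ho h
  obtain ⟨ε, hε, hb⟩ := Metric.isOpen_iff.1 (ho.inter isOpen_Ioo) t ⟨ht1, ht2⟩
  have m : ∀ u ∈ Icc t (t + ε / 2), u ∈ P ⁻¹' N ∩ Ioo a b := fun u hu => hb (by
    rw [Real.ball_eq_Ioo]; exact ⟨by linarith [hu.1], by linarith [hu.2]⟩)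
  exact ⟨t, t + ε / 2, ht2.1, by linarith, (m _ ⟨by linarith, le_rfl⟩).2.2, fun u hu => (m u hu).1⟩

theorem cut_one {P Q : ℝ → ℂ} {a b c d s : ℝ} {N : Set ℂ} (hP : Continuous P) (hQ : Continuous Q)
    (hab : a < b) (hcd : c ≤ d) (iP : InjOn P (Icc a b)) (iQ : InjOn Q (Icc c d)) (h1 : P a = Q c)
    (h2 : P b = Q d) (hm : ∀ s ∈ Icc a b, ∀ t ∈ Icc c d, P s = Q t → s = a ∨ s = b)
    (hs : s ∈ Icc a b) (hN : IsOpen N) (h : P s ∈ N) :
    ∃ A ⊆ P '' Icc a b ∪ Q '' Icc c d, IsPreconnected Aᶜ ∧ P '' Icc a b ∪ Q '' Icc c d ⊆ A ∪ N := by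
  obtain ⟨t₁, t₂, k1, k2, k3, k4⟩ := near_piece hP hab hs hN h
  refine ⟨_, ?_, arc_piece hP hQ hcd iP iQ h1 h2 hm k1 k2 k3, ?_⟩
  · rintro z ((⟨t, ht, rfl⟩ | hz) | ⟨t, ht, rfl⟩)
    · exact Or.inl ⟨t, ⟨by linarith [ht.1], ht.2⟩, rfl⟩
    · exact Or.inr hz
    · exact Or.inl ⟨t, ⟨ht.1, by linarith [ht.2]⟩, rfl⟩
  · rintro z (⟨t, ht, rfl⟩ | hz)
    · rcases le_total t t₁ with h' | h'
      · exact Or.inl (Or.inr ⟨t, ⟨ht.1, h'⟩, rfl⟩)
      · rcases le_total t t₂ with h'' | h''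
        · exact Or.inr (k4 t ⟨h', h''⟩)
        · exact Or.inl (Or.inl (Or.inl ⟨t, ⟨h'', ht.2⟩, rfl⟩))
    · exact Or.inl (Or.inl (Or.inr hz))

theorem cut {P Q : ℝ → ℂ} {a b c d : ℝ} {N : Set ℂ} {p : ℂ} (hP : Continuous P) (hQ : Continuous Q)
    (hab : a < b) (hcd : c ≤ d) (iP : InjOn P (Icc a b)) (iQ : InjOn Q (Icc c d)) (h1 : P a = Q c)
    (h2 : P b = Q d) (hm : ∀ s ∈ Icc a b, ∀ t ∈ Icc c d, P s = Q t → s = a ∨ s = b)
    (hp : p ∈ P '' Icc a b ∪ Q '' Icc c d) (hN : IsOpen N) (h : p ∈ N) :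
    ∃ A ⊆ P '' Icc a b ∪ Q '' Icc c d, IsPreconnected Aᶜ ∧ P '' Icc a b ∪ Q '' Icc c d ⊆ A ∪ N := by
  rcases hp with ⟨s, hs, rfl⟩ | ⟨s, hs, rfl⟩
  · exact cut_one hP hQ hab hcd iP iQ h1 h2 hm hs hN h
  · have hlt : c < d := lt_of_le_of_ne hcd fun e => hab.ne
      (iP ⟨le_rfl, hab.le⟩ ⟨hab.le, le_rfl⟩ (by rw [h1, h2, e]))
    rw [union_comm]
    refine cut_one hQ hP hlt hab.le iQ iP h1.symm h2.symm ?_ hs hN h
    intro t ht u hu e
    rcases hm u hu t ht e.symm with h' | h'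
    · exact Or.inl (iQ ht ⟨le_rfl, hcd⟩ (by rw [e, h', h1]))
    · exact Or.inr (iQ ht ⟨hcd, le_rfl⟩ (by rw [e, h', h2]))

theorem meet {J A N W W' : Set ℂ} (hA : A ⊆ J) (hc : IsPreconnected Aᶜ) (hJ : J ⊆ A ∪ N)
    (hN : IsOpen N) (hW : IsOpen W) (hW' : IsOpen W') (cov : Jᶜ ⊆ W ∪ W')
    (dj : ∀ z ∈ W, z ∉ W') (n1 : (Jᶜ ∩ W).Nonempty) (n2 : (Jᶜ ∩ (W' ∪ N)).Nonempty) :
    (N ∩ W).Nonempty := by
  have sub : Jᶜ ⊆ Aᶜ := compl_subset_compl.2 hA
  obtain ⟨z, -, z1, z2⟩ := hc W (W' ∪ N) hW (hW'.union hN) (fun z hz => by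
    by_cases hzJ : z ∈ J
    · exact Or.inr (Or.inr ((hJ hzJ).resolve_left hz))
    · exact (cov hzJ).imp_right Or.inl) (n1.mono (inter_subset_inter_left _ sub))
    (n2.mono (inter_subset_inter_left _ sub))
  exact ⟨z, z2.resolve_left (dj z z1), z1⟩

theorem half_convex (μ d : ℂ) (r η : ℝ) : Convex ℝ (ball μ r ∩ {z | 0 < η * ((z - μ) / d).im}) := by
  refine (convex_ball μ r).inter ?_
  intro x hx y hy s t hs ht hst
  have e : (s • x + t • y - μ) / d = s * ((x - μ) / d) + t * ((y - μ) / d) := by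
    have : (s : ℂ) + t = 1 := by exact_mod_cast hst
    rw [real_smul, real_smul, ← mul_div_assoc, ← mul_div_assoc, ← add_div]
    congr 1
    linear_combination μ * this
  simp only [mem_ofPred_eq] at hx hy ⊢
  rw [e, add_im, im_ofReal_mul, im_ofReal_mul]
  rcases hs.eq_or_lt with h | h
  · have : t = 1 := by linarith
    rw [← h, this]; linarith
  · nlinarith [mul_pos h hx, mul_nonneg ht hy.le]

theorem off_line {O : Set ℂ} (hO : IsOpen O) {y μ d : ℂ} (hy : y ∈ O) (hd : d ≠ 0)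
    (h0 : ((y - μ) / d).im = 0) (η : ℝ) (hη : η ≠ 0) : ∃ z ∈ O, 0 < η * ((z - μ) / d).im := by
  have hc : Continuous fun s : ℝ => y + (s * η : ℝ) * (I * d) := by fun_prop
  have ht : Tendsto (fun s : ℝ => y + (s * η : ℝ) * (I * d)) (𝓝[>] 0) (𝓝 y) :=
    tendsto_nhdsWithin_of_tendsto_nhds (by simpa using hc.tendsto 0)
  obtain ⟨s, h1, h2⟩ := ((ht.eventually (hO.mem_nhds hy)).and self_mem_nhdsWithin).exists
  refine ⟨_, h1, ?_⟩
  have e : (y + (s * η : ℝ) * (I * d) - μ) / d = (y - μ) / d + (s * η : ℝ) * I := by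
    field_simp
    ring
  rw [e, add_im, h0, im_ofReal_mul, I_im]
  have : 0 < s := h2
  nlinarith [mul_pos this (mul_self_pos.2 hη)]

end JordanAux

open JordanAux in
theorem jordan2 {P Q : ℝ → ℂ} {a a' b c d : ℝ} {d₀ : ℂ} (hP : Continuous P) (hQ : Continuous Q)
    (ha : a < a') (ha' : a' ≤ b) (hcd : c ≤ d) (iP : InjOn P (Icc a b)) (iQ : InjOn Q (Icc c d))
    (h1 : P a = Q c) (h2 : P b = Q d)
    (hm : ∀ s ∈ Icc a b, ∀ t ∈ Icc c d, P s = Q t → s = a ∨ s = b) (hd : d₀ ≠ 0)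
    (hline : ∀ p ∈ Icc a a', ((P p - P a) / d₀).im = 0) :
    ∃ (U V : Set ℂ) (e : ℝ), Jor (P '' Icc a b ∪ Q '' Icc c d) U V ∧ (e = 2 * π ∨ e = -(2 * π)) ∧
      (∀ z ∈ U, var P a b z - var Q c d z = e) ∧ ∀ z ∈ V, var P a b z - var Q c d z = 0 := by
  have hab : a < b := ha.trans_le ha'
  obtain ⟨J, hJ⟩ : ∃ J, J = P '' Icc a b ∪ Q '' Icc c d := ⟨_, rfl⟩
  obtain ⟨w, hw⟩ : ∃ w : ℂ → ℝ, w = fun z => var P a b z - var Q c d z := ⟨_, rfl⟩
  have hw' : ∀ z, var P a b z - var Q c d z = w z := fun z => by rw [hw]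
  simp only [hw', ← hJ]
  have cpt : IsCompact J := hJ ▸ (isCompact_Icc.image hP).union (isCompact_Icc.image hQ)
  have oJ : IsOpen Jᶜ := cpt.isClosed.isOpen_compl
  have sP : P '' Icc a b ⊆ J := hJ ▸ subset_union_left
  have sQ : Q '' Icc c d ⊆ J := hJ ▸ subset_union_right
  have key : ∀ {N W W' : Set ℂ} {p : ℂ}, p ∈ J → IsOpen N → p ∈ N → IsOpen W → IsOpen W' →
      Jᶜ ⊆ W ∪ W' → (∀ z ∈ W, z ∉ W') → (Jᶜ ∩ W).Nonempty → (Jᶜ ∩ (W' ∪ N)).Nonempty →
      (N ∩ W).Nonempty := by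
    intro N W W' p hp hN hpN
    obtain ⟨A, a1, a2, a3⟩ := cut hP hQ hab hcd iP iQ h1 h2 hm (hJ ▸ hp) hN hpN
    exact meet (hJ ▸ a1) a2 (hJ ▸ a3) hN
  have wc : ContinuousOn w Jᶜ := by
    rw [hw]
    refine ((var_cont hP.continuousOn).mono ?_).sub ((var_cont hQ.continuousOn).mono ?_)
    · rw [uIcc_of_le hab.le]; exact compl_subset_compl.2 sP
    · rw [uIcc_of_le hcd]; exact compl_subset_compl.2 sQ
  have wi : ∀ z ∈ Jᶜ, ∃ n : ℤ, w z = 2 * π * n := fun z hz => by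
    rw [← hw']
    exact var_two_int (off_of_icc hP hab.le fun h => hz (sP h))
      (off_of_icc hQ hcd fun h => hz (sQ h)) h1 h2
  have far : ∀ r : ℝ, J ⊆ closedBall 0 r → ∀ z : ℂ, r < ‖z‖ → w z = 0 := by
    intro r hr z hz
    have f1 := (var_far (o := 0) (r := r) (z := z) (a := a) (b := b) hP.continuousOn (fun t ht => by
      rw [uIcc_of_le hab.le] at ht
      simpa using hr (sP ⟨t, ht, rfl⟩)) (by simpa using hz)).1
    have f2 := (var_far (o := 0) (r := r) (z := z) (a := c) (b := d) hQ.continuousOn (fun t ht => by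
      rw [uIcc_of_le hcd] at ht
      simpa using hr (sQ ⟨t, ht, rfl⟩)) (by simpa using hz)).1
    rw [← hw', f1, f2, h1, h2, sub_self]
  have mk : ∀ (U V : Set ℂ) (e : ℝ), IsOpen U → IsOpen V → IsPreconnected U → IsPreconnected V →
      U ⊆ Jᶜ → V ⊆ Jᶜ → Jᶜ ⊆ U ∪ V → U.Nonempty → V.Nonempty → e ≠ 0 → (∀ z ∈ U, w z = e) →
      (∀ z ∈ V, w z = 0) → Jor J U V := by
    intro U V e oU oV cU cV sU sV cov nU nV he wU wV
    have dj : ∀ z ∈ U, z ∉ V := fun z h h' => he ((wU z h).symm.trans (wV z h'))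
    obtain ⟨u, hu⟩ := nU
    obtain ⟨v, hv⟩ := nV
    refine ⟨cpt, oU, oV, cU, cV, fun z => ?_, fun z hz h => sU h hz, fun z hz h => sV h hz, dj,
      fun p hp => mem_closure_iff.2 fun N hN hpN => ?_,
      fun p hp => mem_closure_iff.2 fun N hN hpN => ?_, fun r hr z hz => ?_⟩
    · by_cases hz : z ∈ J
      · exact Or.inl hz
      · exact Or.inr (cov hz)
    · exact key hp hN hpN oU oV cov dj ⟨u, sU hu, hu⟩ ⟨v, sV hv, Or.inl hv⟩
    · exact key hp hN hpN oV oU (union_comm U V ▸ cov) (fun z h h' => dj z h' h) ⟨v, sV hv, hv⟩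
        ⟨u, sU hu, Or.inl hu⟩
    · rw [mem_closedBall_zero_iff]
      exact le_of_not_gt fun h => he ((wU z hz).symm.trans (far r hr z h))
  -- the straight piece
  obtain ⟨D, hD⟩ : ∃ D, D = P a' - P a := ⟨_, rfl⟩
  have hD0 : D ≠ 0 := by
    rw [hD, sub_ne_zero]
    exact fun e => ha.ne' (iP ⟨ha.le, ha'⟩ ⟨le_rfl, hab.le⟩ e)
  have hl : ∀ p ∈ Icc a a', ((P p - P a) / D).im = 0 := fun p hp => by
    have e : (P p - P a) / D = ((P p - P a) / d₀) / ((P a' - P a) / d₀) := by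
      rw [← hD]; field_simp
    rw [e, div_im, hline p hp, hline a' ⟨ha.le, le_rfl⟩]
    simp
  obtain ⟨t₀, ht₀, hf⟩ : ∃ t₀ ∈ Ioo a a', ((P t₀ - P a) / D).re = 1 / 2 := by
    have hc : Continuous fun t => ((P t - P a) / D).re := by fun_prop
    refine intermediate_value_Ioo ha.le hc.continuousOn ?_
    simp only [sub_self, zero_div, zero_re, ← hD, div_self hD0, one_re]
    norm_num
  have hK : IsClosed (P '' Icc a' b ∪ Q '' Icc c d) :=
    ((isCompact_Icc.image hP).union (isCompact_Icc.image hQ)).isClosed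
  have hμ : P t₀ ∉ P '' Icc a' b ∪ Q '' Icc c d := by
    have m : t₀ ∈ Icc a b := ⟨ht₀.1.le, ht₀.2.le.trans ha'⟩
    rintro (⟨s, hs, e⟩ | ⟨s, hs, e⟩)
    · have := iP ⟨ha.le.trans hs.1, hs.2⟩ m e
      linarith [hs.1, ht₀.2]
    · rcases hm _ m s hs e.symm with h | h <;> linarith [ht₀.1, ht₀.2]
  obtain ⟨r, hr, hB⟩ := Metric.isOpen_iff.1 hK.isOpen_compl _ hμ
  have sp : ∀ p, (P p - P t₀) / D = (P p - P a) / D - (P t₀ - P a) / D := fun p => by ring
  have hl' : ∀ p ∈ Icc a a', ((P p - P t₀) / D).im = 0 := fun p hp => by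
    rw [sp, sub_im, hl p hp, hl t₀ ⟨ht₀.1.le, ht₀.2.le⟩, sub_zero]
  have offJ : ∀ z ∈ ball (P t₀) r, ((z - P t₀) / D).im ≠ 0 → z ∈ Jᶜ := by
    intro z hz h hzJ
    rw [hJ] at hzJ
    rcases hzJ with ⟨s, hs, rfl⟩ | hq
    · rcases le_total s a' with h' | h'
      · exact h (hl' s ⟨hs.1, h'⟩)
      · exact hB hz (Or.inl ⟨s, ⟨h', hs.2⟩, rfl⟩)
    · exact hB hz (Or.inr hq)
  have jp := jump (w := w) (rest := fun z => var P a' b z - var Q c d z) (P := P) (a := a) (b := a')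
    (r := r) (μ := P t₀) (d := D) hP.continuousOn hD0
    (fun t ht => hl' t (by rwa [uIcc_of_le ha.le] at ht))
    (by rw [sp, sub_re, hf]; simp)
    (by rw [sp, sub_re, hf, ← hD, div_self hD0]; norm_num)
    (by
      refine ((var_cont hP.continuousOn).mono ?_).sub ((var_cont hQ.continuousOn).mono ?_)
      · rw [uIcc_of_le ha']; exact fun z hz h => hB hz (Or.inl h)
      · rw [uIcc_of_le hcd]; exact fun z hz h => hB hz (Or.inr h))
    (fun z hz h => by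
      have hzJ := offJ z hz h
      refine ⟨?_, wi z hzJ⟩
      have := var_add (P := P) (a := a) (b := a') (c := b) (z := z)
        (off_of_icc hP ha.le fun h => hzJ (sP (image_mono (Icc_subset_Icc le_rfl ha') h)))
        (off_of_icc hP ha' fun h => hzJ (sP (image_mono (Icc_subset_Icc ha.le le_rfl) h)))
      rw [← hw', ← this]
      ring)
  have hsub : ∀ η : ℝ, ball (P t₀) r ∩ {z | 0 < η * ((z - P t₀) / D).im} ⊆ Jᶜ :=
    fun η z hz => offJ z hz.1 fun h => by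
      have := hz.2
      rw [mem_ofPred_eq, h, mul_zero] at this
      exact lt_irrefl _ this
  obtain ⟨x, hx, hx'⟩ := off_line isOpen_ball (y := P t₀) (μ := P t₀) (mem_ball_self hr) hD0
    (by simp) 1 one_ne_zero
  obtain ⟨y, hy, hy'⟩ := off_line isOpen_ball (y := P t₀) (μ := P t₀) (mem_ball_self hr) hD0
    (by simp) (-1) (by norm_num)
  have xJ : x ∈ Jᶜ := hsub 1 ⟨hx, hx'⟩
  have yJ : y ∈ Jᶜ := hsub (-1) ⟨hy, hy'⟩
  have oC : ∀ z, IsOpen (connectedComponentIn Jᶜ z) := fun z => oJ.connectedComponentIn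
  have cov : Jᶜ ⊆ connectedComponentIn Jᶜ x ∪ connectedComponentIn Jᶜ y := by
    intro z hz
    have oW : IsOpen {q | q ∈ Jᶜ ∧ q ∉ connectedComponentIn Jᶜ z} := by
      refine isOpen_iff_forall_mem_open.2 fun q hq => ⟨connectedComponentIn Jᶜ q, fun s hs =>
        ⟨connectedComponentIn_subset _ _ hs, fun h => hq.2 ?_⟩, oC q, mem_connectedComponentIn hq.1⟩
      rw [connectedComponentIn_eq h, ← connectedComponentIn_eq hs]
      exact mem_connectedComponentIn hq.1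
    obtain ⟨q, q1, q2⟩ := key (sP ⟨t₀, ⟨ht₀.1.le, ht₀.2.le.trans ha'⟩, rfl⟩) isOpen_ball
      (mem_ball_self hr) (oC z) oW
      (fun q hq => (em (q ∈ connectedComponentIn Jᶜ z)).imp_right fun h => ⟨hq, h⟩)
      (fun q h h' => h'.2 h) ⟨z, hz, mem_connectedComponentIn hz⟩ ⟨x, xJ, Or.inr hx⟩
    have fin : ∀ (η : ℝ) (v q : ℂ), v ∈ ball (P t₀) r → 0 < η * ((v - P t₀) / D).im →
        q ∈ ball (P t₀) r → 0 < η * ((q - P t₀) / D).im → q ∈ connectedComponentIn Jᶜ z →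
        z ∈ connectedComponentIn Jᶜ v := by
      intro η v q v1 v2 q1 q2 q3
      have := (half_convex (P t₀) D r η).isPreconnected.subset_connectedComponentIn ⟨v1, v2⟩
        (hsub η) ⟨q1, q2⟩
      rw [connectedComponentIn_eq this, ← connectedComponentIn_eq q3]
      exact mem_connectedComponentIn hz
    rcases lt_trichotomy ((q - P t₀) / D).im 0 with h | h | h
    · exact Or.inr (fin (-1) y q hy hy' q1 (by linarith) q2)
    · obtain ⟨q', ⟨m1, m2⟩, m3⟩ := off_line (isOpen_ball.inter (oC z)) ⟨q1, q2⟩ hD0 h 1 one_ne_zero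
      exact Or.inl (fin 1 x q' hx hx' m1 m3 m2)
    · exact Or.inl (fin 1 x q hx hx' q1 (by linarith) q2)
  have cst : ∀ v ∈ Jᶜ, ∀ z ∈ connectedComponentIn Jᶜ v, w z = w v := fun v hv z hz =>
    int_const isPreconnected_connectedComponentIn (wc.mono (connectedComponentIn_subset _ _))
      (fun q hq => wi q (connectedComponentIn_subset _ _ hq)) z hz v (mem_connectedComponentIn hv)
  have jxy : w x = w y + 2 * π := jp x hx y hy (by linarith) (by linarith)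
  obtain ⟨R, hR⟩ := cpt.isBounded.subset_closedBall 0
  have z1 : R < ‖((|R| + 1 : ℝ) : ℂ)‖ := by
    rw [norm_real, Real.norm_eq_abs, abs_of_pos (by positivity)]
    linarith [le_abs_self R]
  have z2 : ((|R| + 1 : ℝ) : ℂ) ∈ Jᶜ := fun h => absurd (mem_closedBall_zero_iff.1 (hR h)) z1.not_ge
  have z3 := far R hR _ z1
  have hpi : 2 * π ≠ 0 := by positivity
  rcases cov z2 with h | h
  · have wx : w x = 0 := (cst x xJ _ h).symm.trans z3
    have wU : ∀ z ∈ connectedComponentIn Jᶜ y, w z = -(2 * π) := fun z hz => by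
      rw [cst y yJ z hz]; linarith
    have wV : ∀ z ∈ connectedComponentIn Jᶜ x, w z = 0 := fun z hz => (cst x xJ z hz).trans wx
    exact ⟨_, _, _, mk _ _ _ (oC y) (oC x) isPreconnected_connectedComponentIn
      isPreconnected_connectedComponentIn (connectedComponentIn_subset _ _)
      (connectedComponentIn_subset _ _) (union_comm _ _ ▸ cov) ⟨y, mem_connectedComponentIn yJ⟩
      ⟨x, mem_connectedComponentIn xJ⟩ (neg_ne_zero.2 hpi) wU wV, Or.inr rfl, wU, wV⟩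
  · have wy : w y = 0 := (cst y yJ _ h).symm.trans z3
    have wU : ∀ z ∈ connectedComponentIn Jᶜ x, w z = 2 * π := fun z hz => by
      rw [cst x xJ z hz]; linarith
    have wV : ∀ z ∈ connectedComponentIn Jᶜ y, w z = 0 := fun z hz => (cst y yJ z hz).trans wy
    exact ⟨_, _, _, mk _ _ _ (oC x) (oC y) isPreconnected_connectedComponentIn
      isPreconnected_connectedComponentIn (connectedComponentIn_subset _ _)
      (connectedComponentIn_subset _ _) cov ⟨x, mem_connectedComponentIn xJ⟩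
      ⟨y, mem_connectedComponentIn yJ⟩ hpi wU wV, Or.inl rfl, wU, wV⟩

end Pool.Agent.Lib.MP_399f8e_an.Ur
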