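import Pool.Agent.Lib.MP_399f8e_an.Ur.Amap

open Set Filter Topology Metric Complex
open scoped Real
open Pool.Agent.Lib.MP_399f8e_an.Rg

noncomputable section

namespace Pool.Agent.Lib.MP_399f8e_an.Ur

namespace NestAux

theorem hU {R : ℝ} {J U V : Set ℂ} (hJ : Jor J U V) (hb : ∀ z ∈ J, ‖z‖ ≤ R - 5) :
    ∀ z ∈ U, ‖z‖ ≤ R - 5 := by
  intro z hz
  have h := hJ.bdd (R - 5) (fun x hx => mem_closedBall_zero_iff.2 (hb x hx)) hz
  exact mem_closedBall_zero_iff.1 h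

theorem img_eq {g g' : ℂ → ℂ} {R : ℝ} (hT : Top g g' R) {J U V : Set ℂ} (hJ : Jor J U V)
    (hb : ∀ z ∈ J, ‖z‖ ≤ R - 5) : g '' U = {y | ‖y‖ < R - 3} ∩ g' ⁻¹' U := by
  ext y
  constructor
  · rintro ⟨z, hz, rfl⟩
    have h1 := hU hJ hb z hz
    have h2 := hT.norm_le z
    refine ⟨show ‖g z‖ < R - 3 by linarith, ?_⟩
    rw [mem_preimage, hT.inv z (by linarith)]
    exact hz
  · rintro ⟨h1, h2⟩
    have h3 : ‖y‖ < R - 3 := h1
    exact ⟨g' y, h2, hT.inv' y (by linarith)⟩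

theorem img_open {g g' : ℂ → ℂ} {R : ℝ} (hT : Top g g' R) {J U V : Set ℂ} (hJ : Jor J U V)
    (hb : ∀ z ∈ J, ‖z‖ ≤ R - 5) : IsOpen (g '' U) := by
  rw [img_eq hT hJ hb]
  exact (isOpen_lt continuous_norm continuous_const).inter (hJ.oU.preimage hT.cont')

theorem union_eq {J U V : Set ℂ} (hJ : Jor J U V) : U ∪ J = Vᶜ := by
  ext z
  constructor
  · rintro (h | h)
    · exact hJ.dUV z h
    · exact hJ.dJV z h
  · intro h
    rcases hJ.cover z with h' | h' | h'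
    · exact Or.inr h'
    · exact Or.inl h'
    · exact absurd h' h

theorem img_closed {g g' : ℂ → ℂ} {R : ℝ} (hT : Top g g' R) {J U V : Set ℂ} (hJ : Jor J U V)
    (hb : ∀ z ∈ J, ‖z‖ ≤ R - 5) : IsClosed (g '' (U ∪ J)) := by
  have hc : IsCompact (U ∪ J) := by
    refine (isCompact_closedBall (0 : ℂ) (R - 5)).of_isClosed_subset ?_ ?_
    · rw [union_eq hJ]
      exact hJ.oV.isClosed_compl
    · rintro z (h | h)
      · exact mem_closedBall_zero_iff.2 (hU hJ hb z h)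
      · exact mem_closedBall_zero_iff.2 (hb z h)
  exact (hc.image hT.cont).isClosed

end NestAux

theorem Jor.sub_or {J U V C : Set ℂ} (hJ : Jor J U V) (hC : IsPreconnected C)
    (h : ∀ z ∈ C, z ∉ J) : C ⊆ U ∨ C ⊆ V := by
  refine hC.subset_or_subset hJ.oU hJ.oV ?_ ?_
  · exact Set.disjoint_left.2 hJ.dUV
  · intro z hz
    rcases hJ.cover z with h' | h' | h'
    · exact absurd h' (h z hz)
    · exact Or.inl h'
    · exact Or.inr h'

theorem Jor.sub_V {J U V C : Set ℂ} (hJ : Jor J U V) (hC : IsPreconnected C)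
    (h : ∀ z ∈ C, z ∉ J) (hm : ∃ z ∈ C, z ∈ V) : C ⊆ V := by
  rcases hJ.sub_or hC h with h' | h'
  · obtain ⟨z, hz, hv⟩ := hm
    exact absurd hv (hJ.dUV z (h' hz))
  · exact h'

theorem img_clopen {g g' : ℂ → ℂ} {R : ℝ} (hT : Top g g' R) {J U V C : Set ℂ} (hJ : Jor J U V)
    (hb : ∀ z ∈ J, ‖z‖ ≤ R - 5) (hC : IsPreconnected C) (h : ∀ z ∈ J, g z ∉ C)
    (hm : ∃ z ∈ U, g z ∈ C) : C ⊆ g '' U := by
  refine hC.subset_left_of_subset_union (NestAux.img_open hT hJ hb)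
    (NestAux.img_closed hT hJ hb).isOpen_compl ?_ ?_ ?_
  · exact Set.disjoint_left.2 fun y hy hy' => hy' (image_mono subset_union_left hy)
  · intro y hy
    by_cases hy' : y ∈ g '' (U ∪ J)
    · obtain ⟨z, hz | hz, rfl⟩ := hy'
      · exact Or.inl ⟨z, hz, rfl⟩
      · exact absurd hy (h z hz)
    · exact Or.inr hy'
  · obtain ⟨z, hz, hz'⟩ := hm
    exact ⟨g z, hz', z, hz, rfl⟩

theorem nest {g g' : ℂ → ℂ} {R : ℝ} (hT : Top g g' R) {J U V : Set ℂ} (hJ : Jor J U V)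
    (hb : ∀ z ∈ J, ‖z‖ ≤ R - 5) (h1 : ∀ z ∈ J, g z ∉ V) (h2 : ∃ p ∈ J, p ∉ g '' J) : False := by
  have hUb := NestAux.hU hJ hb
  have hV : ∀ z ∈ U, g z ∉ V := by
    intro z hz hv
    have hs : V ⊆ g '' U := img_clopen hT hJ hb hJ.cV h1 ⟨z, hz, hv⟩
    have hn : ‖((|R| : ℝ) : ℂ)‖ = |R| := by rw [Complex.norm_real, Real.norm_eq_abs, abs_abs]
    have hR := le_abs_self R
    rcases hJ.cover ((|R| : ℝ) : ℂ) with h' | h' | h'
    · have := hb _ h'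
      linarith
    · have := hUb _ h'
      linarith
    · have h3 := hs h'
      rw [NestAux.img_eq hT hJ hb] at h3
      have h4 : ‖((|R| : ℝ) : ℂ)‖ < R - 3 := h3.1
      linarith
  have hUU : ∀ z ∈ U, g z ∈ U := by
    intro z hz
    rcases hJ.cover (g z) with h' | h' | h'
    · obtain ⟨y, ⟨x, hx, rfl⟩, hy⟩ :=
        mem_closure_iff.1 (hJ.clV h') (g '' U) (NestAux.img_open hT hJ hb) ⟨z, hz, rfl⟩
      exact absurd hy (hV x hx)
    · exact h'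
    · exact absurd h' (hV z hz)
  obtain ⟨p, hp, hp'⟩ := h2
  have hpc : p ∈ (g '' (U ∪ J))ᶜ := by
    rintro ⟨z, hz | hz, rfl⟩
    · exact hJ.dJU _ hp (hUU z hz)
    · exact hp' ⟨z, hz, rfl⟩
  have ho := (NestAux.img_closed hT hJ hb).isOpen_compl
  obtain ⟨x, hx, hxU⟩ := mem_closure_iff.1 (hJ.clU hp) _ ho hpc
  obtain ⟨r, hr, hball⟩ := Metric.isOpen_iff.1 (ho.inter hJ.oU) x ⟨hx, hxU⟩
  obtain ⟨z, hz, h3 | h3⟩ := hT.big U
    (fun z hz => mem_closedBall_zero_iff.2 (by linarith [hUb z hz])) x r hr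
    (fun y hy => (hball hy).2)
  · exact h3 (hUU z hz)
  · exact (hball h3).1 ⟨z, Or.inl hz, rfl⟩

theorem nest' {g g' : ℂ → ℂ} {R : ℝ} (hT : Top g g' R) {J U V : Set ℂ} (hJ : Jor J U V)
    (hb : ∀ z ∈ J, ‖z‖ ≤ R - 5) (h1 : ∀ z ∈ J, g' z ∉ U) (hm : ∃ z ∈ U, g z ∈ U)
    (h2 : ∃ p ∈ J, p ∉ g '' J) : False := by
  have hUb := NestAux.hU hJ hb
  have hs : U ⊆ g' '' U := by
    refine img_clopen hT.symm hJ hb hJ.cU h1 ?_
    obtain ⟨z, hz, hz'⟩ := hm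
    refine ⟨g z, hz', ?_⟩
    rw [hT.inv z (by linarith [hUb z hz])]
    exact hz
  have hUU : MapsTo g U U := by
    intro z hz
    obtain ⟨w, hw, rfl⟩ := hs hz
    rw [hT.inv' w (by linarith [hUb w hw])]
    exact hw
  refine nest hT hJ hb ?_ h2
  intro z hz hv
  obtain ⟨y, hy, hyU⟩ := mem_closure_iff.1 (hUU.closure hT.cont (hJ.clU hz)) V hJ.oV hv
  exact hJ.dUV y hyU hy

end Pool.Agent.Lib.MP_399f8e_an.Ur
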