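import Pool.Agent.Lib.MP_399f8e_an.Ur.First
import Pool.Agent.Lib.MP_399f8e_an.Ur.Nest
import Pool.Agent.Lib.MP_399f8e_an.Ur.Jordan

open Set Filter Topology Metric Complex
open scoped Real
open Pool.Agent.Lib.MP_399f8e_an.Rg

noncomputable section

namespace Pool.Agent.Lib.MP_399f8e_an.Ur

namespace CoreCAux

variable {g g' : ℂ → ℂ} {R r l s s₁ u e y : ℝ} {L σ : ℝ → ℂ} {v d : ℂ}

theorem gL (hL : Line g L l r) {p : ℝ} (hp : p ∈ Icc (-l) (3 * l)) : g (L (p - l)) = L p := by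
  have h := hL.per (p - l) ⟨by linarith [hp.1], by linarith [hp.2]⟩
  rw [← h, sub_add_cancel]

theorem g'L (hT : Top g g' R) (hL : Line g L l r) (hr : r + 20 ≤ R) {p : ℝ}
    (hp : p ∈ Icc (-l) (3 * l)) : g' (L p) = L (p - l) := by
  have hl := hL.pos
  have hb := hL.bd (p - l) ⟨by linarith [hp.1], by linarith [hp.2]⟩
  rw [← gL hL hp, hT.inv _ (by linarith)]

theorem gstar (hT : Top g g' R) (hL : Line g L l r) (hF : Fst g L l s σ u r) (hr : r + 20 ≤ R)
    {x p : ℝ} (hx : x ∈ Ico 0 u) (hp : p ∈ Icc (-l) (3 * l)) (h : g (σ x) = L p) :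
    x = 0 ∧ p = s + l := by
  have hl := hL.pos
  have hp' : p - l ∈ Icc (-2 * l) (3 * l) := ⟨by linarith [hp.1], by linarith [hp.2]⟩
  have hb := hL.bd (p - l) hp'
  have hb' := hF.bd x ⟨hx.1, hx.2.le⟩
  rw [← gL hL hp] at h
  have h1 := hT.inj (by linarith) (by linarith) h
  obtain ⟨h2, h3⟩ := sigma_star hT hL hF (by linarith) x hx (p - l) hp' h1
  exact ⟨h2, by linarith⟩

/-- a point of the line on `σ` -/
theorem ustar (hT : Top g g' R) (hL : Line g L l r) (hF : Fst g L l s σ u r) (hr : r + 20 ≤ R)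
    (hy : y ∈ Ico 0 u) (hu : σ u = g (σ y)) {t p : ℝ} (ht : t ∈ Icc 0 u)
    (hp : p ∈ Icc (-l) (3 * l)) (h : σ t = L p) : p = s ∨ (y = 0 ∧ p = s + l) := by
  have hl := hL.pos
  rcases ht.2.lt_or_eq with h1 | h1
  · exact Or.inl (sigma_star hT hL hF (by linarith) t ⟨ht.1, h1⟩ p
      ⟨by linarith [hp.1], hp.2⟩ h).2
  · rw [h1, hu] at h
    exact Or.inr (gstar hT hL hF hr hy hp h)

theorem ginj (hT : Top g g' R) (hF : Fst g L l s σ u r) (hr : r + 20 ≤ R) :
    InjOn (fun x => g (σ x)) (Icc 0 u) := by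
  intro a ha b hb h
  have h1 := hF.bd a ha
  have h2 := hF.bd b hb
  exact hF.inj ha hb (hT.inj (by linarith) (by linarith) h)

theorem linj (hL : Line g L l r) {a b : ℝ} (ha : -2 * l ≤ a) (hb : b ≤ 3 * l)
    (hab : b - a ≤ 2 * l) : InjOn L (Icc a b) := by
  intro p hp q hq h
  exact hL.inj2 p ⟨by linarith [hp.1], by linarith [hp.2]⟩ q
    ⟨by linarith [hq.1], by linarith [hq.2]⟩
    (abs_le.2 ⟨by linarith [hp.1, hq.2], by linarith [hp.2, hq.1]⟩) h

/-- the set behind the curve misses the curve -/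
theorem miss (hT : Top g g' R) (hL : Line g L l r) (hF : Fst g L l s σ u r) (hr : r + 20 ≤ R)
    (hy : y ∈ Ico 0 u) (hu : σ u = g (σ y)) :
    ∀ z ∈ L '' Ico (s - l) s ∪ (fun x => g' (σ x)) '' Ico 0 u,
      z ∉ L '' Icc s (s + l) ∪ (fun x => g (σ x)) '' Icc 0 y ∪ σ '' Icc 0 u := by
  have hl := hL.pos
  have hs := hF.hs
  have two := sigma_two hT hF.cont (fun x hx => by linarith [hF.bd x hx]) hF.free
  rintro z (⟨q, hq, rfl⟩ | ⟨x, hx, rfl⟩)
  · have hq' : q ∈ Icc (-l) (3 * l) := ⟨by linarith [hq.1, hs.1], by linarith [hq.2, hs.2]⟩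
    rintro ((⟨p, hp, h⟩ | ⟨x, hx, h⟩) | ⟨t, ht, h⟩)
    · have := linj hL (a := s - l) (b := s + l) (by linarith [hs.1]) (by linarith [hs.2])
        (by linarith) ⟨by linarith [hp.1], hp.2⟩ ⟨hq.1, by linarith [hq.2]⟩ h
      linarith [hp.1, hq.2]
    · have := (gstar hT hL hF hr ⟨hx.1, hx.2.trans_lt hy.2⟩ hq' h).2
      linarith [hq.2]
    · rcases ustar hT hL hF hr hy hu ht hq' h with h1 | h1
      · linarith [hq.2]
      · linarith [hq.2, h1.2]
  · have hb := hF.bd x ⟨hx.1, hx.2.le⟩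
    have e1 : g (g' (σ x)) = σ x := hT.inv' _ (by linarith)
    rintro ((⟨p, hp, h⟩ | ⟨x', hx', h⟩) | ⟨t, ht, h⟩)
    · have h1 : σ x = L (p + l) := by
        rw [hL.per p ⟨by linarith [hp.1, hs.1], by linarith [hp.2, hs.2]⟩, h]
        exact e1.symm
      have := (sigma_star hT hL hF (by linarith) x hx (p + l)
        ⟨by linarith [hp.1, hs.1], by linarith [hp.2, hs.2]⟩ h1).2
      linarith [hp.1]
    · refine two x hx x' ⟨hx'.1, hx'.2.trans_lt hy.2⟩ ?_
      have h' : g (σ x') = g' (σ x) := h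
      rw [h']
      exact e1.symm
    · have h1 : σ x = g (σ t) := by
        have h' : σ t = g' (σ x) := h
        rw [h']
        exact e1.symm
      rcases ht.2.lt_or_eq with h2 | h2
      · exact hF.free x hx t ⟨ht.1, h2⟩ h1
      · rw [h2, hu] at h1
        exact two x hx y hy h1

/-- the set behind the curve is outside -/
theorem back (hT : Top g g' R) (hL : Line g L l r) (hF : Fst g L l s σ u r) (hr : r + 20 ≤ R)
    (hy : y ∈ Ico 0 u) (hu : σ u = g (σ y)) {U V : Set ℂ}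
    (hJ : Jor (L '' Icc s (s + l) ∪ (fun x => g (σ x)) '' Icc 0 y ∪ σ '' Icc 0 u) U V) :
    L '' Ico (s - l) s ⊆ V := by
  have hl := hL.pos
  have hs := hF.hs
  have hE : IsPreconnected (L '' Ico (s - l) s ∪ (fun x => g' (σ x)) '' Ico 0 u) := by
    refine IsPreconnected.union (L (s - l)) ⟨s - l, ⟨le_rfl, by linarith⟩, rfl⟩
      ⟨0, ⟨le_rfl, hF.pos⟩, ?_⟩ (isPreconnected_Ico.image _ hL.cont.continuousOn)
      (isPreconnected_Ico.image _ (hT.cont'.comp hF.cont).continuousOn)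
    show g' (σ 0) = L (s - l)
    rw [hF.start, g'L hT hL hr ⟨by linarith [hs.1], by linarith [hs.2]⟩]
  have hbd : ∀ z ∈ L '' Icc s (s + l) ∪ (fun x => g (σ x)) '' Icc 0 y ∪ σ '' Icc 0 u,
      ‖z‖ ≤ R - 5 := by
    rintro z ((⟨p, hp, rfl⟩ | ⟨x, hx, rfl⟩) | ⟨t, ht, rfl⟩)
    · linarith [hL.bd p ⟨by linarith [hp.1, hs.1], by linarith [hp.2, hs.2]⟩]
    · have h1 := hF.bd x ⟨hx.1, hx.2.trans hy.2.le⟩
      have h2 := hT.norm_le (σ x)
      show ‖g (σ x)‖ ≤ R - 5
      linarith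
    · linarith [hF.bd t ht]
  rcases hJ.sub_or hE (miss hT hL hF hr hy hu) with hU | hV
  · exfalso
    refine nest hT.symm hJ hbd ?_ ⟨L (s + l), Or.inl (Or.inl ⟨s + l, ⟨by linarith, le_rfl⟩, rfl⟩), ?_⟩
    · rintro z ((⟨p, hp, rfl⟩ | ⟨x, hx, rfl⟩) | ⟨t, ht, rfl⟩)
      · rw [g'L hT hL hr ⟨by linarith [hp.1, hs.1], by linarith [hp.2, hs.2]⟩]
        rcases hp.2.lt_or_eq with h1 | h1
        · exact hJ.dUV _ (hU (Or.inl ⟨p - l, ⟨by linarith [hp.1], by linarith⟩, rfl⟩))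
        · exact hJ.dJV _ (Or.inl (Or.inl ⟨p - l, ⟨by linarith, by linarith⟩, rfl⟩))
      · have hx' : x ∈ Icc 0 u := ⟨hx.1, hx.2.trans hy.2.le⟩
        have h1 := hF.bd x hx'
        show g' (g (σ x)) ∉ V
        rw [hT.inv _ (by linarith)]
        exact hJ.dJV _ (Or.inr ⟨x, hx', rfl⟩)
      · rcases ht.2.lt_or_eq with h1 | h1
        · exact hJ.dUV _ (hU (Or.inr ⟨t, ⟨ht.1, h1⟩, rfl⟩))
        · have h2 := hF.bd y ⟨hy.1, hy.2.le⟩
          rw [h1, hu, hT.inv _ (by linarith)]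
          exact hJ.dJV _ (Or.inr ⟨y, ⟨hy.1, hy.2.le⟩, rfl⟩)
    · rintro ⟨z, hz, h⟩
      have hm : s + 2 * l ∈ Icc (-l) (3 * l) := ⟨by linarith [hs.1], by linarith [hs.2]⟩
      have h1 : z = L (s + 2 * l) := by
        have h2 := hT.inv' z (by linarith [hbd z hz])
        rw [← h2, h, ← gL hL hm]
        congr 2
        ring
      rcases hz with (⟨p, hp, h2⟩ | ⟨x, hx, h2⟩) | ⟨t, ht, h2⟩
      · have := linj hL (a := s) (b := s + 2 * l) (by linarith [hs.1]) (by linarith [hs.2])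
          (by linarith) ⟨hp.1, by linarith [hp.2]⟩ ⟨by linarith, le_rfl⟩ (h2.trans h1)
        linarith [hp.2]
      · have := (gstar hT hL hF hr ⟨hx.1, hx.2.trans_lt hy.2⟩ hm (h2.trans h1)).2
        linarith
      · rcases ustar hT hL hF hr hy hu ht hm (h2.trans h1) with h3 | h3
        · linarith
        · linarith [h3.2]
  · exact fun z hz => hV (Or.inl hz)

theorem off_sub {P : ℝ → ℂ} {a b a' b' : ℝ} {z : ℂ} (hP : Continuous P) (hz : z ∉ P '' Icc a b)
    (h1 : a ≤ a') (h2 : a' ≤ b') (h3 : b' ≤ b) : Off P a' b' z :=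
  off_of_icc hP h2 fun h => hz (image_mono (Icc_subset_Icc h1 h3) h)

end CoreCAux

open CoreCAux in
theorem core_C {g g' : ℂ → ℂ} {R r l s s₁ u e y : ℝ} {L σ : ℝ → ℂ} {v d : ℂ} (hT : Top g g' R)
    (hL : Line g L l r) (hF : Fst g L l s σ u r) (hr : r + 20 ≤ R) (hd : d ≠ 0)
    (hseg : Seg L s s₁ v d e) (hs₁ : s₁ ≤ l) (hy : y ∈ Ico 0 u) (hu : σ u = g (σ y)) :
    ∃ κ l' β b J U V K w rest c, Res g L l s s₁ σ u κ l' β b J U V K w rest c := by
  have hl := hL.pos
  have hs := hF.hs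
  have hs1 := hseg.lt
  have hG : Continuous fun x => g (σ x) := hT.cont.comp hF.cont
  have hG0 : L (s + l) = (fun x => g (σ x)) 0 := by
    show L (s + l) = g (σ 0)
    rw [hF.start, hL.per s ⟨by linarith [hs.1], by linarith [hs.2]⟩]
  have hsl : s ≤ s + l := by linarith
  have iL : InjOn L (Icc s (s + l)) :=
    linj hL (by linarith [hs.1]) (by linarith [hs.2]) (by linarith)
  have iG : InjOn (fun x => g (σ x)) (Icc 0 y) :=
    (ginj hT hF hr).mono (Icc_subset_Icc le_rfl hy.2.le)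
  have iP : InjOn (cat L (s + l) (fun x => g (σ x)) 0) (Icc s (s + l + (y - 0))) :=
    injOn_cat hG0 hy.1 iL iG fun p hp x hx h =>
      (gstar hT hL hF hr ⟨hx.1, hx.2.trans_lt hy.2⟩
        ⟨by linarith [hp.1, hs.1], by linarith [hp.2, hs.2]⟩ h.symm).2
  obtain ⟨U, V, c, hJ, hc, hU, hV⟩ := jordan2 (P := cat L (s + l) (fun x => g (σ x)) 0) (Q := σ)
    (a := s) (a' := s₁) (b := s + l + (y - 0)) (c := 0) (d := u) (d₀ := d)
    (continuous_cat hL.cont hG hG0) hF.cont hs1 (by linarith [hy.1, hs.1]) hF.pos.le iP hF.inj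
    (by rw [cat_le hsl, hF.start])
    (by
      rw [cat_ge hG0 (by linarith [hy.1]), hu]
      congr 2
      ring)
    (by
      intro p hp t ht h
      rcases le_total p (s + l) with h1 | h1
      · rw [cat_le h1] at h
        rcases ustar hT hL hF hr hy hu ht ⟨by linarith [hp.1, hs.1], by linarith [hs.2]⟩ h.symm
          with h2 | h2
        · exact Or.inl h2
        · exact Or.inr (by linarith [h2.1, h2.2])
      · rw [cat_ge hG0 h1] at h
        have hx : p - (s + l) + 0 ∈ Icc 0 y := ⟨by linarith, by linarith [hp.2]⟩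
        rcases ht.2.lt_or_eq with h2 | h2
        · exact absurd h.symm (hF.free t ⟨ht.1, h2⟩ _ ⟨hx.1, hx.2.trans_lt hy.2⟩)
        · rw [h2, hu] at h
          have := iG hx ⟨hy.1, le_rfl⟩ h
          exact Or.inr (by linarith))
    hd
    (by
      intro p hp
      rw [cat_le hsl, cat_le (by linarith [hp.2, hs.1] : p ≤ s + l), hseg.fst]
      obtain ⟨x, -, hx⟩ := hseg.mem p hp
      rw [hx, add_sub_cancel_left, mul_div_assoc, div_self hd, mul_one, ofReal_im])
  rw [image_cat hG0 hsl hy.1] at hJ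
  have hβ : L s = σ 0 := hF.start.symm
  have hcat : ∀ z, z ∉ L '' Icc s (s + l) → z ∉ (fun x => g (σ x)) '' Icc 0 y →
      var (cat L (s + l) (fun x => g (σ x)) 0) s (s + l + (y - 0)) z =
        var L s (s + l) z + var (fun x => g (σ x)) 0 y z := fun z h1 h2 =>
    var_cat hG0 hsl hy.1 (off_of_icc hL.cont hsl h1) (off_of_icc hG hy.1 h2)
  refine ⟨fun p => σ (p + y), u - y, cat L s σ 0, s + (y - 0), _, U, V,
    L '' Icc s₁ (s + l) ∪ σ '' Icc 0 u ∪ (fun x => g (σ x)) '' Icc 0 y,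
    fun z => var (cat L (s + l) (fun x => g (σ x)) 0) s (s + l + (y - 0)) z - var σ 0 u z,
    fun z => var L s₁ (s + l) z + var (fun x => g (σ x)) 0 y z - var σ 0 u z, c,
    arc_first hT hF.cont hF.inj (fun x hx => by linarith [hF.bd x hx]) hF.free hy hu,
    continuous_cat hL.cont hF.cont hβ, by linarith [hs.1, hy.1], ?_, cat_le hs.1.le, ?_, ?_,
    Or.inl ?_, hJ, hc, hU, hV, back hT hL hF hr hy hu hJ, ?_, ?_,
    ⟨_, subset_rfl, Or.inr ⟨y, hy, hu, rfl⟩⟩, ?_, ?_, ?_⟩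
  · exact injOn_cat hβ hy.1 (linj hL (by linarith) (by linarith [hs.2]) (by linarith [hs.2]))
      (hF.inj.mono (Icc_subset_Icc le_rfl hy.2.le)) fun p hp t ht h =>
        (sigma_star hT hL hF (by linarith) t ⟨ht.1, ht.2.trans_lt hy.2⟩ p
          ⟨by linarith [hp.1], by linarith [hp.2, hs.2]⟩ h.symm).2
  · rw [cat_ge hβ (by linarith [hy.1])]
    show σ _ = σ _
    congr 1
    ring
  · rw [image_cat hβ hs.1.le hy.1]
    exact union_subset_union (image_mono (Icc_subset_Icc le_rfl hs.2.le))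
      (image_mono (Icc_subset_Icc le_rfl hy.2.le))
  · rintro z ⟨p, hp, rfl⟩
    exact ⟨p + y, ⟨by linarith [hp.1, hy.1], by linarith [hp.2]⟩, rfl⟩
  · rw [← Icc_union_Icc_eq_Icc hs1.le (by linarith [hs.1] : s₁ ≤ s + l), image_union]
    ext z
    simp only [mem_union]
    tauto
  · exact (((isCompact_Icc.image hL.cont).union (isCompact_Icc.image hF.cont)).union
      (isCompact_Icc.image hG)).isClosed
  · have h1 : s₁ ≤ s + l := by linarith [hs.1]
    refine (ContinuousOn.add ((var_cont hL.cont.continuousOn).mono ?_)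
      ((var_cont hG.continuousOn).mono ?_)).sub ((var_cont hF.cont.continuousOn).mono ?_)
    · rw [uIcc_of_le h1]
      exact compl_subset_compl.2 fun z hz => Or.inl (Or.inl hz)
    · rw [uIcc_of_le hy.1]
      exact compl_subset_compl.2 fun z hz => Or.inr hz
    · rw [uIcc_of_le hF.pos.le]
      exact compl_subset_compl.2 fun z hz => Or.inl (Or.inr hz)
  · intro z hz
    have h1 : z ∉ L '' Icc s (s + l) := fun h => hz (Or.inl (Or.inl h))
    have h2 : z ∉ (fun x => g (σ x)) '' Icc 0 y := fun h => hz (Or.inl (Or.inr h))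
    have h3 := var_add (off_sub hL.cont h1 le_rfl hs1.le (by linarith [hs.1]))
      (off_sub hL.cont h1 hs1.le (by linarith [hs.1]) le_rfl)
    have h4 := hcat z h1 h2
    show var _ s (s + l + (y - 0)) z - var σ 0 u z = _
    linarith
  · intro z hz1 hz2 hz3
    have h1 : z ∉ L '' Icc s (s + l) := fun h =>
      hz1 (image_mono (Icc_subset_Icc hs.1.le (by linarith [hs.2])) h)
    have h2 : z ∉ (fun x => g (σ x)) '' Icc 0 y := by
      rintro ⟨x, hx, h⟩
      exact hz3 ⟨σ x, ⟨x, ⟨hx.1, hx.2.trans hy.2.le⟩, rfl⟩, h⟩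
    have h4 := hcat z h1 h2
    have a1 : var (cat L s σ 0) 0 (s + (y - 0)) z = var L 0 s z + var σ 0 y z :=
      var_cat hβ hs.1.le hy.1 (off_sub hL.cont hz1 le_rfl hs.1.le (by linarith [hs.2]))
        (off_sub hF.cont hz2 le_rfl hy.1 hy.2.le)
    have hLl : Continuous fun t => L (t + l) := hL.cont.comp (continuous_id.add continuous_const)
    have a2 : var (fun t => g (cat L s σ 0 t)) 0 (s + (y - 0)) z =
        var (cat (fun t => L (t + l)) s (fun x => g (σ x)) 0) 0 (s + (y - 0)) z := by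
      refine var_congr (fun t ht => ?_) z
      rw [uIcc_of_le (by linarith [hs.1, hy.1])] at ht
      show g (cat L s σ 0 t) = _
      rcases le_total t s with h | h
      · rw [cat_le h, cat_le h]
        exact (hL.per t ⟨by linarith [ht.1], by linarith [hs.2]⟩).symm
      · rw [cat_ge hβ h, cat_ge (P := fun t => L (t + l)) hG0 h]
    have a3 : var (cat (fun t => L (t + l)) s (fun x => g (σ x)) 0) 0 (s + (y - 0)) z =
        var (fun t => L (t + l)) 0 s z + var (fun x => g (σ x)) 0 y z := by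
      refine var_cat (P := fun t => L (t + l)) hG0 hs.1.le hy.1 (off_of_icc hLl hs.1.le ?_)
        (off_of_icc hG hy.1 h2)
      rintro ⟨t, ht, h⟩
      exact hz1 ⟨t + l, ⟨by linarith [ht.1], by linarith [ht.2, hs.2]⟩, h⟩
    have a4 := var_shift L 0 s l z
    rw [zero_add] at a4
    have a5 := var_shift σ 0 (u - y) y z
    rw [zero_add, sub_add_cancel] at a5
    have a6 := var_add (off_sub hF.cont hz2 le_rfl hy.1 hy.2.le)
      (off_sub hF.cont hz2 hy.1 hy.2.le le_rfl)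
    have a7 := var_add (off_sub hL.cont hz1 le_rfl hl.le (by linarith))
      (off_sub hL.cont hz1 hl.le (by linarith [hs.1] : l ≤ s + l) (by linarith [hs.2]))
    have a8 := var_add (off_sub hL.cont hz1 le_rfl hs.1.le (by linarith [hs.2]))
      (off_sub hL.cont hz1 hs.1.le hsl (by linarith [hs.2]))
    show Wn g L l (fun p => σ (p + y)) (u - y) (cat L s σ 0) (s + (y - 0)) z =
      var _ s (s + l + (y - 0)) z - var σ 0 u z
    unfold Wn
    linarith

end Pool.Agent.Lib.MP_399f8e_an.Ur
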