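import Pool.Agent.Lib.MP_399f8e_an.Ur.SideS

open Set Filter Topology Metric Complex
open scoped Real
open Pool.Agent.Lib.MP_399f8e_an.Rg

noncomputable section

namespace Pool.Agent.Lib.MP_399f8e_an.Ur

namespace CoreSAux

/-- the new arc before the shift of the parameter -/
def two (L σ : ℝ → ℂ) (s u t : ℝ) : ℝ → ℂ := cat (cat L s σ 0) (s + u) L t

theorem one_end {L σ : ℝ → ℂ} {s u t : ℝ} (h0 : σ 0 = L s) (hu0 : 0 ≤ u) (hu : σ u = L t) :
    cat L s σ 0 (s + u) = L t := by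
  rw [cat_ge h0.symm (by linarith), ← hu]
  congr 1
  ring

theorem two_fst {L σ : ℝ → ℂ} {s u t p : ℝ} (hu0 : 0 ≤ u) (hp : p ≤ s) : two L σ s u t p = L p := by
  unfold two
  rw [cat_le (by linarith), cat_le hp]

theorem two_mid {L σ : ℝ → ℂ} {s u t p : ℝ} (h0 : σ 0 = L s) (hp : s ≤ p) (hp' : p ≤ s + u) :
    two L σ s u t p = σ (p - s) := by
  unfold two
  rw [cat_le hp', cat_ge h0.symm hp, add_zero]

theorem two_lst {L σ : ℝ → ℂ} {s u t p : ℝ} (h0 : σ 0 = L s) (hu0 : 0 ≤ u) (hu : σ u = L t)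
    (hp : s + u ≤ p) : two L σ s u t p = L (p - (s + u) + t) := by
  unfold two
  rw [cat_ge (one_end h0 hu0 hu) hp]

theorem two_cont {L σ : ℝ → ℂ} {s u t : ℝ} (hL : Continuous L) (hσ : Continuous σ)
    (h0 : σ 0 = L s) (hu0 : 0 ≤ u) (hu : σ u = L t) : Continuous (two L σ s u t) :=
  continuous_cat (continuous_cat hL hσ h0.symm) hL (one_end h0 hu0 hu)

/-- every point of the new arc is on the line or in the open part of `σ` -/
theorem two_pt {L σ : ℝ → ℂ} {s u t l r₀ p : ℝ} (h0 : σ 0 = L s) (hu0 : 0 ≤ u) (hu : σ u = L t)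
    (h1 : r₀ < s) (h2 : s < t) (h3 : s < r₀ + l) (hp : p ∈ Icc 0 (s + u + l - t)) :
    (∃ q ∈ Icc r₀ (r₀ + l), two L σ s u t (p + r₀) = L q ∧ (q ≤ s ∨ t ≤ q) ∧ (q = r₀ → p = 0) ∧
      (q = r₀ + l → p = s + u + l - t)) ∨ ∃ x ∈ Ioo 0 u, two L σ s u t (p + r₀) = σ x := by
  obtain ⟨hp0, hp1⟩ := hp
  rcases le_or_gt (p + r₀) s with ha | ha
  · left
    refine ⟨p + r₀, ⟨by linarith, by linarith⟩, two_fst hu0 ha, Or.inl ha, fun h => by linarith,
      fun h => by linarith⟩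
  · rcases lt_or_ge (p + r₀) (s + u) with hb | hb
    · right
      exact ⟨p + r₀ - s, ⟨by linarith, by linarith⟩, two_mid h0 ha.le hb.le⟩
    · left
      refine ⟨p + r₀ - (s + u) + t, ⟨by linarith, by linarith⟩, two_lst h0 hu0 hu hb,
        Or.inr (by linarith), fun h => by linarith, fun h => by linarith⟩

theorem two_inj {g g' : ℂ → ℂ} {R r l s u t r₀ : ℝ} {L σ : ℝ → ℂ} (hT : Top g g' R)
    (hL : Line g L l r) (hF : Fst g L l s σ u r) (hr : r + 20 ≤ R) (hu : σ u = L t)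
    (h0 : 0 ≤ r₀) (h1 : r₀ < s) (h2 : s < t) (h3 : t ≤ r₀ + l) :
    InjOn (two L σ s u t) (Icc r₀ (s + u + (r₀ + l - t))) := by
  have hl := hL.pos
  have hu0 := hF.pos
  obtain ⟨hs0, hsl⟩ := hF.hs
  have star := sigma_star hT hL hF (by linarith)
  have inj : ∀ p ∈ Icc r₀ (r₀ + l), ∀ q ∈ Icc r₀ (r₀ + l), L p = L q → p = q := by
    intro p hp q hq e
    refine hL.inj2 p ⟨by linarith [hp.1], by linarith [hp.2]⟩ q
      ⟨by linarith [hq.1], by linarith [hq.2]⟩ ?_ e
    rw [abs_le]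
    constructor <;> linarith [hp.1, hp.2, hq.1, hq.2]
  have i1 : InjOn (cat L s σ 0) (Icc r₀ (s + (u - 0))) := by
    refine injOn_cat hF.start.symm hu0.le ?_ hF.inj ?_
    · intro p hp q hq e
      exact inj p ⟨hp.1, by linarith [hp.2]⟩ q ⟨hq.1, by linarith [hq.2]⟩ e
    · intro p hp x hx e
      rcases lt_or_eq_of_le hx.2 with hxu | hxu
      · exact (star x ⟨hx.1, hxu⟩ p ⟨by linarith [hp.1], by linarith [hp.2]⟩ e.symm).2
      · rw [hxu, hu] at e
        have := inj p ⟨hp.1, by linarith [hp.2]⟩ t ⟨by linarith, h3⟩ e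
        linarith [hp.2]
  rw [sub_zero] at i1
  refine injOn_cat (one_end hF.start hu0.le hu) h3 i1 ?_ ?_
  · intro p hp q hq e
    exact inj p ⟨by linarith [hp.1], hp.2⟩ q ⟨by linarith [hq.1], hq.2⟩ e
  · intro p hp q hq e
    rcases le_or_gt p s with ha | ha
    · rw [cat_le ha] at e
      have := inj p ⟨hp.1, by linarith⟩ q ⟨by linarith [hq.1], hq.2⟩ e
      linarith [hq.1]
    · rw [cat_ge hF.start.symm ha.le, add_zero] at e
      rcases lt_or_eq_of_le hp.2 with hb | hb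
      · have := (star (p - s) ⟨by linarith, by linarith⟩ q
          ⟨by linarith [hq.1], by linarith [hq.2]⟩ e).1
        linarith
      · exact hb

theorem two_arc {g g' : ℂ → ℂ} {R r l s u t r₀ : ℝ} {L σ : ℝ → ℂ} (hT : Top g g' R)
    (hL : Line g L l r) (hF : Fst g L l s σ u r) (hr : r + 20 ≤ R)
    (hfree : ∀ x ∈ Icc 0 u, ∀ y ∈ Icc 0 u, σ x ≠ g (σ y)) (hu : σ u = L t)
    (h0 : 0 ≤ r₀) (h1 : r₀ < s) (h2 : s < t) (h3 : t ≤ r₀ + l) :
    Arc g (fun p => two L σ s u t (p + r₀)) (s + u + l - t) := by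
  have hl := hL.pos
  have hu0 := hF.pos
  obtain ⟨hs0, hsl⟩ := hF.hs
  have star := sigma_star hT hL hF (by linarith)
  refine ⟨(two_cont hL.cont hF.cont hF.start hu0.le hu).comp (continuous_add_const r₀),
    by linarith, ?_, ?_, ?_⟩
  · intro p hp q hq e
    have := two_inj hT hL hF hr hu h0 h1 h2 h3
      (x₁ := p + r₀) ⟨by linarith [hp.1], by linarith [hp.2]⟩
      (x₂ := q + r₀) ⟨by linarith [hq.1], by linarith [hq.2]⟩ e
    linarith
  · show two L σ s u t (s + u + l - t + r₀) = g (two L σ s u t (0 + r₀))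
    rw [two_lst hF.start hu0.le hu (by linarith), two_fst hu0.le (by linarith), zero_add,
      ← hL.per r₀ ⟨by linarith, by linarith⟩]
    congr 1
    ring
  · intro a ha b hb e
    replace e : g (two L σ s u t (a + r₀)) = two L σ s u t (b + r₀) := e
    rcases two_pt hF.start hu0.le hu h1 h2 (by linarith) ha with
      ⟨q, hq, eq, -, hq0, -⟩ | ⟨x, hx, ex⟩ <;>
    rcases two_pt hF.start hu0.le hu h1 h2 (by linarith) hb with
      ⟨q', hq', eq', -, -, hq1⟩ | ⟨y, hy, ey⟩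
    · rw [eq, eq', ← hL.per q ⟨by linarith [hq.1], by linarith [hq.2]⟩] at e
      have h := hL.inj2 (q + l) ⟨by linarith [hq.1], by linarith [hq.2]⟩ q'
        ⟨by linarith [hq'.1], by linarith [hq'.2]⟩ (by
          rw [abs_le]
          constructor <;> linarith [hq.1, hq.2, hq'.1, hq'.2]) e
      exact ⟨hq0 (by linarith [hq.1, hq'.2]), hq1 (by linarith [hq.1, hq'.2])⟩
    · rw [eq, ey, ← hL.per q ⟨by linarith [hq.1], by linarith [hq.2]⟩] at e
      have := (star y ⟨hy.1.le, hy.2⟩ (q + l) ⟨by linarith [hq.1], by linarith [hq.2]⟩ e.symm).1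
      exact absurd this hy.1.ne'
    · have hm : q' - l ∈ Icc (-2 * l) (3 * l) := ⟨by linarith [hq'.1], by linarith [hq'.2]⟩
      have hp := hL.per (q' - l) ⟨by linarith [hq'.1], by linarith [hq'.2]⟩
      rw [sub_add_cancel] at hp
      rw [ex, eq', hp] at e
      have e' := hT.inj (by linarith [hF.bd x ⟨hx.1.le, hx.2.le⟩])
        (by linarith [hL.bd _ hm]) e
      have := (star x ⟨hx.1.le, hx.2⟩ (q' - l) hm e').1
      exact absurd this hx.1.ne'
    · rw [ex, ey] at e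
      exact absurd e.symm (hfree y ⟨hy.1.le, hy.2.le⟩ x ⟨hx.1.le, hx.2.le⟩)

theorem two_var {L σ : ℝ → ℂ} {s u t l r₀ : ℝ} {z : ℂ} (hL : Continuous L) (hσ : Continuous σ)
    (h0 : σ 0 = L s) (hu0 : 0 ≤ u) (hu : σ u = L t) (h1 : r₀ ≤ s) (h3 : t ≤ r₀ + l)
    (z1 : z ∉ L '' Icc r₀ s) (z2 : z ∉ σ '' Icc 0 u) (z3 : z ∉ L '' Icc t (r₀ + l)) :
    var (fun p => two L σ s u t (p + r₀)) 0 (s + u + l - t) z =
      var L r₀ s z + var σ 0 u z + var L t (r₀ + l) z := by
  have o1 := off_of_icc hL h1 z1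
  have o2 := off_of_icc hσ hu0 z2
  have o3 := off_of_icc hL h3 z3
  have v1 := var_cat h0.symm h1 hu0 o1 o2
  have im := image_cat h0.symm h1 hu0
  rw [sub_zero] at v1 im
  have o4 : Off (cat L s σ 0) r₀ (s + u) z := by
    refine off_of_icc (continuous_cat hL hσ h0.symm) (by linarith) ?_
    rw [im]
    rintro (h | h)
    exacts [z1 h, z2 h]
  have v2 := var_cat (one_end h0 hu0 hu) (by linarith) h3 o4 o3
  rw [var_shift (two L σ s u t) 0 (s + u + l - t) r₀ z, zero_add,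
    show s + u + l - t + r₀ = s + u + (r₀ + l - t) by ring, ← v1]
  exact v2

end CoreSAux

open CoreSAux in
theorem core_S {g g' : ℂ → ℂ} {R r l s s₁ u e t : ℝ} {L σ : ℝ → ℂ} {v d : ℂ} (hT : Top g g' R)
    (hL : Line g L l r) (hF : Fst g L l s σ u r) (hr : r + 20 ≤ R) (hd : d ≠ 0)
    (hseg : Seg L s s₁ v d e) (hfree : ∀ x ∈ Icc 0 u, ∀ y ∈ Icc 0 u, σ x ≠ g (σ y))
    (ht : t ∈ Icc s₁ (2 * l)) (hu : σ u = L t) :
    ∃ κ l' β b J U V K w rest c, Res g L l s s₁ σ u κ l' β b J U V K w rest c := by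
  obtain ⟨htl, U, V, c, hJ, hc, wU, wV, back⟩ := side_S hT hL hF hr hd hseg hfree ht hu
  have hl := hL.pos
  have hu0 := hF.pos
  obtain ⟨hs0, hsl⟩ := hF.hs
  have hss := hseg.lt
  obtain ⟨ht1, ht2⟩ := ht
  obtain ⟨r₀, hr₀⟩ : ∃ r₀, r₀ = max 0 (t - l) := ⟨_, rfl⟩
  have h0 : 0 ≤ r₀ := hr₀ ▸ le_max_left _ _
  have h1 : r₀ < s := hr₀ ▸ max_lt hs0 (by linarith)
  have h2 : s < t := by linarith
  have h3 : t ≤ r₀ + l := by
    have : t - l ≤ r₀ := hr₀ ▸ le_max_right _ _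
    linarith
  have hsplit : L '' Icc s t = L '' Icc s s₁ ∪ L '' Icc s₁ t := by
    rw [← image_union, Icc_union_Icc_eq_Icc hss.le ht1]
  refine ⟨fun p => two L σ s u t (p + r₀), s + u + l - t, L, r₀, L '' Icc s t ∪ σ '' Icc 0 u, U, V,
    L '' Icc s₁ t ∪ σ '' Icc 0 u, fun z => var L s t z - var σ 0 u z,
    fun z => var L s₁ t z - var σ 0 u z, c, two_arc hT hL hF hr hfree hu h0 h1 h2 h3, hL.cont, h0,
    ?_, rfl, ?_, ?_, ?_, hJ, hc, wU, wV, back, ?_, ?_, ?_, ?_, ?_, ?_⟩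
  · intro p hp q hq e
    refine hL.inj2 p ⟨by linarith [hp.1], by linarith [hp.2]⟩ q
      ⟨by linarith [hq.1], by linarith [hq.2]⟩ ?_ e
    rw [abs_le]
    constructor <;> linarith [hp.1, hp.2, hq.1, hq.2]
  · show L r₀ = two L σ s u t (0 + r₀)
    rw [zero_add, two_fst hu0.le h1.le]
  · exact (image_mono (Icc_subset_Icc le_rfl (by linarith))).trans subset_union_left
  · right
    refine ⟨t, ⟨h2, htl⟩, hu, ?_⟩
    rintro _ ⟨p, hp, rfl⟩
    show two L σ s u t (p + r₀) ∈ _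
    rcases two_pt hF.start hu0.le hu h1 h2 (by linarith) hp with
      ⟨q, hq, eq, hq' | hq', -, -⟩ | ⟨x, hx, ex⟩
    · rw [eq]
      exact Or.inl (Or.inl ⟨q, ⟨hr₀ ▸ hq.1, hq'⟩, rfl⟩)
    · rw [eq]
      rcases le_total t l with htl' | htl'
      · have : r₀ = 0 := by rw [hr₀]; exact max_eq_left (by linarith)
        exact Or.inr ⟨q, ⟨hq', by linarith [hq.2]⟩, rfl⟩
      · have : r₀ = t - l := by rw [hr₀]; exact max_eq_right (by linarith)
        have hqt : q = t := by linarith [hq.2]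
        rw [hqt, ← hu]
        exact Or.inl (Or.inr ⟨u, ⟨hu0.le, le_rfl⟩, rfl⟩)
    · rw [ex]
      exact Or.inl (Or.inr ⟨x, ⟨hx.1.le, hx.2.le⟩, rfl⟩)
  · rw [hsplit, union_assoc]
  · exact ((isCompact_Icc.image hL.cont).union (isCompact_Icc.image hF.cont)).isClosed
  · refine ⟨∅, ?_, Or.inl rfl⟩
    rw [union_empty]
    exact union_subset_union_left _ (image_mono (Icc_subset_Icc le_rfl htl.le))
  · have c1 := var_cont (P := L) (a := s₁) (b := t) hL.cont.continuousOn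
    have c2 := var_cont (P := σ) (a := 0) (b := u) hF.cont.continuousOn
    rw [uIcc_of_le ht1] at c1
    rw [uIcc_of_le hu0.le] at c2
    exact (c1.mono (compl_subset_compl.2 subset_union_left)).sub
      (c2.mono (compl_subset_compl.2 subset_union_right))
  · intro z hz
    rw [hsplit] at hz
    have a1 := off_of_icc (z := z) hL.cont hss.le fun h => hz (Or.inl (Or.inl h))
    have a2 := off_of_icc (z := z) hL.cont ht1 fun h => hz (Or.inl (Or.inr h))
    have := var_add a1 a2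
    show var L s t z - var σ 0 u z = var L s s₁ z + (var L s₁ t z - var σ 0 u z)
    linarith
  · intro z z1 z2 _
    have nz : ∀ a b : ℝ, 0 ≤ a → b ≤ 2 * l → z ∉ L '' Icc a b := fun a b ha hb h =>
      z1 (image_mono (Icc_subset_Icc ha hb) h)
    have of : ∀ a b : ℝ, 0 ≤ a → a ≤ b → b ≤ 2 * l → Off L a b z := fun a b ha hab hb =>
      off_of_icc hL.cont hab (nz a b ha hb)
    have v1 := two_var (l := l) hL.cont hF.cont hF.start hu0.le hu h1.le h3
      (nz r₀ s h0 (by linarith)) z2 (nz t (r₀ + l) (by linarith) (by linarith))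
    have v2 : var (fun p => g (L p)) 0 r₀ z = var L l (r₀ + l) z := by
      have := var_shift L 0 r₀ l z
      rw [zero_add] at this
      rw [← this]
      refine var_congr (fun p hp => ?_) z
      rw [uIcc_of_le h0] at hp
      exact (hL.per p ⟨by linarith [hp.1], by linarith [hp.2]⟩).symm
    have v3 := var_add (of 0 l le_rfl hl.le (by linarith))
      (of l (r₀ + l) hl.le (by linarith) (by linarith))
    have v4 := var_add (of 0 r₀ le_rfl h0 (by linarith)) (of r₀ s h0 h1.le (by linarith))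
    have v5 := var_add (of 0 s le_rfl hs0.le (by linarith)) (of s t hs0.le h2.le ht2)
    have v6 := var_add (of 0 t le_rfl (by linarith) ht2)
      (of t (r₀ + l) (by linarith) h3 (by linarith))
    show var L 0 l z + var (fun p => g (L p)) 0 r₀ z -
      var (fun p => two L σ s u t (p + r₀)) 0 (s + u + l - t) z - var L 0 r₀ z =
        var L s t z - var σ 0 u z
    rw [v1, v2]
    linarith

end Pool.Agent.Lib.MP_399f8e_an.Ur
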