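import Pool.Agent.Lib.MP_399f8e_an.Ur.Defs

open Set Filter Topology Metric Complex
open scoped Real
open Pool.Agent.Lib.MP_399f8e_an.Rg

noncomputable section

namespace Pool.Agent.Lib.MP_399f8e_an.Ur

variable {ε : ℝ} {k : ℝ → ℂ} {a b : ℝ}

namespace GridAux

theorem no_mid (hε : 0 < ε) (m n : ℤ) (h1 : (n : ℝ) * ε < m * ε) (h2 : (m : ℝ) * ε < n * ε + ε) :
    False := by
  have a1 : (n : ℝ) < m := lt_of_mul_lt_mul_right h1 hε.le
  have a2 : (m : ℝ) < n + 1 := by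
    apply lt_of_mul_lt_mul_right _ hε.le
    linarith
  have b1 : n < m := by exact_mod_cast a1
  have b2 : m < n + 1 := by exact_mod_cast a2
  omega

theorem near_eq (hε : 0 < ε) (m n : ℤ) (h1 : (m : ℝ) * ε < n * ε + ε)
    (h2 : (n : ℝ) * ε < m * ε + ε) : m = n := by
  have a1 : (m : ℝ) < n + 1 := by
    apply lt_of_mul_lt_mul_right _ hε.le
    linarith
  have a2 : (n : ℝ) < m + 1 := by
    apply lt_of_mul_lt_mul_right _ hε.le
    linarith
  have b1 : m < n + 1 := by exact_mod_cast a1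
  have b2 : n < m + 1 := by exact_mod_cast a2
  omega

theorem floor_near (hε : 0 < ε) (x : ℝ) : ∃ m : ℤ, |x - m * ε| ≤ ε := by
  refine ⟨⌊x / ε⌋, ?_⟩
  have h1 := Int.floor_le (x / ε)
  have h2 := Int.lt_floor_add_one (x / ε)
  rw [le_div_iff₀ hε] at h1
  rw [div_lt_iff₀ hε] at h2
  rw [abs_le]
  constructor <;> linarith

theorem abs_le_of (hε : 0 < ε) {m : ℤ} {r : ℝ} (h : |(m : ℝ) * ε| ≤ r) :
    m ∈ Icc (-⌈r / ε⌉) ⌈r / ε⌉ := by
  rw [abs_le] at h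
  have h1 := Int.le_ceil (r / ε)
  rw [div_le_iff₀ hε] at h1
  constructor
  · have : (-(⌈r / ε⌉ : ℝ)) ≤ m := by
      apply le_of_mul_le_mul_right _ hε
      linarith
    exact_mod_cast this
  · have : (m : ℝ) ≤ ⌈r / ε⌉ := by
      apply le_of_mul_le_mul_right _ hε
      linarith
    exact_mod_cast this

end GridAux

theorem Dir.norm {d : ℂ} (h : Dir d) : ‖d‖ = 1 := by
  rcases h with rfl | rfl | rfl | rfl <;> simp

theorem Dir.neg {d : ℂ} (h : Dir d) : Dir (-d) := by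
  rcases h with rfl | rfl | rfl | rfl <;> simp [Dir]

theorem Dir.mulI {d : ℂ} (h : Dir d) : Dir (I * d) := by
  rcases h with rfl | rfl | rfl | rfl <;> simp [Dir]

theorem Dir.cases {d d' : ℂ} (h : Dir d) (h' : Dir d') :
    d' = d ∨ d' = I * d ∨ d' = -d ∨ d = I * d' := by
  rcases h with rfl | rfl | rfl | rfl <;> rcases h' with rfl | rfl | rfl | rfl <;> simp

theorem vtx_add {v d : ℂ} (hv : v ∈ Vtx ε) (hd : Dir d) (m : ℤ) : v + m * ε * d ∈ Vtx ε := by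
  obtain ⟨⟨p, hp⟩, ⟨q, hq⟩⟩ := hv
  rcases hd with rfl | rfl | rfl | rfl
  · exact ⟨⟨p + m, by simp [hp]; ring⟩, ⟨q, by simp [hq]⟩⟩
  · exact ⟨⟨p - m, by simp [hp]; ring⟩, ⟨q, by simp [hq]⟩⟩
  · exact ⟨⟨p, by simp [hp]⟩, ⟨q + m, by simp [hq]; ring⟩⟩
  · exact ⟨⟨p, by simp [hp]⟩, ⟨q - m, by simp [hq]; ring⟩⟩

theorem grid_line {v d : ℂ} (hv : v ∈ Vtx ε) (hd : Dir d) (x : ℝ) : v + x * d ∈ Grid ε := by
  obtain ⟨⟨p, hp⟩, ⟨q, hq⟩⟩ := hv
  rcases hd with rfl | rfl | rfl | rfl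
  · exact Or.inr ⟨q, by simp [hq]⟩
  · exact Or.inr ⟨q, by simp [hq]⟩
  · exact Or.inl ⟨p, by simp [hp]⟩
  · exact Or.inl ⟨p, by simp [hp]⟩

theorem grid_sub {z c : ℂ} (hc : c ∈ Vtx ε) : z - c ∈ Grid ε ↔ z ∈ Grid ε := by
  obtain ⟨⟨p, hp⟩, ⟨q, hq⟩⟩ := hc
  constructor
  · rintro (⟨m, hm⟩ | ⟨m, hm⟩)
    · refine Or.inl ⟨m + p, ?_⟩
      rw [sub_re, hp] at hm
      push_cast
      linarith
    · refine Or.inr ⟨m + q, ?_⟩
      rw [sub_im, hq] at hm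
      push_cast
      linarith
  · rintro (⟨m, hm⟩ | ⟨m, hm⟩)
    · refine Or.inl ⟨m - p, ?_⟩
      rw [sub_re, hp, hm]
      push_cast
      ring
    · refine Or.inr ⟨m - q, ?_⟩
      rw [sub_im, hq, hm]
      push_cast
      ring

theorem exists_vtx_near (hε : 0 < ε) (z : ℂ) : ∃ c ∈ Vtx ε, ‖z - c‖ ≤ 2 * ε := by
  obtain ⟨p, hp⟩ := GridAux.floor_near hε z.re
  obtain ⟨q, hq⟩ := GridAux.floor_near hε z.im
  refine ⟨⟨p * ε, q * ε⟩, ⟨⟨p, rfl⟩, ⟨q, rfl⟩⟩, ?_⟩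
  have h := norm_le_abs_re_add_abs_im (z - ⟨p * ε, q * ε⟩)
  simp only [sub_re, sub_im] at h
  linarith

theorem vtx_finite (hε : 0 < ε) (r : ℝ) : {v | v ∈ Vtx ε ∧ ‖v‖ ≤ r}.Finite := by
  have hf : ((Icc (-⌈r / ε⌉) ⌈r / ε⌉) ×ˢ (Icc (-⌈r / ε⌉) ⌈r / ε⌉) : Set (ℤ × ℤ)).Finite :=
    (finite_Icc _ _).prod (finite_Icc _ _)
  refine (hf.image fun p => (⟨p.1 * ε, p.2 * ε⟩ : ℂ)).subset ?_
  rintro v ⟨⟨⟨p, hp⟩, ⟨q, hq⟩⟩, hv⟩
  refine ⟨(p, q), ⟨GridAux.abs_le_of hε ?_, GridAux.abs_le_of hε ?_⟩, ?_⟩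
  · rw [← hp]
    exact (abs_re_le_norm v).trans hv
  · rw [← hq]
    exact (abs_im_le_norm v).trans hv
  · exact Complex.ext hp.symm hq.symm

theorem vtx_height {v d : ℂ} (hv : v ∈ Vtx ε) (hd : Dir d) : ∃ m : ℤ, (v / d).re = m * ε := by
  obtain ⟨⟨p, hp⟩, ⟨q, hq⟩⟩ := hv
  rcases hd with rfl | rfl | rfl | rfl
  · exact ⟨p, by simp [hp]⟩
  · exact ⟨-p, by simp [div_neg, hp]⟩
  · exact ⟨q, by simp [hq]⟩
  · exact ⟨-q, by simp [div_neg, hq]⟩

theorem mem_Om {z : ℂ} : z ∈ Om ↔ ∀ d, Dir d → (z / d).re ≤ 1000 := by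
  constructor
  · rintro ⟨h1, h2⟩ d hd
    rw [abs_le] at h1 h2
    rcases hd with rfl | rfl | rfl | rfl
    · simpa using h1.2
    · have := h1.1
      simp [div_neg]
      linarith
    · simpa using h2.2
    · have := h2.1
      simp [div_neg]
      linarith
  · intro h
    have h1 := h 1 (Or.inl rfl)
    have h2 := h (-1) (Or.inr (Or.inl rfl))
    have h3 := h I (Or.inr (Or.inr (Or.inl rfl)))
    have h4 := h (-I) (Or.inr (Or.inr (Or.inr rfl)))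
    simp [div_neg] at h1 h2 h3 h4
    exact ⟨abs_le.2 ⟨by linarith, h1⟩, abs_le.2 ⟨by linarith, h3⟩⟩

theorem mid_near (hε : 0 < ε) {v d z : ℂ} (hv : v ∈ Vtx ε) (hd : Dir d) (hz : z ∈ Grid ε)
    (h : ‖z - (v + ε / 2 * d)‖ < ε / 2) : ∃ y ∈ Ioo (0 : ℝ) ε, z = v + y * d := by
  obtain ⟨⟨p, hp⟩, ⟨q, hq⟩⟩ := hv
  have h1 := abs_lt.1 ((abs_re_le_norm _).trans_lt h)
  have h2 := abs_lt.1 ((abs_im_le_norm _).trans_lt h)
  obtain ⟨h1, h1'⟩ := h1
  obtain ⟨h2, h2'⟩ := h2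
  rcases hd with rfl | rfl | rfl | rfl
  · simp at h1 h1' h2 h2'
    rcases hz with ⟨m, hm⟩ | ⟨m, hm⟩
    · exact (GridAux.no_mid hε m p (by linarith) (by linarith)).elim
    · have := GridAux.near_eq hε m q (by linarith) (by linarith)
      subst this
      refine ⟨z.re - v.re, ⟨by linarith, by linarith⟩, ?_⟩
      apply Complex.ext <;> simp [hm, hq]
  · simp at h1 h1' h2 h2'
    rcases hz with ⟨m, hm⟩ | ⟨m, hm⟩
    · exact (GridAux.no_mid hε p m (by linarith) (by linarith)).elim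
    · have := GridAux.near_eq hε m q (by linarith) (by linarith)
      subst this
      refine ⟨v.re - z.re, ⟨by linarith, by linarith⟩, ?_⟩
      apply Complex.ext <;> simp [hm, hq]
  · simp at h1 h1' h2 h2'
    rcases hz with ⟨m, hm⟩ | ⟨m, hm⟩
    · have := GridAux.near_eq hε m p (by linarith) (by linarith)
      subst this
      refine ⟨z.im - v.im, ⟨by linarith, by linarith⟩, ?_⟩
      apply Complex.ext <;> simp [hm, hp]
    · exact (GridAux.no_mid hε m q (by linarith) (by linarith)).elim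
  · simp at h1 h1' h2 h2'
    rcases hz with ⟨m, hm⟩ | ⟨m, hm⟩
    · have := GridAux.near_eq hε m p (by linarith) (by linarith)
      subst this
      refine ⟨v.im - z.im, ⟨by linarith, by linarith⟩, ?_⟩
      apply Complex.ext <;> simp [hm, hp]
    · exact (GridAux.no_mid hε q m (by linarith) (by linarith)).elim

theorem seg_surj {s s₁ e x : ℝ} {v d : ℂ} (hc : Continuous k) (h : Seg k s s₁ v d e) (hd : d ≠ 0)
    (hx : x ∈ Icc 0 e) : ∃ p ∈ Icc s s₁, k p = v + x * d := by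
  have key : ∀ y : ℝ, ((v + y * d - v) / d).re = y := by
    intro y
    rw [add_sub_cancel_left, mul_div_assoc, div_self hd, mul_one, ofReal_re]
  have hf : Continuous fun p => ((k p - v) / d).re :=
    continuous_re.comp ((hc.sub continuous_const).div_const d)
  have hI := intermediate_value_Icc h.lt.le hf.continuousOn
  have h0 : ((k s - v) / d).re = 0 := by
    rw [h.fst]
    simp
  have h1 : ((k s₁ - v) / d).re = e := by
    rw [h.snd]
    exact key e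
  simp only [h0, h1] at hI
  obtain ⟨p, hp, hpx⟩ := hI hx
  obtain ⟨y, -, hy⟩ := h.mem p hp
  refine ⟨p, hp, ?_⟩
  have : y = x := by
    rw [← hpx]
    simp only [hy]
    exact (key y).symm
  rw [hy, this]

end Pool.Agent.Lib.MP_399f8e_an.Ur
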