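import Pool.Agent.Lib.MP_399f8e_an.Ur.RtEx

open Set Filter Topology Metric Complex
open scoped Real
open Pool.Agent.Lib.MP_399f8e_an.Rg

noncomputable section

namespace Pool.Agent.Lib.MP_399f8e_an.Ur

variable {φ : ℝ → S → S} {lam δ : ℝ} {Y : S → ℂ → S} {pr : S → S → ℂ} {T : S → S → ℝ}
variable {τ : S → ℝ}

namespace RetAux

theorem Y_le (hB : Box φ lam δ Y pr T) (c : S) {z : ℂ} (hz : ‖z‖ ≤ 200000) :
    ‖(Y c z : E) - c‖ ≤ 400000 * lam := by
  have h := hB.Ynear c z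
  have := mul_le_mul_of_nonneg_left hz (show 0 ≤ 2 * lam by linarith [hB.lam_pos])
  linarith

theorem G_le (hR : Rt φ τ lam δ) {y c : S} {a : ℝ} (h : ‖(y : E) - c‖ ≤ a) :
    ‖(φ (τ y) y : E) - c‖ ≤ lam / 10 + a :=
  (norm_sub_le_norm_sub_add_norm_sub _ (y : E) _).trans (add_le_add (hR.near y) h)

theorem ret_eq (c : S) {z : ℂ} (hz : ‖z‖ ≤ 200000) :
    ret φ τ Y pr c z = pr c (φ (τ (Y c z)) (Y c z)) := by
  simp [ret, cl_eq hz]

theorem gam_eq (c c' : S) {z : ℂ} (hz : ‖z‖ ≤ 200000) : gam Y pr c c' z = pr c' (Y c z) := by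
  simp [gam, cl_eq hz]

end RetAux

open RetAux

theorem ret_cont (hφ : IsFl φ) (hB : Box φ lam δ Y pr T) (hR : Rt φ τ lam δ) (c : S) :
    Continuous (ret φ τ Y pr c) := by
  have hl := hB.lam_pos
  have h1 : Continuous fun z => Y c (cl z) := (hB.Ycont c).comp continuous_cl
  have h2 : Continuous fun z => φ (τ (Y c (cl z))) (Y c (cl z)) :=
    hφ.cont.comp ((hR.cont.comp h1).prodMk h1)
  refine Continuous.add ?_ (continuous_id.sub continuous_cl)
  refine (hB.prcont c).comp_continuous h2 fun z => ?_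
  exact (G_le hR (Y_le hB c (norm_cl z))).trans (by linarith)

theorem ret_near (hφ : IsFl φ) (hB : Box φ lam δ Y pr T) (hR : Rt φ τ lam δ) (c : S) (z : ℂ) :
    ‖ret φ τ Y pr c z - z‖ ≤ 1 / 2 := by
  have hl := hB.lam_pos
  have h1 := hB.pr_lip hφ (c := c) (q := Y c (cl z)) (q' := φ (τ (Y c (cl z))) (Y c (cl z)))
    ((Y_le hB c (norm_cl z)).trans (by linarith)) ((hR.near _).trans (by linarith))
  rw [hB.pr_Y c ((norm_cl z).trans (by norm_num))] at h1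
  have e : ret φ τ Y pr c z - z = pr c (φ (τ (Y c (cl z))) (Y c (cl z))) - cl z := by
    unfold ret; ring
  rw [e]
  refine le_of_mul_le_mul_left ?_ hl
  linarith [hR.near (Y c (cl z))]

theorem ret_flow (hφ : IsFl φ) (hB : Box φ lam δ Y pr T) (hR : Rt φ τ lam δ) (c : S) {z : ℂ}
    (hz : ‖z‖ ≤ 200000) : ∃ a : ℝ, |a - τ (Y c z)| ≤ δ / 10 ∧
      Y c (ret φ τ Y pr c z) = φ a (Y c z) := by
  have hl := hB.lam_pos
  have h1 : ‖(φ (τ (Y c z)) (Y c z) : E) - c‖ ≤ 10 ^ 6 * lam :=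
    (G_le hR (Y_le hB c hz)).trans (by linarith)
  refine ⟨T c (φ (τ (Y c z)) (Y c z)) + τ (Y c z), by simpa using hB.Tle c _ h1, ?_⟩
  rw [ret_eq c hz, hφ.add, hB.flow c _ h1]

theorem ret_nofix (hφ : IsFl φ) (aper : ∀ x t, φ t x = x → t = 0) (hB : Box φ lam δ Y pr T)
    (hR : Rt φ τ lam δ) (c : S) {z : ℂ} (hz : ‖z‖ ≤ 200000) : ret φ τ Y pr c z ≠ z := by
  intro e
  obtain ⟨a, h1, h2⟩ := ret_flow hφ hB hR c hz
  rw [e] at h2
  rw [aper _ _ h2.symm, zero_sub, abs_neg] at h1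
  linarith [hR.far (Y c z), hB.δ_pos]

theorem ret_inj (hφ : IsFl φ) (aper : ∀ x t, φ t x = x → t = 0) (hB : Box φ lam δ Y pr T)
    (hR : Rt φ τ lam δ) (c : S) : InjOn (ret φ τ Y pr c) (closedBall 0 200000) := by
  intro z hz z' hz' e
  have hz1 : ‖z‖ ≤ 200000 := by simpa using hz
  have hz2 : ‖z'‖ ≤ 200000 := by simpa using hz'
  obtain ⟨a, h1, h2⟩ := ret_flow hφ hB hR c hz1
  obtain ⟨a', h1', h2'⟩ := ret_flow hφ hB hR c hz2
  have h3 : φ (a - a') (Y c z) = Y c z' := by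
    rw [sub_eq_neg_add, hφ.add, ← h2, e, h2', ← hφ.add, neg_add_cancel, hφ.zero]
  have h4 : |a - a'| ≤ δ := by
    refine hR.small hφ hB.δ_pos (Y c z) ?_
    rw [h3]
    have := abs_sub (a - τ (Y c z)) (a' - τ (Y c z'))
    have e2 : a - a' + τ (Y c z') - τ (Y c z) = a - τ (Y c z) - (a' - τ (Y c z')) := by ring
    rw [e2]
    linarith
  exact (hB.uniq c z z' _ h4 (by linarith) (by linarith) h3).2

theorem ret_surj (hφ : IsFl φ) (hB : Box φ lam δ Y pr T) (hR : Rt φ τ lam δ) (c : S) {z : ℂ}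
    (hz : ‖z‖ ≤ 199000) : ∃ w, ‖w - z‖ ≤ 1 / 2 ∧ ret φ τ Y pr c w = z := by
  have hl := hB.lam_pos
  have hδ := hB.δ_pos
  obtain ⟨t, ht⟩ := hR.onto hφ hδ (Y c z)
  set y := Y c z with hy
  set q := φ t y with hq
  have h0 : φ (τ q) q = y := by rw [hq, ← hφ.add, add_comm, ht, hφ.zero]
  have h1 : ‖(q : E) - y‖ ≤ lam / 10 := by
    have := hR.near q
    rwa [h0, norm_sub_rev] at this
  have h2 : ‖(y : E) - c‖ ≤ 400000 * lam := Y_le hB c (by linarith)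
  have h3 : ‖(q : E) - c‖ ≤ 10 ^ 6 * lam :=
    (norm_sub_le_norm_sub_add_norm_sub _ (y : E) _).trans (by linarith)
  have h4 := hB.pr_lip hφ (c := c) (q := y) (q' := q) (by linarith) (by linarith)
  have h5 : pr c y = z := hB.pr_Y c (by linarith)
  rw [h5] at h4
  have h6 : ‖pr c q - z‖ ≤ 1 / 2 := le_of_mul_le_mul_left (by linarith) hl
  have h7 : ‖pr c q‖ ≤ 200000 := by
    have := norm_sub_norm_le (pr c q) z
    linarith
  refine ⟨pr c q, h6, ?_⟩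
  have h8 := hB.flow c q h3
  have h9 := hB.Tle c q h3
  have e : φ (τ (Y c (pr c q))) (Y c (pr c q)) = φ (τ (φ (T c q) q) - τ q + T c q) y := by
    rw [← h8]
    calc φ (τ (φ (T c q) q)) (φ (T c q) q) = φ (τ (φ (T c q) q) + T c q) q := (hφ.add _ _ _).symm
      _ = φ ((τ (φ (T c q) q) - τ q + T c q) + τ q) q := by congr 1; ring
      _ = _ := by rw [hφ.add _ (τ q), h0]
  have h10 := G_le hR (Y_le hB c h7)
  rw [ret_eq c h7, e, hB.pr_flow hφ (by linarith) (by rw [← e]; linarith) ?_, h5]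
  have := hR.coarse q (T c q) (by linarith)
  have := abs_add_le (τ (φ (T c q) q) - τ q) (T c q)
  linarith

theorem ret_comm (hφ : IsFl φ) (hB : Box φ lam δ Y pr T) (hR : Rt φ τ lam δ) {c c' : S}
    (hd : dist c c' ≤ 8000 * lam) {z : ℂ} (hz : ‖z‖ ≤ 180000) :
    gam Y pr c c' (ret φ τ Y pr c z) = ret φ τ Y pr c' (gam Y pr c c' z) := by
  have hl := hB.lam_pos
  have hδ := hB.δ_pos
  have hd' : ‖(c : E) - c'‖ ≤ 8000 * lam := by rwa [← dist_eq_norm]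
  have h1 : ‖ret φ τ Y pr c z‖ ≤ 200000 := by
    have := norm_sub_norm_le (ret φ τ Y pr c z) z
    linarith [ret_near hφ hB hR c z]
  have h2 : ‖gam Y pr c c' z‖ ≤ 200000 := by
    have := norm_sub_norm_le (gam Y pr c c' z) z
    linarith [hB.gam_disp hd z]
  obtain ⟨a, a1, a2⟩ := ret_flow hφ hB hR c (z := z) (by linarith)
  obtain ⟨b, b1, b2⟩ := hB.gam_flow (c := c) (c' := c') (by linarith) (z := z) (by linarith)
  have e : φ (τ (Y c' (gam Y pr c c' z))) (Y c' (gam Y pr c c' z))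
      = φ (τ (φ b (Y c z)) + b - a) (Y c (ret φ τ Y pr c z)) := by
    rw [a2, b2, ← hφ.add, ← hφ.add]
    congr 1
    ring
  have h3 := G_le hR (Y_le hB c' h2)
  have h4 : ‖(Y c (ret φ τ Y pr c z) : E) - c'‖ ≤ 10 ^ 6 * lam :=
    (norm_sub_le_norm_sub_add_norm_sub _ (c : E) _).trans (by linarith [Y_le hB c h1])
  rw [gam_eq c c' h1, ret_eq c' h2, e, hB.pr_flow hφ h4 (by rw [← e]; linarith) ?_]
  have c1 := abs_le.1 (hR.coarse (Y c z) b (by linarith))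
  have c2 := abs_le.1 a1
  have c3 := abs_le.1 b1
  exact abs_le.2 ⟨by linarith, by linarith⟩

end Pool.Agent.Lib.MP_399f8e_an.Ur
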