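import Pool.Agent.Lib.MP_399f8e_an.Ur.Amap

open Set Filter Topology Metric Complex
open scoped Real
open Pool.Agent.Lib.MP_399f8e_an.Rg

noncomputable section

namespace Pool.Agent.Lib.MP_399f8e_an.Ur

variable {g g' : ℂ → ℂ} {ν : (ℂ → ℝ) → ℝ} {Z : Set ℂ} {R b : ℝ} {P : (ℝ → ℂ) → ℝ → ℝ}

theorem Tame.mono {r r' l : ℝ} {k : ℝ → ℂ} (h : Tame Z r k l) (hr : r ≤ r') : Tame Z r' k l :=
  ⟨h.cont, h.nn, fun t ht => (h.bd t ht).trans hr, h.off, h.bv⟩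

theorem Step.mono {r r' : ℝ} (h : Step g ν Z P r) (hr : r' ≤ r) : Step g ν Z P r' :=
  fun k l k' l' β b h1 h2 h3 => h k l k' l' β b (h1.mono hr) (h2.mono hr) (h3.mono hr)

namespace TameAux

theorem b_nn (h : Good g g' ν Z R b) : 0 ≤ b := (norm_nonneg _).trans (h.near 0)

theorem up {f : ℂ → ℂ} {c : ℝ} (h : ∀ z, ‖f z - z‖ ≤ c) (z : ℂ) : ‖f z‖ ≤ ‖z‖ + c := by
  linarith [norm_sub_norm_le (f z) z, h z]

theorem down {f : ℂ → ℂ} {c : ℝ} (h : ∀ z, ‖f z - z‖ ≤ c) (z : ℂ) : ‖z‖ - c ≤ ‖f z‖ := by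
  linarith [norm_sub_norm_le z (f z), h z, norm_sub_rev z (f z)]

theorem four {x₁ x₂ x₃ x₄ c₁ c₂ c₃ c₄ : ℝ} (h1 : |x₁| ≤ c₁) (h2 : |x₂| ≤ c₂) (h3 : |x₃| ≤ c₃)
    (h4 : |x₄| ≤ c₄) : |x₁ + x₂ - x₃ - x₄| ≤ c₁ + c₂ + c₃ + c₄ := by
  rw [abs_le] at h1 h2 h3 h4 ⊢
  constructor <;> linarith [h1.1, h1.2, h2.1, h2.2, h3.1, h3.2, h4.1, h4.2]

theorem far {k : ℝ → ℂ} {l r : ℝ} {z : ℂ} (hc : Continuous k) (hl : 0 ≤ l)
    (hr : ∀ t ∈ Icc 0 l, ‖k t‖ ≤ r) (hz : r < ‖z‖) :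
    var k 0 l z = arg ((k l - z) / (0 - z)) - arg ((k 0 - z) / (0 - z)) ∧ |var k 0 l z| ≤ π :=
  var_far (o := 0) (r := r) hc.continuousOn
    (fun t ht => by rw [sub_zero]; exact hr t (by rwa [uIcc_of_le hl] at ht))
    (by rwa [sub_zero])

theorem big (h : Good g g' ν Z R b) {f : ℂ → ℂ}
    (hf : ∀ w, Bd Z w → (∀ z, R - 5 < ‖z‖ → w z = 0) → ν (fun z => w (f z)) = ν w)
    (U : Set ℂ) (hU : U ⊆ closedBall 0 (R - 5)) (x : ℂ) (r : ℝ) (hr : 0 < r)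
    (hx : ball x r ⊆ U) : ∃ z ∈ U, f z ∉ U ∨ f z ∈ ball x r := by
  by_contra hc
  push Not at hc
  have bd : ∀ (V : Set ℂ) (z : ℂ), 0 ≤ V.indicator (fun _ => (1 : ℝ)) z ∧
      |V.indicator (fun _ => (1 : ℝ)) z| ≤ 1 := fun V z => by
    by_cases hz : z ∈ V <;> simp [hz]
  have h1 := hf ((U \ ball x r).indicator fun _ => 1) ⟨1, fun z _ => (bd _ z).2⟩ fun z hz =>
    indicator_of_notMem (fun e => by
      have := mem_closedBall_zero_iff.1 (hU e.1)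
      linarith) _
  have h2 := h.add ((U \ ball x r).indicator fun _ => 1) (ind x r) ⟨1, fun z _ => (bd _ z).2⟩
    ⟨1, fun z _ => (bd _ z).2⟩
  have h3 := h.pos x r (by
    have := mem_closedBall_zero_iff.1 (hU (hx (mem_ball_self hr)))
    linarith) hr
  have key : ∀ z, (U \ ball x r).indicator (fun _ => (1 : ℝ)) z + ind x r z =
      U.indicator (fun _ => (1 : ℝ)) z := fun z => by
    by_cases hz : z ∈ ball x r
    · rw [indicator_of_notMem (fun e => e.2 hz), ind, indicator_of_mem hz,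
        indicator_of_mem (hx hz), zero_add]
    · rw [ind, indicator_of_notMem hz, add_zero]
      by_cases hzU : z ∈ U
      · rw [indicator_of_mem hzU, indicator_of_mem (show z ∈ U \ ball x r from ⟨hzU, hz⟩)]
      · rw [indicator_of_notMem hzU, indicator_of_notMem (fun e => hzU e.1)]
  have h4 := h.mono (fun z => (U \ ball x r).indicator (fun _ => (1 : ℝ)) z + ind x r z)
    (fun z => (U \ ball x r).indicator (fun _ => (1 : ℝ)) (f z))
    ⟨1, fun z _ => by beta_reduce; rw [key]; exact (bd _ z).2⟩ ⟨1, fun z _ => (bd _ _).2⟩ fun z _ => by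
      rw [key]
      by_cases hzU : z ∈ U
      · rw [indicator_of_mem hzU, indicator_of_mem (show f z ∈ U \ ball x r from hc z hzU)]
      · rw [indicator_of_notMem hzU]
        exact (bd _ _).1
  linarith

end TameAux

theorem Tame.isOff {r l : ℝ} {k : ℝ → ℂ} (h : Tame Z r k l) {z : ℂ} (hz : z ∈ Z) :
    Off k 0 l z := by
  refine ⟨h.cont.continuousOn, fun t ht e => h.off t ?_ (e ▸ hz)⟩
  rwa [uIcc_of_le h.nn] at ht

theorem Tame.congr {r l : ℝ} {k k' : ℝ → ℂ} (h : Tame Z r k l) (hc : Continuous k')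
    (e : ∀ t ∈ Icc 0 l, k' t = k t) : Tame Z r k' l := by
  refine ⟨hc, h.nn, fun t ht => e t ht ▸ h.bd t ht, fun t ht => e t ht ▸ h.off t ht, ?_⟩
  obtain ⟨C, hC⟩ := h.bv
  refine ⟨C, fun z hz => ?_⟩
  rw [var_congr (P := k') (Q := k) (fun t ht => e t (by rwa [uIcc_of_le h.nn] at ht))]
  exact hC z hz

theorem Good.nu_congr (h : Good g g' ν Z R b) {w w' : ℂ → ℝ} (hw : Bd Z w)
    (e : ∀ z ∈ Z, w z = w' z) : ν w = ν w' := by
  have hw' : Bd Z w' := by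
    obtain ⟨C, hC⟩ := hw
    exact ⟨C, fun z hz => e z hz ▸ hC z hz⟩
  exact le_antisymm (h.mono _ _ hw hw' fun z hz => (e z hz).le)
    (h.mono _ _ hw' hw fun z hz => (e z hz).ge)

theorem Good.nu_zero (h : Good g g' ν Z R b) {w : ℂ → ℝ} (e : ∀ z ∈ Z, w z = 0) : ν w = 0 := by
  have hw : Bd Z w := ⟨0, fun z hz => by rw [e z hz, abs_zero]⟩
  rw [h.nu_congr (w' := fun z => 0 * w z) hw fun z hz => by rw [e z hz, mul_zero],
    h.smul 0 w hw, zero_mul]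

theorem Good.nu_sub (h : Good g g' ν Z R b) {w w' : ℂ → ℝ} (hw : Bd Z w) (hw' : Bd Z w') :
    ν (fun z => w z - w' z) = ν w - ν w' := by
  have h1 : Bd Z fun z => -1 * w' z := by
    obtain ⟨C, hC⟩ := hw'
    exact ⟨C, fun z hz => by beta_reduce; rw [neg_one_mul, abs_neg]; exact hC z hz⟩
  have h2 := h.add _ _ hw h1
  rw [h.smul (-1) w' hw'] at h2
  rw [sub_eq_add_neg (ν w), ← neg_one_mul (ν w'), ← h2]
  congr 1
  funext z
  ring

theorem Good.nu_le (h : Good g g' ν Z R b) {w : ℂ → ℝ} {C : ℝ} (hw : ∀ z ∈ Z, |w z| ≤ C) :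
    ν w ≤ C * ν (fun _ => 1) := by
  have h1 : Bd Z fun _ => (1 : ℝ) := ⟨1, fun _ _ => by rw [abs_one]⟩
  rw [← h.smul C _ h1]
  exact h.mono _ _ ⟨C, hw⟩ ⟨|C|, fun _ _ => by rw [mul_one]⟩ fun z hz => by
    rw [mul_one]
    exact (le_abs_self _).trans (hw z hz)

theorem Good.Zg' (h : Good g g' ν Z R b) {z : ℂ} (hz : ‖z‖ + b ≤ R) : g' z ∈ Z ↔ z ∈ Z := by
  have hb := TameAux.b_nn h
  have h1 := TameAux.up h.near' z
  rw [← h.Zg (g' z) (by linarith), h.inv' z (by linarith)]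

theorem Good.inv_nu' (h : Good g g' ν Z R b) {w : ℂ → ℝ} (hw : Bd Z w)
    (h0 : ∀ z, R - 2 * b ≤ ‖z‖ → w z = 0) :
    Bd Z (fun z => w (g' z)) ∧ ν (fun z => w (g' z)) = ν w := by
  have hb := TameAux.b_nn h
  have h1 : Bd Z fun z => w (g' z) := by
    obtain ⟨C, hC⟩ := hw
    refine ⟨|C|, fun z hz => ?_⟩
    by_cases hzR : ‖z‖ + b ≤ R
    · exact (hC _ ((h.Zg' hzR).2 hz)).trans (le_abs_self C)
    · have := TameAux.down h.near' z
      beta_reduce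
      rw [h0 (g' z) (by linarith), abs_zero]
      exact abs_nonneg C
  refine ⟨h1, ?_⟩
  rw [← h.invν _ h1 fun z hz => h0 _ (by linarith [TameAux.down h.near' z])]
  congr 1
  funext z
  by_cases hzR : ‖z‖ ≤ R
  · rw [h.inv z hzR]
  · have h2 := TameAux.down h.near z
    have h3 := TameAux.down h.near' (g z)
    rw [h0 (g' (g z)) (by linarith), h0 z (by linarith)]

theorem Good.top (h : Good g g' ν Z R b) (hb : b ≤ 1) : Top g g' (R - 5) := by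
  have hb0 := TameAux.b_nn h
  refine ⟨h.cont, h.cont', fun z => (h.near z).trans hb, fun z => (h.near' z).trans hb,
    fun z hz => h.inv z (by linarith), fun z hz => h.inv' z (by linarith),
    fun z hz => h.nofix z (by linarith), fun z hz e => h.nofix z (by linarith) ?_,
    TameAux.big h fun w h1 h2 => h.invν w h1 fun z hz => h2 z (by linarith),
    TameAux.big h fun w h1 h2 => (h.inv_nu' h1 fun z hz => h2 z (by linarith)).2⟩
  have := h.inv' z (by linarith)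
  rwa [e] at this

namespace TameAux

theorem var_map_le (h : Good g g' ν Z R b) (hb : b ≤ 1) {Ct C r l : ℝ} {k : ℝ → ℂ}
    (hCt : TwOn g (closedBall 0 R) Ct) (hk : Tame Z r k l) (hr : r + 3 ≤ R)
    (hC : ∀ z ∈ Z, |var k 0 l z| ≤ C) :
    ∀ z ∈ Z, |var (fun t => g (k t)) 0 l z| ≤ |Ct| + |C| + π := by
  intro z hz
  have hπ := Real.pi_pos
  by_cases hzR : ‖z‖ ≤ r + 2
  · have h1 : g' z ∈ Z := (h.Zg' (by linarith)).2 hz
    have h2 := hCt k 0 l (g' z) (hk.isOff h1)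
      (fun t ht => mem_closedBall_zero_iff.2 (by
        rw [uIcc_of_le hk.nn] at ht
        linarith [hk.bd t ht]))
      (mem_closedBall_zero_iff.2 (by linarith [up h.near' z]))
    rw [h.inv' z (by linarith)] at h2
    have h3 := hC _ h1
    rw [abs_le] at h2 h3 ⊢
    constructor <;> linarith [le_abs_self Ct, le_abs_self C, h2.1, h2.2, h3.1, h3.2]
  · have h3 := (far (k := fun t => g (k t)) (r := r + 1) (z := z) (h.cont.comp hk.cont) hk.nn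
      (fun t ht => by linarith [up h.near (k t), hk.bd t ht]) (by linarith)).2
    linarith [abs_nonneg Ct, abs_nonneg C]

end TameAux

theorem Good.tame_map (h : Good g g' ν Z R b) (hb : b ≤ 1) {r l : ℝ} {k : ℝ → ℂ}
    (hk : Tame Z r k l) (hr : r + 3 ≤ R) :
    Tame Z (r + 1) (fun t => g (k t)) l := by
  obtain ⟨Ct, hCt⟩ := h.tw
  obtain ⟨C, hC⟩ := hk.bv
  refine ⟨h.cont.comp hk.cont, hk.nn, fun t ht => ?_, fun t ht e => ?_,
    _, TameAux.var_map_le h hb hCt hk hr hC⟩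
  · linarith [TameAux.up h.near (k t), hk.bd t ht]
  · exact hk.off t ht ((h.Zg _ (by linarith [hk.bd t ht])).1 e)

theorem Good.tame_map' (h : Good g g' ν Z R b) (hb : b ≤ 1) {r l : ℝ} {k : ℝ → ℂ}
    (hk : Tame Z r k l) (hr : r + 3 ≤ R) : Tame Z (r + 1) (fun t => g' (k t)) l := by
  obtain ⟨Ct, hCt⟩ := h.tw
  obtain ⟨C, hC⟩ := hk.bv
  have hc : Continuous fun t => g' (k t) := h.cont'.comp hk.cont
  have h1 : ∀ t ∈ Icc 0 l, ‖g' (k t)‖ ≤ r + 1 := fun t ht => by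
    linarith [TameAux.up h.near' (k t), hk.bd t ht]
  have h2 : ∀ t ∈ Icc 0 l, g' (k t) ∉ Z := fun t ht e =>
    hk.off t ht ((h.Zg' (by linarith [hk.bd t ht])).1 e)
  have hu : uIcc 0 l = Icc 0 l := uIcc_of_le hk.nn
  refine ⟨hc, hk.nn, h1, h2, |Ct| + |C| + π, fun z hz => ?_⟩
  have hπ := Real.pi_pos
  by_cases hzR : ‖z‖ ≤ R
  · have h3 := hCt (fun t => g' (k t)) 0 l z
      ⟨hc.continuousOn, fun t ht (e : g' (k t) = z) => h2 t (hu ▸ ht) (e ▸ hz)⟩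
      (fun t ht => mem_closedBall_zero_iff.2 (by linarith [h1 t (hu ▸ ht)]))
      (mem_closedBall_zero_iff.2 hzR)
    rw [var_congr (P := fun t => g (g' (k t))) (Q := k)
      (fun t ht => h.inv' _ (by linarith [hk.bd t (hu ▸ ht)]))] at h3
    have h4 := hC _ ((h.Zg z hzR).2 hz)
    rw [abs_le] at h3 h4 ⊢
    constructor <;> linarith [le_abs_self Ct, le_abs_self C, h3.1, h3.2, h4.1, h4.2]
  · have h3 := (TameAux.far hc hk.nn h1 (z := z) (by linarith)).2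
    linarith [abs_nonneg Ct, abs_nonneg C]

theorem Good.wn_bd (h : Good g g' ν Z R b) (hb : b ≤ 1) {r l l' c : ℝ} {k k' β : ℝ → ℂ}
    (hk : Tame Z r k l) (hk' : Tame Z r k' l') (hβ : Tame Z r β c) (hr : r + 3 ≤ R) :
    Bd Z (Wn g k l k' l' β c) := by
  obtain ⟨C1, h1⟩ := hk.bv
  obtain ⟨C2, h2⟩ := (h.tame_map hb hβ hr).bv
  obtain ⟨C3, h3⟩ := hk'.bv
  obtain ⟨C4, h4⟩ := hβ.bv
  exact ⟨_, fun z hz => TameAux.four (h1 z hz) (h2 z hz) (h3 z hz) (h4 z hz)⟩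

theorem wn_far (hc : Continuous g) (hn : ∀ z, ‖g z - z‖ ≤ 1) {r l l' c : ℝ} {k k' β : ℝ → ℂ}
    (hk : Tame Z r k l) (hk' : Tame Z r k' l') (hβ : Tame Z r β c) (e1 : k l = g (k 0))
    (e2 : k' l' = g (k' 0)) (e3 : β 0 = k 0) (e4 : β c = k' 0) {z : ℂ} (hz : r + 1 < ‖z‖) :
    Wn g k l k' l' β c z = 0 := by
  have h1 := (TameAux.far hk.cont hk.nn hk.bd (z := z) (by linarith)).1
  have h2 := (TameAux.far (k := fun t => g (β t)) (r := r + 1) (hc.comp hβ.cont) hβ.nn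
    (fun t ht => by linarith [TameAux.up hn (β t), hβ.bd t ht]) hz).1
  have h3 := (TameAux.far hk'.cont hk'.nn hk'.bd (z := z) (by linarith)).1
  have h4 := (TameAux.far hβ.cont hβ.nn hβ.bd (z := z) (by linarith)).1
  rw [Wn, h1, h2, h3, h4, e1, e2, e3, e4]
  ring

theorem Step.congr (h : Good g g' ν Z R b) {r l : ℝ} (hS : Step g ν Z P r) {k k' : ℝ → ℂ}
    (hk : Tame Z r k l) (e1 : k l = g (k 0)) (hc : Continuous k')
    (e : ∀ t ∈ Icc 0 l, k' t = k t) : P k' l = P k l := by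
  have h0 : (0 : ℝ) ∈ Icc 0 l := left_mem_Icc.2 hk.nn
  have hβ : Tame Z r (fun _ => k 0) 0 :=
    ⟨continuous_const, le_rfl, fun _ _ => hk.bd 0 h0, fun _ _ => hk.off 0 h0,
      0, fun z _ => by rw [var_self, abs_zero]⟩
  rw [hS k l k' l (fun _ => k 0) 0 hk (hk.congr hc e) hβ e1
    (by rw [e l (right_mem_Icc.2 hk.nn), e 0 h0, e1]) rfl (e 0 h0).symm,
    h.nu_zero fun z _ => ?_, add_zero]
  rw [Wn, var_self, var_self,
    var_congr (P := k') (Q := k) (fun t ht => e t (by rwa [uIcc_of_le hk.nn] at ht))]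
  ring

theorem Step.rev (h : Good g g' ν Z R b) (hb : b ≤ 1) {r ρ l l' c : ℝ} (hS : Step g ν Z P ρ)
    {k k' β : ℝ → ℂ} (hk : Tame Z r k l) (hk' : Tame Z r k' l') (hβ : Tame Z r β c)
    (hr : r + 3 ≤ R) (hρ : r + 1 ≤ ρ) (e1 : k l = g (k 0)) (e2 : k' l' = g (k' 0))
    (e3 : β 0 = k l) (e4 : β c = k' l') :
    P k' l' = P k l + ν (fun z => var k 0 l z + var β 0 c z - var k' 0 l' z
      - var (fun t => g' (β t)) 0 c z) := by
  have h1 := hk.bd 0 (left_mem_Icc.2 hk.nn)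
  have h2 := hk'.bd 0 (left_mem_Icc.2 hk'.nn)
  rw [hS k l k' l' (fun t => g' (β t)) c (hk.mono (by linarith)) (hk'.mono (by linarith))
    ((h.tame_map' hb hβ hr).mono hρ) e1 e2
    (by rw [e3, e1, h.inv _ (by linarith)]) (by rw [e4, e2, h.inv _ (by linarith)])]
  congr 2
  funext z
  rw [Wn, var_congr (P := fun t => g (g' (β t))) (Q := β) (fun t ht => h.inv' _ (by
    rw [uIcc_of_le hβ.nn] at ht
    linarith [hβ.bd t ht]))]

theorem Step.bound (h : Good g g' ν Z R b) (hb : b ≤ 1) {r ρ C : ℝ} (hS : Step g ν Z P ρ)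
    (hr : r + 4 ≤ R) (hρ : r + 1 ≤ ρ) : ∃ M : ℝ, ∀ k l, Tame Z r k l → k l = g (k 0) →
      (∀ z ∈ Z, |var k 0 l z| ≤ C) → P k l ≤ M := by
  by_cases hex : ∃ k l, Tame Z r k l ∧ k l = g (k 0) ∧ ∀ z ∈ Z, |var k 0 l z| ≤ C
  swap
  · exact ⟨0, fun k l h1 h2 h3 => absurd ⟨k, l, h1, h2, h3⟩ hex⟩
  obtain ⟨k₀, l₀, a1, a2, a3⟩ := hex
  obtain ⟨Ct, hCt⟩ := h.tw
  refine ⟨P k₀ l₀ + (C + (|Ct| + |2 * π| + π) + C + 2 * π) * ν fun _ => 1, fun k l h1 h2 h3 => ?_⟩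
  have a0 : (0 : ℝ) ∈ Icc 0 l₀ := left_mem_Icc.2 a1.nn
  have h0 : (0 : ℝ) ∈ Icc 0 l := left_mem_Icc.2 h1.nn
  obtain ⟨β, b1, b2, b3, b4, b5⟩ := exists_avoid h.cnt (o := 0) (r := r) one_pos (a1.off 0 a0)
    (h1.off 0 h0) (by rw [sub_zero]; exact a1.bd 0 a0) (by rw [sub_zero]; exact h1.bd 0 h0)
  have hβ : Tame Z (r + 1) β 1 :=
    ⟨b1, zero_le_one, fun t ht => by simpa only [sub_zero] using (b4 t ht).1,
      fun t ht => (b4 t ht).2, _, b5⟩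
  rw [hS k₀ l₀ k l β 1 (a1.mono (by linarith)) (h1.mono (by linarith)) (hβ.mono hρ) a2 h2 b2 b3]
  have b6 := TameAux.var_map_le h hb hCt hβ (by linarith) b5
  have := h.nu_le (w := Wn g k₀ l₀ k l β 1) fun z hz =>
    TameAux.four (a3 z hz) (b6 z hz) (h3 z hz) (b5 z hz)
  linarith

end Pool.Agent.Lib.MP_399f8e_an.Ur
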