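import Pool.Agent.Lib.MP_399f8e_an.Ur.Var

open Set Filter Topology Metric Complex
open scoped Real
open Pool.Agent.Lib.MP_399f8e_an.Rg

noncomputable section

namespace Pool.Agent.Lib.MP_399f8e_an.Ur

theorem Top.symm {g g' : ℂ → ℂ} {R : ℝ} (h : Top g g' R) : Top g' g R :=
  ⟨h.cont', h.cont, h.near', h.near, h.inv', h.inv, h.nofix', h.nofix, h.big', h.big⟩

theorem Top.inj {g g' : ℂ → ℂ} {R : ℝ} (h : Top g g' R) {x y : ℂ} (hx : ‖x‖ ≤ R) (hy : ‖y‖ ≤ R)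
    (e : g x = g y) : x = y := by
  rw [← h.inv x hx, e, h.inv y hy]

theorem Top.norm_le {g g' : ℂ → ℂ} {R : ℝ} (h : Top g g' R) (x : ℂ) : ‖g x‖ ≤ ‖x‖ + 1 := by
  have h1 := norm_sub_norm_le (g x) x
  linarith [h.near x]

namespace AmapAux

/-- the point `x` pushed away from `y` by `3 s` -/
def xs (x y : ℂ) (s : ℝ) : ℂ := x + ((3 * s / ‖x - y‖ : ℝ) : ℂ) * (x - y)

/-- the difference quotient at the pushed point -/
def Fq (g : ℂ → ℂ) (x y : ℂ) (s : ℝ) : ℂ := (g (xs x y s) - g y) / (xs x y s - y)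

/-- the angle -/
def An (g : ℂ → ℂ) (x y : ℂ) : ℝ := arg (Fq g x y 1) - rot (Fq g x y) 0 1

theorem xs_zero (x y : ℂ) : xs x y 0 = x := by simp [xs]

theorem norm_xs_sub {x y : ℂ} (h : x ≠ y) {s : ℝ} (hs : 0 ≤ s) :
    ‖xs x y s - y‖ = ‖x - y‖ + 3 * s := by
  have h0 : 0 < ‖x - y‖ := norm_pos_iff.2 (sub_ne_zero.2 h)
  have e : xs x y s - y = ((1 + 3 * s / ‖x - y‖ : ℝ) : ℂ) * (x - y) := by
    simp only [xs]; push_cast; ring
  have h1 : 0 ≤ 1 + 3 * s / ‖x - y‖ := by positivity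
  rw [e, norm_mul, Complex.norm_real, Real.norm_of_nonneg h1]
  field_simp

theorem norm_xs_le {x y : ℂ} (h : x ≠ y) {s : ℝ} (hs : s ∈ uIcc (0 : ℝ) 1) :
    ‖xs x y s‖ ≤ ‖x‖ + 3 := by
  rw [uIcc_of_le zero_le_one] at hs
  have h0 : 0 < ‖x - y‖ := norm_pos_iff.2 (sub_ne_zero.2 h)
  have h1 : 0 ≤ 3 * s / ‖x - y‖ := div_nonneg (by linarith [hs.1]) h0.le
  have h2 : ‖((3 * s / ‖x - y‖ : ℝ) : ℂ) * (x - y)‖ = 3 * s := by
    rw [norm_mul, Complex.norm_real, Real.norm_of_nonneg h1]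
    field_simp
  have h3 := norm_add_le x (((3 * s / ‖x - y‖ : ℝ) : ℂ) * (x - y))
  simp only [xs]
  linarith [hs.2]

theorem xs_ne {x y : ℂ} (h : x ≠ y) {s : ℝ} (hs : s ∈ uIcc (0 : ℝ) 1) : xs x y s ≠ y := by
  rw [uIcc_of_le zero_le_one] at hs
  have h0 : 0 < ‖x - y‖ := norm_pos_iff.2 (sub_ne_zero.2 h)
  have h1 := norm_xs_sub h hs.1
  intro e
  rw [e, sub_self, norm_zero] at h1
  linarith [hs.1]

theorem quot_slit {g : ℂ → ℂ} (hn : ∀ z, ‖g z - z‖ ≤ 1) {u v : ℂ} (h : 2 < ‖u - v‖) :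
    (g u - g v) / (u - v) ∈ slitPlane := by
  have h0 : u - v ≠ 0 := by
    intro e
    rw [e, norm_zero] at h
    linarith
  have e : (g u - g v) / (u - v) = 1 + ((g u - u) - (g v - v)) / (u - v) := by
    field_simp
    ring
  rw [e]
  apply Complex.mem_slitPlane_of_norm_lt_one
  rw [norm_div, div_lt_one (by linarith)]
  have h1 := norm_sub_le (g u - u) (g v - v)
  linarith [hn u, hn v]

/-- the domain -/
def Dm (r : ℝ) : Set (ℂ × ℂ) := {p | p.1 ≠ p.2 ∧ ‖p.1‖ ≤ r ∧ ‖p.2‖ ≤ r}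

theorem Fq_ne {g : ℂ → ℂ} {r : ℝ} (hi : InjOn g (closedBall 0 (r + 3))) {x y : ℂ} (h : x ≠ y)
    (hx : ‖x‖ ≤ r) (hy : ‖y‖ ≤ r) {s : ℝ} (hs : s ∈ uIcc (0 : ℝ) 1) : Fq g x y s ≠ 0 := by
  have h1 := xs_ne h hs
  refine div_ne_zero (sub_ne_zero.2 fun e => h1 (hi ?_ ?_ e)) (sub_ne_zero.2 h1)
  · rw [mem_closedBall_zero_iff]
    linarith [norm_xs_le h hs]
  · rw [mem_closedBall_zero_iff]
    linarith

theorem xs_cont (r : ℝ) : ContinuousOn (fun p : (ℂ × ℂ) × ℝ => xs p.1.1 p.1.2 p.2)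
    (Dm r ×ˢ uIcc (0 : ℝ) 1) := by
  unfold xs
  refine ContinuousOn.add (by fun_prop) (ContinuousOn.mul ?_ (by fun_prop))
  refine Complex.continuous_ofReal.comp_continuousOn ?_
  refine ContinuousOn.div (by fun_prop) (by fun_prop) ?_
  intro p hp
  exact norm_ne_zero_iff.2 (sub_ne_zero.2 hp.1.1)

theorem Fq_cont {g : ℂ → ℂ} (hc : Continuous g) (r : ℝ) :
    ContinuousOn (fun p : (ℂ × ℂ) × ℝ => Fq g p.1.1 p.1.2 p.2) (Dm r ×ˢ uIcc (0 : ℝ) 1) := by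
  unfold Fq
  refine ContinuousOn.div (ContinuousOn.sub (hc.comp_continuousOn (xs_cont r)) (by fun_prop))
    (ContinuousOn.sub (xs_cont r) (by fun_prop)) ?_
  intro p hp
  exact sub_ne_zero.2 (xs_ne hp.1.1 hp.2)

theorem Fq_cont_one {g : ℂ → ℂ} (hc : Continuous g) {x y : ℂ} (h : x ≠ y) :
    ContinuousOn (Fq g x y) (uIcc (0 : ℝ) 1) := by
  have h1 : ContinuousOn (fun s : ℝ => (((x, y), s) : (ℂ × ℂ) × ℝ)) (uIcc (0 : ℝ) 1) := by
    fun_prop
  exact (Fq_cont hc (max ‖x‖ ‖y‖)).comp h1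
    fun s hs => ⟨⟨h, le_max_left _ _, le_max_right _ _⟩, hs⟩

theorem one_mem : (1 : ℝ) ∈ uIcc (0 : ℝ) 1 := right_mem_uIcc

theorem Fq_one_slit {g : ℂ → ℂ} (hn : ∀ z, ‖g z - z‖ ≤ 1) {x y : ℂ} (h : x ≠ y) :
    Fq g x y 1 ∈ slitPlane := by
  apply quot_slit hn
  rw [norm_xs_sub h zero_le_one]
  linarith [norm_nonneg (x - y)]

theorem An_cont {g : ℂ → ℂ} {r : ℝ} (hc : Continuous g) (hn : ∀ z, ‖g z - z‖ ≤ 1)
    (hi : InjOn g (closedBall 0 (r + 3))) :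
    ContinuousOn (fun p : ℂ × ℂ => An g p.1 p.2) (Dm r) := by
  unfold An
  refine ContinuousOn.sub ?_ ?_
  · have h1 : ContinuousOn (fun p : ℂ × ℂ => ((p, 1) : (ℂ × ℂ) × ℝ)) (Dm r) := by fun_prop
    have h2 : ContinuousOn (fun p : ℂ × ℂ => Fq g p.1 p.2 1) (Dm r) :=
      ContinuousOn.comp (g := fun p : (ℂ × ℂ) × ℝ => Fq g p.1.1 p.1.2 p.2)
        (f := fun p : ℂ × ℂ => ((p, 1) : (ℂ × ℂ) × ℝ)) (Fq_cont hc r) h1
        fun p hp => ⟨hp, one_mem⟩
    intro p hp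
    exact ContinuousAt.comp_continuousWithinAt (f := fun p : ℂ × ℂ => Fq g p.1 p.2 1)
      (Complex.continuousAt_arg (Fq_one_slit hn hp.1)) (h2 p hp)
  · exact rot_cont (F := fun p : ℂ × ℂ => Fq g p.1 p.2) (Fq_cont hc r)
      fun p hp s hs => Fq_ne hi hp.1 hp.2.1 hp.2.2 hs

theorem An_lift {g : ℂ → ℂ} {r : ℝ} (hc : Continuous g)
    (hi : InjOn g (closedBall 0 (r + 3))) {x y : ℂ} (h : x ≠ y) (hx : ‖x‖ ≤ r) (hy : ‖y‖ ≤ r) :
    ∃ ρ : ℝ, 0 < ρ ∧ g x - g y = ρ * Complex.exp (An g x y * I) * (x - y) := by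
  have hok : Ok (Fq g x y) 0 1 := ⟨Fq_cont_one hc h, fun s hs => Fq_ne hi h hx hy hs⟩
  obtain ⟨ρ, hρ, e⟩ := rot_polar hok
  have h1 : Fq g x y 1 ≠ 0 := hok.2 1 one_mem
  have h2 : (‖Fq g x y 1‖ : ℂ) * Complex.exp (arg (Fq g x y 1) * I) = Fq g x y 1 :=
    Complex.norm_mul_exp_arg_mul_I _
  have h3 : Fq g x y 0 = (g x - g y) / (x - y) := by simp only [Fq, xs_zero]
  have h4 : x - y ≠ 0 := sub_ne_zero.2 h
  have h5 : (ρ : ℂ) ≠ 0 := by exact_mod_cast hρ.ne'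
  refine ⟨‖Fq g x y 1‖ / ρ, div_pos (norm_pos_iff.2 h1) hρ, ?_⟩
  have h6 : Complex.exp (An g x y * I) = Complex.exp (arg (Fq g x y 1) * I) /
      Complex.exp (rot (Fq g x y) 0 1 * I) := by
    rw [← Complex.exp_sub]
    congr 1
    simp only [An]
    push_cast
    ring
  have h7 := Complex.exp_ne_zero (rot (Fq g x y) 0 1 * I)
  rw [h3, ← h2] at e
  rw [h6]
  push_cast
  field_simp
  field_simp at e
  linear_combination -e

theorem An_far {g : ℂ → ℂ} (hc : Continuous g) (hn : ∀ z, ‖g z - z‖ ≤ 1) {x y : ℂ}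
    (h : 2 < ‖x - y‖) : An g x y = arg ((g x - g y) / (x - y)) := by
  have hne : x ≠ y := by
    intro e
    rw [e, sub_self, norm_zero] at h
    linarith
  have h1 : rot (Fq g x y) 0 1 = arg (Fq g x y 1 / 1) - arg (Fq g x y 0 / 1) := by
    refine rot_slit one_ne_zero (Fq_cont_one hc hne) fun s hs => ?_
    rw [div_one]
    apply quot_slit hn
    rw [uIcc_of_le zero_le_one] at hs
    rw [norm_xs_sub hne hs.1]
    linarith [hs.1]
  have h3 : Fq g x y 0 = (g x - g y) / (x - y) := by simp only [Fq, xs_zero]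
  rw [An, h1, div_one, div_one, h3]
  ring

theorem An_int {g : ℂ → ℂ} {r : ℝ} (hc : Continuous g)
    (hi : InjOn g (closedBall 0 (r + 3))) {x y : ℂ} (h : x ≠ y) (hx : ‖x‖ ≤ r) (hy : ‖y‖ ≤ r) :
    ∃ n : ℤ, An g x y - An g y x = 2 * π * n := by
  obtain ⟨ρ, hρ, e⟩ := An_lift hc hi h hx hy
  obtain ⟨ρ', hρ', e'⟩ := An_lift hc hi h.symm hy hx
  refine int_of_exp hρ hρ' (mul_right_cancel₀ (sub_ne_zero.2 h) ?_)
  linear_combination -e - e'

end AmapAux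

open AmapAux in
theorem exists_A {g : ℂ → ℂ} {r : ℝ} (hc : Continuous g) (hn : ∀ z, ‖g z - z‖ ≤ 1)
    (hi : InjOn g (closedBall 0 (r + 6))) : ∃ A, IsA g A r := by
  have hi3 : InjOn g (closedBall 0 (r + 3)) :=
    hi.mono (closedBall_subset_closedBall (by linarith))
  have hi6 : InjOn g (closedBall 0 (r + 3 + 3)) := by
    rwa [show r + 3 + 3 = r + 6 by ring]
  refine ⟨An g, An_cont hc hn hi3, fun x y h hx hy => ?_, fun x y h hx hy =>
    An_lift hc hi3 h hx hy⟩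
  have hxs : ContinuousOn (fun s : ℝ => xs x y s) (uIcc (0 : ℝ) 1) := by
    have h1 : ContinuousOn (fun s : ℝ => (((x, y), s) : (ℂ × ℂ) × ℝ)) (uIcc (0 : ℝ) 1) := by
      fun_prop
    exact (xs_cont r).comp h1 fun s hs => ⟨⟨h, hx, hy⟩, hs⟩
  have hb : ∀ s ∈ uIcc (0 : ℝ) 1, ‖xs x y s‖ ≤ r + 3 := fun s hs => by
    linarith [norm_xs_le h hs]
  have hy3 : ‖y‖ ≤ r + 3 := by linarith
  have hA := An_cont hc hn hi6
  have c1 : ContinuousOn (fun s : ℝ => An g (xs x y s) y) (uIcc (0 : ℝ) 1) :=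
    hA.comp (f := fun s : ℝ => ((xs x y s, y) : ℂ × ℂ)) (hxs.prodMk continuousOn_const)
      fun s hs => ⟨xs_ne h hs, hb s hs, hy3⟩
  have c2 : ContinuousOn (fun s : ℝ => An g y (xs x y s)) (uIcc (0 : ℝ) 1) :=
    hA.comp (f := fun s : ℝ => ((y, xs x y s) : ℂ × ℂ)) (continuousOn_const.prodMk hxs)
      fun s hs => ⟨(xs_ne h hs).symm, hy3, hb s hs⟩
  have k := int_const (F := fun s : ℝ => An g (xs x y s) y - An g y (xs x y s))
    isPreconnected_uIcc (c1.sub c2)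
    (fun s hs => An_int hc hi6 (xs_ne h hs) (hb s hs) hy3) 0 left_mem_uIcc 1 right_mem_uIcc
  have hf : 2 < ‖xs x y 1 - y‖ := by
    rw [norm_xs_sub h zero_le_one]
    linarith [norm_nonneg (x - y)]
  have hf' : 2 < ‖y - xs x y 1‖ := by rwa [norm_sub_rev]
  have e : (g y - g (xs x y 1)) / (y - xs x y 1) = (g (xs x y 1) - g y) / (xs x y 1 - y) := by
    rw [← neg_div_neg_eq, neg_sub, neg_sub]
  simp only [xs_zero] at k
  rw [An_far hc hn hf, An_far hc hn hf', e, sub_self] at k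
  linarith

theorem var_map {g : ℂ → ℂ} {A : ℂ → ℂ → ℝ} {r : ℝ} (hA : IsA g A r) (hc : Continuous g)
    {P : ℝ → ℂ} {a b : ℝ} {z : ℂ} (hP : Off P a b z) (hb : ∀ t ∈ uIcc a b, ‖P t‖ ≤ r)
    (hz : ‖z‖ ≤ r) : var (fun t => g (P t)) a b (g z) = var P a b z + A (P b) z - A (P a) z := by
  have hq : ∀ t ∈ uIcc a b, ∃ ρ : ℝ, 0 < ρ ∧
      (g (P t) - g z) / (P t - z) = ρ * Complex.exp (A (P t) z * I) := by
    intro t ht
    obtain ⟨ρ, hρ, e⟩ := hA.lift (P t) z (hP.2 t ht) (hb t ht) hz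
    exact ⟨ρ, hρ, by rw [e, mul_div_assoc, div_self (sub_ne_zero.2 (hP.2 t ht)), mul_one]⟩
  have hok : Ok (fun t => (g (P t) - g z) / (P t - z)) a b := by
    refine ⟨ContinuousOn.div ((hc.comp_continuousOn hP.1).sub continuousOn_const)
      (hP.1.sub continuousOn_const) fun t ht => sub_ne_zero.2 (hP.2 t ht), fun t ht => ?_⟩
    obtain ⟨ρ, hρ, e⟩ := hq t ht
    show (g (P t) - g z) / (P t - z) ≠ 0
    rw [e]
    exact mul_ne_zero (by exact_mod_cast hρ.ne') (Complex.exp_ne_zero _)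
  have hθ : ContinuousOn (fun t => A (P t) z) (uIcc a b) :=
    hA.cont.comp (f := fun t => ((P t, z) : ℂ × ℂ)) (hP.1.prodMk continuousOn_const)
      fun t ht => ⟨hP.2 t ht, hb t ht, hz⟩
  have h1 := rot_arg hok hθ hq
  have h2 := rot_mul hok hP.ok
  have h3 : rot (fun t => g (P t) - g z) a b =
      rot (fun t => (g (P t) - g z) / (P t - z) * (P t - z)) a b :=
    rot_congr fun t ht => (div_mul_cancel₀ _ (sub_ne_zero.2 (hP.2 t ht))).symm
  unfold var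
  rw [h3, h2, h1]
  ring

theorem tw_of_loc {g : ℂ → ℂ} {r : ℝ} (hc : Continuous g) (hn : ∀ z, ‖g z - z‖ ≤ 1)
    (hi : InjOn g (closedBall 0 (r + 10)))
    (hl : ∀ z₀ : ℂ, ‖z₀‖ ≤ r → ∃ ρ : ℝ, 0 < ρ ∧ ∃ C, TwOn g (ball z₀ ρ) C) :
    ∃ C, TwOn g (closedBall 0 r) C := by
  obtain ⟨A, hA⟩ : ∃ A, IsA g A (r + 4) :=
    exists_A hc hn (by rwa [show r + 4 + 6 = r + 10 by ring])
  have key : ∃ C : ℝ, ∀ z ∈ closedBall (0 : ℂ) r, ‖z‖ ≤ r → ∀ p : ℂ, ‖p‖ ≤ r → p ≠ z →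
      |A p z| ≤ C := by
    refine (isCompact_closedBall (0 : ℂ) r).induction_on
      (p := fun S => ∃ C : ℝ, ∀ z ∈ S, ‖z‖ ≤ r → ∀ p : ℂ, ‖p‖ ≤ r → p ≠ z → |A p z| ≤ C)
      ⟨0, fun z hz => hz.elim⟩ ?_ ?_ ?_
    · rintro S T hST ⟨C, hC⟩
      exact ⟨C, fun z hz => hC z (hST hz)⟩
    · rintro S T ⟨C, hC⟩ ⟨C', hC'⟩
      refine ⟨max C C', fun z hz h1 p h2 h3 => ?_⟩
      rcases hz with hz | hz
      · exact (hC z hz h1 p h2 h3).trans (le_max_left _ _)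
      · exact (hC' z hz h1 p h2 h3).trans (le_max_right _ _)
    · intro z₀ hz₀
      obtain ⟨ρ, hρ, C, hC⟩ := hl z₀ (mem_closedBall_zero_iff.1 hz₀)
      set e : ℝ := min ρ 1 / 4 with he
      have he0 : 0 < e := by
        have := lt_min hρ one_pos
        rw [he]
        linarith
      have he1 : 4 * e ≤ ρ := by
        have := min_le_left ρ 1
        rw [he]
        linarith
      have he2 : 4 * e ≤ 1 := by
        have := min_le_right ρ 1
        rw [he]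
        linarith
      have hK : IsCompact ((closedBall (0 : ℂ) (r + 1) ×ˢ closedBall (0 : ℂ) (r + 1)) ∩
          {p : ℂ × ℂ | e ≤ ‖p.1 - p.2‖}) :=
        ((isCompact_closedBall _ _).prod (isCompact_closedBall _ _)).inter_right
          (isClosed_le continuous_const (by fun_prop))
      obtain ⟨B, hB⟩ := hK.exists_bound_of_continuousOn (f := fun p : ℂ × ℂ => A p.1 p.2)
        (hA.cont.mono fun p hp => by
          have h1 := mem_closedBall_zero_iff.1 hp.1.1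
          have h2 := mem_closedBall_zero_iff.1 hp.1.2
          have h3 : e ≤ ‖p.1 - p.2‖ := hp.2
          refine ⟨fun h4 => ?_, by linarith, by linarith⟩
          rw [h4, sub_self, norm_zero] at h3
          linarith)
      have hB' : ∀ p z : ℂ, ‖p‖ ≤ r + 1 → ‖z‖ ≤ r + 1 → e ≤ ‖p - z‖ → |A p z| ≤ B :=
        fun p z h1 h2 h3 => hB (p, z)
          ⟨⟨mem_closedBall_zero_iff.2 h1, mem_closedBall_zero_iff.2 h2⟩, h3⟩
      refine ⟨ball z₀ e, mem_nhdsWithin_of_mem_nhds (ball_mem_nhds _ he0), |C| + B,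
        fun z hz h1 p h2 h3 => ?_⟩
      rcases le_total e ‖p - z‖ with h4 | h4
      · have := hB' p z (by linarith) (by linarith) h4
        linarith [abs_nonneg C]
      have hze : ‖z + (e : ℂ) - z‖ = e := by
        rw [add_sub_cancel_left, Complex.norm_real, Real.norm_of_nonneg he0.le]
      have hne : z + (e : ℂ) ≠ z := by
        intro h5
        rw [h5, sub_self, norm_zero] at hze
        linarith
      obtain ⟨β, hβ, hβ0, hβ1, hβ2, -⟩ := exists_avoid (Z := {z}) (countable_singleton z)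
        (x := p) (y := z + (e : ℂ)) (o := z) (r := e) he0 h3 hne h4 hze.le
      have hzz : ‖z - z₀‖ < e := by rwa [mem_ball, dist_eq_norm] at hz
      have hoff : Off β 0 1 z := ⟨hβ.continuousOn, fun t ht => by
        rw [uIcc_of_le zero_le_one] at ht
        exact (hβ2 t ht).2⟩
      have hin : ∀ t ∈ uIcc (0 : ℝ) 1, β t ∈ ball z₀ ρ := fun t ht => by
        rw [uIcc_of_le zero_le_one] at ht
        rw [mem_ball, dist_eq_norm]
        have h5 := norm_add_le (β t - z) (z - z₀)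
        rw [sub_add_sub_cancel] at h5
        linarith [(hβ2 t ht).1]
      have hbd : ∀ t ∈ uIcc (0 : ℝ) 1, ‖β t‖ ≤ r + 4 := fun t ht => by
        rw [uIcc_of_le zero_le_one] at ht
        have h5 := norm_add_le (β t - z) z
        rw [sub_add_cancel] at h5
        linarith [(hβ2 t ht).1]
      have h6 := hC β 0 1 z hoff hin (by rw [mem_ball, dist_eq_norm]; linarith)
      rw [var_map hA hc hoff hbd (by linarith), hβ0, hβ1] at h6
      have h7 : |A (z + (e : ℂ)) z| ≤ B := by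
        refine hB' _ _ ?_ (by linarith) hze.ge
        have h5 := norm_add_le (z + (e : ℂ) - z) z
        rw [sub_add_cancel] at h5
        linarith
      have h8 := le_abs_self C
      rw [abs_le] at h6 h7 ⊢
      constructor <;> linarith [h6.1, h6.2, h7.1, h7.2]
  obtain ⟨C, hC⟩ := key
  refine ⟨2 * C, fun P a b z hP hO hz => ?_⟩
  have hz' := mem_closedBall_zero_iff.1 hz
  have hb : ∀ t ∈ uIcc a b, ‖P t‖ ≤ r := fun t ht => mem_closedBall_zero_iff.1 (hO t ht)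
  rw [var_map hA hc hP (fun t ht => by linarith [hb t ht]) (by linarith)]
  have h1 := hC z hz hz' (P a) (hb a left_mem_uIcc) (hP.2 a left_mem_uIcc)
  have h2 := hC z hz hz' (P b) (hb b right_mem_uIcc) (hP.2 b right_mem_uIcc)
  rw [abs_le] at h1 h2 ⊢
  constructor <;> linarith [h1.1, h1.2, h2.1, h2.2]

end Pool.Agent.Lib.MP_399f8e_an.Ur
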