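import Pool.Agent.Lib.MP_399f8e_an.Ur.BoxB
import Pool.Agent.Lib.MP_399f8e_an.Ur.Var

open Set Filter Topology Metric Complex
open scoped Real
open Pool.Agent.Lib.MP_399f8e_an.Rg

noncomputable section

namespace Pool.Agent.Lib.MP_399f8e_an.Ur

variable {φ : ℝ → S → S} {lam δ : ℝ} {Y : S → ℂ → S} {pr : S → S → ℂ} {T : S → S → ℝ}
variable {τ : S → ℝ}

namespace TwistAux

/-- near `z₀` the map `h` keeps paths off points and twists them by a bounded amount -/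
def Gd (h : ℂ → ℂ) (z₀ : ℂ) : Prop :=
  ∃ ρ : ℝ, 0 < ρ ∧ ∃ C : ℝ, ∀ (P : ℝ → ℂ) (a b : ℝ) (z : ℂ), Off P a b z →
    (∀ t ∈ uIcc a b, P t ∈ ball z₀ ρ) → z ∈ ball z₀ ρ →
      Off (fun t => h (P t)) a b (h z) ∧ |var (fun t => h (P t)) a b (h z) - var P a b z| ≤ C

theorem gd_id (z₀ : ℂ) : Gd (fun z => z) z₀ :=
  ⟨1, one_pos, 0, fun P a b z hP _ _ => ⟨hP, by simp⟩⟩

theorem Gd.step {h h' G : ℂ → ℂ} {z₀ : ℂ} {O : Set ℂ} {κ : ℝ} (hh : Gd h z₀) (hG : NearI G O κ)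
    (hκ : κ < 1) (he : ∀ᶠ z in 𝓝 z₀, h z ∈ O ∧ h' z = G (h z)) : Gd h' z₀ := by
  obtain ⟨ρ, hρ, C, hC⟩ := hh
  obtain ⟨ρ₁, hρ₁, h1⟩ := Metric.eventually_nhds_iff_ball.1 he
  refine ⟨min ρ ρ₁, lt_min hρ hρ₁, π + C, fun P a b z hP hO hz => ?_⟩
  have s1 : ball z₀ (min ρ ρ₁) ⊆ ball z₀ ρ := ball_subset_ball (min_le_left _ _)
  have s2 : ball z₀ (min ρ ρ₁) ⊆ ball z₀ ρ₁ := ball_subset_ball (min_le_right _ _)
  obtain ⟨hoff, hv⟩ := hC P a b z hP (fun t ht => s1 (hO t ht)) (s1 hz)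
  have hO' : ∀ t ∈ uIcc a b, h (P t) ∈ O := fun t ht => (h1 _ (s2 (hO t ht))).1
  have hz' : h z ∈ O := (h1 _ (s2 hz)).1
  have ez : h' z = G (h z) := (h1 _ (s2 hz)).2
  have eP : EqOn (fun t => h' (P t)) (fun t => G (h (P t))) (uIcc a b) :=
    fun t ht => (h1 _ (s2 (hO t ht))).2
  have o2 := hG.off hκ hoff hO' hz'
  have t2 := hG.twOn hκ (fun t => h (P t)) a b (h z) hoff hO' hz'
  refine ⟨⟨o2.1.congr eP, fun t ht => ?_⟩, ?_⟩
  · have := o2.2 t ht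
    rw [ez]
    have e := eP ht
    simp only at e this ⊢
    rw [e]
    exact this
  · rw [var_congr eP, ez]
    have := abs_sub_le (var (fun t => G (h (P t))) a b (G (h z)))
      (var (fun t => h (P t)) a b (h z)) (var P a b z)
    linarith

theorem dist_S (x y : S) : dist x y = ‖(x : E) - y‖ := by
  rw [Subtype.dist_eq, dist_eq_norm]

theorem key (hφ : IsFl φ) (hB : Box φ lam δ Y pr T) {c₁ c₂ p : S} {s : ℝ}
    (h1 : ‖(p : E) - c₁‖ ≤ lam) (hd : dist c₁ c₂ ≤ 500000 * lam)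
    (h2 : ‖(φ s p : E) - c₂‖ ≤ 10 ^ 6 * lam) (hs : |s| ≤ δ / 10) :
    pr c₁ p ∈ closedBall (0 : ℂ) 200000 ∧ pr c₂ (φ s p) = gam Y pr c₁ c₂ (pr c₁ p) := by
  have hl := hB.lam_pos
  have hδ := hB.δ_pos
  have h1' : ‖(p : E) - c₁‖ ≤ 10 ^ 6 * lam := by nlinarith
  have hw : ‖pr c₁ p‖ ≤ 2 := by
    have := hB.prle c₁ p h1'
    by_contra hn
    push Not at hn
    nlinarith
  have hw' : ‖pr c₁ p‖ ≤ 200000 := by linarith
  refine ⟨mem_closedBall_zero_iff.2 hw', ?_⟩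
  have hf := hB.flow c₁ p h1'
  have hT := hB.Tle c₁ p h1'
  have e : φ s p = φ (s - T c₁ p) (Y c₁ (pr c₁ p)) := by
    rw [← hf, ← hφ.add, sub_add_cancel]
  have hn : ‖(Y c₁ (pr c₁ p) : E) - c₂‖ ≤ 10 ^ 6 * lam := by
    have a1 := hB.Ynear c₁ (pr c₁ p)
    rw [dist_S] at hd
    have a2 := norm_sub_le_norm_sub_add_norm_sub (Y c₁ (pr c₁ p) : E) c₁ c₂
    nlinarith
  have hs' : |s - T c₁ p| ≤ 8 * δ / 10 := by
    have := abs_sub s (T c₁ p)
    linarith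
  have := hB.pr_flow hφ hn (e ▸ h2) hs'
  rw [e, this, gam, cl_eq hw', sub_self, add_zero]

theorem ev_near (hφ : IsFl φ) (hB : Box φ lam δ Y pr T) (c : S) (z₀ : ℂ) (t : ℝ) :
    ∀ᶠ z in 𝓝 z₀, ‖(φ t (Y c z) : E) - φ t (Y c z₀)‖ ≤ lam := by
  have hc : Continuous fun z : ℂ => φ t (Y c z) :=
    hφ.cont.comp (continuous_const.prodMk (hB.Ycont c))
  have := (hc.tendsto z₀).eventually (closedBall_mem_nhds (φ t (Y c z₀)) hB.lam_pos)
  filter_upwards [this] with z hz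
  rwa [dist_S] at hz

theorem ev_norm {z₀ : ℂ} (hz : ‖z₀‖ ≤ 150000) : ∀ᶠ z in 𝓝 z₀, ‖z‖ ≤ 200000 := by
  filter_upwards [closedBall_mem_nhds z₀ (one_pos (α := ℝ))] with z h
  rw [mem_closedBall, dist_eq_norm] at h
  have := norm_le_insert' z z₀
  linarith

theorem gd_move (hφ : IsFl φ) (hB : Box φ lam δ Y pr T) (c : S) (z₀ : ℂ) {t t' : ℝ}
    (hd : dist (φ t (Y c z₀)) (φ t' (Y c z₀)) ≤ lam) (ht : |t' - t| ≤ δ / 10)
    (h : Gd (fun z => pr (φ t (Y c z₀)) (φ t (Y c z))) z₀) :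
    Gd (fun z => pr (φ t' (Y c z₀)) (φ t' (Y c z))) z₀ := by
  have hl := hB.lam_pos
  have hd' : dist (φ t (Y c z₀)) (φ t' (Y c z₀)) ≤ 500000 * lam := by linarith
  refine h.step (hB.gam_near hd') (by norm_num) ?_
  filter_upwards [ev_near hφ hB c z₀ t, ev_near hφ hB c z₀ t'] with z h1 h2
  have e : φ t' (Y c z) = φ (t' - t) (φ t (Y c z)) := by rw [← hφ.add, sub_add_cancel]
  have h2' : ‖(φ (t' - t) (φ t (Y c z)) : E) - φ t' (Y c z₀)‖ ≤ 10 ^ 6 * lam := by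
    rw [← e]; nlinarith
  have := key hφ hB h1 hd' h2' ht
  rw [← e] at this
  exact this

theorem gd_all (hφ : IsFl φ) (hB : Box φ lam δ Y pr T) (c : S) {z₀ : ℂ} (hz : ‖z₀‖ ≤ 150000)
    (t : ℝ) : Gd (fun z => pr (φ t (Y c z₀)) (φ t (Y c z))) z₀ := by
  have hl := hB.lam_pos
  have hδ := hB.δ_pos
  have hlc : IsLocallyConstant fun t : ℝ =>
      Gd (fun z => pr (φ t (Y c z₀)) (φ t (Y c z))) z₀ := by
    rw [IsLocallyConstant.iff_eventually_eq]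
    intro t
    have hc : Continuous fun s : ℝ => φ s (Y c z₀) :=
      hφ.cont.comp (continuous_id.prodMk continuous_const)
    have e1 := (hc.tendsto t).eventually (closedBall_mem_nhds (φ t (Y c z₀)) hl)
    have e2 : ∀ᶠ s in 𝓝 t, s ∈ closedBall t (δ / 10) := closedBall_mem_nhds t (by linarith)
    filter_upwards [e1, e2] with s h1 h2
    rw [mem_closedBall, Real.dist_eq] at h2
    refine propext ⟨fun h => gd_move hφ hB c z₀ h1 ?_ h, fun h => gd_move hφ hB c z₀ ?_ h2 h⟩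
    · rwa [abs_sub_comm]
    · rwa [dist_comm]
  have h0 : Gd (fun z => pr (φ 0 (Y c z₀)) (φ 0 (Y c z))) z₀ := by
    have hd : dist c (Y c z₀) ≤ 500000 * lam := by
      rw [dist_comm, dist_S]
      have := hB.Ynear c z₀
      nlinarith
    refine (gd_id z₀).step (hB.gam_near hd) (by norm_num) ?_
    filter_upwards [ev_norm hz] with z h1
    refine ⟨mem_closedBall_zero_iff.2 h1, ?_⟩
    rw [hφ.zero, hφ.zero, gam, cl_eq h1, sub_self, add_zero]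
  have := hlc.apply_eq_of_preconnectedSpace t 0
  rw [this]
  exact h0

end TwistAux

open TwistAux in
theorem ret_twist (hφ : IsFl φ) (hB : Box φ lam δ Y pr T) (hR : Rt φ τ lam δ) (c : S) {z₀ : ℂ}
    (hz : ‖z₀‖ ≤ 150000) : ∃ ρ : ℝ, 0 < ρ ∧ ∃ C, TwOn (ret φ τ Y pr c) (ball z₀ ρ) C := by
  have hl := hB.lam_pos
  have hδ := hB.δ_pos
  have hg : Gd (ret φ τ Y pr c) z₀ := by
    have hd : dist (φ (τ (Y c z₀)) (Y c z₀)) c ≤ 500000 * lam := by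
      rw [dist_S]
      have a1 := hB.Ynear c z₀
      have a2 := hR.near (Y c z₀)
      have a3 := norm_sub_le_norm_sub_add_norm_sub (φ (τ (Y c z₀)) (Y c z₀) : E) (Y c z₀) c
      nlinarith
    refine (gd_all hφ hB c hz (τ (Y c z₀))).step (hB.gam_near hd) (by norm_num) ?_
    have hc : Continuous fun z : ℂ => τ (Y c z) := hR.cont.comp (hB.Ycont c)
    have e2 := (hc.tendsto z₀).eventually
      (closedBall_mem_nhds (τ (Y c z₀)) (show 0 < δ / 10 by linarith))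
    filter_upwards [ev_near hφ hB c z₀ (τ (Y c z₀)), ev_norm hz, e2] with z h1 h2 h3
    rw [Real.dist_eq] at h3
    have e : φ (τ (Y c z)) (Y c z) = φ (τ (Y c z) - τ (Y c z₀)) (φ (τ (Y c z₀)) (Y c z)) := by
      rw [← hφ.add, sub_add_cancel]
    have h2' : ‖(φ (τ (Y c z) - τ (Y c z₀)) (φ (τ (Y c z₀)) (Y c z)) : E) - c‖
        ≤ 10 ^ 6 * lam := by
      rw [← e]
      have a1 := hB.Ynear c z
      have a2 := hR.near (Y c z)
      have a3 := norm_sub_le_norm_sub_add_norm_sub (φ (τ (Y c z)) (Y c z) : E) (Y c z) c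
      nlinarith
    have := key hφ hB h1 hd h2' h3
    rw [← e] at this
    refine ⟨this.1, ?_⟩
    rw [← this.2, ret, cl_eq h2, sub_self, add_zero]
  obtain ⟨ρ, hρ, C, hC⟩ := hg
  exact ⟨ρ, hρ, C, fun P a b z hP hO hz => (hC P a b z hP hO hz).2⟩

end Pool.Agent.Lib.MP_399f8e_an.Ur
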