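import Pool.Agent.Lib.MP_399f8e_an.Ur.Ret
import Pool.Agent.Lib.MP_399f8e_an.Ur.Twist
import Pool.Agent.Lib.MP_399f8e_an.Ur.Mean
import Pool.Agent.Lib.MP_399f8e_an.Ur.Visit
import Pool.Agent.Lib.MP_399f8e_an.Ur.Amap

open Set Filter Topology Metric Complex
open scoped Real
open Pool.Agent.Lib.MP_399f8e_an.Rg

noncomputable section

namespace Pool.Agent.Lib.MP_399f8e_an.Ur

variable {φ : ℝ → S → S} {lam δ : ℝ} {Y : S → ℂ → S} {pr : S → S → ℂ} {T : S → S → ℝ}
variable {τ : S → ℝ}

namespace AtlAux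

theorem up {a z : ℂ} {b : ℝ} (h : ‖a - z‖ ≤ b) : ‖a‖ ≤ ‖z‖ + b := by
  linarith [norm_sub_norm_le a z]

theorem down {a z : ℂ} {b : ℝ} (h : ‖a - z‖ ≤ b) : ‖z‖ ≤ ‖a‖ + b :=
  up (by rwa [norm_sub_rev])

end AtlAux

open AtlAux in
theorem exists_atlas (hφ : IsFl φ) (aper : ∀ x t, φ t x = x → t = 0)
    (hmin : ∀ x, Dense (range fun t : ℝ => φ t x)) (hB : Box φ lam δ Y pr T) (hR : Rt φ τ lam δ) :
    ∃ g' ν, Atlas lam Y (gam Y pr) (ret φ τ Y pr) g' ν (Zs φ Y) := by
  obtain ⟨μ, hμ⟩ := exists_mean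
  have hl := hB.lam_pos
  choose g' c1 c2 c3 c4 using fun c : S => exists_inverse (R₁ := 200000) (R₂ := 199000)
    (ret_cont hφ hB hR c) (ret_inj hφ aper hB hR c) (ret_near hφ hB hR c)
    (fun z hz => ret_surj hφ hB hR c hz) (by norm_num) (by norm_num)
  obtain ⟨K, hK⟩ : ∃ K : ℝ, ∀ x, |τ x| ≤ K := by
    obtain ⟨K, hK⟩ := isCompact_univ.exists_bound_of_continuousOn hR.cont.continuousOn
    exact ⟨K, fun x => hK x trivial⟩
  refine ⟨g', nu μ φ Y pr, hl, hB.lam_le, fun c => ⟨ret_cont hφ hB hR c, c1 c, ret_near hφ hB hR c,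
      c2 c, fun z hz => c4 c z (by linarith), fun z hz => c3 c z (by linarith),
      fun z hz => ret_nofix hφ aper hB hR c (by linarith), ?_, Zs_countable hφ hB c,
      fun z hz => ?_, nu_add hμ hφ hB c, nu_smul hμ hφ hB c, nu_mono hμ hφ hB c,
      nu_pos hμ hφ hmin hB c, fun w hw h0 => ?_⟩,
    fun i z => by rw [Subtype.dist_eq, dist_eq_norm]; exact hB.Ynear i z,
    fun i z hz => hB.gam_self i (by linarith), fun i j hd => hB.gam_cont (by linarith),
    fun i j hd x hx y hy => hB.gam_near (by linarith) x (closedBall_subset_closedBall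
      (by norm_num) hx) y (closedBall_subset_closedBall (by norm_num) hy),
    fun i j hd => hB.gam_disp hd, fun i j hd z hz => hB.gam_bd hd (by linarith),
    fun i j m h1 h2 h3 z hz => hB.gam_coc hφ h1 h2 h3 (by linarith),
    fun i j hd z hz => ret_comm hφ hB hR hd (by linarith), fun i j hd z hz => ?_,
    fun i j hd w hw h0 => ?_⟩
  · exact tw_of_loc (ret_cont hφ hB hR c) (fun z => (ret_near hφ hB hR c z).trans (by norm_num))
      ((ret_inj hφ aper hB hR c).mono (closedBall_subset_closedBall (by norm_num)))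
      fun z₀ hz => ret_twist hφ hB hR c (by linarith)
  · obtain ⟨a, -, ha⟩ := ret_flow hφ hB hR c (z := z) (by linarith)
    exact Zs_iff hφ (by linarith) (by linarith [up (ret_near hφ hB hR c z)]) ha
  · refine nu_transfer hμ hφ aper hB (R₁ := 100001) (R₂ := 100000) (B := K + δ / 10)
      (by norm_num) (by norm_num) (fun z hz => ?_)
      ((ret_inj hφ aper hB hR c).mono (closedBall_subset_closedBall (by norm_num)))
      (fun z' hz => ?_) (fun z hz => by linarith [down (ret_near hφ hB hR c z)]) hw h0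
    · obtain ⟨a, h1, ha⟩ := ret_flow hφ hB hR c (z := z) (by linarith)
      exact ⟨a, by linarith [abs_sub_abs_le_abs_sub a (τ (Y c z)), hK (Y c z)], ha⟩
    · obtain ⟨z, h1, h2⟩ := ret_surj hφ hB hR c (z := z') (by linarith)
      exact ⟨z, by linarith [up h1], h2⟩
  · obtain ⟨a, -, ha⟩ := hB.gam_flow (c := i) (c' := j) (by linarith) (z := z) (by linarith)
    exact Zs_iff hφ (by linarith) (by linarith [up (hB.gam_disp hd z)]) ha
  · have hd' : dist j i ≤ 8000 * lam := by rwa [dist_comm]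
    refine nu_transfer hμ hφ aper hB (R₁ := 62000) (R₂ := 45000) (B := δ / 10)
      (by norm_num) (by norm_num) (fun z hz => hB.gam_flow (by linarith) (by linarith))
      (fun x hx y hy e => ?_) (fun z' hz => ⟨gam Y pr j i z', ?_, ?_⟩)
      (fun z hz => by linarith [down (hB.gam_disp hd z)]) hw h0
    · have := hB.gam_near (c := i) (c' := j) (by linarith) x (closedBall_subset_closedBall
        (by norm_num) hx) y (closedBall_subset_closedBall (by norm_num) hy)
      rw [show gam Y pr i j x = gam Y pr i j y from e, sub_self, zero_sub, norm_neg] at this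
      exact sub_eq_zero.1 (norm_le_zero_iff.1 (by linarith))
    · linarith [up (hB.gam_disp hd' z')]
    · rw [hB.gam_coc hφ hd' hd (by rw [dist_self]; positivity) (by linarith),
        hB.gam_self j (by linarith)]

end Pool.Agent.Lib.MP_399f8e_an.Ur
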