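import Pool.Agent.Lib.MP_399f8e_an.Ur.Defs
import Pool.Agent.Lib.MP_399f8e_an.Rg.Norm

open Set Filter Topology Metric Complex
open scoped Real
open Pool.Agent.Lib.MP_399f8e_an.Rg

noncomputable section

namespace Pool.Agent.Lib.MP_399f8e_an.Ur

variable {φ : ℝ → S → S} {lam δ : ℝ} {Y : S → ℂ → S} {pr : S → S → ℂ} {T : S → S → ℝ}

namespace BoxBAux

theorem pr_bd (hB : Box φ lam δ Y pr T) {c q : S} (h : ‖(q : E) - c‖ ≤ 10 ^ 6 * lam) :
    ‖pr c q‖ ≤ 2 * 10 ^ 6 := by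
  have hl := hB.lam_pos
  have k := hB.prle c q h
  exact le_of_mul_le_mul_left (by linarith) hl

theorem Y_in (hB : Box φ lam δ Y pr T) {c c' : S} (hd : dist c c' ≤ 500000 * lam) {z : ℂ}
    (hz : ‖z‖ ≤ 200000) : ‖(Y c z : E) - c'‖ ≤ 10 ^ 6 * lam := by
  have hl := hB.lam_pos
  rw [Subtype.dist_eq, dist_eq_norm] at hd
  have k := hB.Ynear c z
  have k1 := norm_sub_le_norm_sub_add_norm_sub (Y c z : E) c c'
  nlinarith

end BoxBAux

theorem continuous_cl : Continuous cl := by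
  unfold cl
  refine (Complex.continuous_ofReal.comp (continuous_const.div (by fun_prop) fun z => ?_)).mul
    continuous_id
  exact (lt_of_lt_of_le (by norm_num) (le_max_left _ _)).ne'

theorem norm_cl (z : ℂ) : ‖cl z‖ ≤ 200000 := by
  have hm : (0 : ℝ) < max 200000 ‖z‖ := lt_of_lt_of_le (by norm_num) (le_max_left _ _)
  unfold cl
  rw [norm_mul, Complex.norm_real, Real.norm_eq_abs, abs_of_nonneg (by positivity),
    div_mul_eq_mul_div, div_le_iff₀ hm]
  exact mul_le_mul_of_nonneg_left (le_max_right _ _) (by norm_num)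

theorem cl_eq {z : ℂ} (h : ‖z‖ ≤ 200000) : cl z = z := by
  unfold cl
  rw [max_eq_left h, div_self (by norm_num)]
  simp

theorem Box.Y_zero (hB : Box φ lam δ Y pr T) (c : S) : Y c 0 = c := by
  have h := hB.Ynear c 0
  rw [norm_zero, mul_zero, norm_le_zero_iff, sub_eq_zero] at h
  exact Subtype.ext h

theorem Box.pr_Y (hB : Box φ lam δ Y pr T) (c : S) {z : ℂ} (hz : ‖z‖ ≤ 500000) :
    pr c (Y c z) = z := by
  have hl := hB.lam_pos
  have hd := hB.δ_pos
  have h1 : ‖(Y c z : E) - c‖ ≤ 10 ^ 6 * lam := (hB.Ynear c z).trans (by nlinarith)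
  exact ((hB.uniq c z _ _ ((hB.Tle c _ h1).trans (by linarith)) (by linarith)
    (BoxBAux.pr_bd hB h1) (hB.flow c _ h1)).2).symm

theorem Box.pr_flow (hφ : IsFl φ) (hB : Box φ lam δ Y pr T) {c q : S} {s : ℝ}
    (h1 : ‖(q : E) - c‖ ≤ 10 ^ 6 * lam) (h2 : ‖(φ s q : E) - c‖ ≤ 10 ^ 6 * lam)
    (hs : |s| ≤ 8 * δ / 10) : pr c (φ s q) = pr c q := by
  have e1 := hB.flow c q h1
  have e2 := hB.flow c _ h2
  have t1 := abs_le.1 (hB.Tle c q h1)
  have t2 := abs_le.1 (hB.Tle c _ h2)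
  have t3 := abs_le.1 hs
  have e : φ (T c (φ s q) + s - T c q) (Y c (pr c q)) = Y c (pr c (φ s q)) := by
    rw [← e1, ← e2, ← hφ.add, ← hφ.add]
    congr 1
    ring
  exact ((hB.uniq c _ _ _ (abs_le.2 ⟨by linarith, by linarith⟩) (BoxBAux.pr_bd hB h1)
    (BoxBAux.pr_bd hB h2) e).2).symm

theorem Box.dich (hφ : IsFl φ) (hB : Box φ lam δ Y pr T) {x : S} {t : ℝ}
    (h : ‖(φ t x : E) - x‖ ≤ 10 ^ 6 * lam) (ht : |t| ≤ 9 * δ / 10) : |t| ≤ δ / 10 := by
  have e1 := hB.flow x _ h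
  have t1 := abs_le.1 (hB.Tle x _ h)
  have t2 := abs_le.1 ht
  have e : φ (T x (φ t x) + t) (Y x 0) = Y x (pr x (φ t x)) := by
    rw [hB.Y_zero, hφ.add, e1]
  have h0 := (hB.uniq x _ _ _ (abs_le.2 ⟨by linarith, by linarith⟩) (by norm_num)
    (BoxBAux.pr_bd hB h) e).1
  exact abs_le.2 ⟨by linarith, by linarith⟩

theorem Box.pr_lip (hφ : IsFl φ) (hB : Box φ lam δ Y pr T) {c q q' : S}
    (h1 : ‖(q : E) - c‖ ≤ 900000 * lam) (h2 : ‖(q' : E) - q‖ ≤ lam) :
    lam * ‖pr c q' - pr c q‖ ≤ 3 * ‖(q' : E) - q‖ := by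
  have hl := hB.lam_pos
  have hd := hB.δ_pos
  have a1 : ‖(q' : E) - q‖ ≤ 10 ^ 6 * lam := by linarith
  have e1 := hB.flow q q' a1
  have b1 := hB.prle q q' a1
  have b2 : ‖pr q q'‖ ≤ 2 := le_of_mul_le_mul_left (by linarith) hl
  have b3 : ‖(Y q (pr q q') : E) - q‖ ≤ 4 * lam := (hB.Ynear q _).trans (by nlinarith)
  have b4 : ‖(Y q (pr q q') : E) - c‖ ≤ 10 ^ 6 * lam := by
    have := norm_sub_le_norm_sub_add_norm_sub (Y q (pr q q') : E) q c
    linarith
  have b5 : ‖(q' : E) - c‖ ≤ 10 ^ 6 * lam := by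
    have := norm_sub_le_norm_sub_add_norm_sub (q' : E) q c
    linarith
  have e2 : pr c (Y q (pr q q')) = pr c q' := by
    rw [← e1]
    exact hB.pr_flow hφ b5 (by rw [e1]; exact b4) ((hB.Tle q q' a1).trans (by linarith))
  have k := hB.nearid q c (pr q q') 0 (by linarith) (by norm_num) b4
    (by rw [hB.Y_zero]; linarith)
  rw [e2, hB.Y_zero, sub_zero] at k
  have k2 : ‖pr c q' - pr c q‖ ≤ 1 / 1000 * ‖pr q q'‖ + ‖pr q q'‖ := by
    have := norm_add_le (pr c q' - pr c q - pr q q') (pr q q')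
    rw [sub_add_cancel] at this
    linarith
  have k3 := mul_le_mul_of_nonneg_left k2 hl.le
  have k4 := norm_nonneg ((q' : E) - q)
  nlinarith

theorem Box.gam_self (hB : Box φ lam δ Y pr T) (c : S) {z : ℂ} (hz : ‖z‖ ≤ 200000) :
    gam Y pr c c z = z := by
  unfold gam
  rw [cl_eq hz, hB.pr_Y c (by linarith), sub_self, add_zero]

theorem Box.gam_cont (hB : Box φ lam δ Y pr T) {c c' : S} (hd : dist c c' ≤ 500000 * lam) :
    Continuous (gam Y pr c c') := by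
  unfold gam
  refine Continuous.add ?_ (continuous_id.sub continuous_cl)
  exact (hB.prcont c').comp_continuous ((hB.Ycont c).comp continuous_cl) fun z =>
    BoxBAux.Y_in hB hd (norm_cl z)

theorem Box.gam_near (hB : Box φ lam δ Y pr T) {c c' : S} (hd : dist c c' ≤ 500000 * lam) :
    NearI (gam Y pr c c') (closedBall 0 200000) (1 / 1000) := by
  intro x hx y hy
  rw [mem_closedBall_zero_iff] at hx hy
  unfold gam
  rw [cl_eq hx, cl_eq hy, sub_self, sub_self, add_zero, add_zero]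
  exact hB.nearid c c' x y (by linarith) (by linarith) (BoxBAux.Y_in hB hd hx)
    (BoxBAux.Y_in hB hd hy)

theorem Box.gam_disp (hB : Box φ lam δ Y pr T) {c c' : S} (hd : dist c c' ≤ 8000 * lam) (z : ℂ) :
    ‖gam Y pr c c' z - z‖ ≤ 17000 := by
  have hl := hB.lam_pos
  have hd' : dist c c' ≤ 500000 * lam := by linarith
  have hw := norm_cl z
  have k := hB.nearid c c' (cl z) 0 (by linarith) (by norm_num) (BoxBAux.Y_in hB hd' hw)
    (BoxBAux.Y_in hB hd' (by norm_num))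
  rw [hB.Y_zero, sub_zero] at k
  have hc : ‖(c : E) - c'‖ ≤ 8000 * lam := by rwa [Subtype.dist_eq, dist_eq_norm] at hd
  have k1 := hB.prle c' c (by linarith)
  have k2 : ‖pr c' c‖ ≤ 16000 := le_of_mul_le_mul_left (by linarith) hl
  have e : gam Y pr c c' z - z = (pr c' (Y c (cl z)) - pr c' c - cl z) + pr c' c := by
    unfold gam; ring
  rw [e]
  have := norm_add_le (pr c' (Y c (cl z)) - pr c' c - cl z) (pr c' c)
  linarith

theorem Box.gam_bd (hB : Box φ lam δ Y pr T) {c c' : S} (hd : dist c c' ≤ 8000 * lam) {z : ℂ}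
    (hz : ‖z‖ ≤ 200000) : lam * ‖gam Y pr c c' z‖ ≤ 2 * dist (Y c z) c' := by
  have hl := hB.lam_pos
  unfold gam
  rw [cl_eq hz, sub_self, add_zero, Subtype.dist_eq, dist_eq_norm]
  exact hB.prle c' _ (BoxBAux.Y_in hB (by linarith) hz)

theorem Box.gam_flow (hB : Box φ lam δ Y pr T) {c c' : S} (hd : dist c c' ≤ 500000 * lam) {z : ℂ}
    (hz : ‖z‖ ≤ 200000) : ∃ a : ℝ, |a| ≤ δ / 10 ∧ Y c' (gam Y pr c c' z) = φ a (Y c z) := by
  have h := BoxBAux.Y_in hB hd hz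
  refine ⟨T c' (Y c z), hB.Tle c' _ h, ?_⟩
  unfold gam
  rw [cl_eq hz, sub_self, add_zero, hB.flow c' _ h]

theorem Box.gam_coc (hφ : IsFl φ) (hB : Box φ lam δ Y pr T) {i j m : S}
    (h1 : dist i j ≤ 8000 * lam) (h2 : dist j m ≤ 8000 * lam) (h3 : dist i m ≤ 8000 * lam) {z : ℂ}
    (hz : ‖z‖ ≤ 180000) : gam Y pr j m (gam Y pr i j z) = gam Y pr i m z := by
  have hl := hB.lam_pos
  have hd := hB.δ_pos
  have hz' : ‖z‖ ≤ 200000 := by linarith
  have hw : ‖gam Y pr i j z‖ ≤ 200000 := by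
    have a := hB.gam_disp h1 z
    have b := norm_add_le (gam Y pr i j z - z) z
    rw [sub_add_cancel] at b
    linarith
  obtain ⟨a, ha, e⟩ := hB.gam_flow (c := i) (c' := j) (by linarith) hz'
  have k1 := BoxBAux.Y_in hB (c := j) (c' := m) (by linarith) hw
  have k2 := BoxBAux.Y_in hB (c := i) (c' := m) (by linarith) hz'
  have e1 : gam Y pr j m (gam Y pr i j z) = pr m (Y j (gam Y pr i j z)) := by
    rw [gam, cl_eq hw, sub_self, add_zero]
  have e2 : gam Y pr i m z = pr m (Y i z) := by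
    rw [gam, cl_eq hz', sub_self, add_zero]
  rw [e1, e2, e]
  rw [e] at k1
  exact hB.pr_flow hφ k2 k1 (by linarith)

end Pool.Agent.Lib.MP_399f8e_an.Ur
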