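import Pool.Agent.Lib.MP_399f8e_an.Ur.Tame

open Set Filter Topology Metric Complex
open scoped Real
open Pool.Agent.Lib.MP_399f8e_an.Rg

noncomputable section

namespace Pool.Agent.Lib.MP_399f8e_an.Ur

variable {lam : ℝ} {Y : S → ℂ → S} {γ : S → S → ℂ → ℂ} {g g' : S → ℂ → ℂ}
  {ν : S → (ℂ → ℝ) → ℝ} {Z : S → Set ℂ}

theorem tame_chg (hA : Atlas lam Y γ g g' ν Z) {i j : S} (hd : dist i j ≤ 8000 * lam) {r b : ℝ}
    {k : ℝ → ℂ} (hk : Tame (Z i) r k b) (hr : r ≤ 25000) :
    Tame (Z j) (r + 17000) (fun t => γ i j (k t)) b := by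
  have hb : ∀ t ∈ Icc 0 b, ‖γ i j (k t)‖ ≤ r + 17000 := fun t ht => by
    linarith [norm_sub_norm_le (γ i j (k t)) (k t), hA.disp i j hd (k t), hk.bd t ht]
  have hc : Continuous fun t => γ i j (k t) := (hA.cont i j hd).comp hk.cont
  refine ⟨hc, hk.nn, hb, fun t ht h => hk.off t ht
    ((hA.mem i j hd _ (by linarith [hk.bd t ht])).1 h), ?_⟩
  obtain ⟨C, hC⟩ := hk.bv
  refine ⟨|C| + π, fun z hz => ?_⟩
  have hd' : dist j i ≤ 8000 * lam := dist_comm i j ▸ hd
  rcases le_or_gt ‖z‖ 50000 with h | h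
  · have h1 : ‖γ j i z‖ ≤ 67000 := by
      linarith [norm_sub_norm_le (γ j i z) z, hA.disp j i hd' z]
    have h2 : γ j i z ∈ Z i := (hA.mem j i hd' z (by linarith)).2 hz
    have h3 : γ i j (γ j i z) = z := by
      rw [hA.coc j i j hd' hd (by rw [dist_self]; linarith [hA.lam_pos]) z (by linarith),
        hA.self j z (by linarith)]
    have h4 := (hA.near i j hd).twOn (by norm_num) k 0 b _ (hk.isOff h2)
      (fun t ht => mem_closedBall_zero_iff.2 (by linarith [hk.bd t (uIcc_of_le hk.nn ▸ ht)]))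
      (mem_closedBall_zero_iff.2 (by linarith))
    rw [h3] at h4
    linarith [abs_sub_abs_le_abs_sub (var (fun t => γ i j (k t)) 0 b z) (var k 0 b (γ j i z)),
      hC _ h2, le_abs_self C]
  · have := (var_far (o := 0) (z := z) hc.continuousOn
      (fun t ht => by rw [sub_zero]; exact hb t (uIcc_of_le hk.nn ▸ ht))
      (by rw [sub_zero]; linarith)).2
    linarith [abs_nonneg C]

theorem chg (hA : Atlas lam Y γ g g' ν Z) {i j : S} (hd : dist i j ≤ 8000 * lam)
    {Pi Pj : (ℝ → ℂ) → ℝ → ℝ} (hi : Step (g i) (ν i) (Z i) Pi 40000)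
    (hj : Step (g j) (ν j) (Z j) Pj 40000) {k k' : ℝ → ℂ} {l l' : ℝ} (hk : Tame (Z i) 21000 k l)
    (hk' : Tame (Z i) 21000 k' l') (e : k l = g i (k 0)) (e' : k' l' = g i (k' 0)) :
    Pi k' l' - Pi k l = Pj (fun t => γ i j (k' t)) l' - Pj (fun t => γ i j (k t)) l := by
  have hG := hA.good i
  have hG' := hA.good j
  have k0 : (0 : ℝ) ∈ Icc 0 l := left_mem_Icc.2 hk.nn
  have k0' : (0 : ℝ) ∈ Icc 0 l' := left_mem_Icc.2 hk'.nn
  obtain ⟨β, b1, b2, b3, b4, b5⟩ := exists_avoid hG.cnt (o := 0) (r := 21000) one_pos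
    (hk.off 0 k0) (hk'.off 0 k0') (by rw [sub_zero]; exact hk.bd 0 k0)
    (by rw [sub_zero]; exact hk'.bd 0 k0')
  have hβ : Tame (Z i) 21001 β 1 := ⟨b1, zero_le_one,
    fun t ht => by have := (b4 t ht).1; rw [sub_zero] at this; linarith,
    fun t ht => (b4 t ht).2, _, b5⟩
  have a1 : Tame (Z i) 21001 k l := hk.mono (by norm_num)
  have a2 : Tame (Z i) 21001 k' l' := hk'.mono (by norm_num)
  have c1 := tame_chg hA hd a1 (by norm_num)
  have c2 := tame_chg hA hd a2 (by norm_num)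
  have c3 := tame_chg hA hd hβ (by norm_num)
  have e1 : γ i j (k l) = g j (γ i j (k 0)) := by
    rw [e, hA.comm i j hd _ (by linarith [hk.bd 0 k0])]
  have e2 : γ i j (k' l') = g j (γ i j (k' 0)) := by
    rw [e', hA.comm i j hd _ (by linarith [hk'.bd 0 k0'])]
  have e3 : γ i j (β 0) = γ i j (k 0) := by rw [b2]
  have e4 : γ i j (β 1) = γ i j (k' 0) := by rw [b3]
  have n1 : ∀ z, ‖g i z - z‖ ≤ 1 := fun z => (hG.near z).trans (by norm_num)
  have n2 : ∀ z, ‖g j z - z‖ ≤ 1 := fun z => (hG'.near z).trans (by norm_num)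
  have far := fun z => wn_far (z := z) hG'.cont n2 c1 c2 c3 e1 e2 e3 e4
  rw [hi k l k' l' β 1 (a1.mono (by norm_num)) (a2.mono (by norm_num)) (hβ.mono (by norm_num))
      e e' b2 b3,
    hj _ l _ l' _ 1 (c1.mono (by norm_num)) (c2.mono (by norm_num)) (c3.mono (by norm_num))
      e1 e2 e3 e4, add_sub_cancel_left, add_sub_cancel_left,
    ← hA.mean i j hd _ (hG'.wn_bd (by norm_num) c1 c2 c3 (by norm_num))
      fun z hz => far z (by linarith)]
  refine hG.nu_congr (hG.wn_bd (by norm_num) a1 a2 hβ (by norm_num)) fun z hz => ?_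
  rcases le_or_gt ‖z‖ 70000 with h | h
  · have key : ∀ {r b : ℝ} {P : ℝ → ℂ}, Tame (Z i) r P b → r ≤ 100000 →
        var (fun t => γ i j (P t)) 0 b (γ i j z) = var P 0 b z +
          arg ((γ i j (P b) - γ i j z) / (P b - z)) - arg ((γ i j (P 0) - γ i j z) / (P 0 - z)) :=
      fun hP hr => (hA.near i j hd).var_eq (by norm_num) (hP.isOff hz)
        (fun t ht => mem_closedBall_zero_iff.2 ((hP.bd t (uIcc_of_le hP.nn ▸ ht)).trans hr))
        (mem_closedBall_zero_iff.2 (by linarith))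
    have h5 : var (fun t => g j (γ i j (β t))) 0 1 (γ i j z) =
        var (fun t => γ i j (g i (β t))) 0 1 (γ i j z) :=
      var_congr (fun t ht => (hA.comm i j hd _
        (by linarith [hβ.bd t (uIcc_of_le hβ.nn ▸ ht)])).symm) _
    have h6 := key (hG.tame_map (by norm_num) hβ (by norm_num)) (by norm_num)
    beta_reduce at h6
    unfold Wn
    rw [h5, h6, key a1 (by norm_num), key a2 (by norm_num), key hβ (by norm_num), b2, b3, ← e, ← e']
    ring
  · have h1 := norm_sub_norm_le z (γ i j z)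
    rw [norm_sub_rev] at h1
    rw [wn_far hG.cont n1 a1 a2 hβ e e' b2 b3 (by linarith),
      far _ (by linarith [hA.disp i j hd z])]

end Pool.Agent.Lib.MP_399f8e_an.Ur
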