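import Pool.Agent.Lib.MP_399f8e_an.Rg.Defs

/-!
Working definitions for uniformly rigid flows on the three-sphere
(none of them occurs in the final statement).
-/

open Set Filter Topology Metric Complex
open scoped Real
open Pool.Agent.Lib.MP_399f8e_an.Rg

noncomputable section

namespace Pool.Agent.Lib.MP_399f8e_an.Ur

/-- `Lg` is a continuous logarithm of `f` between `a` and `b` -/
def IsLog (Lg f : ℝ → ℂ) (a b : ℝ) : Prop :=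
  ContinuousOn Lg (uIcc a b) ∧ ∀ t ∈ uIcc a b, Complex.exp (Lg t) = f t

/-- the variation of the argument of `f` from `a` to `b` -/
def rot (f : ℝ → ℂ) (a b : ℝ) : ℝ :=
  open Classical in
  if h : ∃ Lg, IsLog Lg f a b then (h.choose b - h.choose a).im else 0

/-- the variation of the argument of the path `P` seen from `z` -/
def var (P : ℝ → ℂ) (a b : ℝ) (z : ℂ) : ℝ := rot (fun t => P t - z) a b

/-- `f` is continuous and nowhere zero between `a` and `b` -/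
def Ok (f : ℝ → ℂ) (a b : ℝ) : Prop := ContinuousOn f (uIcc a b) ∧ ∀ t ∈ uIcc a b, f t ≠ 0

/-- the path `P` is continuous between `a` and `b` and misses `z` -/
def Off (P : ℝ → ℂ) (a b : ℝ) (z : ℂ) : Prop :=
  ContinuousOn P (uIcc a b) ∧ ∀ t ∈ uIcc a b, P t ≠ z

/-- follow `P` up to time `a`, then `Q` from time `b` on -/
def cat (P : ℝ → ℂ) (a : ℝ) (Q : ℝ → ℂ) (b : ℝ) (t : ℝ) : ℂ :=
  if t ≤ a then P t else Q (t - a + b)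

/-- a Jordan curve `J` with inside `U` and outside `V` -/
structure Jor (J U V : Set ℂ) : Prop where
  cpt : IsCompact J
  oU : IsOpen U
  oV : IsOpen V
  cU : IsPreconnected U
  cV : IsPreconnected V
  cover : ∀ z, z ∈ J ∨ z ∈ U ∨ z ∈ V
  dJU : ∀ z ∈ J, z ∉ U
  dJV : ∀ z ∈ J, z ∉ V
  dUV : ∀ z ∈ U, z ∉ V
  clU : J ⊆ closure U
  clV : J ⊆ closure V
  bdd : ∀ r : ℝ, J ⊆ closedBall 0 r → U ⊆ closedBall 0 r

/-- a plane map close to the identity, without fixed point, that shrinks no set -/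
structure Top (g g' : ℂ → ℂ) (R : ℝ) : Prop where
  cont : Continuous g
  cont' : Continuous g'
  near : ∀ z, ‖g z - z‖ ≤ 1
  near' : ∀ z, ‖g' z - z‖ ≤ 1
  inv : ∀ z, ‖z‖ ≤ R → g' (g z) = z
  inv' : ∀ z, ‖z‖ ≤ R → g (g' z) = z
  nofix : ∀ z, ‖z‖ ≤ R → g z ≠ z
  nofix' : ∀ z, ‖z‖ ≤ R → g' z ≠ z
  big : ∀ U : Set ℂ, U ⊆ closedBall 0 R → ∀ (x : ℂ) (r : ℝ), 0 < r → ball x r ⊆ U →
    ∃ z ∈ U, g z ∉ U ∨ g z ∈ ball x r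
  big' : ∀ U : Set ℂ, U ⊆ closedBall 0 R → ∀ (x : ℂ) (r : ℝ), 0 < r → ball x r ⊆ U →
    ∃ z ∈ U, g' z ∉ U ∨ g' z ∈ ball x r

/-- `A x y` is a continuous symmetric choice of the argument of `(g x - g y) / (x - y)` -/
structure IsA (g : ℂ → ℂ) (A : ℂ → ℂ → ℝ) (r : ℝ) : Prop where
  cont : ContinuousOn (fun p : ℂ × ℂ => A p.1 p.2) {p | p.1 ≠ p.2 ∧ ‖p.1‖ ≤ r ∧ ‖p.2‖ ≤ r}
  symm : ∀ x y, x ≠ y → ‖x‖ ≤ r → ‖y‖ ≤ r → A x y = A y x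
  lift : ∀ x y, x ≠ y → ‖x‖ ≤ r → ‖y‖ ≤ r →
    ∃ ρ : ℝ, 0 < ρ ∧ g x - g y = ρ * Complex.exp (A x y * I) * (x - y)

/-- the map `h` twists paths in `O` by at most `C` -/
def TwOn (h : ℂ → ℂ) (O : Set ℂ) (C : ℝ) : Prop :=
  ∀ (P : ℝ → ℂ) (a b : ℝ) (z : ℂ), Off P a b z → (∀ t ∈ uIcc a b, P t ∈ O) → z ∈ O →
    |var (fun t => h (P t)) a b (h z) - var P a b z| ≤ C

/-- on `O` the map `h` is the identity up to a `κ`-Lipschitz error -/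
def NearI (h : ℂ → ℂ) (O : Set ℂ) (κ : ℝ) : Prop :=
  ∀ x ∈ O, ∀ y ∈ O, ‖h x - h y - (x - y)‖ ≤ κ * ‖x - y‖

/-- a translation arc -/
structure Arc (g : ℂ → ℂ) (k : ℝ → ℂ) (l : ℝ) : Prop where
  cont : Continuous k
  pos : 0 < l
  inj : InjOn k (Icc 0 l)
  last : k l = g (k 0)
  free : ∀ s ∈ Icc 0 l, ∀ t ∈ Icc 0 l, g (k s) = k t → s = 0 ∧ t = l

/-- five consecutive images of a translation arc -/
structure Line (g : ℂ → ℂ) (L : ℝ → ℂ) (l r : ℝ) : Prop where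
  cont : Continuous L
  pos : 0 < l
  per : ∀ t ∈ Icc (-2 * l) (2 * l), L (t + l) = g (L t)
  bd : ∀ t ∈ Icc (-2 * l) (3 * l), ‖L t‖ ≤ r
  inj2 : ∀ s ∈ Icc (-2 * l) (3 * l), ∀ t ∈ Icc (-2 * l) (3 * l), |s - t| ≤ 2 * l →
    L s = L t → s = t
  inj3 : ∀ s ∈ Icc (-l) (2 * l), ∀ t ∈ Icc (-l) (2 * l), |s - t| < 3 * l → L s = L t → s = t

/-- the path `σ` leaves the line at `L s` and has no contact before time `u` -/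
structure Fst (g : ℂ → ℂ) (L : ℝ → ℂ) (l s : ℝ) (σ : ℝ → ℂ) (u r : ℝ) : Prop where
  cont : Continuous σ
  pos : 0 < u
  hs : s ∈ Ioo 0 l
  start : σ 0 = L s
  inj : InjOn σ (Icc 0 u)
  bd : ∀ x ∈ Icc 0 u, ‖σ x‖ ≤ r
  first : ∀ x ∈ Ioo 0 u, ∀ p ∈ Icc (-l) (2 * l), σ x ≠ L p
  free : ∀ x ∈ Ico 0 u, ∀ y ∈ Ico 0 u, σ x ≠ g (σ y)

/-- between the times `s` and `s₁` the path `k` runs through the segment from `v` to `v + e d` -/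
structure Seg (k : ℝ → ℂ) (s s₁ : ℝ) (v d : ℂ) (e : ℝ) : Prop where
  lt : s < s₁
  fst : k s = v
  snd : k s₁ = v + e * d
  mem : ∀ p ∈ Icc s s₁, ∃ x ∈ Icc (0 : ℝ) e, k p = v + x * d

/-- the winding function of the loop `k`, `g β`, `k'` backwards, `β` backwards -/
def Wn (g : ℂ → ℂ) (k : ℝ → ℂ) (l : ℝ) (k' : ℝ → ℂ) (l' : ℝ) (β : ℝ → ℂ) (b : ℝ) (z : ℂ) : ℝ :=
  var k 0 l z + var (fun t => g (β t)) 0 b z - var k' 0 l' z - var β 0 b z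

/-- the outcome of a move: the new arc `κ`, the connecting path `β`, the Jordan curve `J` -/
structure Res (g : ℂ → ℂ) (L : ℝ → ℂ) (l s s₁ : ℝ) (σ : ℝ → ℂ) (u : ℝ) (κ : ℝ → ℂ) (l' : ℝ)
    (β : ℝ → ℂ) (b : ℝ) (J U V K : Set ℂ) (w rest : ℂ → ℝ) (c : ℝ) : Prop where
  arc : Arc g κ l'
  bcont : Continuous β
  bnn : 0 ≤ b
  binj : InjOn β (Icc 0 b)
  b0 : β 0 = L 0
  b1 : β b = κ 0
  bim : β '' Icc 0 b ⊆ L '' Icc 0 l ∪ σ '' Icc 0 u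
  shape : κ '' Icc 0 l' ⊆ σ '' Icc 0 u ∨ ∃ t ∈ Ioo s (s + l), σ u = L t ∧
    κ '' Icc 0 l' ⊆ L '' Icc (max 0 (t - l)) s ∪ σ '' Icc 0 u ∪ L '' Icc t l
  jor : Jor J U V
  hc : c = 2 * π ∨ c = -(2 * π)
  wU : ∀ z ∈ U, w z = c
  wV : ∀ z ∈ V, w z = 0
  back : L '' Ico (s - l) s ⊆ V
  split : J = L '' Icc s s₁ ∪ K
  Kcl : IsClosed K
  Ksub : ∃ B : Set ℂ, K ⊆ L '' Icc s₁ (s + l) ∪ σ '' Icc 0 u ∪ B ∧
    (B = ∅ ∨ ∃ v ∈ Ico 0 u, σ u = g (σ v) ∧ B = (fun x => g (σ x)) '' Icc 0 v)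
  rcont : ContinuousOn rest Kᶜ
  wsplit : ∀ z, z ∉ J → w z = var L s s₁ z + rest z
  wn : ∀ z, z ∉ L '' Icc 0 (2 * l) → z ∉ σ '' Icc 0 u → z ∉ g '' (σ '' Icc 0 u) →
    Wn g L l κ l' β b z = w z

/-- bounded on `Z` -/
def Bd (Z : Set ℂ) (w : ℂ → ℝ) : Prop := ∃ C : ℝ, ∀ z ∈ Z, |w z| ≤ C

/-- the indicator function of a ball -/
def ind (x : ℂ) (r : ℝ) : ℂ → ℝ := (ball x r).indicator fun _ => 1

/-- plane data: the map, its inverse and an invariant positive mean that lives on `Z` -/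
structure Good (g g' : ℂ → ℂ) (ν : (ℂ → ℝ) → ℝ) (Z : Set ℂ) (R b : ℝ) : Prop where
  cont : Continuous g
  cont' : Continuous g'
  near : ∀ z, ‖g z - z‖ ≤ b
  near' : ∀ z, ‖g' z - z‖ ≤ b
  inv : ∀ z, ‖z‖ ≤ R → g' (g z) = z
  inv' : ∀ z, ‖z‖ ≤ R → g (g' z) = z
  nofix : ∀ z, ‖z‖ ≤ R → g z ≠ z
  tw : ∃ C, TwOn g (closedBall 0 R) C
  cnt : Z.Countable
  Zg : ∀ z, ‖z‖ ≤ R → (g z ∈ Z ↔ z ∈ Z)
  add : ∀ w w', Bd Z w → Bd Z w' → ν (fun z => w z + w' z) = ν w + ν w'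
  smul : ∀ (c : ℝ) w, Bd Z w → ν (fun z => c * w z) = c * ν w
  mono : ∀ w w', Bd Z w → Bd Z w' → (∀ z ∈ Z, w z ≤ w' z) → ν w ≤ ν w'
  pos : ∀ (x : ℂ) (r : ℝ), ‖x‖ ≤ R → 0 < r → 0 < ν (ind x r)
  invν : ∀ w, Bd Z w → (∀ z, R ≤ ‖z‖ → w z = 0) → ν (fun z => w (g z)) = ν w

/-- an admissible path -/
structure Tame (Z : Set ℂ) (r : ℝ) (P : ℝ → ℂ) (b : ℝ) : Prop where
  cont : Continuous P
  nn : 0 ≤ b
  bd : ∀ t ∈ Icc 0 b, ‖P t‖ ≤ r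
  off : ∀ t ∈ Icc 0 b, P t ∉ Z
  bv : Bd Z (var P 0 b)

/-- `P` is a flux potential on the admissible paths from a point to its image -/
def Step (g : ℂ → ℂ) (ν : (ℂ → ℝ) → ℝ) (Z : Set ℂ) (P : (ℝ → ℂ) → ℝ → ℝ) (r : ℝ) : Prop :=
  ∀ k l k' l' β b, Tame Z r k l → Tame Z r k' l' → Tame Z r β b → k l = g (k 0) →
    k' l' = g (k' 0) → β 0 = k 0 → β b = k' 0 → P k' l' = P k l + ν (Wn g k l k' l' β b)

/-- lower bound `d` of the displacement and modulus of continuity -/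
structure Fine (g g' : ℂ → ℂ) (R d t e : ℝ) : Prop where
  low : ∀ z, ‖z‖ ≤ R → d ≤ ‖g z - z‖
  md : ∀ x y, ‖x‖ ≤ R → ‖y‖ ≤ R → ‖x - y‖ ≤ e → ‖g x - g y‖ ≤ t
  md' : ∀ x y, ‖x‖ ≤ R → ‖y‖ ≤ R → ‖x - y‖ ≤ e → ‖g' x - g' y‖ ≤ t

/-- the lines of the grid of mesh `ε` -/
def Grid (ε : ℝ) : Set ℂ := {z | (∃ m : ℤ, z.re = m * ε) ∨ ∃ m : ℤ, z.im = m * ε}

/-- the vertices of the grid -/
def Vtx (ε : ℝ) : Set ℂ := {z | (∃ m : ℤ, z.re = m * ε) ∧ ∃ m : ℤ, z.im = m * ε}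

/-- the four directions -/
def Dir (d : ℂ) : Prop := d = 1 ∨ d = -1 ∨ d = I ∨ d = -I

/-- the square of side 2000 -/
def Om : Set ℂ := {z | |z.re| ≤ 1000 ∧ |z.im| ≤ 1000}

/-- a translation arc in the grid -/
structure GArc (g : ℂ → ℂ) (ε r : ℝ) (k : ℝ → ℂ) (l : ℝ) : Prop where
  arc : Arc g k l
  grid : ∀ p ∈ Icc 0 l, k p ∈ Grid ε
  bd : ∀ p ∈ Icc 0 l, ‖k p‖ ≤ r

/-- a vertex of the path `k` that is not a left turn: it comes in direction `u₀`, leaves in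
direction `u` -/
structure GV (ε : ℝ) (k : ℝ → ℂ) (l s₀ s s₁ : ℝ) (v u u₀ : ℂ) : Prop where
  h0 : 0 ≤ s₀
  h1 : s₁ ≤ l
  vt : v ∈ Vtx ε
  du : Dir u
  turn : u₀ = u ∨ u₀ = I * u
  inn : Seg k s₀ s (v - ε * u₀) u₀ ε
  out : Seg k s s₁ v u ε

/-- `z` is far from the first points of the orbit of `a` -/
def Far (g g' : ℂ → ℂ) (a : ℂ) (ρ : ℝ) (z : ℂ) : Prop :=
  ρ ≤ ‖z - a‖ ∧ ρ ≤ ‖z - g a‖ ∧ ρ ≤ ‖z - g (g a)‖ ∧ ρ ≤ ‖z - g' a‖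

/-- where the new arc lies -/
def Shape (g g' : ℂ → ℂ) (k : ℝ → ℂ) (l s : ℝ) (σ : ℝ → ℂ) (T : ℝ) (κ : ℝ → ℂ) (l' : ℝ) : Prop :=
  ∃ r₁ ∈ Icc 0 s, ∃ r₂ ∈ Icc s l, κ '' Icc 0 l' ⊆ k '' Icc r₁ r₂ ∪ σ '' Icc 0 T ∧
    ((∃ x ∈ Ioc 0 T, σ x ∈ k '' Icc 0 l) ∨
      ((r₁ = s ∨ ∃ x ∈ Icc 0 T, σ x = g (k r₁)) ∧ (r₂ = s ∨ ∃ x ∈ Icc 0 T, σ x = g' (k r₂))))

/-- a family of flow boxes: `Y c` is a section through `c`, `pr c` the projection along the flow -/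
structure Box (φ : ℝ → S → S) (lam δ : ℝ) (Y : S → ℂ → S) (pr : S → S → ℂ) (T : S → S → ℝ) :
    Prop where
  lam_pos : 0 < lam
  lam_le : 8000 * lam ≤ 1
  δ_pos : 0 < δ
  Ycont : ∀ c, Continuous (Y c)
  Ynear : ∀ c z, ‖(Y c z : E) - c‖ ≤ 2 * lam * ‖z‖
  prcont : ∀ c : S, ContinuousOn (pr c) {q : S | ‖(q : E) - c‖ ≤ 10 ^ 6 * lam}
  flow : ∀ c q : S, ‖(q : E) - c‖ ≤ 10 ^ 6 * lam → φ (T c q) q = Y c (pr c q)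
  Tle : ∀ c q : S, ‖(q : E) - c‖ ≤ 10 ^ 6 * lam → |T c q| ≤ δ / 10
  prle : ∀ c q : S, ‖(q : E) - c‖ ≤ 10 ^ 6 * lam → lam * ‖pr c q‖ ≤ 2 * ‖(q : E) - c‖
  uniq : ∀ (c : S) (z z' : ℂ) (t : ℝ), |t| ≤ δ → ‖z‖ ≤ 2 * 10 ^ 6 → ‖z'‖ ≤ 2 * 10 ^ 6 →
    φ t (Y c z) = Y c z' → t = 0 ∧ z = z'
  nearid : ∀ (c c' : S) (z z' : ℂ), ‖z‖ ≤ 2 * 10 ^ 6 → ‖z'‖ ≤ 2 * 10 ^ 6 →
    ‖(Y c z : E) - c'‖ ≤ 10 ^ 6 * lam → ‖(Y c z' : E) - c'‖ ≤ 10 ^ 6 * lam →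
      ‖pr c' (Y c z) - pr c' (Y c z') - (z - z')‖ ≤ 1 / 1000 * ‖z - z'‖

/-- a long return time with a small displacement -/
structure Rt (φ : ℝ → S → S) (τ : S → ℝ) (lam δ : ℝ) : Prop where
  cont : Continuous τ
  near : ∀ x, ‖(φ (τ x) x : E) - x‖ ≤ lam / 10
  far : ∀ x, δ / 2 ≤ |τ x|
  coarse : ∀ (y : S) (t : ℝ), |t| ≤ δ → |τ (φ t y) - τ y| ≤ δ / 10

/-- radial retraction onto the ball of radius `200000` -/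
def cl (z : ℂ) : ℂ := ((200000 / max 200000 ‖z‖ : ℝ) : ℂ) * z

/-- change of chart -/
def gam (Y : S → ℂ → S) (pr : S → S → ℂ) (c c' : S) (z : ℂ) : ℂ :=
  pr c' (Y c (cl z)) + (z - cl z)

/-- the return map in a chart -/
def ret (φ : ℝ → S → S) (τ : S → ℝ) (Y : S → ℂ → S) (pr : S → S → ℂ) (c : S) (z : ℂ) : ℂ :=
  pr c (φ (τ (Y c (cl z))) (Y c (cl z))) + (z - cl z)

/-- a separated set of times -/
def Sep (V : Set ℝ) (δ : ℝ) : Prop := ∀ s ∈ V, ∀ t ∈ V, |s - t| ≤ δ → s = t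

/-- a bounded function that vanishes off `V` -/
def Sp (V : Set ℝ) (f : ℝ → ℝ) : Prop := (∀ t, t ∉ V → f t = 0) ∧ ∃ C : ℝ, ∀ t, |f t| ≤ C

/-- a mean of sums over separated sets of times -/
structure IsMean (μ : (ℝ → ℝ) → ℝ) : Prop where
  add : ∀ V δ f f', 0 < δ → Sep V δ → Sp V f → Sp V f' → μ (fun t => f t + f' t) = μ f + μ f'
  smul : ∀ V δ (c : ℝ) f, 0 < δ → Sep V δ → Sp V f → μ (fun t => c * f t) = c * μ f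
  mono : ∀ V δ f f', 0 < δ → Sep V δ → Sp V f → Sp V f' → (∀ t, f t ≤ f' t) → μ f ≤ μ f'
  shift : ∀ V V' δ f f' (b : ℝ → ℝ) (B : ℝ), 0 < δ → Sep V δ → Sep V' δ → Sp V f → Sp V' f' →
    InjOn b {t | f t ≠ 0} → (∀ t, f t ≠ 0 → f' (b t) = f t ∧ |b t - t| ≤ B) →
    (∀ t', f' t' ≠ 0 → ∃ t, f t ≠ 0 ∧ b t = t') → μ f = μ f'
  pos : ∀ V δ f (B : ℝ), 0 < δ → Sep V δ → Sp V f → (∀ t, 0 ≤ f t) →
    (∀ t, ∃ s ∈ Icc t (t + B), 1 ≤ f s) → 0 < μ f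

/-- the times at which the orbit of the pole meets the section through `c` -/
def vis (φ : ℝ → S → S) (Y : S → ℂ → S) (c : S) : Set ℝ :=
  {t | ∃ z : ℂ, ‖z‖ ≤ 200000 ∧ φ t pole = Y c z}

/-- the points at which the orbit of the pole meets the section through `c` -/
def Zs (φ : ℝ → S → S) (Y : S → ℂ → S) (c : S) : Set ℂ :=
  {z | ‖z‖ ≤ 200000 ∧ ∃ t : ℝ, φ t pole = Y c z}

/-- the mean over the visits -/
def nu (μ : (ℝ → ℝ) → ℝ) (φ : ℝ → S → S) (Y : S → ℂ → S) (pr : S → S → ℂ) (c : S)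
    (w : ℂ → ℝ) : ℝ :=
  μ ((vis φ Y c).indicator fun t => w (pr c (φ t pole)))

/-- an atlas of plane data indexed by the sphere -/
structure Atlas (lam : ℝ) (Y : S → ℂ → S) (γ : S → S → ℂ → ℂ) (g g' : S → ℂ → ℂ)
    (ν : S → (ℂ → ℝ) → ℝ) (Z : S → Set ℂ) : Prop where
  lam_pos : 0 < lam
  lam_le : 8000 * lam ≤ 1
  good : ∀ i, Good (g i) (g' i) (ν i) (Z i) 100000 (1 / 2)
  Ynear : ∀ i z, dist (Y i z) i ≤ 2 * lam * ‖z‖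
  self : ∀ i z, ‖z‖ ≤ 100000 → γ i i z = z
  cont : ∀ i j, dist i j ≤ 8000 * lam → Continuous (γ i j)
  near : ∀ i j, dist i j ≤ 8000 * lam → NearI (γ i j) (closedBall 0 100000) (1 / 1000)
  disp : ∀ i j, dist i j ≤ 8000 * lam → ∀ z, ‖γ i j z - z‖ ≤ 17000
  bd : ∀ i j, dist i j ≤ 8000 * lam → ∀ z, ‖z‖ ≤ 100000 → lam * ‖γ i j z‖ ≤ 2 * dist (Y i z) j
  coc : ∀ i j m, dist i j ≤ 8000 * lam → dist j m ≤ 8000 * lam → dist i m ≤ 8000 * lam →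
    ∀ z, ‖z‖ ≤ 70000 → γ j m (γ i j z) = γ i m z
  comm : ∀ i j, dist i j ≤ 8000 * lam → ∀ z, ‖z‖ ≤ 70000 → γ i j (g i z) = g j (γ i j z)
  mem : ∀ i j, dist i j ≤ 8000 * lam → ∀ z, ‖z‖ ≤ 70000 → (γ i j z ∈ Z j ↔ z ∈ Z i)
  mean : ∀ i j, dist i j ≤ 8000 * lam → ∀ w, Bd (Z j) w → (∀ z, 45000 ≤ ‖z‖ → w z = 0) →
    ν i (fun z => w (γ i j z)) = ν j w

end Pool.Agent.Lib.MP_399f8e_an.Ur
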