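import Pool.Agent.Lib.MP_399f8e_an.Ur.Grid

open Set Filter Topology Metric Complex
open scoped Real
open Pool.Agent.Lib.MP_399f8e_an.Rg

noncomputable section

namespace Pool.Agent.Lib.MP_399f8e_an.Ur

variable {ε : ℝ} {k : ℝ → ℂ} {a b : ℝ}

namespace EdgeAux

theorem closed_lat (hε : 0 < ε) : IsClosed {x : ℝ | ∃ m : ℤ, x = m * ε} := by
  have h : {x : ℝ | ∃ m : ℤ, x = m * ε} = (fun x => x / ε) ⁻¹' range ((↑) : ℤ → ℝ) := by
    ext x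
    simp only [mem_ofPred_eq, mem_preimage, mem_range]
    constructor
    · rintro ⟨m, rfl⟩
      exact ⟨m, by field_simp⟩
    · rintro ⟨m, hm⟩
      exact ⟨m, by rw [hm]; field_simp⟩
  rw [h]
  exact Int.isClosedEmbedding_coe_real.isClosed_range.preimage (continuous_id.div_const ε)

theorem lat_const {f : ℝ → ℝ} (hf : Continuous f) (hab : a < b)
    (h : ∀ p ∈ Ioo a b, ∃ m : ℤ, f p = m * ε) : ∃ m : ℤ, ∀ p ∈ Icc a b, f p = m * ε := by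
  obtain ⟨c, hc⟩ : (Ioo a b).Nonempty := nonempty_Ioo.mpr hab
  obtain ⟨m, hm⟩ := h c hc
  refine ⟨m, ?_⟩
  have hcount : (range fun m : ℤ => (m : ℝ) * ε).Countable := countable_range _
  have hsub : f '' Ioo a b ⊆ range fun m : ℤ => (m : ℝ) * ε := by
    rintro _ ⟨p, hp, rfl⟩
    obtain ⟨n, hn⟩ := h p hp
    exact ⟨n, hn.symm⟩
  have hss : (f '' Ioo a b).Subsingleton :=
    hcount.isTotallyDisconnected _ hsub (isPreconnected_Ioo.image f hf.continuousOn)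
  have hcl : IsClosed {p | f p = m * ε} := isClosed_eq hf continuous_const
  have h1 : Ioo a b ⊆ {p | f p = m * ε} := fun p hp => by
    have := hss (mem_image_of_mem f hp) (mem_image_of_mem f hc)
    simp only [mem_ofPred_eq]
    rw [this, hm]
  have h2 := hcl.closure_subset_iff.mpr h1
  rw [closure_Ioo hab.ne] at h2
  exact fun p hp => h2 hp

theorem floor_mem (hε : 0 < ε) (x : ℝ) :
    (⌊x / ε⌋ : ℝ) * ε ≤ x ∧ x ≤ (⌊x / ε⌋ : ℝ) * ε + ε := by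
  have h1 := Int.floor_le (x / ε)
  have h2 := (Int.lt_floor_add_one (x / ε)).le
  rw [le_div_iff₀ hε] at h1
  rw [div_le_iff₀ hε] at h2
  exact ⟨h1, by linarith⟩

theorem strip (hε : 0 < ε) {f : ℝ → ℝ} (hf : Continuous f) (hab : a < b)
    (h : ∀ p ∈ Ioo a b, ∀ m : ℤ, f p ≠ m * ε) :
    ∃ m : ℤ, ∀ p ∈ Icc a b, m * ε ≤ f p ∧ f p ≤ m * ε + ε := by
  obtain ⟨c, hc⟩ : (Ioo a b).Nonempty := nonempty_Ioo.mpr hab
  obtain ⟨h1, h2⟩ := floor_mem hε (f c)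
  refine ⟨⌊f c / ε⌋, ?_⟩
  set m : ℤ := ⌊f c / ε⌋ with hm
  have hcl : IsClosed {p | (m : ℝ) * ε ≤ f p ∧ f p ≤ m * ε + ε} :=
    (isClosed_le continuous_const hf).inter (isClosed_le hf continuous_const)
  have h3 : Ioo a b ⊆ {p | (m : ℝ) * ε ≤ f p ∧ f p ≤ m * ε + ε} := by
    intro p hp
    constructor
    · by_contra hlt
      push Not at hlt
      obtain ⟨q, hq, hq'⟩ := isPreconnected_Ioo.intermediate_value hp hc hf.continuousOn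
        (show (m : ℝ) * ε ∈ Icc (f p) (f c) from ⟨hlt.le, h1⟩)
      exact h q hq m hq'
    · by_contra hlt
      push Not at hlt
      obtain ⟨q, hq, hq'⟩ := isPreconnected_Ioo.intermediate_value hc hp hf.continuousOn
        (show (m : ℝ) * ε + ε ∈ Icc (f c) (f p) from ⟨h2, hlt.le⟩)
      exact h q hq (m + 1) (by rw [hq']; push_cast; ring)
  have h4 := hcl.closure_subset_iff.mpr h3
  rw [closure_Ioo hab.ne] at h4
  exact fun p hp => h4 hp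

theorem vert {m n : ℤ} {s : Set ℝ}
    (h : ∀ p ∈ s, (k p).re = m * ε ∧ n * ε ≤ (k p).im ∧ (k p).im ≤ n * ε + ε) :
    ∃ v ∈ Vtx ε, ∃ d, Dir d ∧ ∀ p ∈ s, ∃ x ∈ Icc (0 : ℝ) ε, k p = v + x * d := by
  refine ⟨⟨m * ε, n * ε⟩, ⟨⟨m, rfl⟩, ⟨n, rfl⟩⟩, I, Or.inr (Or.inr (Or.inl rfl)), fun p hp => ?_⟩
  obtain ⟨h1, h2, h3⟩ := h p hp
  refine ⟨(k p).im - n * ε, ⟨by linarith, by linarith⟩, ?_⟩
  apply Complex.ext <;> simp [h1]

theorem horiz {m n : ℤ} {s : Set ℝ}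
    (h : ∀ p ∈ s, (k p).im = m * ε ∧ n * ε ≤ (k p).re ∧ (k p).re ≤ n * ε + ε) :
    ∃ v ∈ Vtx ε, ∃ d, Dir d ∧ ∀ p ∈ s, ∃ x ∈ Icc (0 : ℝ) ε, k p = v + x * d := by
  refine ⟨⟨n * ε, m * ε⟩, ⟨⟨n, rfl⟩, ⟨m, rfl⟩⟩, 1, Or.inl rfl, fun p hp => ?_⟩
  obtain ⟨h1, h2, h3⟩ := h p hp
  refine ⟨(k p).re - n * ε, ⟨by linarith, by linarith⟩, ?_⟩
  apply Complex.ext <;> simp [h1]

theorem ends_aux (hε : 0 < ε) {x : ℝ} (hx : x ∈ Icc (0 : ℝ) ε) {m : ℤ} (hm : x = m * ε) :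
    x = 0 ∨ x = ε := by
  have h0 : (0 : ℝ) ≤ m := by
    by_contra h
    push Not at h
    have := mul_neg_of_neg_of_pos h hε
    linarith [hx.1]
  have h1 : (m : ℝ) ≤ 1 := by
    by_contra h
    push Not at h
    have := mul_lt_mul_of_pos_right h hε
    linarith [hx.2]
  have h0' : 0 ≤ m := by exact_mod_cast h0
  have h1' : m ≤ 1 := by exact_mod_cast h1
  have : m = 0 ∨ m = 1 := by omega
  rcases this with rfl | rfl
  · left; simpa using hm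
  · right; simpa using hm

theorem ends (hε : 0 < ε) {v d : ℂ} (hv : v ∈ Vtx ε) (hd : Dir d) {x : ℝ}
    (hx : x ∈ Icc (0 : ℝ) ε) (hw : v + x * d ∈ Vtx ε) : x = 0 ∨ x = ε := by
  obtain ⟨⟨m, hm⟩, n, hn⟩ := hv
  obtain ⟨⟨m', hm'⟩, n', hn'⟩ := hw
  rcases hd with rfl | rfl | rfl | rfl
  · refine ends_aux hε hx (m := m' - m) ?_
    simp at hm'
    push_cast
    linarith
  · refine ends_aux hε hx (m := m - m') ?_
    simp at hm'
    push_cast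
    linarith
  · refine ends_aux hε hx (m := n' - n) ?_
    simp at hn'
    push_cast
    linarith
  · refine ends_aux hε hx (m := n - n') ?_
    simp at hn'
    push_cast
    linarith

end EdgeAux

theorem edge_core (hε : 0 < ε) (hc : Continuous k) (hab : a ≤ b)
    (hg : ∀ p ∈ Icc a b, k p ∈ Grid ε) (hv : ∀ p ∈ Ioo a b, k p ∉ Vtx ε) :
    ∃ v ∈ Vtx ε, ∃ d, Dir d ∧ ∀ p ∈ Icc a b, ∃ x ∈ Icc (0 : ℝ) ε, k p = v + x * d := by
  have hre : Continuous fun p => (k p).re := Complex.continuous_re.comp hc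
  have him : Continuous fun p => (k p).im := Complex.continuous_im.comp hc
  rcases hab.eq_or_lt with rfl | hlt
  · rcases hg a ⟨le_rfl, le_rfl⟩ with ⟨m, hm⟩ | ⟨m, hm⟩
    · refine EdgeAux.vert (m := m) (n := ⌊(k a).im / ε⌋) fun p hp => ?_
      have : p = a := le_antisymm hp.2 hp.1
      subst this
      exact ⟨hm, EdgeAux.floor_mem hε _⟩
    · refine EdgeAux.horiz (m := m) (n := ⌊(k a).re / ε⌋) fun p hp => ?_
      have : p = a := le_antisymm hp.2 hp.1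
      subst this
      exact ⟨hm, EdgeAux.floor_mem hε _⟩
  · have hA : IsClosed {p | ∃ m : ℤ, (k p).re = m * ε} := (EdgeAux.closed_lat hε).preimage hre
    have hB : IsClosed {p | ∃ m : ℤ, (k p).im = m * ε} := (EdgeAux.closed_lat hε).preimage him
    have hcov : Ioo a b ⊆ {p | ∃ m : ℤ, (k p).re = m * ε} ∪ {p | ∃ m : ℤ, (k p).im = m * ε} :=
      fun p hp => hg p (Ioo_subset_Icc_self hp)
    by_cases h1 : (Ioo a b ∩ {p | ∃ m : ℤ, (k p).re = m * ε}).Nonempty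
    · have h2 : ∀ p ∈ Ioo a b, ∀ m : ℤ, (k p).im ≠ m * ε := by
        intro p hp m hm
        obtain ⟨q, hq, hq1, hq2⟩ := isPreconnected_closed_iff.mp isPreconnected_Ioo _ _ hA hB hcov h1
          ⟨p, hp, m, hm⟩
        exact hv q hq ⟨hq1, hq2⟩
      have h3 : ∀ p ∈ Ioo a b, ∃ m : ℤ, (k p).re = m * ε := by
        intro p hp
        rcases hcov hp with h | ⟨m, hm⟩
        · exact h
        · exact absurd hm (h2 p hp m)
      obtain ⟨m, hm⟩ := EdgeAux.lat_const hre hlt h3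
      obtain ⟨n, hn⟩ := EdgeAux.strip hε him hlt h2
      exact EdgeAux.vert fun p hp => ⟨hm p hp, hn p hp⟩
    · have h2 : ∀ p ∈ Ioo a b, ∀ m : ℤ, (k p).re ≠ m * ε := fun p hp m hm => h1 ⟨p, hp, m, hm⟩
      have h3 : ∀ p ∈ Ioo a b, ∃ m : ℤ, (k p).im = m * ε := by
        intro p hp
        rcases hcov hp with ⟨m, hm⟩ | h
        · exact absurd hm (h2 p hp m)
        · exact h
      obtain ⟨m, hm⟩ := EdgeAux.lat_const him hlt h3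
      obtain ⟨n, hn⟩ := EdgeAux.strip hε hre hlt h2
      exact EdgeAux.horiz fun p hp => ⟨hm p hp, hn p hp⟩

namespace EdgeAux

theorem close (hε : 0 < ε) (hc : Continuous k) (hab : a ≤ b)
    (hg : ∀ p ∈ Icc a b, k p ∈ Grid ε) (hv : ∀ p ∈ Ioo a b, k p ∉ Vtx ε) : ‖k a - k b‖ ≤ ε := by
  obtain ⟨v, -, d, hd, h⟩ := edge_core hε hc hab hg hv
  obtain ⟨x, hx, hx'⟩ := h a ⟨le_rfl, hab⟩
  obtain ⟨y, hy, hy'⟩ := h b ⟨hab, le_rfl⟩
  have : k a - k b = ((x - y : ℝ) : ℂ) * d := by rw [hx', hy']; push_cast; ring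
  rw [this, norm_mul, hd.norm, mul_one, Complex.norm_real, Real.norm_eq_abs, abs_le]
  exact ⟨by linarith [hx.1, hy.2], by linarith [hx.2, hy.1]⟩

theorem seg_of_ends (hε : 0 < ε) (hc : Continuous k) (hab : a < b)
    (hg : ∀ p ∈ Icc a b, k p ∈ Grid ε) (hv : ∀ p ∈ Ioo a b, k p ∉ Vtx ε) (ha : k a ∈ Vtx ε)
    (hb : k b ∈ Vtx ε) (hne : k a ≠ k b) : ∃ d, Dir d ∧ Seg k a b (k a) d ε := by
  obtain ⟨v, hv', d, hd, h⟩ := edge_core hε hc hab.le hg hv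
  obtain ⟨x, hx, hx'⟩ := h a ⟨le_rfl, hab.le⟩
  obtain ⟨y, hy, hy'⟩ := h b ⟨hab.le, le_rfl⟩
  have hxy : x ≠ y := fun e => hne (by rw [hx', hy', e])
  rcases ends hε hv' hd hx (hx' ▸ ha) with rfl | rfl
  · rcases ends hε hv' hd hy (hy' ▸ hb) with rfl | rfl
    · exact absurd rfl hxy
    · have hav : k a = v := by rw [hx']; simp
      refine ⟨d, hd, hab, rfl, by rw [hy', hav], fun p hp => ?_⟩
      rw [hav]
      exact h p hp
  · rcases ends hε hv' hd hy (hy' ▸ hb) with rfl | rfl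
    · refine ⟨-d, hd.neg, hab, rfl, by rw [hy', hx']; simp, fun p hp => ?_⟩
      obtain ⟨t, ht, ht'⟩ := h p hp
      refine ⟨x - t, ⟨by linarith [ht.2], by linarith [ht.1]⟩, ?_⟩
      rw [ht', hx']
      push_cast
      ring
    · exact absurd rfl hxy

theorem times_finite (hε : 0 < ε) (hc : Continuous k) (hi : InjOn k (Icc a b)) :
    {p | p ∈ Icc a b ∧ k p ∈ Vtx ε}.Finite := by
  obtain ⟨r, hr⟩ := (isCompact_Icc (a := a) (b := b)).exists_bound_of_continuousOn hc.continuousOn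
  refine Finite.of_finite_image (f := k) ((vtx_finite hε r).subset ?_) (hi.mono fun p hp => hp.1)
  rintro _ ⟨p, hp, rfl⟩
  exact ⟨hp.2, hr p hp.1⟩

theorem next (hε : 0 < ε) (hc : Continuous k) (hi : InjOn k (Icc a b))
    (hg : ∀ p ∈ Icc a b, k p ∈ Grid ε) {s : ℝ} (hs : s ∈ Icc a b) (hf : ε < ‖k s - k b‖) :
    ∃ s₁, s < s₁ ∧ s₁ ≤ b ∧ k s₁ ∈ Vtx ε ∧ ∀ q ∈ Ioo s s₁, k q ∉ Vtx ε := by
  have hfin : {p | (p ∈ Icc a b ∧ k p ∈ Vtx ε) ∧ s < p}.Finite :=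
    (times_finite hε hc hi).subset fun p hp => hp.1
  have hne : {p | (p ∈ Icc a b ∧ k p ∈ Vtx ε) ∧ s < p}.Nonempty := by
    by_contra h
    refine absurd (close hε hc hs.2 (fun p hp => hg p ⟨hs.1.trans hp.1, hp.2⟩) fun p hp hv => ?_)
      (not_le.mpr hf)
    exact h ⟨p, ⟨⟨hs.1.trans hp.1.le, hp.2.le⟩, hv⟩, hp.1⟩
  obtain ⟨s₁, h1, hmin⟩ := exists_min_image _ id hfin hne
  refine ⟨s₁, h1.2, h1.1.1.2, h1.1.2, fun q hq hv => ?_⟩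
  have := hmin q ⟨⟨⟨hs.1.trans hq.1.le, hq.2.le.trans h1.1.1.2⟩, hv⟩, hq.1⟩
  exact absurd hq.2 (not_lt.mpr this)

theorem prev (hε : 0 < ε) (hc : Continuous k) (hi : InjOn k (Icc a b))
    (hg : ∀ p ∈ Icc a b, k p ∈ Grid ε) {s : ℝ} (hs : s ∈ Icc a b) (hf : ε < ‖k s - k a‖) :
    ∃ s₀, a ≤ s₀ ∧ s₀ < s ∧ k s₀ ∈ Vtx ε ∧ ∀ q ∈ Ioo s₀ s, k q ∉ Vtx ε := by
  have hfin : {p | (p ∈ Icc a b ∧ k p ∈ Vtx ε) ∧ p < s}.Finite :=
    (times_finite hε hc hi).subset fun p hp => hp.1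
  have hne : {p | (p ∈ Icc a b ∧ k p ∈ Vtx ε) ∧ p < s}.Nonempty := by
    by_contra h
    rw [norm_sub_rev] at hf
    refine absurd (close hε hc hs.1 (fun p hp => hg p ⟨hp.1, hp.2.trans hs.2⟩) fun p hp hv => ?_)
      (not_le.mpr hf)
    exact h ⟨p, ⟨⟨hp.1.le, hp.2.le.trans hs.2⟩, hv⟩, hp.2⟩
  obtain ⟨s₀, h1, hmax⟩ := exists_max_image _ id hfin hne
  refine ⟨s₀, h1.1.1.1, h1.2, h1.1.2, fun q hq hv => ?_⟩
  have := hmax q ⟨⟨⟨h1.1.1.1.trans hq.1.le, hq.2.le.trans hs.2⟩, hv⟩, hq.2⟩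
  exact absurd hq.1 (not_lt.mpr this)

theorem seg_sub (hε : 0 < ε) (hc : Continuous k) (hi : InjOn k (Icc a b))
    (hg : ∀ p ∈ Icc a b, k p ∈ Grid ε) {s t : ℝ} (hs : a ≤ s) (hst : s < t) (ht : t ≤ b)
    (hv : ∀ p ∈ Ioo s t, k p ∉ Vtx ε) (h1 : k s ∈ Vtx ε) (h2 : k t ∈ Vtx ε) :
    ∃ d, Dir d ∧ Seg k s t (k s) d ε :=
  seg_of_ends hε hc hst (fun p hp => hg p ⟨hs.trans hp.1, hp.2.trans ht⟩) hv h1 h2
    fun e => hst.ne (hi ⟨hs, hst.le.trans ht⟩ ⟨hs.trans hst.le, ht⟩ e)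

end EdgeAux

theorem edge_fwd (hε : 0 < ε) (hc : Continuous k) (hi : InjOn k (Icc a b))
    (hg : ∀ p ∈ Icc a b, k p ∈ Grid ε) {s : ℝ} (hs : s ∈ Icc a b) (hv : k s ∈ Vtx ε)
    (hf : ε < ‖k s - k b‖) : ∃ s₁ d, s₁ ≤ b ∧ Dir d ∧ Seg k s s₁ (k s) d ε := by
  obtain ⟨s₁, h1, h2, h3, h4⟩ := EdgeAux.next hε hc hi hg hs hf
  obtain ⟨d, hd, hS⟩ := EdgeAux.seg_sub hε hc hi hg hs.1 h1 h2 h4 hv h3
  exact ⟨s₁, d, h2, hd, hS⟩

theorem edge_bwd (hε : 0 < ε) (hc : Continuous k) (hi : InjOn k (Icc a b))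
    (hg : ∀ p ∈ Icc a b, k p ∈ Grid ε) {s : ℝ} (hs : s ∈ Icc a b) (hv : k s ∈ Vtx ε)
    (hf : ε < ‖k s - k a‖) : ∃ s₀ d, a ≤ s₀ ∧ Dir d ∧ Seg k s₀ s (k s - ε * d) d ε := by
  obtain ⟨s₀, h1, h2, h3, h4⟩ := EdgeAux.prev hε hc hi hg hs hf
  obtain ⟨d, hd, hS⟩ := EdgeAux.seg_sub hε hc hi hg h1 h2 hs.2 h4 h3 hv
  have he : k s - ε * d = k s₀ := by rw [hS.snd]; ring
  exact ⟨s₀, d, h1, hd, he ▸ hS⟩

theorem edge_at (hε : 0 < ε) (hc : Continuous k) (hi : InjOn k (Icc a b))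
    (hg : ∀ p ∈ Icc a b, k p ∈ Grid ε) {p : ℝ} (hp : p ∈ Icc a b) (ha : ε < ‖k p - k a‖)
    (hb : ε < ‖k p - k b‖) : ∃ s s₁ v d, a ≤ s ∧ s ≤ p ∧ p ≤ s₁ ∧ s₁ ≤ b ∧ v ∈ Vtx ε ∧ Dir d ∧
      Seg k s s₁ v d ε := by
  by_cases hv : k p ∈ Vtx ε
  · obtain ⟨s₁, d, h1, hd, hS⟩ := edge_fwd hε hc hi hg hp hv hb
    exact ⟨p, s₁, k p, d, hp.1, le_rfl, hS.lt.le, h1, hv, hd, hS⟩
  · obtain ⟨s₁, h1, h2, h3, h4⟩ := EdgeAux.next hε hc hi hg hp hb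
    obtain ⟨s₀, h5, h6, h7, h8⟩ := EdgeAux.prev hε hc hi hg hp ha
    have hno : ∀ q ∈ Ioo s₀ s₁, k q ∉ Vtx ε := by
      intro q hq
      rcases lt_trichotomy q p with h | rfl | h
      · exact h8 q ⟨hq.1, h⟩
      · exact hv
      · exact h4 q ⟨h, hq.2⟩
    obtain ⟨d, hd, hS⟩ := EdgeAux.seg_sub hε hc hi hg h5 (h6.trans h1) h2 hno h7 h3
    exact ⟨s₀, s₁, k s₀, d, h5, h6.le, h1.le, h2, h7, hd, hS⟩

end Pool.Agent.Lib.MP_399f8e_an.Ur
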