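import Pool.Agent.Lib.MP_399f8e_an.Ur.Line

open Set Filter Topology Metric Complex
open scoped Real
open Pool.Agent.Lib.MP_399f8e_an.Rg

noncomputable section

namespace Pool.Agent.Lib.MP_399f8e_an.Ur

namespace FirstAux

theorem contacts_compact {g : ℂ → ℂ} {T : ℝ} {σ : ℝ → ℂ} (hg : Continuous g) (hc : Continuous σ) :
    IsCompact ((fun p : ℝ × ℝ => max p.1 p.2) ''
      ((Icc 0 T ×ˢ Icc 0 T) ∩ {p : ℝ × ℝ | σ p.1 = g (σ p.2)})) := by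
  refine IsCompact.image ?_ (continuous_fst.max continuous_snd)
  refine (isCompact_Icc.prod isCompact_Icc).inter_right ?_
  exact isClosed_eq (hc.comp continuous_fst) (hg.comp (hc.comp continuous_snd))

end FirstAux

theorem sigma_two {g g' : ℂ → ℂ} {R u : ℝ} {σ : ℝ → ℂ} (hT : Top g g' R) (hc : Continuous σ)
    (hb : ∀ x ∈ Icc 0 u, ‖σ x‖ ≤ R - 10) (hf : ∀ x ∈ Ico 0 u, ∀ y ∈ Ico 0 u, σ x ≠ g (σ y)) :
    ∀ x ∈ Ico 0 u, ∀ y ∈ Ico 0 u, σ x ≠ g (g (σ y)) := by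
  intro x hx y hy h
  have hm : max x y < u := max_lt hx.2 hy.2
  have hm0 : (0 : ℝ) ≤ max x y := le_max_of_le_left hx.1
  have hK : IsPathConnected (σ '' Icc 0 (max x y)) :=
    ((convex_Icc 0 (max x y)).isPathConnected ⟨0, left_mem_Icc.2 hm0⟩).image hc
  refine free2 hT hK ?_ ?_ (σ y) ⟨y, ⟨hy.1, le_max_right _ _⟩, rfl⟩ ⟨x, ⟨hx.1, le_max_left _ _⟩, h⟩
  · rintro _ ⟨a, ha, rfl⟩
    exact hb a ⟨ha.1, ha.2.trans hm.le⟩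
  · rintro _ ⟨a, ha, rfl⟩ ⟨b, hb', hab⟩
    exact hf b ⟨hb'.1, hb'.2.trans_lt hm⟩ a ⟨ha.1, ha.2.trans_lt hm⟩ hab

theorem arc_first {g g' : ℂ → ℂ} {R u v : ℝ} {σ : ℝ → ℂ} (hT : Top g g' R) (hc : Continuous σ)
    (hi : InjOn σ (Icc 0 u)) (hb : ∀ x ∈ Icc 0 u, ‖σ x‖ ≤ R - 10)
    (hf : ∀ x ∈ Ico 0 u, ∀ y ∈ Ico 0 u, σ x ≠ g (σ y)) (hv : v ∈ Ico 0 u) (hu : σ u = g (σ v)) :
    Arc g (fun p => σ (p + v)) (u - v) := by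
  have hmem : ∀ s ∈ Icc 0 (u - v), s + v ∈ Icc 0 u := fun s hs =>
    ⟨by linarith [hs.1, hv.1], by linarith [hs.2]⟩
  refine ⟨hc.comp (continuous_id.add continuous_const), sub_pos.2 hv.2, ?_, ?_, ?_⟩
  · intro s hs t ht h
    have := hi (hmem s hs) (hmem t ht) h
    linarith
  · simp only [sub_add_cancel, zero_add]
    exact hu
  · intro s hs t ht h
    have h' : g (σ (s + v)) = σ (t + v) := h
    rcases (hmem t ht).2.lt_or_eq with h1 | h1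
    · exfalso
      rcases (hmem s hs).2.lt_or_eq with h2 | h2
      · exact hf _ ⟨(hmem t ht).1, h1⟩ _ ⟨(hmem s hs).1, h2⟩ h'.symm
      · rw [h2, hu] at h'
        exact sigma_two hT hc hb hf _ ⟨(hmem t ht).1, h1⟩ v hv h'.symm
    · rw [h1, hu] at h'
      have hvI : v ∈ Icc 0 u := ⟨hv.1, hv.2.le⟩
      have h3 : σ (s + v) = σ v :=
        hT.inj (by linarith [hb _ (hmem s hs)]) (by linarith [hb _ hvI]) h'
      have h4 := hi (hmem s hs) hvI h3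
      exact ⟨by linarith, by linarith⟩

theorem arc_of_contact {g g' : ℂ → ℂ} {R T : ℝ} {σ : ℝ → ℂ} (hT : Top g g' R) (hc : Continuous σ)
    (hi : InjOn σ (Icc 0 T)) (hb : ∀ x ∈ Icc 0 T, ‖σ x‖ ≤ R - 10)
    (hit : ∃ x ∈ Icc 0 T, ∃ y ∈ Icc 0 T, σ x = g (σ y)) :
    ∃ κ l, Arc g κ l ∧ κ '' Icc 0 l ⊆ σ '' Icc 0 T := by
  obtain ⟨x₀, hx₀, y₀, hy₀, h₀⟩ := hit
  obtain ⟨u, ⟨⟨x, y⟩, ⟨⟨hx, hy⟩, hxy⟩, hu⟩, hmin⟩ :=
    (FirstAux.contacts_compact (T := T) hT.cont hc).exists_isLeast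
      ⟨max x₀ y₀, (x₀, y₀), ⟨⟨hx₀, hy₀⟩, h₀⟩, rfl⟩
  have hxy' : σ x = g (σ y) := hxy
  have hu' : max x y = u := hu
  have hx' : x ∈ Icc 0 T := hx
  have hy' : y ∈ Icc 0 T := hy
  have huT : u ≤ T := hu' ▸ max_le hx'.2 hy'.2
  have hsub : Icc 0 u ⊆ Icc 0 T := Icc_subset_Icc_right huT
  have hf : ∀ a ∈ Ico 0 u, ∀ b ∈ Ico 0 u, σ a ≠ g (σ b) := by
    intro a ha b hb' hab
    have : u ≤ max a b := hmin ⟨(a, b), ⟨⟨⟨ha.1, ha.2.le.trans huT⟩, ⟨hb'.1, hb'.2.le.trans huT⟩⟩, hab⟩, rfl⟩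
    exact absurd (max_lt ha.2 hb'.2) (not_lt.2 this)
  have hbu : ∀ a ∈ Icc 0 u, ‖σ a‖ ≤ R - 10 := fun a ha => hb a (hsub ha)
  rcases lt_trichotomy y x with h | h | h
  · have hxu : x = u := by rw [← hu', max_eq_left h.le]
    refine ⟨_, _, arc_first hT hc (hi.mono hsub) hbu hf ⟨hy'.1, hxu ▸ h⟩ (hxu ▸ hxy'), ?_⟩
    rintro _ ⟨p, hp, rfl⟩
    exact ⟨p + y, ⟨by linarith [hp.1, hy'.1], by linarith [hp.2]⟩, rfl⟩
  · exfalso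
    rw [h] at hxy'
    exact hT.nofix _ (by linarith [hb x hx']) hxy'.symm
  · have hyu : y = u := by rw [← hu', max_eq_right h.le]
    have hf' : ∀ a ∈ Ico 0 u, ∀ b ∈ Ico 0 u, σ a ≠ g' (σ b) := by
      intro a ha b hb' hab
      refine hf b hb' a ha ?_
      rw [hab, hT.inv' _ (by linarith [hbu b ⟨hb'.1, hb'.2.le⟩])]
    have hux : σ u = g' (σ x) := by
      rw [hxy', hT.inv _ (by linarith [hb y hy']), hyu]
    have hA := arc_first hT.symm hc (hi.mono hsub) hbu hf' ⟨hx'.1, hyu ▸ h⟩ hux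
    have hmem : ∀ p ∈ Icc 0 (u - x), p + x ∈ Icc 0 T := fun p hp =>
      ⟨by linarith [hp.1, hx'.1], by linarith [hp.2]⟩
    refine ⟨_, _, Arc.mirror hT hA (fun p hp => by linarith [hb _ (hmem p hp)]), ?_⟩
    rintro _ ⟨p, hp, rfl⟩
    exact ⟨u - x - p + x, hmem _ ⟨by linarith [hp.2], by linarith [hp.1]⟩, rfl⟩

theorem exists_fst {g g' : ℂ → ℂ} {R r l s T : ℝ} {L σ : ℝ → ℂ} (hT : Top g g' R)
    (hL : Line g L l r) (hr : r ≤ R) (hs : s ∈ Ioo 0 l) (hc : Continuous σ) (hT0 : 0 < T)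
    (h0 : σ 0 = L s) (hi : InjOn σ (Icc 0 T)) (hb : ∀ x ∈ Icc 0 T, ‖σ x‖ ≤ r)
    (hloc : ∃ x₀ : ℝ, 0 < x₀ ∧ ∀ x ∈ Ioo 0 x₀, ∀ p ∈ Icc (-l) (2 * l), σ x ≠ L p)
    (hit : (∃ x ∈ Ioc 0 T, ∃ p ∈ Icc (-l) (2 * l), σ x = L p) ∨
      ∃ x ∈ Icc 0 T, ∃ y ∈ Icc 0 T, σ x = g (σ y)) :
    ∃ u ∈ Ioc 0 T, Fst g L l s σ u r ∧ ((∃ y ∈ Ico 0 u, σ u = g (σ y)) ∨
      (∃ y ∈ Ico 0 u, σ u = g' (σ y)) ∨ ((∀ x ∈ Icc 0 u, ∀ y ∈ Icc 0 u, σ x ≠ g (σ y)) ∧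
        ∃ t ∈ Icc (-l) (2 * l), t ≠ s ∧ σ u = L t)) := by
  obtain ⟨x₀, hx₀, hloc⟩ := hloc
  have hA1 : IsCompact (Icc (x₀ / 2) T ∩ σ ⁻¹' (L '' Icc (-l) (2 * l))) :=
    isCompact_Icc.inter_right ((isCompact_Icc.image hL.cont).isClosed.preimage hc)
  have hA2 := FirstAux.contacts_compact (T := T) hT.cont hc
  have hne : ((Icc (x₀ / 2) T ∩ σ ⁻¹' (L '' Icc (-l) (2 * l))) ∪
      (fun p : ℝ × ℝ => max p.1 p.2) ''
        ((Icc 0 T ×ˢ Icc 0 T) ∩ {p : ℝ × ℝ | σ p.1 = g (σ p.2)})).Nonempty := by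
    rcases hit with ⟨x, hx, p, hp, h⟩ | ⟨x, hx, y, hy, h⟩
    · refine ⟨x, Or.inl ⟨⟨?_, hx.2⟩, p, hp, h.symm⟩⟩
      by_contra hlt
      exact hloc x ⟨hx.1, by linarith [not_le.1 hlt]⟩ p hp h
    · exact ⟨max x y, Or.inr ⟨(x, y), ⟨⟨hx, hy⟩, h⟩, rfl⟩⟩
  obtain ⟨u, hu, hmin⟩ := (hA1.union hA2).exists_isLeast hne
  have hnf : ∀ x ∈ Icc 0 T, σ x ≠ g (σ x) := fun x hx h =>
    hT.nofix _ ((hb x hx).trans hr) h.symm
  have huI : u ∈ Ioc 0 T := by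
    rcases hu with ⟨hu, -⟩ | ⟨⟨x, y⟩, ⟨⟨hx, hy⟩, hxy⟩, hu⟩
    · exact ⟨by linarith [hu.1], hu.2⟩
    · have hxy' : σ x = g (σ y) := hxy
      have hu' : max x y = u := hu
      have hx' : x ∈ Icc 0 T := hx
      have hy' : y ∈ Icc 0 T := hy
      refine ⟨?_, hu' ▸ max_le hx'.2 hy'.2⟩
      by_contra hle
      have h1 : x ≤ 0 := (le_max_left x y).trans (hu' ▸ not_lt.1 hle)
      have h2 : y ≤ 0 := (le_max_right x y).trans (hu' ▸ not_lt.1 hle)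
      have h3 : y = x := by linarith [hx'.1, hy'.1]
      rw [h3] at hxy'
      exact hnf x hx' hxy'
  have hsub : Icc 0 u ⊆ Icc 0 T := Icc_subset_Icc_right huI.2
  have hcon : ∀ a ∈ Icc 0 u, ∀ b ∈ Icc 0 u, σ a = g (σ b) → u ≤ max a b :=
    fun a ha b hb' hab => hmin (Or.inr ⟨(a, b), ⟨⟨hsub ha, hsub hb'⟩, hab⟩, rfl⟩)
  refine ⟨u, huI, ⟨hc, huI.1, hs, h0, hi.mono hsub, fun x hx => hb x (hsub hx), ?_, ?_⟩, ?_⟩
  · intro x hx p hp h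
    by_cases hlt : x < x₀
    · exact hloc x ⟨hx.1, hlt⟩ p hp h
    · have : u ≤ x := hmin (Or.inl ⟨⟨by linarith [not_lt.1 hlt], hx.2.le.trans huI.2⟩, p, hp, h.symm⟩)
      exact absurd hx.2 (not_lt.2 this)
  · intro x hx y hy h
    exact absurd (max_lt hx.2 hy.2) (not_lt.2 (hcon x ⟨hx.1, hx.2.le⟩ y ⟨hy.1, hy.2.le⟩ h))
  · by_cases hex : ∃ x ∈ Icc 0 u, ∃ y ∈ Icc 0 u, σ x = g (σ y)
    · obtain ⟨x, hx, y, hy, h⟩ := hex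
      have hm := hcon x hx y hy h
      rcases lt_trichotomy y x with h1 | h1 | h1
      · rw [max_eq_left h1.le] at hm
        have hxu : x = u := le_antisymm hx.2 hm
        exact Or.inl ⟨y, ⟨hy.1, hxu ▸ h1⟩, hxu ▸ h⟩
      · rw [h1] at h
        exact absurd h (hnf x (hsub hx))
      · rw [max_eq_right h1.le] at hm
        have hyu : y = u := le_antisymm hy.2 hm
        refine Or.inr (Or.inl ⟨x, ⟨hx.1, hyu ▸ h1⟩, ?_⟩)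
        rw [h, hT.inv _ ((hb y (hsub hy)).trans hr), hyu]
    · refine Or.inr (Or.inr ⟨fun x hx y hy h => hex ⟨x, hx, y, hy, h⟩, ?_⟩)
      rcases hu with ⟨-, t, ht, h⟩ | ⟨⟨x, y⟩, ⟨⟨hx, hy⟩, hxy⟩, hu⟩
      · refine ⟨t, ht, fun hts => ?_, h.symm⟩
        have h1 : σ u = σ 0 := by rw [h0, ← hts, h]
        have h2 := hi ⟨huI.1.le, huI.2⟩ ⟨le_rfl, hT0.le⟩ h1
        exact absurd h2 huI.1.ne'
      · have hu' : max x y = u := hu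
        have hx' : x ∈ Icc 0 T := hx
        have hy' : y ∈ Icc 0 T := hy
        exact absurd ⟨x, ⟨hx'.1, hu' ▸ le_max_left x y⟩, y, ⟨hy'.1, hu' ▸ le_max_right x y⟩, hxy⟩ hex

end Pool.Agent.Lib.MP_399f8e_an.Ur
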