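import Pool.Agent.Lib.MP_399f8e_an.Ur.Amap

open Set Filter Topology Metric Complex
open scoped Real
open Pool.Agent.Lib.MP_399f8e_an.Rg

noncomputable section

namespace Pool.Agent.Lib.MP_399f8e_an.Ur

namespace FreeAux

/-- `θ` is an argument of `w` -/
def IsArg (θ : ℝ) (w : ℂ) : Prop := ∃ ρ : ℝ, 0 < ρ ∧ w = ρ * Complex.exp (θ * I)

theorem isArg_arg {w : ℂ} (hw : w ≠ 0) : IsArg (arg w) w :=
  ⟨‖w‖, norm_pos_iff.2 hw, (Complex.norm_mul_exp_arg_mul_I w).symm⟩

theorem IsArg.int {α β : ℝ} {w : ℂ} (h : IsArg α w) (h' : IsArg β w) :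
    ∃ n : ℤ, α - β = 2 * π * n := by
  obtain ⟨ρ, hρ, e⟩ := h
  obtain ⟨ρ', hρ', e'⟩ := h'
  exact int_of_exp hρ hρ' (e.symm.trans e')

theorem IsArg.turn {α β : ℝ} {w v : ℂ} (h : IsArg β w)
    (e : ∃ ρ : ℝ, 0 < ρ ∧ v = ρ * Complex.exp (α * I) * w) : IsArg (β + α) v := by
  obtain ⟨ρ, hρ, e⟩ := e
  obtain ⟨ρ', hρ', e'⟩ := h
  refine ⟨ρ * ρ', mul_pos hρ hρ', ?_⟩
  rw [e, e']
  push_cast
  rw [add_mul, Complex.exp_add]
  ring

theorem IsArg.neg {α : ℝ} {w : ℂ} (h : IsArg α w) : IsArg (α + π) (-w) := by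
  refine h.turn ⟨1, one_pos, ?_⟩
  rw [Complex.exp_pi_mul_I]
  simp

theorem IsArg.not_neg {α : ℝ} {w : ℂ} (h : IsArg α w) (h' : IsArg α (-w)) : False := by
  obtain ⟨ρ, hρ, e⟩ := h
  obtain ⟨ρ', hρ', e'⟩ := h'
  have h0 : ((ρ + ρ' : ℝ) : ℂ) * Complex.exp (α * I) = 0 := by
    push_cast
    linear_combination -e - e'
  rcases mul_eq_zero.1 h0 with h1 | h1
  · have : ρ + ρ' = 0 := by exact_mod_cast h1
    linarith
  · exact Complex.exp_ne_zero _ h1

/-- a continuous argument along a contraction -/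
theorem exists_lift {X : Type} [TopologicalSpace X] {F : X → ℝ → ℂ} {s : Set X}
    (hF : Continuous fun p : X × ℝ => F p.1 p.2)
    (h0 : ∀ x ∈ s, ∀ t ∈ Icc (0 : ℝ) 1, F x t ≠ 0) {θ₀ : ℝ} {w : ℂ} (hw : IsArg θ₀ w)
    (e0 : ∀ x ∈ s, F x 0 = w) :
    ∃ θ : X → ℝ, ContinuousOn θ s ∧ (∀ x ∈ s, IsArg (θ x) (F x 1)) ∧
      ∀ x ∈ s, (∀ t, F x t = w) → θ x = θ₀ := by
  have hu : uIcc (0 : ℝ) 1 = Icc 0 1 := uIcc_of_le zero_le_one
  have hok : ∀ x ∈ s, Ok (F x) 0 1 := fun x hx =>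
    ⟨(hF.comp (Continuous.prodMk_right x)).continuousOn, fun t ht => h0 x hx t (hu ▸ ht)⟩
  refine ⟨fun x => θ₀ + rot (F x) 0 1, ?_, ?_, ?_⟩
  · exact continuousOn_const.add
      (rot_cont hF.continuousOn fun x hx t ht => h0 x hx t (hu ▸ ht))
  · intro x hx
    have := rot_polar (hok x hx)
    rw [e0 x hx] at this
    exact hw.turn this
  · intro x hx hc
    have : rot (F x) 0 1 = θ₀ - θ₀ :=
      rot_arg (θ := fun _ => θ₀) (hok x hx) continuousOn_const fun t _ => by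
        rw [hc t]; exact hw
    simp only [this]
    ring

end FreeAux

open FreeAux in
theorem free2 {g g' : ℂ → ℂ} {R : ℝ} (hT : Top g g' R) {K : Set ℂ} (hK : IsPathConnected K)
    (hb : ∀ z ∈ K, ‖z‖ ≤ R - 10) (hf : ∀ x ∈ K, g x ∉ K) : ∀ x ∈ K, g (g x) ∉ K := by
  intro x hx hy
  have hg := hT.cont
  have hR : 10 ≤ R := by linarith [hb x hx, norm_nonneg x]
  -- the path from `g (g x)` to `x`
  obtain ⟨γ, hγ⟩ := hK.joinedIn _ hy _ hx
  set P : ℝ → ℂ := fun t => γ.extend t with hPdef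
  have hP : Continuous P := γ.continuous_extend
  have hP0 : P 0 = g (g x) := γ.extend_zero
  have hP1 : P 1 = x := γ.extend_one
  have hPK : ∀ t, P t ∈ K := fun t => by
    have : P t ∈ range γ := by
      rw [← γ.extend_range]
      exact mem_range_self t
    obtain ⟨u, hu⟩ := this
    rw [← hu]
    exact hγ u
  have hxn : ‖x‖ ≤ R - 10 := hb x hx
  have hgxn : ‖g x‖ ≤ R - 9 := by linarith [hT.norm_le x]
  -- the symmetric angle
  obtain ⟨A, hA⟩ := exists_A (r := R - 6) hg hT.near (by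
    intro a ha b hb' e
    rw [mem_closedBall_zero_iff] at ha hb'
    exact hT.inj (by linarith) (by linarith) e)
  -- the angle of the displacement
  obtain ⟨θ, hθc, hθa, -⟩ := exists_lift (X := ℂ) (F := fun z t => g (t * z) - t * z)
    (s := closedBall 0 R) (by fun_prop) (by
      intro z hz t ht
      rw [mem_closedBall_zero_iff] at hz
      refine sub_ne_zero.2 (hT.nofix _ ?_)
      rw [norm_mul, Complex.norm_real, Real.norm_of_nonneg ht.1]
      calc t * ‖z‖ ≤ 1 * ‖z‖ := mul_le_mul_of_nonneg_right ht.2 (norm_nonneg _)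
        _ ≤ R := by linarith)
    (isArg_arg (w := g 0 - 0) (sub_ne_zero.2 (hT.nofix 0 (by simp; linarith))))
    (by intro z _; simp)
  have hθ : ∀ z, ‖z‖ ≤ R → IsArg (θ z) (g z - z) := fun z hz => by
    simpa using hθa z (mem_closedBall_zero_iff.2 hz)
  have hPn : ∀ t, ‖P t‖ ≤ R - 10 := fun t => hb _ (hPK t)
  have hne : ∀ s t, g (P t) - P s ≠ 0 := fun s t e =>
    hf _ (hPK t) (by rw [sub_eq_zero.1 e]; exact hPK s)
  -- the angle on the square
  obtain ⟨Θ, hΘc, hΘa, hΘ0⟩ := exists_lift (X := ℝ × ℝ)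
    (F := fun p t => g (P (t * p.2)) - P (t * p.1)) (s := univ) (by fun_prop)
    (fun p _ t _ => hne _ _) (hθ (P 0) (by linarith [hPn 0])) (by intro p _; simp)
  have hΘ : ∀ s t, IsArg (Θ (s, t)) (g (P t) - P s) := fun s t => by
    simpa using hΘa (s, t) (mem_univ _)
  have hΘc' : Continuous Θ := continuousOn_univ.1 hΘc
  have hΘ00 : Θ (0, 0) = θ (P 0) := hΘ0 (0, 0) (mem_univ _) (by intro t; simp)
  -- first constant
  have h1 : ∀ z ∈ closedBall (0 : ℂ) (R - 8), ∀ z' ∈ closedBall (0 : ℂ) (R - 8),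
      θ z + A z (g z) - θ (g z) = θ z' + A z' (g z') - θ (g z') := by
    have hn : ∀ z ∈ closedBall (0 : ℂ) (R - 8), ‖z‖ ≤ R - 8 ∧ ‖g z‖ ≤ R - 7 := fun z hz => by
      rw [mem_closedBall_zero_iff] at hz
      exact ⟨hz, by linarith [hT.norm_le z]⟩
    refine int_const (F := fun z => θ z + A z (g z) - θ (g z))
      (convex_closedBall _ _).isPreconnected ?_ ?_
    · refine ((hθc.mono (closedBall_subset_closedBall (by linarith))).add ?_).sub ?_
      · refine hA.cont.comp (f := fun z => (z, g z)) (by fun_prop) ?_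
        intro z hz
        obtain ⟨a, b⟩ := hn z hz
        exact ⟨(hT.nofix z (by linarith)).symm, by show ‖z‖ ≤ _; linarith,
          by show ‖g z‖ ≤ _; linarith⟩
      · refine hθc.comp hg.continuousOn ?_
        intro z hz
        exact mem_closedBall_zero_iff.2 (by linarith [(hn z hz).2])
    · intro z hz
      obtain ⟨a, b⟩ := hn z hz
      refine IsArg.int (w := g (g z) - g z) ?_ (hθ _ (by linarith))
      refine (hθ z (by linarith)).turn ?_
      obtain ⟨ρ, hρ, e⟩ := hA.lift z (g z) (hT.nofix z (by linarith)).symm (by linarith)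
        (by linarith)
      exact ⟨ρ, hρ, by linear_combination -e⟩
  -- the diagonal
  have h2 : Θ (1, 1) = θ x := by
    have := int_const (F := fun s : ℝ => Θ (s, s) - θ (P s)) (s := univ) isPreconnected_univ
      (((hΘc'.comp (by fun_prop)).continuousOn).sub (hθc.comp hP.continuousOn fun s _ =>
        mem_closedBall_zero_iff.2 (by linarith [hPn s])))
      (fun s _ => (hΘ s s).int (hθ _ (by linarith [hPn s]))) 1 (mem_univ _) 0 (mem_univ _)
    simp only [hΘ00, hP1] at this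
    linarith
  -- second constant
  have hPx : ∀ s, P s ≠ g x := fun s e => hf x hx (e ▸ hPK s)
  have h3 : Θ (1, 1) + π + A (P 1) (g x) - Θ (0, 1) = Θ (0, 1) + π + A (P 0) (g x) - Θ (0, 0) := by
    refine int_const (F := fun s : ℝ => Θ (s, 1) + π + A (P s) (g x) - Θ (0, s)) (s := univ)
      isPreconnected_univ ?_ ?_ 1 (mem_univ _) 0 (mem_univ _)
    · refine ((((hΘc'.comp (by fun_prop)).continuousOn).add continuousOn_const).add ?_).sub
        (hΘc'.comp (by fun_prop)).continuousOn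
      refine hA.cont.comp (f := fun s => (P s, g x)) (by fun_prop) ?_
      intro s _
      exact ⟨hPx s, by show ‖P s‖ ≤ _; linarith [hPn s], by show ‖g x‖ ≤ _; linarith⟩
    · intro s _
      refine IsArg.int (w := g (P s) - P 0) ?_ (hΘ 0 s)
      refine (hΘ s 1).neg.turn ?_
      obtain ⟨ρ, hρ, e⟩ := hA.lift (P s) (g x) (hPx s) (by linarith [hPn s]) (by linarith)
      refine ⟨ρ, hρ, ?_⟩
      rw [hP0, hP1]
      linear_combination e
  have hsym : A (P 0) (g x) = A (g x) (g (g x)) := by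
    rw [hA.symm _ _ (hPx 0) (by linarith [hPn 0]) (by linarith), hP0]
  have h4 := h1 x (mem_closedBall_zero_iff.2 (by linarith)) (g x)
    (mem_closedBall_zero_iff.2 (by linarith))
  rw [hsym, hΘ00, h2, hP0, hP1] at h3
  have h5 : Θ (0, 1) = θ (g x) := by linarith
  have h6 := hΘ 0 1
  rw [h5, hP0, hP1] at h6
  refine (hθ (g x) (by linarith)).not_neg ?_
  rwa [neg_sub]

end Pool.Agent.Lib.MP_399f8e_an.Ur
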