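import Pool.Agent.Lib.MP_399f8e_an.Ur.Free

open Set Filter Topology Metric Complex
open scoped Real
open Pool.Agent.Lib.MP_399f8e_an.Rg

noncomputable section

namespace Pool.Agent.Lib.MP_399f8e_an.Ur

namespace LineAux

/-- five consecutive images of the arc `k` -/
def ext5 (g g' : ℂ → ℂ) (k : ℝ → ℂ) (l t : ℝ) : ℂ :=
  if t ≤ -l then g' (g' (k (t + 2 * l))) else if t ≤ 0 then g' (k (t + l)) else
    if t ≤ l then k t else if t ≤ 2 * l then g (k (t - l)) else g (g (k (t - 2 * l)))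

variable {g g' : ℂ → ℂ} {R l : ℝ} {k : ℝ → ℂ}

theorem extA {t : ℝ} (ht : t ≤ -l) : ext5 g g' k l t = g' (g' (k (t + 2 * l))) := by
  simp only [ext5, if_pos ht]

theorem extB (h0 : g' (k l) = k 0) {t : ℝ} (h1 : -l ≤ t) (h2 : t ≤ 0) :
    ext5 g g' k l t = g' (k (t + l)) := by
  unfold ext5
  by_cases h : t ≤ -l
  · have e : t = -l := le_antisymm h h1
    rw [if_pos h, e, show -l + 2 * l = l by ring, h0, neg_add_cancel]
  · rw [if_neg h, if_pos h2]

theorem extC (hl : 0 < l) (h0 : g' (k l) = k 0) {t : ℝ} (h1 : 0 ≤ t) (h2 : t ≤ l) :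
    ext5 g g' k l t = k t := by
  unfold ext5
  rw [if_neg (by linarith)]
  by_cases h : t ≤ 0
  · have e : t = 0 := le_antisymm h h1
    rw [if_pos h, e, zero_add, h0]
  · rw [if_neg h, if_pos h2]

theorem extD (hl : 0 < l) (h0 : k l = g (k 0)) {t : ℝ} (h1 : l ≤ t) (h2 : t ≤ 2 * l) :
    ext5 g g' k l t = g (k (t - l)) := by
  unfold ext5
  rw [if_neg (by linarith), if_neg (by linarith)]
  by_cases h : t ≤ l
  · have e : t = l := le_antisymm h h1
    rw [if_pos h, e, sub_self, h0]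
  · rw [if_neg h, if_pos h2]

theorem extE (hl : 0 < l) (h0 : k l = g (k 0)) {t : ℝ} (h1 : 2 * l ≤ t) :
    ext5 g g' k l t = g (g (k (t - 2 * l))) := by
  unfold ext5
  rw [if_neg (by linarith), if_neg (by linarith), if_neg (by linarith)]
  by_cases h : t ≤ 2 * l
  · have e : t = 2 * l := le_antisymm h h1
    rw [if_pos h, e, sub_self, show 2 * l - l = l by ring, h0]
  · rw [if_neg h]

theorem ext_cont (hg : Continuous g) (hg' : Continuous g') (hk : Continuous k) (hl : 0 < l)
    (h0 : k l = g (k 0)) (h0' : g' (k l) = k 0) : Continuous (ext5 g g' k l) := by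
  unfold ext5
  refine Continuous.if_le (by fun_prop) ?_ continuous_id continuous_const ?_
  · refine Continuous.if_le (by fun_prop) ?_ continuous_id continuous_const ?_
    · refine Continuous.if_le hk ?_ continuous_id continuous_const ?_
      · refine Continuous.if_le (by fun_prop) (by fun_prop) continuous_id continuous_const ?_
        intro t ht
        have e : t = 2 * l := ht
        rw [e, sub_self, show 2 * l - l = l by ring, h0]
      · intro t ht
        have e : t = l := ht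
        rw [e, if_pos (by linarith), sub_self, h0]
    · intro t ht
      have e : t = 0 := ht
      rw [e, if_pos hl.le, zero_add, h0']
  · intro t ht
    have e : t = -l := ht
    rw [e, if_pos (by linarith), show -l + 2 * l = l by ring, h0', neg_add_cancel]

theorem arc_two (hT : Top g g' R) (hk : Arc g k l) (hb : ∀ p ∈ Icc 0 l, ‖k p‖ ≤ R - 10)
    {a b : ℝ} (ha : 0 ≤ a) (hb' : b ≤ l) (hab : 0 < a ∨ b < l) {x y : ℝ} (hx : x ∈ Icc a b)
    (hy : y ∈ Icc a b) : g (g (k x)) ≠ k y := by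
  have hsub : Icc a b ⊆ Icc 0 l := Icc_subset_Icc ha hb'
  have hK : IsPathConnected (k '' Icc a b) :=
    ((convex_Icc a b).isPathConnected ⟨x, hx⟩).image hk.cont
  have h2 := free2 hT hK (by
    rintro _ ⟨p, hp, rfl⟩
    exact hb p (hsub hp)) (by
    rintro _ ⟨p, hp, rfl⟩ ⟨q, hq, e⟩
    obtain ⟨e1, e2⟩ := hk.free p (hsub hp) q (hsub hq) e.symm
    rcases hab with h | h
    · linarith [hp.1]
    · linarith [hq.2])
  intro e
  exact h2 (k x) ⟨x, hx, rfl⟩ ⟨y, hy, e.symm⟩

end LineAux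

open LineAux in
theorem exists_line {g g' : ℂ → ℂ} {R r l : ℝ} {k : ℝ → ℂ} (hT : Top g g' R) (hk : Arc g k l)
    (hb : ∀ p ∈ Icc 0 l, ‖k p‖ ≤ r) (hr : r + 20 ≤ R) :
    ∃ L, Line g L l (r + 2) ∧ ∀ p ∈ Icc 0 l, L p = k p := by
  have hl := hk.pos
  have h0 := hk.last
  have h0' : g' (k l) = k 0 := by
    rw [h0]
    exact hT.inv _ (by linarith [hb 0 ⟨le_rfl, hl.le⟩])
  obtain ⟨L, hL⟩ : ∃ L, L = ext5 g g' k l := ⟨_, rfl⟩
  have eA : ∀ t, t ≤ -l → L t = g' (g' (k (t + 2 * l))) := fun t h => hL ▸ extA h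
  have eB : ∀ t, -l ≤ t → t ≤ 0 → L t = g' (k (t + l)) := fun t h h' => hL ▸ extB h0' h h'
  have eC : ∀ t, 0 ≤ t → t ≤ l → L t = k t := fun t h h' => hL ▸ extC hl h0' h h'
  have eD : ∀ t, l ≤ t → t ≤ 2 * l → L t = g (k (t - l)) := fun t h h' => hL ▸ extD hl h0 h h'
  have eE : ∀ t, 2 * l ≤ t → L t = g (g (k (t - 2 * l))) := fun t h => hL ▸ extE hl h0 h
  have per : ∀ t ∈ Icc (-2 * l) (2 * l), L (t + l) = g (L t) := by
    rintro t ⟨t1, t2⟩
    rcases le_total t (-l) with h1 | h1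
    · have b1 := hb (t + 2 * l) ⟨by linarith, by linarith⟩
      have b2 := hT.symm.norm_le (k (t + 2 * l))
      rw [eA t h1, eB (t + l) (by linarith) (by linarith), hT.inv' _ (by linarith),
        show t + l + l = t + 2 * l by ring]
    rcases le_total t 0 with h2 | h2
    · have b1 := hb (t + l) ⟨by linarith, by linarith⟩
      rw [eB t h1 h2, eC (t + l) (by linarith) (by linarith), hT.inv' _ (by linarith)]
    rcases le_total t l with h3 | h3
    · rw [eC t h2 h3, eD (t + l) (by linarith) (by linarith), add_sub_cancel_right]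
    · rw [eD t h3 t2, eE (t + l) (by linarith), show t + l - 2 * l = t - l by ring]
  have bd : ∀ t ∈ Icc (-2 * l) (3 * l), ‖L t‖ ≤ r + 2 := by
    rintro t ⟨t1, t2⟩
    rcases le_total t (-l) with h1 | h1
    · have b1 := hb (t + 2 * l) ⟨by linarith, by linarith⟩
      have b2 := hT.symm.norm_le (k (t + 2 * l))
      have b3 := hT.symm.norm_le (g' (k (t + 2 * l)))
      rw [eA t h1]
      linarith
    rcases le_total t 0 with h2 | h2
    · have b1 := hb (t + l) ⟨by linarith, by linarith⟩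
      have b2 := hT.symm.norm_le (k (t + l))
      rw [eB t h1 h2]
      linarith
    rcases le_total t l with h3 | h3
    · have b1 := hb t ⟨h2, h3⟩
      rw [eC t h2 h3]
      linarith
    rcases le_total t (2 * l) with h4 | h4
    · have b1 := hb (t - l) ⟨by linarith, by linarith⟩
      have b2 := hT.norm_le (k (t - l))
      rw [eD t h3 h4]
      linarith
    · have b1 := hb (t - 2 * l) ⟨by linarith, by linarith⟩
      have b2 := hT.norm_le (k (t - 2 * l))
      have b3 := hT.norm_le (g (k (t - 2 * l)))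
      rw [eE t h4]
      linarith
  have key : ∀ s t, 0 ≤ s → s < l → s < t → t ≤ 3 * l → (t < 3 * l ∨ 0 < s) → L s ≠ L t := by
    intro s t s0 s1 st t3 hor e
    rw [eC s s0 s1.le] at e
    rcases le_total t l with h1 | h1
    · rw [eC t (by linarith) h1] at e
      have := hk.inj ⟨s0, s1.le⟩ ⟨by linarith, h1⟩ e
      linarith
    rcases le_total t (2 * l) with h2 | h2
    · rw [eD t h1 h2] at e
      have := (hk.free (t - l) ⟨by linarith, by linarith⟩ s ⟨s0, s1.le⟩ e.symm).2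
      linarith
    rw [eE t h2] at e
    have hb' : ∀ p ∈ Icc 0 l, ‖k p‖ ≤ R - 10 := fun p hp => by linarith [hb p hp]
    rcases lt_or_eq_of_le t3 with h3 | h3
    · refine arc_two hT hk hb' (a := 0) (b := max s (t - 2 * l)) le_rfl
        (max_le s1.le (by linarith)) (Or.inr (max_lt s1 (by linarith)))
        ⟨by linarith, le_max_right _ _⟩ ⟨s0, le_max_left _ _⟩ e.symm
    · have s0' : 0 < s := by
        rcases hor with h | h
        · linarith
        · exact h
      refine arc_two hT hk hb' (a := s) (b := l) s0 le_rfl (Or.inl s0')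
        ⟨by linarith, by linarith⟩ ⟨le_rfl, s1.le⟩ e.symm
  have up : ∀ s t, -2 * l ≤ s → s < t → t ≤ 2 * l → L s = L t → L (s + l) = L (t + l) := by
    intro s t h1 h2 h3 e
    rw [per s ⟨h1, by linarith⟩, per t ⟨by linarith, h3⟩, e]
  have down : ∀ s t, -l ≤ s → s < t → t ≤ 3 * l → L s = L t → L (s - l) = L (t - l) := by
    intro s t h1 h2 h3 e
    have p1 := per (s - l) ⟨by linarith, by linarith⟩
    have p2 := per (t - l) ⟨by linarith, by linarith⟩
    rw [sub_add_cancel] at p1 p2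
    have b1 := bd (s - l) ⟨by linarith, by linarith⟩
    have b2 := bd (t - l) ⟨by linarith, by linarith⟩
    exact hT.inj (by linarith) (by linarith) (by rw [← p1, ← p2, e])
  have two : ∀ s t, -2 * l ≤ s → s < t → t ≤ 3 * l → t - s ≤ 2 * l → L s ≠ L t := by
    intro s t h1 h2 h3 h4 e
    rcases lt_or_ge s (-l) with c1 | c1
    · have e1 := up s t h1 h2 (by linarith) e
      have e2 := up _ _ (by linarith) (by linarith) (by linarith) e1
      exact key _ _ (by linarith) (by linarith) (by linarith) (by linarith)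
        (Or.inl (by linarith)) e2
    rcases lt_or_ge s 0 with c2 | c2
    · have e1 := up s t h1 h2 (by linarith) e
      exact key _ _ (by linarith) (by linarith) (by linarith) (by linarith)
        (Or.inl (by linarith)) e1
    rcases lt_or_ge s l with c3 | c3
    · exact key _ _ c2 c3 h2 h3 (Or.inl (by linarith)) e
    rcases lt_or_ge s (2 * l) with c4 | c4
    · have e1 := down s t c1 h2 h3 e
      exact key _ _ (by linarith) (by linarith) (by linarith) (by linarith)
        (Or.inl (by linarith)) e1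
    · have e1 := down s t c1 h2 h3 e
      have e2 := down _ _ (by linarith) (by linarith) (by linarith) e1
      exact key _ _ (by linarith) (by linarith) (by linarith) (by linarith)
        (Or.inl (by linarith)) e2
  have three : ∀ s t, -l ≤ s → s < t → t ≤ 2 * l → t - s < 3 * l → L s ≠ L t := by
    intro s t h1 h2 h3 h4 e
    rcases lt_or_ge s 0 with c2 | c2
    · have e1 := up s t (by linarith) h2 h3 e
      refine key _ _ (by linarith) (by linarith) (by linarith) (by linarith) ?_ e1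
      rcases lt_or_eq_of_le h3 with h | h
      · exact Or.inl (by linarith)
      · exact Or.inr (by linarith)
    · exact two s t (by linarith) h2 (by linarith) (by linarith) e
  refine ⟨L, ⟨hL ▸ ext_cont hT.cont hT.cont' hk.cont hl h0 h0', hl, per, bd, ?_, ?_⟩,
    fun p hp => eC p hp.1 hp.2⟩
  · rintro s ⟨s1, s2⟩ t ⟨t1, t2⟩ hst e
    obtain ⟨a1, a2⟩ := abs_le.1 hst
    rcases lt_trichotomy s t with h | h | h
    · exact absurd e (two s t s1 h t2 (by linarith))
    · exact h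
    · exact absurd e.symm (two t s t1 h s2 a2)
  · rintro s ⟨s1, s2⟩ t ⟨t1, t2⟩ hst e
    obtain ⟨a1, a2⟩ := abs_lt.1 hst
    rcases lt_trichotomy s t with h | h | h
    · exact absurd e (three s t s1 h t2 (by linarith))
    · exact h
    · exact absurd e.symm (three t s t1 h s2 a2)

theorem Line.mirror {g g' : ℂ → ℂ} {R r l : ℝ} {L : ℝ → ℂ} (hT : Top g g' R) (hL : Line g L l r)
    (hr : r ≤ R) : Line g' (fun t => L (l - t)) l r := by
  have hl := hL.pos
  refine ⟨hL.cont.comp (continuous_const.sub continuous_id), hl, ?_, ?_, ?_, ?_⟩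
  · rintro t ⟨t1, t2⟩
    have p := hL.per (-t) ⟨by linarith, by linarith⟩
    have b := hL.bd (-t) ⟨by linarith, by linarith⟩
    show L (l - (t + l)) = g' (L (l - t))
    rw [show l - (t + l) = -t by ring, show l - t = -t + l by ring, p, hT.inv _ (by linarith)]
  · rintro t ⟨t1, t2⟩
    exact hL.bd (l - t) ⟨by linarith, by linarith⟩
  · rintro s ⟨s1, s2⟩ t ⟨t1, t2⟩ hst e
    have := hL.inj2 (l - s) ⟨by linarith, by linarith⟩ (l - t) ⟨by linarith, by linarith⟩
      (by rw [show l - s - (l - t) = -(s - t) by ring, abs_neg]; exact hst) e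
    linarith
  · rintro s ⟨s1, s2⟩ t ⟨t1, t2⟩ hst e
    have := hL.inj3 (l - s) ⟨by linarith, by linarith⟩ (l - t) ⟨by linarith, by linarith⟩
      (by rw [show l - s - (l - t) = -(s - t) by ring, abs_neg]; exact hst) e
    linarith

theorem Fst.mirror {g g' : ℂ → ℂ} {R r l s u : ℝ} {L σ : ℝ → ℂ} (hT : Top g g' R)
    (hF : Fst g L l s σ u r) (hr : r ≤ R) : Fst g' (fun t => L (l - t)) l (l - s) σ u r := by
  obtain ⟨s0, s1⟩ := hF.hs
  refine ⟨hF.cont, hF.pos, ⟨by linarith, by linarith⟩, ?_, hF.inj, hF.bd, ?_, ?_⟩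
  · show σ 0 = L (l - (l - s))
    rw [sub_sub_cancel, hF.start]
  · rintro x hx p ⟨p1, p2⟩
    exact hF.first x hx (l - p) ⟨by linarith, by linarith⟩
  · intro x hx y hy e
    have b := hF.bd y ⟨hy.1, hy.2.le⟩
    refine hF.free y hy x hx ?_
    rw [e, hT.inv' _ (by linarith)]

theorem Arc.mirror {g g' : ℂ → ℂ} {R l : ℝ} {k : ℝ → ℂ} (hT : Top g g' R) (hk : Arc g' k l)
    (hb : ∀ p ∈ Icc 0 l, ‖k p‖ ≤ R) : Arc g (fun t => k (l - t)) l := by
  have hl := hk.pos
  refine ⟨hk.cont.comp (continuous_const.sub continuous_id), hl, ?_, ?_, ?_⟩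
  · rintro s ⟨s1, s2⟩ t ⟨t1, t2⟩ e
    have := hk.inj (x₁ := l - s) ⟨by linarith, by linarith⟩ (x₂ := l - t)
      ⟨by linarith, by linarith⟩ e
    linarith
  · show k (l - l) = g (k (l - 0))
    rw [sub_self, sub_zero, hk.last, hT.inv' _ (hb 0 ⟨le_rfl, hl.le⟩)]
  · rintro s ⟨s1, s2⟩ t ⟨t1, t2⟩ e
    have e' : g (k (l - s)) = k (l - t) := e
    have hs : l - s ∈ Icc 0 l := ⟨by linarith, by linarith⟩
    have ht : l - t ∈ Icc 0 l := ⟨by linarith, by linarith⟩
    obtain ⟨a1, a2⟩ := hk.free (l - t) ht (l - s) hs (by rw [← e', hT.inv _ (hb _ hs)])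
    exact ⟨by linarith, by linarith⟩

theorem sigma_star {g g' : ℂ → ℂ} {R r l s u : ℝ} {L σ : ℝ → ℂ} (hT : Top g g' R)
    (hL : Line g L l r) (hF : Fst g L l s σ u r) (hr : r + 10 ≤ R) :
    ∀ v ∈ Ico 0 u, ∀ p ∈ Icc (-2 * l) (3 * l), σ v = L p → v = 0 ∧ p = s := by
  have hl := hL.pos
  obtain ⟨s0, s1⟩ := hF.hs
  have mid : ∀ v ∈ Ico 0 u, ∀ p ∈ Icc (-l) (2 * l), σ v = L p → v = 0 ∧ p = s := by
    rintro v ⟨v0, v1⟩ p ⟨p1, p2⟩ e
    rcases lt_or_eq_of_le v0 with h | h
    · exact absurd e (hF.first v ⟨h, v1⟩ p ⟨p1, p2⟩)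
    · refine ⟨h.symm, ?_⟩
      rw [← h, hF.start] at e
      exact (hL.inj2 s ⟨by linarith, by linarith⟩ p ⟨by linarith, by linarith⟩
        (abs_le.2 ⟨by linarith, by linarith⟩) e).symm
  have main : ∀ v ∈ Ico 0 u, ∀ q ∈ Icc 0 l, ∀ x ∈ L '' uIcc q s ∪ σ '' Icc 0 v,
      g (g x) ∉ L '' uIcc q s ∪ σ '' Icc 0 v := by
    rintro v ⟨v0, v1⟩ q ⟨q0, q1⟩
    have hin : ∀ a ∈ uIcc q s, 0 ≤ a ∧ a ≤ l := by
      intro a ha
      rcases mem_uIcc.1 ha with h | h
      · exact ⟨by linarith [h.1], by linarith [h.2]⟩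
      · exact ⟨by linarith [h.1], by linarith [h.2]⟩
    have hlt : ∀ a ∈ uIcc q s, ∀ b ∈ uIcc q s, b < a + l := by
      intro a ha b hb
      rcases mem_uIcc.1 ha with h | h <;> rcases mem_uIcc.1 hb with h' | h' <;>
        linarith [h.1, h.2, h'.1, h'.2]
    have hy : ∀ y ∈ Icc 0 v, y ∈ Ico 0 u := fun y hy => ⟨hy.1, lt_of_le_of_lt hy.2 v1⟩
    have c1 : IsPathConnected (L '' uIcc q s) :=
      ((convex_uIcc q s).isPathConnected ⟨s, right_mem_uIcc⟩).image hL.cont
    have c2 : IsPathConnected (σ '' Icc 0 v) :=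
      ((convex_Icc 0 v).isPathConnected ⟨0, le_rfl, v0⟩).image hF.cont
    refine free2 hT (c1.union c2 ⟨L s, ⟨s, right_mem_uIcc, rfl⟩, ⟨0, ⟨le_rfl, v0⟩, hF.start⟩⟩)
      ?_ ?_
    · rintro _ (⟨a, ha, rfl⟩ | ⟨y, hy', rfl⟩)
      · obtain ⟨a0, a1⟩ := hin a ha
        linarith [hL.bd a ⟨by linarith, by linarith⟩]
      · linarith [hF.bd y ⟨hy'.1, (hy y hy').2.le⟩]
    · rintro _ (⟨a, ha, rfl⟩ | ⟨y, hy', rfl⟩) (⟨b, hb, e⟩ | ⟨y', hy'', e⟩)
      · obtain ⟨a0, a1⟩ := hin a ha
        obtain ⟨b0, b1⟩ := hin b hb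
        rw [← hL.per a ⟨by linarith, by linarith⟩] at e
        have := hL.inj2 b ⟨by linarith, by linarith⟩ (a + l) ⟨by linarith, by linarith⟩
          (abs_le.2 ⟨by linarith, by linarith⟩) e
        linarith [hlt a ha b hb]
      · obtain ⟨a0, a1⟩ := hin a ha
        rw [← hL.per a ⟨by linarith, by linarith⟩] at e
        have := (mid y' (hy y' hy'') (a + l) ⟨by linarith, by linarith⟩ e).2
        linarith
      · obtain ⟨b0, b1⟩ := hin b hb
        have p1 := hL.per (b - l) ⟨by linarith, by linarith⟩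
        rw [sub_add_cancel] at p1
        have b2 := hL.bd (b - l) ⟨by linarith, by linarith⟩
        have b3 := hF.bd y ⟨hy'.1, (hy y hy').2.le⟩
        have e' : σ y = L (b - l) := hT.inj (by linarith) (by linarith) (by rw [← p1, e])
        have := (mid y (hy y hy') (b - l) ⟨by linarith, by linarith⟩ e').2
        linarith
      · exact hF.free y' (hy y' hy'') y (hy y hy') e
  rintro v hv p ⟨p1, p2⟩ e
  rcases lt_or_ge p (-l) with h1 | h1
  · exfalso
    have q1 := hL.per p ⟨p1, by linarith⟩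
    have q2 := hL.per (p + l) ⟨by linarith, by linarith⟩
    refine main v hv (p + l + l) ⟨by linarith, by linarith⟩ (σ v)
      (Or.inr ⟨v, ⟨hv.1, le_rfl⟩, rfl⟩) (Or.inl ⟨p + l + l, left_mem_uIcc, ?_⟩)
    rw [q2, q1, e]
  rcases le_or_gt p (2 * l) with h2 | h2
  · exact mid v hv p ⟨h1, h2⟩ e
  · exfalso
    have q1 := hL.per (p - l - l) ⟨by linarith, by linarith⟩
    have q2 := hL.per (p - l) ⟨by linarith, by linarith⟩
    rw [sub_add_cancel] at q1 q2
    refine main v hv (p - l - l) ⟨by linarith, by linarith⟩ (L (p - l - l))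
      (Or.inl ⟨p - l - l, left_mem_uIcc, rfl⟩) (Or.inr ⟨v, ⟨hv.1, le_rfl⟩, ?_⟩)
    rw [e, q2, q1]

end Pool.Agent.Lib.MP_399f8e_an.Ur
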