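import Pool.Agent.Lib.MP_399f8e_an.Ur.Tame
import Pool.Agent.Lib.MP_399f8e_an.Ur.Line
import Pool.Agent.Lib.MP_399f8e_an.Ur.Nest
import Pool.Agent.Lib.MP_399f8e_an.Ur.Jump

open Set Filter Topology Metric Complex
open scoped Real
open Pool.Agent.Lib.MP_399f8e_an.Rg

noncomputable section

namespace Pool.Agent.Lib.MP_399f8e_an.Ur

namespace GainAux

theorem near {g g' : ℂ → ℂ} {R r l s s₁ u e : ℝ} {L σ κ β : ℝ → ℂ} {v d D : ℂ}
    {l' b c : ℝ} {J U V K : Set ℂ} {w rest : ℂ → ℝ} (hT : Top g g' R) (hL : Line g L l r)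
    (hF : Fst g L l s σ u r) (h : Res g L l s s₁ σ u κ l' β b J U V K w rest c)
    (he : 0 < e) (hout : Seg L s s₁ v D e)
    (hray : ∀ x ∈ Icc (0 : ℝ) e, σ x = v + x * (I * d)) :
    ∃ ρ : ℝ, 0 < ρ ∧ ∀ z ∈ K, ‖z - v‖ < ρ → ∃ x : ℝ, 0 ≤ x ∧ z = v + x * (I * d) := by
  obtain ⟨B, hK, hB⟩ := h.Ksub
  have hs := hF.hs
  have hl := hL.pos
  have hv : σ 0 = v := hF.start.trans hout.fst
  have hBc : IsCompact B ∧ v ∉ B := by
    rcases hB with rfl | ⟨y, hy, -, rfl⟩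
    · exact ⟨isCompact_empty, notMem_empty _⟩
    · refine ⟨isCompact_Icc.image (hT.cont.comp hF.cont), ?_⟩
      rintro ⟨x, hx, hx'⟩
      exact hF.free 0 ⟨le_rfl, hF.pos⟩ x ⟨hx.1, hx.2.trans_lt hy.2⟩ (hv.trans hx'.symm)
  have hC : IsClosed (L '' Icc s₁ (s + l) ∪ σ '' Icc e u ∪ B) :=
    (((isCompact_Icc.image hL.cont).union (isCompact_Icc.image hF.cont)).union hBc.1).isClosed
  have hvC : v ∈ (L '' Icc s₁ (s + l) ∪ σ '' Icc e u ∪ B)ᶜ := by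
    rintro ((⟨p, hp, hp'⟩ | ⟨x, hx, hx'⟩) | hb)
    · have h1 := hout.lt
      have h2 := hL.inj2 p ⟨by linarith [hp.1, hs.1], by linarith [hp.2, hs.2]⟩ s
        ⟨by linarith [hs.1], by linarith [hs.2]⟩
        (abs_le.2 ⟨by linarith [hp.1], by linarith [hp.2]⟩) (hp'.trans hout.fst.symm)
      linarith [hp.1]
    · have h2 := hF.inj ⟨he.le.trans hx.1, hx.2⟩ ⟨le_rfl, hF.pos.le⟩ (hx'.trans hv.symm)
      linarith [hx.1]
    · exact hBc.2 hb
  obtain ⟨ρ, hρ, hb⟩ := Metric.isOpen_iff.1 hC.isOpen_compl v hvC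
  refine ⟨ρ, hρ, fun z hz hzρ => ?_⟩
  have hzC := hb (mem_ball_iff_norm.2 hzρ)
  rcases hK hz with (h1 | ⟨x, hx, rfl⟩) | h1
  · exact (hzC (Or.inl (Or.inl h1))).elim
  · rcases le_total x e with h2 | h2
    · exact ⟨x, hx.1, hray x ⟨hx.1, h2⟩⟩
    · exact (hzC (Or.inl (Or.inr ⟨x, ⟨h2, hx.2⟩, rfl⟩))).elim
  · exact (hzC (Or.inr h1)).elim

theorem incoming {L : ℝ → ℂ} {l s₀ s e ρ : ℝ} {v a D : ℂ} {V : Set ℂ} (hL : Continuous L)
    (hv : L s = v) (hρ : 0 < ρ) (hs : s - l ≤ s₀) (hb : L '' Ico (s - l) s ⊆ V)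
    (hin : Seg L s₀ s a D e) :
    ∃ y : ℝ, 0 ≤ y ∧ v - y * D ∈ V ∧ ‖v - y * D - v‖ < ρ := by
  have h1 : ∀ᶠ p in 𝓝 s, L p ∈ ball v ρ :=
    hL.continuousAt.eventually (isOpen_ball.mem_nhds (hv ▸ mem_ball_self hρ))
  obtain ⟨p, hp, hp'⟩ := ((h1.filter_mono (nhdsWithin_le_nhds (s := Iio s))).and
    (Ioo_mem_nhdsLT hin.lt)).exists
  obtain ⟨x, hx, hx'⟩ := hin.mem p ⟨hp'.1.le, hp'.2.le⟩
  have h2 : L p = v - ((e - x : ℝ) : ℂ) * D := by
    rw [hx', ← hv, hin.snd]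
    push_cast
    ring
  refine ⟨e - x, sub_nonneg.2 hx.2, h2 ▸ hb ⟨p, ⟨hs.trans hp'.1.le, hp'.2⟩, rfl⟩, ?_⟩
  rw [← h2]
  exact mem_ball_iff_norm.1 hp

theorem side {J U V : Set ℂ} (hJ : Jor J U V) {v D q : ℂ} {ρ : ℝ} (hD : D ≠ 0)
    (h1 : ∀ z ∈ J, ‖z - v‖ < ρ → 0 ≤ ((z - v) / D).im) (hq : q ∈ V) (hq' : ‖q - v‖ < ρ)
    (hq'' : ((q - v) / D).im ≤ 0) : ∀ z, ‖z - v‖ < ρ → ((z - v) / D).im < 0 → z ∈ V := by
  have hlin : IsLinearMap ℝ fun z : ℂ => (z / D).im :=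
    ⟨fun x y => by rw [add_div, add_im], fun a x => by
      rw [real_smul, mul_div_assoc, im_ofReal_mul, smul_eq_mul]⟩
  have hiff : ∀ z : ℂ, (z / D).im < (v / D).im ↔ ((z - v) / D).im < 0 := fun z => by
    rw [sub_div, sub_im, sub_neg]
  have hc : IsPreconnected (ball v ρ ∩ {z : ℂ | (z / D).im < (v / D).im}) :=
    ((convex_ball v ρ).inter (convex_halfSpace_lt hlin _)).isPreconnected
  have hf : Continuous fun t : ℝ => q - t * (I * D) := by fun_prop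
  have h2 : ∀ᶠ t : ℝ in 𝓝 0, q - t * (I * D) ∈ V ∩ ball v ρ :=
    hf.continuousAt.eventually ((hJ.oV.inter isOpen_ball).mem_nhds (by
      simpa using ⟨hq, mem_ball_iff_norm.2 hq'⟩))
  obtain ⟨t, ht, ht'⟩ := ((h2.filter_mono (nhdsWithin_le_nhds (s := Ioi 0))).and
    self_mem_nhdsWithin).exists
  have h3 : ((q - t * (I * D) - v) / D).im < 0 := by
    have : (q - t * (I * D) - v) / D = (q - v) / D - t * I := by
      field_simp
      ring
    rw [this, sub_im, im_ofReal_mul, I_im]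
    have : (0 : ℝ) < t := ht'
    linarith
  intro z hz hz'
  exact hJ.sub_V hc (fun y hy hyJ =>
    absurd (h1 y hyJ (mem_ball_iff_norm.1 hy.1)) (not_le.2 ((hiff y).1 hy.2)))
    ⟨_, ⟨ht.2, (hiff _).2 h3⟩, ht.1⟩ ⟨mem_ball_iff_norm.2 hz, (hiff z).2 hz'⟩

end GainAux

theorem gain_dir {g g' : ℂ → ℂ} {R r l s₀ s s₁ u e γ : ℝ} {L σ κ β : ℝ → ℂ} {v d d₀ : ℂ}
    {l' b c : ℝ} {J U V K : Set ℂ} {w rest : ℂ → ℝ} (hT : Top g g' R) (hL : Line g L l r)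
    (hF : Fst g L l s σ u r) (hr : r + 20 ≤ R) (h : Res g L l s s₁ σ u κ l' β b J U V K w rest c)
    (he : 0 < e) (hd : ‖d‖ = 1) (h₀ : 0 ≤ s₀) (h₁ : s₁ ≤ l) (hout : Seg L s s₁ v d e)
    (hin : Seg L s₀ s (v - e * d₀) d₀ e) (hturn : d₀ = d ∨ d₀ = I * d)
    (hray : ∀ x ∈ Icc (0 : ℝ) e, σ x = v + x * (I * d)) (hγ : 0 < γ)
    (hKγ : ∀ z ∈ K, γ ≤ ‖z - (v + e / 2 * d)‖) :
    c = 2 * π ∧ ball (v + e / 2 * d + γ / 2 * (I * d)) (γ / 2) ⊆ U := by
  have _ := hr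
  have _ := h₁
  have hd0 : d ≠ 0 := norm_ne_zero_iff.1 (hd ▸ one_ne_zero)
  obtain ⟨ρ, hρ, hK⟩ := GainAux.near hT hL hF h he hout hray
  obtain ⟨y, hy, hyV, hyρ⟩ := GainAux.incoming hL.cont hout.fst hρ
    (by linarith [hF.hs.2]) h.back hin
  have e1 : ∀ x : ℝ, (v + x * (I * d) - v) / d = x * I := fun x => by
    field_simp
    ring
  have hs := GainAux.side h.jor hd0 (v := v) (ρ := ρ) (fun z hz hzρ => by
    rw [h.split] at hz
    rcases hz with ⟨p, hp, rfl⟩ | hz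
    · obtain ⟨x, -, hx⟩ := hout.mem p hp
      have : (L p - v) / d = x := by
        rw [hx]
        field_simp
        ring
      rw [this, ofReal_im]
    · obtain ⟨x, hx, rfl⟩ := hK z hz hzρ
      rw [e1, im_ofReal_mul, I_im, mul_one]
      exact hx) hyV hyρ (by
    rcases hturn with rfl | rfl
    · have : (v - y * d₀ - v) / d₀ = ((-y : ℝ) : ℂ) := by
        push_cast
        field_simp
        ring
      rw [this, ofReal_im]
    · have : (v - y * (I * d) - v) / d = ((-y : ℝ) : ℂ) * I := by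
        push_cast
        field_simp
        ring
      rw [this, im_ofReal_mul, I_im]
      linarith)
  have key := gain h.jor h.hc h.wU h.wV hL.cont hout he hd h.split h.rcont h.wsplit
    (η := 1) (Or.inl rfl) hρ (fun z hz hzρ => by
      obtain ⟨x, -, rfl⟩ := hK z hz hzρ
      rw [e1, re_ofReal_mul, I_re, mul_zero])
    (fun z hz hz' => hs z hz (by linarith)) hγ hKγ
  simpa only [one_mul, ofReal_one] using key

theorem gain_mir {g g' : ℂ → ℂ} {R r l s₀ s s₁ u e γ : ℝ} {L σ κ β : ℝ → ℂ} {v d d₀ : ℂ}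
    {l' b c : ℝ} {J U V K : Set ℂ} {w rest : ℂ → ℝ} (hT : Top g g' R) (hL : Line g L l r)
    (hF : Fst g L l s σ u r) (hr : r + 20 ≤ R) (h : Res g L l s s₁ σ u κ l' β b J U V K w rest c)
    (he : 0 < e) (hd : ‖d‖ = 1) (h₀ : 0 ≤ s₀) (h₁ : s₁ ≤ l) (hout : Seg L s s₁ v (-d₀) e)
    (hin : Seg L s₀ s (v + e * d) (-d) e) (hturn : d₀ = d ∨ d₀ = I * d)
    (hray : ∀ x ∈ Icc (0 : ℝ) e, σ x = v + x * (I * d)) (hγ : 0 < γ)
    (hKγ : ∀ z ∈ K, γ ≤ ‖z - (v - e / 2 * d₀)‖) :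
    c = -(2 * π) ∧ ball (v - e / 2 * d₀ + γ / 2 * (I * d₀)) (γ / 2) ⊆ U := by
  have _ := hr
  have _ := h₁
  have hd0 : d ≠ 0 := norm_ne_zero_iff.1 (hd ▸ one_ne_zero)
  have hd₀ : ‖d₀‖ = 1 := by
    rcases hturn with rfl | rfl
    · exact hd
    · rw [norm_mul, norm_I, one_mul, hd]
  have hd₀0 : d₀ ≠ 0 := norm_ne_zero_iff.1 (hd₀ ▸ one_ne_zero)
  obtain ⟨ρ, hρ, hK⟩ := GainAux.near hT hL hF h he hout hray
  obtain ⟨y, hy, hyV, hyρ⟩ := GainAux.incoming hL.cont hout.fst hρ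
    (by linarith [hF.hs.2]) h.back hin
  have e1 : ∀ x : ℝ, 0 ≤ x → 0 ≤ ((v + x * (I * d) - v) / d₀).im ∧
      0 ≤ ((v + x * (I * d) - v) / d₀).re := fun x hx => by
    rcases hturn with rfl | rfl
    · have : (v + x * (I * d₀) - v) / d₀ = x * I := by
        field_simp
        ring
      rw [this, im_ofReal_mul, I_im, mul_one, re_ofReal_mul, I_re, mul_zero]
      exact ⟨hx, le_rfl⟩
    · have : (v + x * (I * d) - v) / (I * d) = x := by
        field_simp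
        ring
      rw [this, ofReal_im, ofReal_re]
      exact ⟨le_rfl, hx⟩
  have hs := GainAux.side h.jor hd₀0 (v := v) (ρ := ρ) (fun z hz hzρ => by
    rw [h.split] at hz
    rcases hz with ⟨p, hp, rfl⟩ | hz
    · obtain ⟨x, -, hx⟩ := hout.mem p hp
      have : (L p - v) / d₀ = ((-x : ℝ) : ℂ) := by
        rw [hx]
        push_cast
        field_simp
        ring
      rw [this, ofReal_im]
    · obtain ⟨x, hx, rfl⟩ := hK z hz hzρ
      exact (e1 x hx).1) hyV hyρ (by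
    rcases hturn with rfl | rfl
    · have : (v - y * -d₀ - v) / d₀ = y := by
        field_simp
        ring
      rw [this, ofReal_im]
    · have : (v - y * -d - v) / (I * d) = ((-y : ℝ) : ℂ) * I := by
        rw [div_eq_iff hd₀0]
        push_cast
        linear_combination (y * d) * I_mul_I
      rw [this, im_ofReal_mul, I_im]
      linarith)
  have key := gain h.jor h.hc h.wU h.wV hL.cont hout he ((norm_neg d₀).trans hd₀) h.split h.rcont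
    h.wsplit (η := -1) (Or.inr rfl) hρ (fun z hz hzρ => by
      obtain ⟨x, hx, rfl⟩ := hK z hz hzρ
      rw [div_neg, neg_re]
      exact neg_nonpos.2 (e1 x hx).2)
    (fun z hz hz' => hs z hz (by
      rw [div_neg, neg_im] at hz'
      linarith)) hγ (fun z hz => by
      rw [mul_neg, ← sub_eq_add_neg]
      exact hKγ z hz)
  have e2 : v + e / 2 * -d₀ + ((-1 : ℝ) : ℂ) * γ / 2 * (I * -d₀) =
      v - e / 2 * d₀ + γ / 2 * (I * d₀) := by
    push_cast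
    ring
  rw [e2, neg_one_mul] at key
  exact key

end Pool.Agent.Lib.MP_399f8e_an.Ur
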