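import Pool.Agent.Lib.MP_399f8e_an.Ur.Pot
import Pool.Agent.Lib.MP_399f8e_an.Ur.Chg
import Pool.Agent.Lib.MP_399f8e_an.Ur.Prim

open Set Filter Topology Metric Complex
open scoped Real
open Pool.Agent.Lib.MP_399f8e_an.Rg

noncomputable section

namespace Pool.Agent.Lib.MP_399f8e_an.Ur

variable {lam : ℝ} {Y : S → ℂ → S} {γ : S → S → ℂ → ℂ} {g g' : S → ℂ → ℂ}
  {ν : S → (ℂ → ℝ) → ℝ} {Z : S → Set ℂ}

theorem exists_global (hA : Atlas lam Y γ g g' ν Z) : ∃ P : S → (ℝ → ℂ) → ℝ → ℝ,
    (∀ i, Step (g i) (ν i) (Z i) (P i) 40000) ∧ ∀ i j, dist i j ≤ 4000 * lam →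
      ∀ (k k₂ : ℝ → ℂ) (l : ℝ), Tame (Z i) 20000 k l → k l = g i (k 0) → Continuous k₂ →
        (∀ t ∈ Icc 0 l, k₂ t = γ i j (k t)) → P i k l = P j k₂ l := by
  classical
  have hl := hA.lam_pos
  have hb : (1 / 2 : ℝ) ≤ 1 := by norm_num
  choose P0 hP0 using fun i => exists_pot (hA.good i) hb (ρ := 40000) (by norm_num) (by norm_num)
  choose ref href hlast using fun i => exists_ref (hA.good i) hb (by norm_num)
  set F : S → S → ℝ := fun i j => P0 i (ref i) 1 - P0 j (fun t => γ i j (ref i t)) 1 with hF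
  have key : ∀ i j, dist i j ≤ 8000 * lam → ∀ k l, Tame (Z i) 21000 k l → k l = g i (k 0) →
      P0 i k l - P0 j (fun t => γ i j (k t)) l = F i j := by
    intro i j hd k l hk e
    have := chg hA hd (hP0 i) (hP0 j) ((href i).mono (by norm_num)) hk (hlast i) e
    simp only [hF]
    linarith
  have close : ∀ i j, dist i j ≤ 8000 * lam → ∀ (k : ℝ → ℂ) (l r : ℝ), Tame (Z i) r k l →
      r ≤ 25000 → k l = g i (k 0) → γ i j (k l) = g j (γ i j (k 0)) := by
    intro i j hd k l r hk hr e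
    rw [e, hA.comm i j hd _ ((hk.bd 0 ⟨le_rfl, hk.nn⟩).trans (by linarith))]
  have coc : ∀ p q s : S, dist p q ≤ 8000 * lam → dist q s ≤ 8000 * lam →
      dist p s ≤ 8000 * lam → F p q + F q s = F p s := by
    intro p q s h1 h2 h3
    have t1 := tame_chg hA h1 (href p) (by norm_num)
    have t2 := tame_chg hA h3 (href p) (by norm_num)
    have k1 := key q s h2 (fun t => γ p q (ref p t)) 1 (t1.mono (by norm_num))
      (close p q h1 _ _ _ (href p) (by norm_num) (hlast p))
    have k2 : P0 s (fun t => γ q s (γ p q (ref p t))) 1 = P0 s (fun t => γ p s (ref p t)) 1 :=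
      Step.congr (hA.good s) (hP0 s) (t2.mono (by norm_num))
        (close p s h3 _ _ _ (href p) (by norm_num) (hlast p))
        ((hA.cont q s h2).comp t1.cont)
        fun t ht => hA.coc p q s h1 h2 h3 _ (((href p).bd t ht).trans (by norm_num))
    rw [← k1, k2]
    simp only [hF]
    ring
  obtain ⟨H, hH⟩ := prim F (8000 * lam) (by positivity) hA.lam_le coc
  refine ⟨fun i k l => H i + P0 i k l, fun i k l k' l' β b a1 a2 a3 a4 a5 a6 a7 => ?_,
    fun i j hd k k₂ l hk e hc he => ?_⟩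
  · show H i + P0 i k' l' = H i + P0 i k l + _
    rw [hP0 i k l k' l' β b a1 a2 a3 a4 a5 a6 a7]
    ring
  · have hd' : dist i j ≤ 8000 * lam := by linarith
    have k1 := key i j hd' k l (hk.mono (by norm_num)) e
    have k2 : P0 j k₂ l = P0 j (fun t => γ i j (k t)) l :=
      Step.congr (hA.good j) (hP0 j) ((tame_chg hA hd' hk (by norm_num)).mono (by norm_num))
        (close i j hd' _ _ _ hk (by norm_num) e) hc he
    have k3 := hH i j (by linarith)
    show H i + P0 i k l = H j + P0 j k₂ l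
    linarith

end Pool.Agent.Lib.MP_399f8e_an.Ur
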