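import Pool.Agent.Lib.MP_399f8e_an.Ur.Grid
import Pool.Agent.Lib.MP_399f8e_an.Ur.Nest
import Pool.Agent.Lib.MP_399f8e_an.Ur.Jordan

open Set Filter Topology Metric Complex
open scoped Real
open Pool.Agent.Lib.MP_399f8e_an.Rg

noncomputable section

namespace Pool.Agent.Lib.MP_399f8e_an.Ur

namespace PathsAux

theorem dir_ne {d : ℂ} (hd : Dir d) : d ≠ 0 := by
  intro h
  have := hd.norm
  rw [h, norm_zero] at this
  exact zero_ne_one this

/-- the point with coordinates `a`, `b` in the frame `d`, `I d` at `v` -/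
def pt (v d : ℂ) (a b : ℝ) : ℂ := v + a * d + b * (I * d)

theorem pt_div {v d : ℂ} (hd : d ≠ 0) (a b : ℝ) : (pt v d a b - v) / d = a + b * I := by
  unfold pt
  field_simp
  ring

theorem pt_re {v d : ℂ} (hd : d ≠ 0) (a b : ℝ) : ((pt v d a b - v) / d).re = a := by
  rw [pt_div hd]; simp

theorem pt_im {v d : ℂ} (hd : d ≠ 0) (a b : ℝ) : ((pt v d a b - v) / d).im = b := by
  rw [pt_div hd]; simp

theorem pt_inj {v d : ℂ} (hd : d ≠ 0) {a b a' b' : ℝ} (h : pt v d a b = pt v d a' b') :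
    a = a' ∧ b = b' := by
  constructor
  · rw [← pt_re (v := v) hd a b, h, pt_re hd]
  · rw [← pt_im (v := v) hd a b, h, pt_im hd]

theorem pt_self {v d : ℂ} (hd : d ≠ 0) (z : ℂ) :
    pt v d ((z - v) / d).re ((z - v) / d).im = z := by
  have h : (((z - v) / d).re : ℂ) + ((z - v) / d).im * I = (z - v) / d := re_add_im _
  have h2 : pt v d ((z - v) / d).re ((z - v) / d).im =
      v + ((((z - v) / d).re : ℂ) + ((z - v) / d).im * I) * d := by
    unfold pt; ring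
  rw [h2, h]
  field_simp
  ring

theorem pt_cont (v d : ℂ) {a b : ℝ → ℝ} (ha : Continuous a) (hb : Continuous b) :
    Continuous fun x => pt v d (a x) (b x) := by
  unfold pt
  fun_prop

theorem pt_norm {v d : ℂ} (hd : Dir d) {a b r : ℝ} (hr : 0 ≤ r) (h : a ^ 2 + b ^ 2 ≤ r ^ 2) :
    ‖pt v d a b - v‖ ≤ r := by
  have h1 : pt v d a b - v = (a + b * I) * d := by unfold pt; ring
  rw [h1, norm_mul, hd.norm, mul_one]
  have h2 : ‖(a : ℂ) + b * I‖ ^ 2 = a ^ 2 + b ^ 2 := by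
    rw [Complex.sq_norm, Complex.normSq_add_mul_I]
  exact abs_le_of_sq_le_sq' (by rw [h2]; exact h) hr |>.2

theorem pre {v d : ℂ} (hd : d ≠ 0) {C : Set ℂ} (hC : IsPreconnected C) :
    IsPreconnected {z | (z - v) / d ∈ C} := by
  have e : {z | (z - v) / d ∈ C} = (fun w => v + d * w) '' C := by
    ext z
    constructor
    · intro hz
      refine ⟨_, hz, ?_⟩
      show v + d * ((z - v) / d) = z
      field_simp
      ring
    · rintro ⟨w, hw, rfl⟩
      show (v + d * w - v) / d ∈ C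
      have : (v + d * w - v) / d = w := by field_simp; ring
      rw [this]
      exact hw
  rw [e]
  exact hC.image _ (by fun_prop)

def ca (ε x : ℝ) : ℝ := max 0 (min (x - ε) ε)

def cb (ε x : ℝ) : ℝ := min x ε - max 0 (x - 2 * ε)

theorem c_cases {ε : ℝ} (hε : 0 < ε) (x : ℝ) :
    (x ≤ ε ∧ ca ε x = 0 ∧ cb ε x = x) ∨ (ε ≤ x ∧ x ≤ 2 * ε ∧ ca ε x = x - ε ∧ cb ε x = ε) ∨
      (2 * ε ≤ x ∧ ca ε x = ε ∧ cb ε x = 3 * ε - x) := by
  unfold ca cb
  rcases le_total x ε with h | h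
  · left
    refine ⟨h, ?_, ?_⟩
    · exact max_eq_left ((min_le_left _ _).trans (by linarith))
    · rw [min_eq_left h, max_eq_left (by linarith), sub_zero]
  · right
    rcases le_total x (2 * ε) with h' | h'
    · left
      refine ⟨h, h', ?_, ?_⟩
      · rw [min_eq_left (by linarith), max_eq_right (by linarith)]
      · rw [min_eq_right h, max_eq_left (by linarith), sub_zero]
    · right
      refine ⟨h', ?_, ?_⟩
      · rw [min_eq_right (by linarith), max_eq_right hε.le]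
      · rw [min_eq_right h, max_eq_right (by linarith)]; ring

def sa (x : ℝ) : ℝ := min x 18 - max 0 (min (x - 26) 8)

def sb (x : ℝ) : ℝ := max 0 (min (x - 18) 8) - max 0 (x - 34)

theorem s_cases (x : ℝ) :
    (x ≤ 18 ∧ sa x = x ∧ sb x = 0) ∨ (18 ≤ x ∧ x ≤ 26 ∧ sa x = 18 ∧ sb x = x - 18) ∨
      (26 ≤ x ∧ x ≤ 34 ∧ sa x = 44 - x ∧ sb x = 8) ∨ (34 ≤ x ∧ sa x = 10 ∧ sb x = 42 - x) := by
  unfold sa sb
  rcases le_total x 18 with h | h
  · left
    refine ⟨h, ?_, ?_⟩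
    · rw [min_eq_left h, max_eq_left ((min_le_left _ _).trans (by linarith)), sub_zero]
    · rw [max_eq_left ((min_le_left _ _).trans (by linarith)), max_eq_left (by linarith), sub_zero]
  · right
    rcases le_total x 26 with h' | h'
    · left
      refine ⟨h, h', ?_, ?_⟩
      · rw [min_eq_right h, max_eq_left ((min_le_left _ _).trans (by linarith)), sub_zero]
      · rw [min_eq_left (by linarith), max_eq_right (by linarith), max_eq_left (by linarith),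
          sub_zero]
    · right
      rcases le_total x 34 with h'' | h''
      · left
        refine ⟨h', h'', ?_, ?_⟩
        · rw [min_eq_right h, min_eq_left (by linarith), max_eq_right (by linarith)]; ring
        · rw [min_eq_right (by linarith), max_eq_right (by norm_num), max_eq_left (by linarith),
            sub_zero]
      · right
        refine ⟨h'', ?_, ?_⟩
        · rw [min_eq_right h, min_eq_right (by linarith), max_eq_right (by norm_num)]; norm_num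
        · rw [min_eq_right (by linarith), max_eq_right (by norm_num), max_eq_right (by linarith)]
          ring

/-- the path that runs along `d` and then round a square -/
def sqp (v d : ℂ) (x : ℝ) : ℂ := pt v d (sa x) (sb x)

theorem sq_cont (v d : ℂ) : Continuous (sqp v d) := by
  apply pt_cont
  · unfold sa; fun_prop
  · unfold sb; fun_prop

theorem s_inj {x y : ℝ} (hx : x ≤ 42) (hy : y ≤ 42) (ha : sa x = sa y) (hb : sb x = sb y) :
    x = y ∨ (x = 10 ∧ y = 42) ∨ (x = 42 ∧ y = 10) := by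
  rcases s_cases x with ⟨h1, h2, h3⟩ | ⟨h1, h1', h2, h3⟩ | ⟨h1, h1', h2, h3⟩ | ⟨h1, h2, h3⟩ <;>
  rcases s_cases y with ⟨k1, k2, k3⟩ | ⟨k1, k1', k2, k3⟩ | ⟨k1, k1', k2, k3⟩ | ⟨k1, k2, k3⟩ <;>
  first
    | (left; linarith)
    | (right; left; constructor <;> linarith)
    | (right; right; constructor <;> linarith)

theorem sq_inj {v d : ℂ} (hd : d ≠ 0) {x y : ℝ} (hx : x ≤ 42) (hy : y ≤ 42)
    (h : sqp v d x = sqp v d y) : x = y ∨ (x = 10 ∧ y = 42) ∨ (x = 42 ∧ y = 10) :=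
  s_inj hx hy (pt_inj hd h).1 (pt_inj hd h).2

theorem sq_close (v d : ℂ) : sqp v d 42 = sqp v d 10 := by
  unfold sqp
  rcases s_cases 42 with ⟨h1, h2, h3⟩ | ⟨h1, h1', h2, h3⟩ | ⟨h1, h1', h2, h3⟩ | ⟨h1, h2, h3⟩ <;>
  rcases s_cases 10 with ⟨k1, k2, k3⟩ | ⟨k1, k1', k2, k3⟩ | ⟨k1, k1', k2, k3⟩ | ⟨k1, k2, k3⟩ <;>
  first
    | (exfalso; linarith)
    | (rw [h2, h3, k2, k3]; norm_num)

theorem sq_norm {v d : ℂ} (hd : Dir d) {x : ℝ} (h0 : 0 ≤ x) (hx : x ≤ 42) :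
    ‖sqp v d x - v‖ ≤ 20 := by
  apply pt_norm hd (by norm_num)
  rcases s_cases x with ⟨h1, h2, h3⟩ | ⟨h1, h1', h2, h3⟩ | ⟨h1, h1', h2, h3⟩ | ⟨h1, h2, h3⟩ <;>
  rw [h2, h3] <;> nlinarith

theorem sq_grid {ε : ℝ} {n : ℕ} (hn : n * ε = 1) {v d : ℂ} (hv : v ∈ Vtx ε) (hd : Dir d)
    (x : ℝ) : sqp v d x ∈ Grid ε := by
  have hn' : (n : ℂ) * ε = 1 := by exact_mod_cast congrArg (fun r : ℝ => (r : ℂ)) hn
  have hm : ∀ (m : ℤ) (d' : ℂ), Dir d' → v + m * d' ∈ Vtx ε := by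
    intro m d' hd'
    have h := vtx_add hv hd' (m * n)
    have e : (((m * n : ℤ) : ℂ)) * ε = m := by
      push_cast
      rw [mul_assoc, hn', mul_one]
    rwa [e] at h
  unfold sqp pt
  rcases s_cases x with ⟨h1, h2, h3⟩ | ⟨h1, h1', h2, h3⟩ | ⟨h1, h1', h2, h3⟩ | ⟨h1, h2, h3⟩
  · have := grid_line hv hd (sa x)
    rw [h3]
    simpa using this
  · have := grid_line (hm 18 d hd) hd.mulI (sb x)
    rw [h2]
    simpa using this
  · have := grid_line (hm 8 _ hd.mulI) hd (sa x)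
    rw [h3, add_right_comm]
    simpa using this
  · have := grid_line (hm 10 d hd) hd.mulI (sb x)
    rw [h2]
    simpa using this

/-- points of the curve lie on the boundary of the square -/
theorem s_box {x : ℝ} (h0 : 10 ≤ x) (hx : x ≤ 42) :
    10 ≤ sa x ∧ sa x ≤ 18 ∧ 0 ≤ sb x ∧ sb x ≤ 8 ∧
      (sa x = 10 ∨ sa x = 18 ∨ sb x = 0 ∨ sb x = 8) := by
  rcases s_cases x with ⟨h1, h2, h3⟩ | ⟨h1, h1', h2, h3⟩ | ⟨h1, h1', h2, h3⟩ | ⟨h1, h2, h3⟩
  · exact ⟨by linarith, by linarith, by linarith, by linarith, by tauto⟩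
  · exact ⟨by linarith, by linarith, by linarith, by linarith, by tauto⟩
  · exact ⟨by linarith, by linarith, by linarith, by linarith, by tauto⟩
  · exact ⟨by linarith, by linarith, by linarith, by linarith, by tauto⟩

theorem s_onto {a b : ℝ} (h1 : 10 ≤ a) (h2 : a ≤ 18) (h3 : 0 ≤ b) (h4 : b ≤ 8)
    (h : a = 10 ∨ a = 18 ∨ b = 0 ∨ b = 8) : ∃ x ∈ Icc (10 : ℝ) 42, sa x = a ∧ sb x = b := by
  rcases h with h | h | h | h
  · refine ⟨42 - b, ⟨by linarith, by linarith⟩, ?_⟩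
    rcases s_cases (42 - b) with ⟨k1, k2, k3⟩ | ⟨k1, k1', k2, k3⟩ | ⟨k1, k1', k2, k3⟩ |
      ⟨k1, k2, k3⟩ <;> constructor <;> linarith
  · refine ⟨18 + b, ⟨by linarith, by linarith⟩, ?_⟩
    rcases s_cases (18 + b) with ⟨k1, k2, k3⟩ | ⟨k1, k1', k2, k3⟩ | ⟨k1, k1', k2, k3⟩ |
      ⟨k1, k2, k3⟩ <;> constructor <;> linarith
  · refine ⟨a, ⟨by linarith, by linarith⟩, ?_⟩
    rcases s_cases a with ⟨k1, k2, k3⟩ | ⟨k1, k1', k2, k3⟩ | ⟨k1, k1', k2, k3⟩ |
      ⟨k1, k2, k3⟩ <;> constructor <;> linarith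
  · refine ⟨44 - a, ⟨by linarith, by linarith⟩, ?_⟩
    rcases s_cases (44 - a) with ⟨k1, k2, k3⟩ | ⟨k1, k1', k2, k3⟩ | ⟨k1, k1', k2, k3⟩ |
      ⟨k1, k2, k3⟩ <;> constructor <;> linarith

theorem sq_jor {v d : ℂ} (hd : d ≠ 0) : ∃ U V, Jor (sqp v d '' Icc 10 42) U V := by
  have hc := sq_cont v d
  obtain ⟨U, V, e, hJ, -⟩ := jordan2 (P := sqp v d) (Q := fun t => sqp v d (42 - t)) (a := 10)
    (a' := 18) (b := 26) (c := 0) (d := 16) (d₀ := d) hc (by fun_prop) (by norm_num)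
    (by norm_num) (by norm_num)
    (by
      intro x hx y hy h
      rcases sq_inj hd (by linarith [hx.2]) (by linarith [hy.2]) h with h | h | h
      · exact h
      · linarith [hy.2, h.2]
      · linarith [hx.2, h.1])
    (by
      intro x hx y hy h
      rcases sq_inj hd (by linarith [hx.1]) (by linarith [hy.1]) h with h | h | h
      · linarith
      · linarith [hx.2, h.1]
      · linarith [hy.2, h.2])
    (by simp only [sub_zero]; exact (sq_close v d).symm) (by norm_num)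
    (by
      intro x hx y hy h
      rcases sq_inj hd (by linarith [hx.2]) (by linarith [hy.1]) h with h | h | h
      · right; linarith [hx.2, hy.2]
      · left; exact h.1
      · linarith [hx.2, h.1])
    hd
    (by
      intro p hp
      have e : (sqp v d p - sqp v d 10) / d = (sqp v d p - v) / d - (sqp v d 10 - v) / d := by ring
      rw [e, sub_im]
      unfold sqp
      rw [pt_im hd, pt_im hd]
      rcases s_cases p with ⟨h1, h2, h3⟩ | ⟨h1, h1', h2, h3⟩ | ⟨h1, h1', h2, h3⟩ | ⟨h1, h2, h3⟩ <;>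
      rcases s_cases 10 with ⟨k1, k2, k3⟩ | ⟨k1, k1', k2, k3⟩ | ⟨k1, k1', k2, k3⟩ | ⟨k1, k2, k3⟩ <;>
      linarith [hp.1, hp.2])
  refine ⟨U, V, ?_⟩
  convert hJ using 1
  ext z
  constructor
  · rintro ⟨x, hx, rfl⟩
    rcases le_total x 26 with h | h
    · exact Or.inl ⟨x, ⟨hx.1, h⟩, rfl⟩
    · exact Or.inr ⟨42 - x, ⟨by linarith [hx.2], by linarith⟩, by simp⟩
  · rintro (⟨x, hx, rfl⟩ | ⟨x, hx, rfl⟩)
    · exact ⟨x, ⟨hx.1, by linarith [hx.2]⟩, rfl⟩
    · exact ⟨42 - x, ⟨by linarith [hx.2], by linarith [hx.1]⟩, rfl⟩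

/-- the open square is inside the curve -/
theorem sq_inside {v d : ℂ} (hd : Dir d) {U V : Set ℂ} (hJ : Jor (sqp v d '' Icc 10 42) U V)
    {z : ℂ} (h1 : 10 < ((z - v) / d).re) (h2 : ((z - v) / d).re < 18) (h3 : 0 < ((z - v) / d).im)
    (h4 : ((z - v) / d).im < 8) : z ∈ U := by
  have hd0 := dir_ne hd
  have hbox : ∀ y ∈ sqp v d '' Icc 10 42, 10 ≤ ((y - v) / d).re ∧ ((y - v) / d).re ≤ 18 ∧
      0 ≤ ((y - v) / d).im ∧ ((y - v) / d).im ≤ 8 ∧ (((y - v) / d).re = 10 ∨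
        ((y - v) / d).re = 18 ∨ ((y - v) / d).im = 0 ∨ ((y - v) / d).im = 8) := by
    rintro _ ⟨x, hx, rfl⟩
    unfold sqp
    rw [pt_re hd0, pt_im hd0]
    exact s_box hx.1 hx.2
  have hU : U ⊆ closedBall 0 (‖v‖ + 20) := by
    apply hJ.bdd
    rintro _ ⟨x, hx, rfl⟩
    rw [mem_closedBall_zero_iff]
    have := sq_norm (v := v) hd (by linarith [hx.1]) hx.2
    have := norm_sub_norm_le (sqp v d x) v
    linarith
  set M : ℝ := 2 * ‖v‖ + 100 with hM
  have hv0 := norm_nonneg v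
  have far : ∀ a b : ℝ, (|a| = M ∨ |b| = M) → pt v d a b ∈ V := by
    intro a b hab
    have hn : M ≤ ‖pt v d a b - v‖ := by
      have e : ‖(pt v d a b - v) / d‖ = ‖pt v d a b - v‖ := by rw [norm_div, hd.norm, div_one]
      rw [← e]
      rcases hab with h | h
      · rw [← h]
        have := abs_re_le_norm ((pt v d a b - v) / d)
        rwa [pt_re hd0] at this
      · rw [← h]
        have := abs_im_le_norm ((pt v d a b - v) / d)
        rwa [pt_im hd0] at this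
    rcases hJ.cover (pt v d a b) with ⟨x, hx, h⟩ | h | h
    · have := sq_norm (v := v) hd (by linarith [hx.1]) hx.2
      rw [h] at this
      linarith
    · have h' := hU h
      rw [mem_closedBall_zero_iff] at h'
      have := norm_sub_le (pt v d a b) v
      linarith
    · exact h
  have hM0 : 0 ≤ M := by linarith
  have half : ∀ C : Set ℂ, Convex ℝ C → (∀ y ∈ sqp v d '' Icc 10 42, (y - v) / d ∉ C) →
      (∃ a b : ℝ, (|a| = M ∨ |b| = M) ∧ (a : ℂ) + b * I ∈ C) → ∀ y ∈ U, (y - v) / d ∉ C := by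
    rintro C hC hm ⟨a, b, hab, hC'⟩ y hy hyC
    refine hJ.dUV y hy (hJ.sub_V (pre (v := v) hd0 hC.isPreconnected)
      (fun w hw hw' => hm w hw' hw) ⟨pt v d a b, ?_, far a b hab⟩ hyC)
    show (pt v d a b - v) / d ∈ C
    rwa [pt_div hd0]
  have hne : U.Nonempty := by
    have := hJ.clU ⟨10, ⟨le_rfl, by norm_num⟩, rfl⟩
    exact closure_nonempty_iff.1 ⟨_, this⟩
  obtain ⟨y, hy⟩ := hne
  have k1 := half _ (convex_halfSpace_re_lt 10) (fun w hw h => by
    have := hbox w hw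
    simp only [mem_ofPred_eq] at h
    linarith [this.1]) ⟨-M, 0, Or.inl (by rw [abs_neg, abs_of_nonneg hM0]), by
      simp only [mem_ofPred_eq]; simp; linarith⟩ y hy
  have k2 := half _ (convex_halfSpace_re_gt 18) (fun w hw h => by
    have := hbox w hw
    simp only [mem_ofPred_eq] at h
    linarith [this.2.1]) ⟨M, 0, Or.inl (abs_of_nonneg hM0), by
      simp only [mem_ofPred_eq]; simp; linarith⟩ y hy
  have k3 := half _ (convex_halfSpace_im_lt 0) (fun w hw h => by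
    have := hbox w hw
    simp only [mem_ofPred_eq] at h
    linarith [this.2.2.1]) ⟨0, -M, Or.inr (by rw [abs_neg, abs_of_nonneg hM0]), by
      simp only [mem_ofPred_eq]; simp; linarith⟩ y hy
  have k4 := half _ (convex_halfSpace_im_gt 8) (fun w hw h => by
    have := hbox w hw
    simp only [mem_ofPred_eq] at h
    linarith [this.2.2.2.1]) ⟨0, M, Or.inr (abs_of_nonneg hM0), by
      simp only [mem_ofPred_eq]; simp; linarith⟩ y hy
  simp only [mem_ofPred_eq, not_lt] at k1 k2 k3 k4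
  have k5 : ¬ (((y - v) / d).re = 10 ∨ ((y - v) / d).re = 18 ∨ ((y - v) / d).im = 0 ∨
      ((y - v) / d).im = 8) := by
    intro h
    obtain ⟨x, hx, ha, hb⟩ := s_onto k1 k2 k3 k4 h
    refine hJ.dJU y ⟨x, hx, ?_⟩ hy
    unfold sqp
    rw [ha, hb, pt_self hd0]
  push Not at k5
  have hC : Convex ℝ (({c : ℂ | 10 < c.re} ∩ {c : ℂ | c.re < 18}) ∩
      ({c : ℂ | 0 < c.im} ∩ {c : ℂ | c.im < 8})) :=
    ((convex_halfSpace_re_gt 10).inter (convex_halfSpace_re_lt 18)).inter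
      ((convex_halfSpace_im_gt 0).inter (convex_halfSpace_im_lt 8))
  rcases hJ.sub_or (pre (v := v) hd0 hC.isPreconnected) (fun w hw hw' => by
      obtain ⟨⟨a1, a2⟩, a3, a4⟩ := hw
      simp only [mem_ofPred_eq] at a1 a2 a3 a4
      rcases (hbox w hw').2.2.2.2 with h | h | h | h <;> linarith) with h | h
  · exact h ⟨⟨h1, h2⟩, h3, h4⟩
  · exact absurd (h ⟨⟨lt_of_le_of_ne k1 k5.1.symm, lt_of_le_of_ne k2 k5.2.1⟩,
      lt_of_le_of_ne k3 k5.2.2.1.symm, lt_of_le_of_ne k4 k5.2.2.2⟩) (hJ.dUV y hy)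

/-- the square meets its image -/
theorem sq_meet {g g' : ℂ → ℂ} {R : ℝ} (hT : Top g g' R) {v d : ℂ} (hd : Dir d)
    (hR : ‖v‖ + 30 ≤ R) : ∃ x ∈ Icc (10 : ℝ) 42, ∃ y ∈ Icc (10 : ℝ) 42,
      sqp v d x = g (sqp v d y) := by
  have hd0 := dir_ne hd
  obtain ⟨U, V, hJ⟩ := sq_jor (v := v) hd0
  by_contra hcon
  push Not at hcon
  have hb : ∀ z ∈ sqp v d '' Icc 10 42, ‖z‖ ≤ R - 5 := by
    rintro _ ⟨x, hx, rfl⟩
    have := sq_norm (v := v) hd (by linarith [hx.1]) hx.2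
    have := norm_sub_norm_le (sqp v d x) v
    linarith
  have hg : ∀ z ∈ sqp v d '' Icc 10 42, z ∉ g '' (sqp v d '' Icc 10 42) := by
    rintro _ ⟨x, hx, rfl⟩ ⟨_, ⟨y, hy, rfl⟩, h⟩
    exact hcon x hx y hy h.symm
  have hg' : ∀ z ∈ g' '' (sqp v d '' Icc 10 42), z ∉ sqp v d '' Icc 10 42 := by
    rintro _ ⟨z, hz, rfl⟩ h
    exact hg z hz ⟨_, h, hT.inv' z (by linarith [hb z hz])⟩
  have hp : sqp v d 10 ∈ sqp v d '' Icc 10 42 := ⟨10, ⟨le_rfl, by norm_num⟩, rfl⟩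
  have hpre : IsPreconnected (g' '' (sqp v d '' Icc 10 42)) :=
    (isPreconnected_Icc.image _ (sq_cont v d).continuousOn).image _ hT.cont'.continuousOn
  rcases hJ.sub_or hpre hg' with h | h
  · exact nest hT.symm hJ hb (fun z hz => hJ.dUV _ (h ⟨z, hz, rfl⟩))
      ⟨_, hp, fun h' => hg' _ h' hp⟩
  · refine nest' hT hJ hb (fun z hz h' => hJ.dUV _ h' (h ⟨z, hz, rfl⟩)) ⟨pt v d 14 4, ?_, ?_⟩
      ⟨_, hp, hg _ hp⟩
    · apply sq_inside hd hJ <;> simp only [pt_re hd0, pt_im hd0] <;> norm_num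
    · have hn : ‖(g (pt v d 14 4) - pt v d 14 4) / d‖ ≤ 1 := by
        rw [norm_div, hd.norm, div_one]
        exact hT.near _
      have e : (g (pt v d 14 4) - v) / d =
          (g (pt v d 14 4) - pt v d 14 4) / d + (pt v d 14 4 - v) / d := by ring
      have hre := abs_le.1 ((abs_re_le_norm _).trans hn)
      have him := abs_le.1 ((abs_im_le_norm _).trans hn)
      apply sq_inside hd hJ <;> rw [e] <;> simp only [add_re, add_im, pt_re hd0, pt_im hd0] <;>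
        linarith [hre.1, hre.2, him.1, him.2]

end PathsAux

open PathsAux

theorem exists_cell {ε : ℝ} (hε : 0 < ε) {v u : ℂ} (hv : v ∈ Vtx ε) (hu : Dir u) :
    ∃ σ : ℝ → ℂ, Continuous σ ∧ InjOn σ (Icc 0 (3 * ε)) ∧
      (∀ x ∈ Icc (0 : ℝ) ε, σ x = v + x * (I * u)) ∧ σ (3 * ε) = v + ε * u ∧
      ∀ x ∈ Icc 0 (3 * ε), σ x ∈ Grid ε ∧
        (∃ p ∈ Icc (0 : ℝ) ε, ∃ q ∈ Icc (0 : ℝ) ε, σ x = v + p * u + q * (I * u)) ∧
        ∀ y ∈ Ioo (0 : ℝ) ε, σ x ≠ v + y * u := by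
  have hu0 := dir_ne hu
  refine ⟨fun x => pt v u (ca ε x) (cb ε x), ?_, ?_, ?_, ?_, ?_⟩
  · apply pt_cont
    · unfold ca; fun_prop
    · unfold cb; fun_prop
  · intro x _ y _ h
    obtain ⟨ha, hb⟩ := pt_inj hu0 h
    rcases c_cases hε x with ⟨h1, h2, h3⟩ | ⟨h1, h1', h2, h3⟩ | ⟨h1, h2, h3⟩ <;>
    rcases c_cases hε y with ⟨k1, k2, k3⟩ | ⟨k1, k1', k2, k3⟩ | ⟨k1, k2, k3⟩ <;> linarith
  · intro x hx
    have h : ca ε x = 0 ∧ cb ε x = x := by
      rcases c_cases hε x with ⟨h1, h2, h3⟩ | ⟨h1, h1', h2, h3⟩ | ⟨h1, h2, h3⟩ <;>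
      constructor <;> linarith [hx.2]
    simp [pt, h.1, h.2]
  · have h : ca ε (3 * ε) = ε ∧ cb ε (3 * ε) = 0 := by
      rcases c_cases hε (3 * ε) with ⟨h1, h2, h3⟩ | ⟨h1, h1', h2, h3⟩ | ⟨h1, h2, h3⟩ <;>
      constructor <;> linarith
    simp only [pt, h.1, h.2]
    simp
  · intro x hx
    refine ⟨?_, ⟨ca ε x, ?_, cb ε x, ?_, rfl⟩, ?_⟩
    · unfold pt
      rcases c_cases hε x with ⟨h1, h2, h3⟩ | ⟨h1, h1', h2, h3⟩ | ⟨h1, h2, h3⟩
      · have := grid_line hv hu.mulI (cb ε x)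
        simp only [h2]
        simpa using this
      · have := grid_line (vtx_add hv hu.mulI 1) hu (ca ε x)
        simp only [h3]
        rw [add_right_comm]
        simpa using this
      · have := grid_line (vtx_add hv hu 1) hu.mulI (cb ε x)
        simp only [h2]
        simpa using this
    · rcases c_cases hε x with ⟨h1, h2, h3⟩ | ⟨h1, h1', h2, h3⟩ | ⟨h1, h2, h3⟩ <;>
      constructor <;> linarith
    · rcases c_cases hε x with ⟨h1, h2, h3⟩ | ⟨h1, h1', h2, h3⟩ | ⟨h1, h2, h3⟩ <;>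
      constructor <;> linarith [hx.1, hx.2]
    · intro y hy h
      have h' : pt v u (ca ε x) (cb ε x) = pt v u y 0 := by
        refine h.trans ?_
        simp [pt]
      obtain ⟨ha, hb⟩ := pt_inj hu0 h'
      rcases c_cases hε x with ⟨h1, h2, h3⟩ | ⟨h1, h1', h2, h3⟩ | ⟨h1, h2, h3⟩ <;>
      linarith [hy.1, hy.2]

theorem exists_sq {g g' : ℂ → ℂ} {R ε : ℝ} {n : ℕ} (hT : Top g g' R) (hn : n * ε = 1) {v d : ℂ}
    (hv : v ∈ Vtx ε) (hd : Dir d) (hR : ‖v‖ + 30 ≤ R) :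
    ∃ (σ : ℝ → ℂ) (T : ℝ), 0 < T ∧ Continuous σ ∧ InjOn σ (Icc 0 T) ∧
      (∀ x ∈ Icc (0 : ℝ) 2, σ x = v + x * d) ∧
      (∀ x ∈ Icc 0 T, σ x ∈ Grid ε ∧ ‖σ x - v‖ ≤ 20 ∧ min x 2 ≤ ((σ x - v) / d).re) ∧
      ∃ x ∈ Icc 0 T, ∃ y ∈ Icc 0 T, σ x = g (σ y) := by
  have hd0 := dir_ne hd
  have fix : ∀ x ∈ Icc (10 : ℝ) 42, ∃ x' ∈ Ico (10 : ℝ) 42, sqp v d x' = sqp v d x := by
    intro x hx
    rcases hx.2.eq_or_lt with h | h
    · exact ⟨10, ⟨le_rfl, by norm_num⟩, by rw [h, sq_close]⟩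
    · exact ⟨x, ⟨hx.1, h⟩, rfl⟩
  obtain ⟨x0, hx0, y0, hy0, h0⟩ := sq_meet hT hd hR
  obtain ⟨x, hx, ex⟩ := fix x0 hx0
  obtain ⟨y, hy, ey⟩ := fix y0 hy0
  have hT1 : max x y < 42 := max_lt hx.2 hy.2
  have hT2 : x ≤ max x y := le_max_left _ _
  refine ⟨sqp v d, max x y, by linarith [hx.1], sq_cont v d, ?_, ?_, ?_,
    x, ⟨by linarith [hx.1], hT2⟩, y, ⟨by linarith [hy.1], le_max_right _ _⟩, by rw [ex, ey, h0]⟩
  · intro a ha b hb h
    rcases sq_inj hd0 (by linarith [ha.2]) (by linarith [hb.2]) h with h | h | h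
    · exact h
    · linarith [hb.2, h.2]
    · linarith [ha.2, h.1]
  · intro a ha
    have h : sa a = a ∧ sb a = 0 := by
      rcases s_cases a with ⟨h1, h2, h3⟩ | ⟨h1, h1', h2, h3⟩ | ⟨h1, h1', h2, h3⟩ | ⟨h1, h2, h3⟩ <;>
      constructor <;> linarith [ha.2]
    simp [sqp, pt, h.1, h.2]
  · intro a ha
    refine ⟨sq_grid hn hv hd a, sq_norm hd ha.1 (by linarith [ha.2]), ?_⟩
    unfold sqp
    rw [pt_re hd0]
    have m1 := min_le_left a 2
    have m2 := min_le_right a 2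
    rcases s_cases a with ⟨h1, h2, h3⟩ | ⟨h1, h1', h2, h3⟩ | ⟨h1, h1', h2, h3⟩ | ⟨h1, h2, h3⟩ <;>
    linarith

end Pool.Agent.Lib.MP_399f8e_an.Ur
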