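import Pool.Agent.Lib.MP_399f8e_an.Ur.Edge

open Set Filter Topology Metric Complex
open scoped Real
open Pool.Agent.Lib.MP_399f8e_an.Rg

noncomputable section

namespace Pool.Agent.Lib.MP_399f8e_an.Ur

namespace StuckAux

theorem dir_ne {d : ℂ} (h : Dir d) : d ≠ 0 := by
  intro h0
  have := h.norm
  rw [h0, norm_zero] at this
  exact zero_ne_one this

theorem far_mono {g g' : ℂ → ℂ} {a z w : ℂ} {ρ η : ℝ} (h : Far g g' a (ρ + η) z)
    (hw : ‖z - w‖ ≤ η) : Far g g' a ρ w := by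
  have key : ∀ b : ℂ, ρ + η ≤ ‖z - b‖ → ρ ≤ ‖w - b‖ := by
    intro b hb
    have h1 : ‖z - b‖ ≤ ‖z - w‖ + ‖w - b‖ := norm_sub_le_norm_sub_add_norm_sub z w b
    linarith
  exact ⟨key _ h.1, key _ h.2.1, key _ h.2.2.1, key _ h.2.2.2⟩

theorem far_le {g g' : ℂ → ℂ} {a z : ℂ} {ρ ρ' : ℝ} (h : Far g g' a ρ z) (hρ : ρ' ≤ ρ) :
    Far g g' a ρ' z :=
  ⟨hρ.trans h.1, hρ.trans h.2.1, hρ.trans h.2.2.1, hρ.trans h.2.2.2⟩

theorem norm_step {d : ℂ} (hd : Dir d) {x : ℝ} (hx : 0 ≤ x) : ‖(x : ℂ) * d‖ = x := by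
  rw [norm_mul, hd.norm, mul_one, Complex.norm_real, Real.norm_eq_abs, abs_of_nonneg hx]

theorem height_side {v u : ℂ} (hu : Dir u) (x : ℝ) :
    ((v + x * u) / (I * u)).re = (v / (I * u)).re := by
  have hu0 := dir_ne hu
  have : (v + x * u) / (I * u) = v / (I * u) + x * (-I) := by
    field_simp
    ring_nf
    rw [I_sq]
    ring
  rw [this]
  simp

theorem height_up {v u : ℂ} (hu : Dir u) (x : ℝ) :
    ((v + x * (I * u)) / (I * u)).re = (v / (I * u)).re + x := by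
  have hu0 := dir_ne hu
  have : (v + x * (I * u)) / (I * u) = v / (I * u) + x := by
    field_simp
  rw [this]
  simp

/-- one step backwards along the grid -/
theorem back {g : ℂ → ℂ} {ε l : ℝ} {k : ℝ → ℂ} (hε : 0 < ε) (hk : Arc g k l)
    (hg : ∀ p ∈ Icc 0 l, k p ∈ Grid ε) {s s₁ : ℝ} {v u : ℂ} (h0 : 0 ≤ s) (h1 : s₁ ≤ l)
    (hv : v ∈ Vtx ε) (hu : Dir u) (hS : Seg k s s₁ v u ε) (hf : ε < ‖v - k 0‖) :
    ∃ s₀ u₀, 0 ≤ s₀ ∧ Dir u₀ ∧ v - ε * u₀ ∈ Vtx ε ∧ Seg k s₀ s (v - ε * u₀) u₀ ε ∧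
      (GV ε k l s₀ s s₁ v u u₀ ∨ u = I * u₀) := by
  have hs : s ∈ Icc 0 l := ⟨h0, hS.lt.le.trans h1⟩
  have hks := hS.fst
  obtain ⟨s₀, u₀, hs₀, hu₀, hS₀⟩ :=
    edge_bwd hε hk.cont hk.inj hg hs (by rw [hks]; exact hv) (by rw [hks]; exact hf)
  rw [hks] at hS₀
  have hv₀ : v - ε * u₀ ∈ Vtx ε := by
    have := vtx_add hv hu₀ (-1)
    convert this using 1
    push_cast
    ring
  refine ⟨s₀, u₀, hs₀, hu₀, hv₀, hS₀, ?_⟩
  rcases hu.cases hu₀ with h | h | h | h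
  · exact Or.inl ⟨hs₀, h1, hv, hu, Or.inl h, hS₀, hS⟩
  · exact Or.inl ⟨hs₀, h1, hv, hu, Or.inr h, hS₀, hS⟩
  · exfalso
    have e : k s₀ = k s₁ := by
      rw [hS₀.fst, hS.snd, h]
      ring
    have := hk.inj ⟨hs₀, hS₀.lt.le.trans hs.2⟩ ⟨h0.trans hS.lt.le, h1⟩ e
    have h2 := hS₀.lt
    have h3 := hS.lt
    linarith
  · exact Or.inr h

/-- boundary of the square, in coordinates -/
def Bnd (x y : ℝ) : Prop :=
  -1000 ≤ x ∧ x ≤ 1000 ∧ -1000 ≤ y ∧ y ≤ 1000 ∧ (x = 1000 ∨ x = -1000 ∨ y = 1000 ∨ y = -1000)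

theorem bnd_of {z : ℂ} (h : z ∈ Om ∧ ∃ d, Dir d ∧ (z / d).re = 1000) : Bnd z.re z.im := by
  obtain ⟨⟨h1, h2⟩, d, hd, e⟩ := h
  rw [abs_le] at h1 h2
  refine ⟨h1.1, h1.2, h2.1, h2.2, ?_⟩
  rcases hd with rfl | rfl | rfl | rfl
  · left
    simpa using e
  · right; left
    have : -z.re = 1000 := by simpa [div_neg] using e
    linarith
  · right; right; left
    simpa [div_I] using e
  · right; right; right
    have : -z.im = 1000 := by simpa [div_neg, div_I] using e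
    linarith

theorem Bnd.neg_snd {x y : ℝ} (h : Bnd x y) : Bnd x (-y) := by
  obtain ⟨h1, h2, h3, h4, h5⟩ := h
  refine ⟨h1, h2, by linarith, by linarith, ?_⟩
  rcases h5 with h | h | h | h
  · exact Or.inl h
  · exact Or.inr (Or.inl h)
  · exact Or.inr (Or.inr (Or.inr (by linarith)))
  · exact Or.inr (Or.inr (Or.inl (by linarith)))

theorem Bnd.swap {x y : ℝ} (h : Bnd x y) : Bnd y x := by
  obtain ⟨h1, h2, h3, h4, h5⟩ := h
  refine ⟨h3, h4, h1, h2, ?_⟩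
  tauto

theorem Bnd.neg_fst {x y : ℝ} (h : Bnd x y) : Bnd (-x) y := h.swap.neg_snd.swap

theorem Bnd.rot {z d : ℂ} (h : Bnd z.re z.im) (hd : Dir d) : Bnd (z / d).re (z / d).im := by
  rcases hd with rfl | rfl | rfl | rfl
  · simpa using h
  · simpa [div_neg] using h.neg_fst.neg_snd
  · simpa [div_I] using h.swap.neg_snd
  · simpa [div_neg, div_I] using h.swap.neg_fst

theorem cls {c x y x' y' : ℝ} (hc : -1000 ≤ c) (h : Bnd x y) (h' : Bnd x' y')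
    (e : (x - 1000) ^ 2 + (y - c) ^ 2 = 25) (e' : (x' - 1000) ^ 2 + (y' - c) ^ 2 = 25)
    (A : c < y ∨ (y = c ∧ 0 ≤ c)) (A' : c < y' ∨ (y' = c ∧ 0 ≤ c)) : x = x' ∧ y = y' := by
  have red : ∀ x y : ℝ, Bnd x y → (x - 1000) ^ 2 + (y - c) ^ 2 = 25 →
      (c < y ∨ (y = c ∧ 0 ≤ c)) → (x = 1000 ∧ y = c + 5) ∨ y = 1000 := by
    intro x y h e A
    obtain ⟨h1, h2, h3, h4, h5⟩ := h
    have hy : c ≤ y := by
      rcases A with A | A
      · exact A.le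
      · exact A.1.ge
    rcases h5 with h | h | h | h
    · left
      refine ⟨h, ?_⟩
      rw [h] at e
      have : (y - c - 5) * (y - c + 5) = 0 := by nlinarith
      rcases mul_eq_zero.1 this with h6 | h6
      · linarith
      · linarith
    · exfalso
      rw [h] at e
      nlinarith [sq_nonneg (y - c)]
    · exact Or.inr h
    · exfalso
      rcases A with A | A
      · linarith
      · linarith [A.1, A.2]
  have mix : ∀ x y x' y' : ℝ, Bnd x y → (x' - 1000) ^ 2 + (y' - c) ^ 2 = 25 →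
      x = 1000 → y = c + 5 → y' = 1000 → x = x' ∧ y = y' := by
    intro x y x' y' h e' a1 a2 a3
    have h4 := h.2.2.2.1
    rw [a3] at e'
    have h5 : 5 ≤ 1000 - c := by linarith
    have h6 : (x' - 1000) ^ 2 ≤ 0 := by nlinarith
    have h7 : x' - 1000 = 0 := by
      have := le_antisymm h6 (sq_nonneg _)
      exact pow_eq_zero_iff (two_ne_zero) |>.1 this
    have h8 : 1000 - c ≤ 5 := by nlinarith [sq_nonneg (x' - 1000)]
    constructor <;> linarith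
  rcases red x y h e A with ⟨a1, a2⟩ | a <;> rcases red x' y' h' e' A' with ⟨b1, b2⟩ | b
  · constructor <;> linarith
  · exact mix x y x' y' h e' a1 a2 b
  · have := mix x' y' x y h' e b1 b2 a
    exact ⟨this.1.symm, this.2.symm⟩
  · refine ⟨?_, a.trans b.symm⟩
    rw [a] at e
    rw [b] at e'
    have h1 := h.2.1
    have h2 := h'.2.1
    have : (x - x') * ((1000 - x) + (1000 - x')) = 0 := by nlinarith
    rcases mul_eq_zero.1 this with h6 | h6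
    · linarith
    · linarith

theorem cls' {c x y x' y' : ℝ} (hc : c ≤ 1000) (h : Bnd x y) (h' : Bnd x' y')
    (e : (x - 1000) ^ 2 + (y - c) ^ 2 = 25) (e' : (x' - 1000) ^ 2 + (y' - c) ^ 2 = 25)
    (A : y < c ∨ (y = c ∧ c ≤ 0)) (A' : y' < c ∨ (y' = c ∧ c ≤ 0)) : x = x' ∧ y = y' := by
  have key : ∀ y : ℝ, (y < c ∨ (y = c ∧ c ≤ 0)) → (-c < -y ∨ (-y = -c ∧ 0 ≤ -c)) := by
    intro y A
    rcases A with A | A
    · left; linarith
    · right; constructor <;> linarith [A.1, A.2]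
  have := cls (c := -c) (by linarith) h.neg_snd h'.neg_snd (by linarith) (by linarith)
    (key y A) (key y' A')
  exact ⟨this.1, by linarith [this.2]⟩

theorem two_cls (c y : ℝ) : (c < y ∨ (y = c ∧ 0 ≤ c)) ∨ (y < c ∨ (y = c ∧ c ≤ 0)) := by
  rcases lt_trichotomy c y with h | h | h
  · exact Or.inl (Or.inl h)
  · rcases le_total 0 c with h' | h'
    · exact Or.inl (Or.inr ⟨h.symm, h'⟩)
    · exact Or.inr (Or.inr ⟨h.symm, h'⟩)
  · exact Or.inr (Or.inl h)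

theorem pick {d : ℝ} (hd : 0 < d) (m n : ℝ) :
    ∃ x : ℝ, d / 11 ≤ x ∧ x ≤ d - d / 11 ∧ d / 11 ≤ |x - m| ∧ d / 11 ≤ |x - n| := by
  by_contra hcon
  push Not at hcon
  have key : ∀ x : ℝ, d / 11 ≤ x → x ≤ d - d / 11 →
      (x - d / 11 < m ∧ m < x + d / 11) ∨ (x - d / 11 < n ∧ n < x + d / 11) := by
    intro x h1 h2
    rcases lt_or_ge |x - m| (d / 11) with h | h
    · rw [abs_lt] at h
      left
      constructor <;> linarith [h.1, h.2]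
    · have := hcon x h1 h2 h
      rw [abs_lt] at this
      right
      constructor <;> linarith [this.1, this.2]
  rcases key (d / 10) (by linarith) (by linarith) with a | a <;>
    rcases key (3 * d / 10) (by linarith) (by linarith) with b | b <;>
      rcases key (5 * d / 10) (by linarith) (by linarith) with c | c <;>
        linarith [a.1, a.2, b.1, b.2, c.1, c.2]

end StuckAux

open StuckAux

theorem stuck {g g' : ℂ → ℂ} {ε ρ l : ℝ} {k : ℝ → ℂ} (hε : 0 < ε) (hρ : 0 ≤ ρ) (hk : Arc g k l)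
    (hg : ∀ p ∈ Icc 0 l, k p ∈ Grid ε ∧ k p ∈ Om)
    (hst : ∀ s₀ s s₁ v u u₀, GV ε k l s₀ s s₁ v u u₀ → Far g g' (k 0) ρ v →
      (v / (I * u)).re = 1000) :
    ∀ p ∈ Icc 0 l, Far g g' (k 0) (ρ + 5 * ε) (k p) → ∃ s₀ s s₁ v u u₀, GV ε k l s₀ s s₁ v u u₀ ∧
      ‖k p - v‖ ≤ ε ∧ (v / (I * u)).re = 1000 ∧ (k p / (I * u)).re = 1000 := by
  intro p hp hF
  have hgr : ∀ p ∈ Icc 0 l, k p ∈ Grid ε := fun p hp => (hg p hp).1
  obtain ⟨s, s₁, v, u, h0, hsp, hps, h1, hv, hu, hS⟩ :=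
    edge_at hε hk.cont hk.inj hgr hp (by linarith [hF.1])
      (by rw [hk.last]; linarith [hF.2.1])
  obtain ⟨x, hx, hkp⟩ := hS.mem p ⟨hsp, hps⟩
  have hpv : ‖k p - v‖ ≤ ε := by
    rw [hkp, add_sub_cancel_left, norm_step hu hx.1]
    exact hx.2
  have hF0 : Far g g' (k 0) (ρ + 4 * ε) v :=
    far_mono (η := ε) (by convert hF using 1; ring) hpv
  obtain ⟨t₁, u₁, ht₁, hu₁, hv₁, hS₁, hc₁⟩ :=
    back hε hk hgr h0 h1 hv hu hS (by linarith [hF0.1])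
  rcases hc₁ with hc₁ | hc₁
  · have e := hst _ _ _ _ _ _ hc₁ (far_le hF0 (by linarith))
    exact ⟨t₁, s, s₁, v, u, u₁, hc₁, hpv, e, by rw [hkp, height_side hu, e]⟩
  exfalso
  have hsl : s ≤ l := hS.lt.le.trans h1
  have hF1 : Far g g' (k 0) (ρ + 3 * ε) (v - ε * u₁) :=
    far_mono (η := ε) (by convert hF0 using 1; ring)
      (by rw [sub_sub_cancel, norm_step hu₁ hε.le])
  obtain ⟨t₂, u₂, ht₂, hu₂, hv₂, hS₂, hc₂⟩ :=
    back hε hk hgr ht₁ hsl hv₁ hu₁ hS₁ (by linarith [hF1.1])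
  rcases hc₂ with hc₂ | hc₂
  · have e := hst _ _ _ _ _ _ hc₂ (far_le hF1 (by linarith))
    have hO := mem_Om.1 (hg s₁ ⟨h0.trans hS.lt.le, h1⟩).2 _ hu₁.mulI
    have e2 : k s₁ = (v - ε * u₁ + ε * u₁) + ε * (I * u₁) := by
      rw [hS.snd, hc₁]
      ring
    rw [e2, height_up hu₁, height_side hu₁, e] at hO
    linarith
  have ht₁l : t₁ ≤ l := hS₁.lt.le.trans hsl
  have hF2 : Far g g' (k 0) (ρ + 2 * ε) (v - ε * u₁ - ε * u₂) :=
    far_mono (η := ε) (by convert hF1 using 1; ring)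
      (by rw [sub_sub_cancel, norm_step hu₂ hε.le])
  obtain ⟨t₃, u₃, ht₃, hu₃, -, hS₃, hc₃⟩ :=
    back hε hk hgr ht₂ ht₁l hv₂ hu₂ hS₂ (by linarith [hF2.1])
  rcases hc₃ with hc₃ | hc₃
  · have e := hst _ _ _ _ _ _ hc₃ (far_le hF2 (by linarith))
    have hO := mem_Om.1 (hg s ⟨h0, hsl⟩).2 _ hu₂.mulI
    have e2 : k s = (v - ε * u₁ - ε * u₂ + ε * u₂) + ε * (I * u₂) := by
      rw [hS.fst, ← hc₂]
      ring
    rw [e2, height_up hu₂, height_side hu₂, e] at hO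
    linarith
  have e : k t₃ = k s₁ := by
    rw [hS₃.fst, hS.snd, hc₁, hc₂, hc₃]
    linear_combination (-(ε : ℂ) * u₃ - ε * I * u₃) * I_mul_I
  have l3 := hS₃.lt
  have l2 := hS₂.lt
  have l1 := hS₁.lt
  have l0 := hS.lt
  have := hk.inj ⟨ht₃, by linarith⟩ ⟨by linarith, h1⟩ e
  linarith

theorem three_pts {v z₁ z₂ z₃ : ℂ} (hv : v ∈ Om ∧ ∃ d, Dir d ∧ (v / d).re = 1000)
    (h₁ : z₁ ∈ Om ∧ ∃ d, Dir d ∧ (z₁ / d).re = 1000) (h₂ : z₂ ∈ Om ∧ ∃ d, Dir d ∧ (z₂ / d).re = 1000)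
    (h₃ : z₃ ∈ Om ∧ ∃ d, Dir d ∧ (z₃ / d).re = 1000) (e₁ : ‖z₁ - v‖ = 5) (e₂ : ‖z₂ - v‖ = 5)
    (e₃ : ‖z₃ - v‖ = 5) : z₁ = z₂ ∨ z₁ = z₃ ∨ z₂ = z₃ := by
  have bv := bnd_of hv
  obtain ⟨-, d, hd, hvd⟩ := hv
  have hd0 := dir_ne hd
  have bv' := bv.rot hd
  have b₁ := (bnd_of h₁).rot hd
  have b₂ := (bnd_of h₂).rot hd
  have b₃ := (bnd_of h₃).rot hd
  have sq : ∀ z : ℂ, ‖z - v‖ = 5 →
      ((z / d).re - 1000) ^ 2 + ((z / d).im - (v / d).im) ^ 2 = 25 := by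
    intro z e
    have e' : ‖z / d - v / d‖ = 5 := by rw [← sub_div, norm_div, hd.norm, div_one, e]
    have e2 := Complex.sq_norm (z / d - v / d)
    rw [e', normSq_apply, sub_re, sub_im, hvd] at e2
    nlinarith
  have fin : ∀ z z' : ℂ, (z / d).re = (z' / d).re ∧ (z / d).im = (z' / d).im → z = z' := by
    intro z z' h
    exact (div_left_inj' hd0).1 (Complex.ext h.1 h.2)
  have f₁ := sq z₁ e₁
  have f₂ := sq z₂ e₂
  have f₃ := sq z₃ e₃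
  have lo := bv'.2.2.1
  have hi := bv'.2.2.2.1
  rcases two_cls (v / d).im (z₁ / d).im with a₁ | a₁ <;>
    rcases two_cls (v / d).im (z₂ / d).im with a₂ | a₂
  · exact Or.inl (fin _ _ (cls lo b₁ b₂ f₁ f₂ a₁ a₂))
  · rcases two_cls (v / d).im (z₃ / d).im with a₃ | a₃
    · exact Or.inr (Or.inl (fin _ _ (cls lo b₁ b₃ f₁ f₃ a₁ a₃)))
    · exact Or.inr (Or.inr (fin _ _ (cls' hi b₂ b₃ f₂ f₃ a₂ a₃)))
  · rcases two_cls (v / d).im (z₃ / d).im with a₃ | a₃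
    · exact Or.inr (Or.inr (fin _ _ (cls lo b₂ b₃ f₂ f₃ a₂ a₃)))
    · exact Or.inr (Or.inl (fin _ _ (cls' hi b₁ b₃ f₁ f₃ a₁ a₃)))
  · exact Or.inl (fin _ _ (cls' hi b₁ b₂ f₁ f₂ a₁ a₂))

theorem exists_far {g g' : ℂ → ℂ} {d l : ℝ} {k : ℝ → ℂ} (hd : 0 < d) (hk : Arc g k l)
    (hlow : d ≤ ‖g (k 0) - k 0‖) : ∃ p ∈ Icc 0 l, Far g g' (k 0) (d / 11) (k p) := by
  obtain ⟨x, h1, h2, h3, h4⟩ := pick hd ‖g (g (k 0)) - k 0‖ ‖g' (k 0) - k 0‖
  have hc : ContinuousOn (fun p => ‖k p - k 0‖) (Icc 0 l) :=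
    ((hk.cont.sub continuous_const).norm).continuousOn
  have hx : x ∈ Icc ((fun p => ‖k p - k 0‖) 0) ((fun p => ‖k p - k 0‖) l) := by
    constructor
    · simp only [sub_self, norm_zero]
      linarith
    · simp only [hk.last]
      linarith
  obtain ⟨p, hp, hpx⟩ := intermediate_value_Icc hk.pos.le hc hx
  have hpx' : ‖k p - k 0‖ = x := hpx
  have key : ∀ b : ℂ, d / 11 ≤ |x - ‖b - k 0‖| → d / 11 ≤ ‖k p - b‖ := by
    intro b hb
    have := abs_norm_sub_norm_le (k p - k 0) (b - k 0)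
    rw [hpx', sub_sub_sub_cancel_right] at this
    linarith
  refine ⟨p, hp, by rw [hpx']; exact h1, key _ ?_, key _ h3, key _ h4⟩
  rw [abs_sub_comm]
  exact le_trans (by linarith) (le_abs_self _)

end Pool.Agent.Lib.MP_399f8e_an.Ur
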