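import Pool.Agent.Lib.MP_399f8e_an.Ur.GMove
import Pool.Agent.Lib.MP_399f8e_an.Ur.Stuck
import Pool.Agent.Lib.MP_399f8e_an.Ur.Paths

open Set Filter Topology Metric Complex
open scoped Real
open Pool.Agent.Lib.MP_399f8e_an.Rg

noncomputable section

namespace Pool.Agent.Lib.MP_399f8e_an.Ur

namespace LastAux

theorem om_norm {z : ℂ} (h : z ∈ Om) : ‖z‖ ≤ 1415 := by
  obtain ⟨h1, h2⟩ := h
  refine le_of_sq_le_sq (a := ‖z‖) ?_ (by norm_num)
  rw [Complex.sq_norm, Complex.normSq_apply]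
  nlinarith [abs_mul_abs_self z.re, abs_mul_abs_self z.im, abs_nonneg z.re, abs_nonneg z.im]

theorem re_div_le {z d : ℂ} (hd : ‖d‖ = 1) : (z / d).re ≤ ‖z‖ := by
  have h := Complex.re_le_norm (z / d)
  rwa [norm_div, hd, div_one] at h

theorem far_mono {g g' : ℂ → ℂ} {a z z' : ℂ} {ρ ρ' : ℝ} (h : Far g g' a ρ z)
    (hz : ρ' + ‖z - z'‖ ≤ ρ) : Far g g' a ρ' z' := by
  have k : ∀ b : ℂ, ρ ≤ ‖z - b‖ → ρ' ≤ ‖z' - b‖ := fun b hb => by
    have := norm_sub_le_norm_sub_add_norm_sub z z' b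
    linarith
  exact ⟨k _ h.1, k _ h.2.1, k _ h.2.2.1, k _ h.2.2.2⟩

theorem far_of {g g' : ℂ → ℂ} {R : ℝ} (hT : Top g g' R) {a z : ℂ} {ρ : ℝ}
    (h : ρ + 2 ≤ ‖z - a‖) : Far g g' a ρ z := by
  have k : ∀ b : ℂ, ‖b - a‖ ≤ 2 → ρ ≤ ‖z - b‖ := fun b hb => by
    have := norm_sub_le_norm_sub_add_norm_sub z b a
    linarith
  refine ⟨by linarith, k _ (by linarith [hT.near a]), k _ ?_, k _ (by linarith [hT.near' a])⟩
  have := norm_sub_le_norm_sub_add_norm_sub (g (g a)) (g a) a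
  linarith [hT.near a, hT.near (g a)]

theorem up {f : ℝ → ℝ} (hf : Continuous f) {a b : ℝ} (hab : a ≤ b) (ha : f a < 5) (hb : 5 < f b) :
    ∃ p ∈ Ioo a b, f p = 5 :=
  intermediate_value_Ioo hab hf.continuousOn ⟨ha, hb⟩

theorem down {f : ℝ → ℝ} (hf : Continuous f) {a b : ℝ} (hab : a ≤ b) (ha : 5 < f a)
    (hb : f b < 5) : ∃ p ∈ Ioo a b, f p = 5 :=
  intermediate_value_Ioo' hab hf.continuousOn ⟨hb, ha⟩

end LastAux

open LastAux in
theorem last_move {g g' : ℂ → ℂ} {P : (ℝ → ℂ) → ℝ → ℝ} {ε d t e δ l : ℝ} {n : ℕ} {k : ℝ → ℂ}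
    (hT : Top g g' 2995) (hn : n * ε = 1) (hε : 0 < ε) (hF : Fine g g' 3000 d t e)
    (hd : ε ≤ d / 1000)
    (hmove : ∀ (k σ : ℝ → ℂ) (l s₀ s s₁ T : ℝ) (v u u₀ : ℂ), GArc g ε 2000 k l →
      GV ε k l s₀ s s₁ v u u₀ → Far g g' (k 0) (d / 15) v → Continuous σ → 0 < T →
      InjOn σ (Icc 0 T) → (∀ x ∈ Icc (0 : ℝ) ε, σ x = v + x * (I * u)) →
      (∀ x ∈ Icc 0 T, σ x ∈ Grid ε ∧ ‖σ x‖ ≤ 2000) →
      (∀ x ∈ Icc 0 T, ∀ y ∈ Ioo (0 : ℝ) ε, σ x ≠ v + y * u ∧ σ x ≠ v - y * u₀) →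
      (∀ x ∈ Icc 0 T, ‖σ x - v‖ < d / 10 → ∀ y ∈ Icc 0 x, ‖σ y - v‖ < d / 10) →
      ((∃ x ∈ Ioc 0 T, σ x ∈ k '' Icc 0 l) ∨ ∃ x ∈ Icc 0 T, ∃ y ∈ Icc 0 T, σ x = g (σ y)) →
      ∃ κ l', Arc g κ l' ∧ Shape g g' k l s σ T κ l' ∧ P k l + δ ≤ P κ l')
    (hk : Arc g k l) (hg : ∀ p ∈ Icc 0 l, k p ∈ Grid ε ∧ k p ∈ Om)
    (hst : ∀ s₀ s s₁ v u u₀, GV ε k l s₀ s s₁ v u u₀ → Far g g' (k 0) (d / 15) v →
      (v / (I * u)).re = 1000) :
    ∃ κ l' v, GArc g ε 2000 κ l' ∧ 1000 ≤ ‖v‖ ∧ ‖v‖ ≤ 1415 ∧ (∀ p ∈ Icc 0 l', ‖κ p - v‖ ≤ 100) ∧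
      P k l + δ ≤ P κ l' := by
  have hd0 : 0 < d := by linarith
  have hd1 : d ≤ 1 := (hF.low 0 (by simp)).trans (hT.near 0)
  have h0 : (0 : ℝ) ∈ Icc 0 l := ⟨le_rfl, hk.pos.le⟩
  have hs := stuck hε (ρ := d / 15) (by positivity) hk hg hst
  obtain ⟨p, hp, hfar, hcase⟩ : ∃ p ∈ Icc 0 l, Far g g' (k 0) (d / 11) (k p) ∧
      (‖k p - k 0‖ = 45 ∨ ∀ q ∈ Icc 0 l, ‖k q - k 0‖ ≤ 45) := by
    by_cases h : ∀ q ∈ Icc 0 l, ‖k q - k 0‖ ≤ 45
    · obtain ⟨p, hp, hf⟩ := exists_far (g' := g') hd0 hk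
        (hF.low _ ((om_norm (hg 0 h0).2).trans (by norm_num)))
      exact ⟨p, hp, hf, Or.inr h⟩
    · push Not at h
      obtain ⟨q, hq, hq'⟩ := h
      have hc : Continuous fun x => ‖k x - k 0‖ := (hk.cont.sub continuous_const).norm
      obtain ⟨p, hp, e⟩ := intermediate_value_Icc hq.1 hc.continuousOn
        (show (45 : ℝ) ∈ Icc _ _ from ⟨by simp, hq'.le⟩)
      have e' : ‖k p - k 0‖ = 45 := e
      exact ⟨p, ⟨hp.1, hp.2.trans hq.2⟩, far_of hT (by linarith), Or.inl e'⟩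
  obtain ⟨s₀, s, s₁, v, u, u₀, hV, hpv, hh, -⟩ := hs p hp (far_mono hfar (by simp; linarith))
  have hsI : s ∈ Icc 0 l := ⟨hV.h0.trans hV.inn.lt.le, hV.out.lt.le.trans hV.h1⟩
  have hks : k s = v := hV.out.fst
  have hvO : v ∈ Om := hks ▸ (hg s hsI).2
  have hvn := om_norm hvO
  have hD : Dir (I * u) := hV.du.mulI
  have hu0 : u ≠ 0 := norm_ne_zero_iff.1 (by rw [hV.du.norm]; norm_num)
  obtain ⟨σ, T, hT0, hσc, hσi, hray, hσ, hit⟩ := exists_sq hT hn hV.vt hD (by linarith)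
  have height : ∀ x ∈ Icc 0 T, 1000 + min x 2 ≤ (σ x / (I * u)).re := by
    intro x hx
    have a1 := (hσ x hx).2.2
    rw [sub_div, Complex.sub_re, hh] at a1
    linarith
  have out : ∀ x ∈ Icc 0 T, (σ x / (I * u)).re ≤ 1000 → σ x = v := by
    intro x hx h
    have a1 := height x hx
    have a2 : x = 0 := by
      by_contra hne
      have : 0 < min x 2 := lt_min (lt_of_le_of_ne hx.1 (Ne.symm hne)) two_pos
      linarith
    rw [a2, hray 0 ⟨le_rfl, by norm_num⟩]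
    simp
  have rayn : ∀ x ∈ Icc (0 : ℝ) 2, ‖σ x - v‖ = x := by
    intro x hx
    rw [hray x hx, add_sub_cancel_left, norm_mul, hD.norm, mul_one, Complex.norm_real,
      Real.norm_of_nonneg hx.1]
  obtain ⟨κ, l', hκ, ⟨r₁, hr₁, r₂, hr₂, him, hsh⟩, hP⟩ := hmove k σ l s₀ s s₁ T v u u₀
    ⟨hk, fun q hq => (hg q hq).1, fun q hq => (om_norm (hg q hq).2).trans (by norm_num)⟩ hV
    (far_mono hfar (by linarith)) hσc hT0 hσi
    (fun x hx => hray x ⟨hx.1, hx.2.trans (by linarith)⟩)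
    (fun x hx => ⟨(hσ x hx).1, by
      have := norm_sub_norm_le (σ x) v
      linarith [(hσ x hx).2.1]⟩)
    (fun x hx y hy => by
      have hy0 : (y : ℂ) ≠ 0 := Complex.ofReal_ne_zero.2 hy.1.ne'
      constructor
      · intro e
        have a1 : (σ x / (I * u)).re ≤ 1000 := by
          have : (y : ℂ) * u / (I * u) = -(y * I) := by field_simp; simp
          rw [e, add_div, Complex.add_re, hh, this]
          simp
        rw [out x hx a1] at e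
        exact mul_ne_zero hy0 hu0 (left_eq_add.1 e)
      · intro e
        have a0 : u₀ ≠ 0 := by
          rcases hV.turn with h | h <;> rw [h]
          · exact hu0
          · exact mul_ne_zero I_ne_zero hu0
        have a1 : (σ x / (I * u)).re ≤ 1000 := by
          rw [e, sub_div, Complex.sub_re, hh]
          rcases hV.turn with h | h <;> rw [h]
          · have : (y : ℂ) * u / (I * u) = -(y * I) := by field_simp; simp
            rw [this]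
            simp
          · rw [mul_div_cancel_right₀ _ (mul_ne_zero I_ne_zero hu0), Complex.ofReal_re]
            linarith [hy.1]
        rw [out x hx a1] at e
        exact mul_ne_zero hy0 a0 (sub_eq_self.1 e.symm))
    (fun x hx h y hy => by
      have a1 := (hσ x hx).2.2.trans (re_div_le hD.norm)
      have a2 : x < d / 10 := by
        rcases min_cases x 2 with a | a <;> linarith [a.1]
      rw [rayn y ⟨hy.1, by linarith [hy.2]⟩]
      linarith [hy.2])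
    (Or.inr hit)
  have hsub : Icc r₁ r₂ ⊆ Icc 0 l := Icc_subset_Icc hr₁.1 hr₂.2
  have key : ∀ q ∈ Icc r₁ r₂, ‖k q - v‖ ≤ 100 := by
    rcases hcase with h45 | hall
    · rcases hsh with ⟨x, hx, q, hq, e⟩ | ⟨e₁, e₂⟩
      · have a1 := out x ⟨hx.1.le, hx.2⟩ (e ▸ mem_Om.1 (hg q hq).2 _ hD)
        have a2 : σ 0 = v := by rw [hray 0 ⟨le_rfl, by norm_num⟩]; simp
        exact absurd (hσi ⟨hx.1.le, hx.2⟩ ⟨le_rfl, hT0.le⟩ (a1.trans a2.symm)) hx.1.ne'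
      have two : ∀ r ∈ Icc 0 l, ∀ x ∈ Icc 0 T, ‖σ x - k r‖ ≤ 1 → ‖k r - v‖ < 5 := by
        intro r hr x hx h
        have a1 := height x hx
        have a2 := mem_Om.1 (hg r hr).2 _ hD
        have a3 := re_div_le (z := σ x - k r) hD.norm
        rw [sub_div, Complex.sub_re] at a3
        have a4 : x ≤ 1 := by
          rcases min_cases x 2 with a | a <;> linarith [a.1]
        have a5 := rayn x ⟨hx.1, by linarith⟩
        have a6 := norm_sub_le_norm_sub_add_norm_sub (k r) (σ x) v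
        rw [norm_sub_rev (k r) (σ x)] at a6
        linarith
      have c0 : ‖k s - v‖ < 5 := by rw [hks]; simp
      have c1 : ‖k r₁ - v‖ < 5 := by
        rcases e₁ with e | ⟨x, hx, e⟩
        · rwa [e]
        · exact two r₁ ⟨hr₁.1, hr₁.2.trans hsI.2⟩ x hx (e ▸ hT.near _)
      have c2 : ‖k r₂ - v‖ < 5 := by
        rcases e₂ with e | ⟨x, hx, e⟩
        · rwa [e]
        · exact two r₂ ⟨hsI.1.trans hr₂.1, hr₂.2⟩ x hx (e ▸ hT.near' _)
      have c3 : 44 ≤ ‖k 0 - v‖ := by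
        have a := norm_sub_le_norm_sub_add_norm_sub (k p) v (k 0)
        rw [norm_sub_rev v] at a
        linarith
      have c4 : 43 ≤ ‖k l - v‖ := by
        have a := norm_sub_le_norm_sub_add_norm_sub (k 0) (k l) v
        have b := hT.near (k 0)
        rw [← hk.last, norm_sub_rev] at b
        linarith
      have hc : Continuous fun x => ‖k x - v‖ := (hk.cont.sub continuous_const).norm
      have bdy : ∀ q ∈ Icc 0 l, ‖k q - v‖ = 5 → k q ∈ Om ∧ ∃ d, Dir d ∧ (k q / d).re = 1000 := by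
        intro q hq e
        have a := norm_sub_le_norm_sub_add_norm_sub (k 0) (k q) v
        rw [norm_sub_rev (k 0) (k q)] at a
        obtain ⟨_, _, _, _, w, _, hW, -, -, hw⟩ := hs q hq (far_of hT (by linarith))
        exact ⟨(hg q hq).2, _, hW.du.mulI, hw⟩
      have three : ∀ p₁ p₂ p₃, 0 ≤ p₁ → p₁ < p₂ → p₂ < p₃ → p₃ ≤ l → ‖k p₁ - v‖ = 5 →
          ‖k p₂ - v‖ = 5 → ‖k p₃ - v‖ = 5 → False := by
        intro p₁ p₂ p₃ a1 a2 a3 a4 b1 b2 b3
        have m1 : p₁ ∈ Icc 0 l := ⟨a1, by linarith⟩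
        have m2 : p₂ ∈ Icc 0 l := ⟨by linarith, by linarith⟩
        have m3 : p₃ ∈ Icc 0 l := ⟨by linarith, a4⟩
        rcases three_pts ⟨hvO, _, hD, hh⟩ (bdy _ m1 b1) (bdy _ m2 b2) (bdy _ m3 b3) b1 b2 b3 with
          e | e | e
        · exact a2.ne (hk.inj m1 m2 e)
        · exact (a2.trans a3).ne (hk.inj m1 m3 e)
        · exact a3.ne (hk.inj m2 m3 e)
      intro q hq
      by_contra hbig
      have hq5 : 5 < ‖k q - v‖ := by linarith [lt_of_not_ge hbig]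
      obtain ⟨p₀, m0, b0⟩ := down hc hr₁.1 (by linarith) c1
      obtain ⟨p₁, m1, b1⟩ := up hc hq.1 c1 hq5
      obtain ⟨p₂, m2, b2⟩ := down hc hq.2 hq5 c2
      exact three p₀ p₁ p₂ m0.1.le (m0.2.trans m1.1) (m1.2.trans m2.1) (m2.2.le.trans hr₂.2)
        b0 b1 b2
    · intro q hq
      have a := norm_sub_le_norm_sub_add_norm_sub (k q) (k 0) v
      have b := hall s hsI
      rw [hks, norm_sub_rev] at b
      linarith [hall q (hsub hq)]
  have fin : ∀ q ∈ Icc 0 l', κ q ∈ Grid ε ∧ ‖κ q - v‖ ≤ 100 := by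
    intro q hq
    rcases him ⟨q, hq, rfl⟩ with ⟨r, hr, e⟩ | ⟨x, hx, e⟩
    · exact e ▸ ⟨(hg r (hsub hr)).1, key r hr⟩
    · exact e ▸ ⟨(hσ x hx).1, (hσ x hx).2.1.trans (by norm_num)⟩
  refine ⟨κ, l', v, ⟨hκ, fun q hq => (fin q hq).1, fun q hq => ?_⟩, hh ▸ re_div_le hD.norm, hvn,
    fun q hq => (fin q hq).2, hP⟩
  have := norm_sub_norm_le (κ q) v
  linarith [(fin q hq).2]

end Pool.Agent.Lib.MP_399f8e_an.Ur
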