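import Pool.Agent.Lib.MP_399f8e_an.Ur.Atl
import Pool.Agent.Lib.MP_399f8e_an.Ur.Final
import Pool.Agent.Lib.MP_399f8e_an.Ur.Frame
import Pool.Agent.Lib.MP_399f8e_an.Ur.BoxEx

open Set Filter Topology Metric Complex
open scoped Real
open Pool.Agent.Lib.MP_399f8e_an.Rg

noncomputable section

namespace Pool.Agent.Lib.MP_399f8e_an.Ur

variable {φ : ℝ → S → S} {X : S → E} {m M L : ℝ}

theorem main (h : FD φ X m M L) (aper : ∀ x t, φ t x = x → t = 0)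
    (hmin : ∀ x, Dense (range fun t : ℝ => φ t x)) (ε : ℝ) (hε : 0 < ε) :
    ∃ η : ℝ, 0 < η ∧ ∀ τ : S → ℝ, Continuous τ → (∀ x, ‖(φ (τ x) x : E) - x‖ ≤ η) →
      ∀ x, |τ x| ≤ ε := by
  by_contra hcon
  have bad : ∀ η : ℝ, 0 < η → ∃ τ : S → ℝ, Continuous τ ∧ (∀ x, ‖(φ (τ x) x : E) - x‖ ≤ η) ∧
      ∃ x, ε < |τ x| := by
    intro η hη
    by_contra hn
    refine hcon ⟨η, hη, fun τ h1 h2 x => ?_⟩
    by_contra hx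
    exact hn ⟨τ, h1, h2, x, lt_of_not_ge hx⟩
  obtain ⟨η₀, hη₀, H₀⟩ := exists_frame2 h aper ε hε
  obtain ⟨τ₀, a1, a2, a3⟩ := bad η₀ hη₀
  obtain ⟨u, n, hu, hn, hF⟩ := H₀ τ₀ a1 a2 a3
  obtain ⟨lam, δ, Y, pr, T, hδ, hB⟩ := exists_box h hu hn hF ε hε
  obtain ⟨η₁, hη₁, H₁⟩ := exists_rt h.toIsFl hB
  obtain ⟨τ, b1, b2, x, b3⟩ := bad η₁ hη₁
  obtain ⟨g', ν, hA⟩ := exists_atlas h.toIsFl aper hmin hB (H₁ τ b1 b2 ⟨x, hδ.trans b3.le⟩)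
  exact no_atlas hA

end Pool.Agent.Lib.MP_399f8e_an.Ur
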