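import Pool.Agent.Lib.MP_399f8e_an.Ur.Glob
import Pool.Agent.Lib.MP_399f8e_an.Ur.Conj
import Pool.Agent.Lib.MP_399f8e_an.Ur.GMove

open Set Filter Topology Metric Complex
open scoped Real
open Pool.Agent.Lib.MP_399f8e_an.Rg

noncomputable section

namespace Pool.Agent.Lib.MP_399f8e_an.Ur

variable {lam : ℝ} {Y : S → ℂ → S} {γ : S → S → ℂ → ℂ} {g g' : S → ℂ → ℂ}
  {ν : S → (ℂ → ℝ) → ℝ} {Z : S → Set ℂ}

theorem regrid (hA : Atlas lam Y γ g g' ν Z) {P : S → (ℝ → ℂ) → ℝ → ℝ}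
    (hP : ∀ i j, dist i j ≤ 4000 * lam → ∀ (k k₂ : ℝ → ℂ) (l : ℝ), Tame (Z i) 20000 k l →
      k l = g i (k 0) → Continuous k₂ → (∀ t ∈ Icc 0 l, k₂ t = γ i j (k t)) → P i k l = P j k₂ l)
    {ε : ℝ} (hε : 0 < ε) {i j : S} {ψ ψ' : ℂ ≃ₜ ℂ} {o c v : ℂ} (ho : ‖o‖ ≤ 1) (hc : c ∈ Vtx ε)
    (h1 : NearI ψ univ (1 / 10)) (h2 : ∀ x, ‖ψ x - x‖ ≤ 5) (h3 : ∀ x, 400 ≤ ‖x‖ → ψ x = x - o)
    (hZ : ∀ z ∈ Z i, ψ z ∉ Grid ε) (h2' : ∀ x, ‖ψ' x - x‖ ≤ 5)
    (h3' : ∀ x, ‖x‖ ≤ 150 → ψ' x = γ j i x - c - o) (hv : 1000 ≤ ‖v‖) (hv' : ‖v‖ ≤ 1415)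
    (hj : dist (Y i v) j ≤ lam) {κ : ℝ → ℂ} {l : ℝ}
    (hκ : GArc (fun z => ψ (g i (ψ.symm z))) ε 2000 κ l) (hb : ∀ p ∈ Icc 0 l, ‖κ p - v‖ ≤ 100) :
    GArc (fun z => ψ' (g j (ψ'.symm z))) ε 200 (fun t => κ t - c) l ∧
      P j (fun t => ψ'.symm (κ t - c)) l = P i (fun t => ψ.symm (κ t)) l := by
  have hl := hA.lam_pos
  have hG := hA.good i
  have hY := hA.Ynear i v
  have hd : dist i j ≤ 4000 * lam := by
    have h := dist_triangle_left i j (Y i v)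
    have : 2 * lam * ‖v‖ ≤ 2 * lam * 1415 := mul_le_mul_of_nonneg_left hv' (by positivity)
    linarith
  have hd' : dist i j ≤ 8000 * lam := by linarith
  have hd'' : dist j i ≤ 8000 * lam := by rwa [dist_comm]
  have hγv : ‖γ i j v‖ ≤ 2 := by
    have h := hA.bd i j hd' v (by linarith)
    exact le_of_mul_le_mul_left (by linarith) hl
  have big : ∀ y : ℂ, ‖y - v‖ ≤ 102 → 400 ≤ ‖y‖ ∧ ‖y‖ ≤ 1517 := by
    intro y hy
    have a1 := norm_sub_norm_le y v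
    have a2 := norm_sub_norm_le v y
    rw [norm_sub_rev] at a2
    constructor <;> linarith
  have small : ∀ y : ℂ, ‖y - v‖ ≤ 102 → ‖γ i j y‖ ≤ 105 := by
    intro y hy
    have a1 := hA.near i j hd' y (by simpa using (big y hy).2.trans (by norm_num)) v
      (by simpa using hv'.trans (by norm_num))
    have e : γ i j y = (γ i j y - γ i j v - (y - v)) + (y - v) + γ i j v := by ring
    rw [e]
    refine norm_add₃_le.trans ?_
    linarith
  have new : ∀ y : ℂ, ‖y - v‖ ≤ 102 → ψ' (γ i j y) = y - c - o := by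
    intro y hy
    have a1 := (big y hy).2
    rw [h3' _ ((small y hy).trans (by norm_num)),
      hA.coc i j i hd' hd'' (by rw [dist_self]; positivity) y (by linarith),
      hA.self i y (by linarith)]
  have hy : ∀ p ∈ Icc 0 l, ‖κ p + o - v‖ ≤ 101 := by
    intro p hp
    have e : κ p + o - v = (κ p - v) + o := by ring
    rw [e]
    exact (norm_add_le _ _).trans (by linarith [hb p hp])
  have old : ∀ p ∈ Icc 0 l, ψ.symm (κ p) = κ p + o := by
    intro p hp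
    rw [Homeomorph.symm_apply_eq, h3 _ (big _ ((hy p hp).trans (by norm_num))).1]
    ring
  have inv : ∀ p ∈ Icc 0 l, ψ'.symm (κ p - c) = γ i j (κ p + o) := by
    intro p hp
    rw [Homeomorph.symm_apply_eq, new _ ((hy p hp).trans (by norm_num))]
    ring
  have hgy : ∀ p ∈ Icc 0 l, ‖g i (κ p + o) - v‖ ≤ 102 := by
    intro p hp
    have e : g i (κ p + o) - v = (g i (κ p + o) - (κ p + o)) + (κ p + o - v) := by ring
    rw [e]
    exact (norm_add_le _ _).trans (by linarith [hy p hp, hG.near (κ p + o)])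
  have gg : ∀ p ∈ Icc 0 l, ψ' (g j (ψ'.symm (κ p - c))) = ψ (g i (ψ.symm (κ p))) - c := by
    intro p hp
    rw [inv p hp, old p hp, ← hA.comm i j hd' _
      ((big _ ((hy p hp).trans (by norm_num))).2.trans (by norm_num)), new _ (hgy p hp),
      h3 _ (big _ (hgy p hp)).1]
    ring
  have h0 : (0 : ℝ) ∈ Icc 0 l := ⟨le_rfl, hκ.arc.pos.le⟩
  refine ⟨⟨⟨hκ.arc.cont.sub continuous_const, hκ.arc.pos,
    fun s hs t ht e => hκ.arc.inj hs ht (sub_left_inj.1 e), ?_, fun s hs t ht e => ?_⟩,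
    fun p hp => (grid_sub hc).2 (hκ.grid p hp), fun p hp => ?_⟩, ?_⟩
  · show κ l - c = ψ' (g j (ψ'.symm (κ 0 - c)))
    rw [gg 0 h0, hκ.arc.last]
  · have e' : ψ' (g j (ψ'.symm (κ s - c))) = κ t - c := e
    rw [gg s hs] at e'
    exact hκ.arc.free s hs t ht (sub_left_inj.1 e')
  · have e : κ p - c = ψ' (γ i j (κ p + o)) := by
      rw [new _ ((hy p hp).trans (by norm_num))]; ring
    show ‖κ p - c‖ ≤ 200
    rw [e]
    have a1 := norm_sub_norm_le (ψ' (γ i j (κ p + o))) (γ i j (κ p + o))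
    linarith [h2' (γ i j (κ p + o)), small _ ((hy p hp).trans (by norm_num))]
  · have t1 : Tame (ψ '' Z i) 2000 κ l := hκ.tame hε (by rintro _ ⟨z, hz, rfl⟩; exact hZ z hz)
    refine (hP i j hd _ _ l ((conj_tame h1 h2 t1).mono (by norm_num)) ?_
      (ψ'.symm.continuous.comp (hκ.arc.cont.sub continuous_const)) fun t ht => ?_).symm
    · show ψ.symm (κ l) = g i (ψ.symm (κ 0))
      rw [hκ.arc.last, Homeomorph.symm_apply_apply]
    · show ψ'.symm (κ t - c) = γ i j (ψ.symm (κ t))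
      rw [inv t ht, old t ht]

end Pool.Agent.Lib.MP_399f8e_an.Ur
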