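import Pool.Agent.Lib.MP_399f8e_an.Ur.Defs

open Set Filter Topology Metric Complex
open scoped Real
open Pool.Agent.Lib.MP_399f8e_an.Rg

noncomputable section

namespace Pool.Agent.Lib.MP_399f8e_an.Ur

namespace RotAux

theorem int_const' {X : Type} [TopologicalSpace X] {F : X → ℝ} {s : Set X}
    (hs : IsPreconnected s) (hF : ContinuousOn F s) (hi : ∀ x ∈ s, ∃ n : ℤ, F x = 2 * π * n) :
    ∀ x ∈ s, ∀ y ∈ s, F x = F y := by
  have key : ∀ x ∈ s, ∀ y ∈ s, ¬ F x < F y := by
    intro x hx y hy hlt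
    obtain ⟨n, hn⟩ := hi x hx
    obtain ⟨m, hm⟩ := hi y hy
    have hpi := Real.pi_pos
    have hnm : n < m := by
      rw [hn, hm] at hlt
      have h2 : (n : ℝ) < m := lt_of_mul_lt_mul_left hlt (by positivity)
      exact_mod_cast h2
    have hnm' : (n : ℝ) + 1 ≤ m := by exact_mod_cast hnm
    have hmem : 2 * π * n + π ∈ Icc (F x) (F y) := by
      rw [hn, hm]
      constructor
      · linarith
      · nlinarith
    obtain ⟨z, hz, hzv⟩ := hs.intermediate_value hx hy hF hmem
    obtain ⟨k, hk⟩ := hi z hz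
    rw [hk] at hzv
    have h3 : π * (2 * (k : ℝ)) = π * (2 * n + 1) := by linarith
    have h4 : (2 * (k : ℝ)) = 2 * n + 1 := mul_left_cancel₀ hpi.ne' h3
    have h5 : 2 * k = 2 * n + 1 := by exact_mod_cast h4
    omega
  intro x hx y hy
  exact le_antisymm (not_lt.mp (key y hy x hx)) (not_lt.mp (key x hx y hy))

theorem log_diff {f L L' : ℝ → ℂ} {a b : ℝ} (h : IsLog L f a b) (h' : IsLog L' f a b) :
    (L b - L a).im = (L' b - L' a).im := by
  have hc : ContinuousOn (fun t => (L t - L' t).im) (uIcc a b) :=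
    Complex.continuous_im.comp_continuousOn (h.1.sub h'.1)
  have hi : ∀ t ∈ uIcc a b, ∃ n : ℤ, (L t - L' t).im = 2 * π * n := by
    intro t ht
    have e : Complex.exp (L t) = Complex.exp (L' t) := by rw [h.2 t ht, h'.2 t ht]
    obtain ⟨n, hn⟩ := Complex.exp_eq_exp_iff_exists_int.mp e
    refine ⟨n, ?_⟩
    rw [hn]
    simp
    ring
  have := int_const' isPreconnected_uIcc hc hi a left_mem_uIcc b right_mem_uIcc
  simp only [Complex.sub_im] at this ⊢
  linarith

theorem isLog_mono {f L : ℝ → ℂ} {a b p q : ℝ} (h : IsLog L f p q) (hs : uIcc a b ⊆ uIcc p q) :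
    IsLog L f a b := ⟨h.1.mono hs, fun t ht => h.2 t (hs ht)⟩

theorem isLog_symm {f L : ℝ → ℂ} {a b : ℝ} (h : IsLog L f a b) : IsLog L f b a := by
  unfold IsLog at h ⊢
  rw [uIcc_comm]
  exact h

theorem isLog_congr {f f' L : ℝ → ℂ} {a b : ℝ} (h : IsLog L f a b) (e : EqOn f f' (uIcc a b)) :
    IsLog L f' a b := ⟨h.1, fun t ht => (h.2 t ht).trans (e ht)⟩

theorem rot_none {f : ℝ → ℂ} {a b : ℝ} (h : ¬ ∃ L, IsLog L f a b) : rot f a b = 0 := by
  unfold rot
  rw [dif_neg h]

theorem cover (a b c : ℝ) :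
    uIcc (min a (min b c)) (max a (max b c)) ⊆ uIcc a b ∪ uIcc b c := by
  intro t ht
  have hle : min a (min b c) ≤ max a (max b c) := (min_le_left _ _).trans (le_max_left _ _)
  rw [uIcc_of_le hle] at ht
  obtain ⟨h1, h2⟩ := ht
  simp only [mem_union, mem_uIcc]
  simp only [min_le_iff, le_max_iff] at h1 h2
  rcases le_total t b with h | h
  · rcases h1 with h1 | h1 | h1
    · exact Or.inl (Or.inl ⟨h1, h⟩)
    · exact Or.inl (by
        rcases le_total a b with h3 | h3
        · exact Or.inl ⟨h3.trans h1, h⟩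
        · exact Or.inr ⟨h1, h.trans h3⟩)
    · exact Or.inr (Or.inr ⟨h1, h⟩)
  · rcases h2 with h2 | h2 | h2
    · exact Or.inl (Or.inr ⟨h, h2⟩)
    · exact Or.inl (by
        rcases le_total a b with h3 | h3
        · exact Or.inl ⟨h3.trans h, h2⟩
        · exact Or.inr ⟨h, h2.trans h3⟩)
    · exact Or.inr (Or.inl ⟨h, h2⟩)

end RotAux

variable {f f' Lg : ℝ → ℂ} {a b c : ℝ}

theorem exists_log (h : Ok f a b) : ∃ Lg, IsLog Lg f a b := by
  have hle : min a b ≤ max a b := min_le_max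
  have hm : ∀ t : ℝ, max (min a b) (min t (max a b)) ∈ uIcc a b := fun t =>
    ⟨le_max_left _ _, max_le hle (min_le_right _ _)⟩
  have hcl : Continuous fun t : ℝ => max (min a b) (min t (max a b)) := by fun_prop
  have hg : Continuous fun t : ℝ => f (max (min a b) (min t (max a b))) :=
    h.1.comp_continuous hcl hm
  have hsc : IsSimplyConnected (univ : Set ℝ) := by
    have : ContractibleSpace (univ : Set ℝ) := convex_univ.contractibleSpace univ_nonempty
    exact SimplyConnectedSpace.ofContractible _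
  obtain ⟨L, hL, hE⟩ := Complex.exists_continuousOn_eqOn_exp_comp hsc isOpen_univ hg.continuousOn
    (by
      rintro ⟨t, -, ht⟩
      exact h.2 _ (hm t) ht)
  refine ⟨L, hL.mono (subset_univ _), fun t ht => ?_⟩
  have e := hE (mem_univ t)
  simp only [Function.comp_apply] at e
  have h1 : min a b ≤ t := ht.1
  have h2 : t ≤ max a b := ht.2
  rw [e, min_eq_left h2, max_eq_right h1]

theorem rot_eq (h : IsLog Lg f a b) : rot f a b = (Lg b - Lg a).im := by
  have hex : ∃ L, IsLog L f a b := ⟨Lg, h⟩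
  unfold rot
  rw [dif_pos hex]
  exact RotAux.log_diff hex.choose_spec h

theorem rot_arg {θ : ℝ → ℝ} (h : Ok f a b) (hθ : ContinuousOn θ (uIcc a b))
    (e : ∀ t ∈ uIcc a b, ∃ ρ : ℝ, 0 < ρ ∧ f t = ρ * Complex.exp (θ t * I)) :
    rot f a b = θ b - θ a := by
  have hL : IsLog (fun t => ((Real.log ‖f t‖ : ℝ) : ℂ) + θ t * I) f a b := by
    refine ⟨?_, fun t ht => ?_⟩
    · refine ContinuousOn.add ?_ ?_
      · exact Complex.continuous_ofReal.comp_continuousOn
          (h.1.norm.log fun t ht => norm_ne_zero_iff.mpr (h.2 t ht))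
      · exact (Complex.continuous_ofReal.comp_continuousOn hθ).mul continuousOn_const
    · obtain ⟨ρ, hρ, hf⟩ := e t ht
      have hn : ‖f t‖ = ρ := by
        rw [hf, norm_mul, Complex.norm_exp_ofReal_mul_I, mul_one, Complex.norm_real,
          Real.norm_of_nonneg hρ.le]
      show Complex.exp (((Real.log ‖f t‖ : ℝ) : ℂ) + θ t * I) = f t
      rw [Complex.exp_add, ← Complex.ofReal_exp, hn, Real.exp_log hρ, hf]
  rw [rot_eq hL]
  simp

theorem rot_self (f : ℝ → ℂ) (a : ℝ) : rot f a a = 0 := by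
  by_cases h : ∃ L, IsLog L f a a
  · obtain ⟨L, hL⟩ := h
    rw [rot_eq hL]
    simp
  · exact RotAux.rot_none h

theorem rot_symm (f : ℝ → ℂ) (a b : ℝ) : rot f b a = -rot f a b := by
  by_cases h : ∃ L, IsLog L f a b
  · obtain ⟨L, hL⟩ := h
    rw [rot_eq hL, rot_eq (RotAux.isLog_symm hL)]
    simp
  · have h' : ¬ ∃ L, IsLog L f b a := fun ⟨L, hL⟩ => h ⟨L, RotAux.isLog_symm hL⟩
    rw [RotAux.rot_none h, RotAux.rot_none h', neg_zero]

theorem rot_congr (h : EqOn f f' (uIcc a b)) : rot f a b = rot f' a b := by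
  by_cases hx : ∃ L, IsLog L f a b
  · obtain ⟨L, hL⟩ := hx
    rw [rot_eq hL, rot_eq (RotAux.isLog_congr hL h)]
  · have h' : ¬ ∃ L, IsLog L f' a b := fun ⟨L, hL⟩ => hx ⟨L, RotAux.isLog_congr hL h.symm⟩
    rw [RotAux.rot_none hx, RotAux.rot_none h']

theorem rot_add (h1 : Ok f a b) (h2 : Ok f b c) : rot f a b + rot f b c = rot f a c := by
  have hcov := RotAux.cover a b c
  have hcl : ∀ x y : ℝ, IsClosed (uIcc x y) := fun x y => isClosed_Icc
  have hok : Ok f (min a (min b c)) (max a (max b c)) := by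
    refine ⟨(h1.1.union_of_isClosed h2.1 (hcl _ _) (hcl _ _)).mono hcov, fun t ht => ?_⟩
    rcases hcov ht with h | h
    · exact h1.2 t h
    · exact h2.2 t h
  obtain ⟨L, hL⟩ := exists_log hok
  have hle : min a (min b c) ≤ max a (max b c) := (min_le_left _ _).trans (le_max_left _ _)
  have ha : a ∈ uIcc (min a (min b c)) (max a (max b c)) := by
    rw [uIcc_of_le hle]
    exact ⟨min_le_left _ _, le_max_left _ _⟩
  have hb : b ∈ uIcc (min a (min b c)) (max a (max b c)) := by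
    rw [uIcc_of_le hle]
    exact ⟨(min_le_right _ _).trans (min_le_left _ _), (le_max_left _ _).trans (le_max_right _ _)⟩
  have hc : c ∈ uIcc (min a (min b c)) (max a (max b c)) := by
    rw [uIcc_of_le hle]
    exact ⟨(min_le_right _ _).trans (min_le_right _ _),
      (le_max_right _ _).trans (le_max_right _ _)⟩
  rw [rot_eq (RotAux.isLog_mono hL (uIcc_subset_uIcc ha hb)),
    rot_eq (RotAux.isLog_mono hL (uIcc_subset_uIcc hb hc)),
    rot_eq (RotAux.isLog_mono hL (uIcc_subset_uIcc ha hc))]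
  simp

theorem rot_comp {h : ℝ → ℝ} {p q : ℝ} (hf : Ok f p q) (hh : ContinuousOn h (uIcc a b))
    (hm : MapsTo h (uIcc a b) (uIcc p q)) : rot (fun t => f (h t)) a b = rot f (h a) (h b) := by
  obtain ⟨L, hL⟩ := exists_log hf
  have h1 : IsLog (fun t => L (h t)) (fun t => f (h t)) a b :=
    ⟨hL.1.comp hh hm, fun t ht => hL.2 _ (hm ht)⟩
  rw [rot_eq h1,
    rot_eq (RotAux.isLog_mono hL (uIcc_subset_uIcc (hm left_mem_uIcc) (hm right_mem_uIcc)))]

theorem rot_mul (h1 : Ok f a b) (h2 : Ok f' a b) :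
    rot (fun t => f t * f' t) a b = rot f a b + rot f' a b := by
  obtain ⟨L, hL⟩ := exists_log h1
  obtain ⟨L', hL'⟩ := exists_log h2
  have h3 : IsLog (fun t => L t + L' t) (fun t => f t * f' t) a b :=
    ⟨hL.1.add hL'.1, fun t ht => by
      show Complex.exp (L t + L' t) = f t * f' t
      rw [Complex.exp_add, hL.2 t ht, hL'.2 t ht]⟩
  rw [rot_eq h3, rot_eq hL, rot_eq hL']
  simp only [Complex.sub_im, Complex.add_im]
  ring

theorem rot_slit {w : ℂ} (hw : w ≠ 0) (hc : ContinuousOn f (uIcc a b))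
    (hs : ∀ t ∈ uIcc a b, f t / w ∈ slitPlane) : rot f a b = arg (f b / w) - arg (f a / w) := by
  have hL : IsLog (fun t => Complex.log w + Complex.log (f t / w)) f a b := by
    refine ⟨continuousOn_const.add ((hc.div_const w).clog hs), fun t ht => ?_⟩
    show Complex.exp (Complex.log w + Complex.log (f t / w)) = f t
    rw [Complex.exp_add, Complex.exp_log hw, Complex.exp_log (Complex.slitPlane_ne_zero (hs t ht))]
    field_simp
  rw [rot_eq hL]
  simp only [Complex.sub_im, Complex.add_im, Complex.log_im]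
  ring

theorem rot_polar (h : Ok f a b) :
    ∃ ρ : ℝ, 0 < ρ ∧ f b = ρ * Complex.exp (rot f a b * I) * f a := by
  obtain ⟨L, hL⟩ := exists_log h
  refine ⟨Real.exp (L b - L a).re, Real.exp_pos _, ?_⟩
  rw [rot_eq hL, Complex.ofReal_exp, ← Complex.exp_add, Complex.re_add_im,
    ← hL.2 a left_mem_uIcc, ← hL.2 b right_mem_uIcc, ← Complex.exp_add]
  congr 1
  ring

theorem rot_cont {X : Type} [TopologicalSpace X] {F : X → ℝ → ℂ} {s : Set X}
    (hF : ContinuousOn (fun p : X × ℝ => F p.1 p.2) (s ×ˢ uIcc a b))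
    (h0 : ∀ x ∈ s, ∀ t ∈ uIcc a b, F x t ≠ 0) : ContinuousOn (fun x => rot (F x) a b) s := by
  have hsl : ∀ x ∈ s, ContinuousOn (F x) (uIcc a b) := fun x hx =>
    hF.comp (f := fun t : ℝ => (x, t)) (by fun_prop) fun t ht => ⟨hx, ht⟩
  intro x0 hx0
  have hG : ContinuousOn (fun p : X × ℝ => F p.1 p.2 / F x0 p.2) (s ×ˢ uIcc a b) :=
    hF.div ((hsl x0 hx0).comp continuousOn_snd fun p hp => hp.2) fun p hp => h0 x0 hx0 p.2 hp.2
  have hone : ∀ t ∈ uIcc a b, F x0 t / F x0 t ∈ slitPlane := fun t ht => by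
    rw [div_self (h0 x0 hx0 t ht)]
    exact Complex.one_mem_slitPlane
  have hev : ∀ᶠ x in 𝓝 x0, ∀ t ∈ uIcc a b,
      (x ∈ s → t ∈ uIcc a b → F x t / F x0 t ∈ slitPlane) := by
    refine isCompact_uIcc.eventually_forall_of_forall_eventually
      (P := fun x t => x ∈ s → t ∈ uIcc a b → F x t / F x0 t ∈ slitPlane) fun t ht => ?_
    have h1 := (hG (x0, t) ⟨hx0, ht⟩).eventually
      (Complex.isOpen_slitPlane.mem_nhds (hone t ht))
    rw [eventually_nhdsWithin_iff] at h1
    exact h1.mono fun z hz h2 h3 => hz ⟨h2, h3⟩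
  have harg : ∀ t ∈ uIcc a b, ContinuousWithinAt (fun x => arg (F x t / F x0 t)) s x0 := by
    intro t ht
    have h1 : ContinuousWithinAt (fun x => F x t / F x0 t) s x0 :=
      (hG.comp (f := fun x : X => (x, t)) (by fun_prop) fun x hx => ⟨hx, ht⟩) x0 hx0
    exact ContinuousAt.comp_continuousWithinAt (f := fun x => F x t / F x0 t)
      (Complex.continuousAt_arg (hone t ht)) h1
  have hform : ∀ x ∈ s, (∀ t ∈ uIcc a b, F x t / F x0 t ∈ slitPlane) →
      rot (F x) a b = arg (F x b / F x0 b) - arg (F x a / F x0 a) + rot (F x0) a b := by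
    intro x hx hs
    have hq : ContinuousOn (fun t => F x t / F x0 t) (uIcc a b) :=
      (hsl x hx).div (hsl x0 hx0) (h0 x0 hx0)
    have e1 : rot (F x) a b = rot (fun t => F x t / F x0 t * F x0 t) a b :=
      rot_congr fun t ht => (div_mul_cancel₀ _ (h0 x0 hx0 t ht)).symm
    have e2 := rot_mul (f := fun t => F x t / F x0 t) (f' := F x0)
      ⟨hq, fun t ht => Complex.slitPlane_ne_zero (hs t ht)⟩ ⟨hsl x0 hx0, h0 x0 hx0⟩
    have e3 := rot_slit (f := fun t => F x t / F x0 t) one_ne_zero hq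
      (fun t ht => by rw [div_one]; exact hs t ht)
    rw [e1, e2, e3, div_one, div_one]
  have hcw : ContinuousWithinAt
      (fun x => arg (F x b / F x0 b) - arg (F x a / F x0 a) + rot (F x0) a b) s x0 :=
    ((harg b right_mem_uIcc).sub (harg a left_mem_uIcc)).add continuousWithinAt_const
  refine hcw.congr_of_eventuallyEq ?_ (hform x0 hx0 hone)
  filter_upwards [nhdsWithin_le_nhds hev, self_mem_nhdsWithin] with x hx hxs
  exact hform x hxs fun t ht => hx t ht hxs ht

theorem rot_cont_end (h : Ok f a b) : ContinuousOn (fun t => rot f a t) (uIcc a b) := by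
  obtain ⟨L, hL⟩ := exists_log h
  have hc : ContinuousOn (fun t => (L t - L a).im) (uIcc a b) :=
    Complex.continuous_im.comp_continuousOn (hL.1.sub continuousOn_const)
  exact hc.congr fun t ht => rot_eq (RotAux.isLog_mono hL (uIcc_subset_uIcc left_mem_uIcc ht))

theorem int_const {X : Type} [TopologicalSpace X] {F : X → ℝ} {s : Set X} (hs : IsPreconnected s)
    (hF : ContinuousOn F s) (hi : ∀ x ∈ s, ∃ n : ℤ, F x = 2 * π * n) :
    ∀ x ∈ s, ∀ y ∈ s, F x = F y :=
  RotAux.int_const' hs hF hi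

theorem int_of_exp {ρ ρ' α β : ℝ} (hρ : 0 < ρ) (hρ' : 0 < ρ')
    (h : (ρ : ℂ) * Complex.exp (α * I) = ρ' * Complex.exp (β * I)) :
    ∃ n : ℤ, α - β = 2 * π * n := by
  have hn := congrArg norm h
  rw [norm_mul, norm_mul, Complex.norm_exp_ofReal_mul_I, Complex.norm_exp_ofReal_mul_I, mul_one,
    mul_one, Complex.norm_real, Complex.norm_real, Real.norm_of_nonneg hρ.le,
    Real.norm_of_nonneg hρ'.le] at hn
  subst hn
  have h1 : Complex.exp (α * I) = Complex.exp (β * I) :=
    mul_left_cancel₀ (Complex.ofReal_ne_zero.mpr hρ.ne') h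
  obtain ⟨n, hn⟩ := Complex.exp_eq_exp_iff_exists_int.mp h1
  refine ⟨n, ?_⟩
  have h2 := congrArg Complex.im hn
  simp at h2
  linarith

end Pool.Agent.Lib.MP_399f8e_an.Ur
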