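import Pool.Agent.Lib.MP_399f8e_an.Ur.Var

open Set Filter Topology Metric Complex
open scoped Real
open Pool.Agent.Lib.MP_399f8e_an.Rg

noncomputable section

namespace Pool.Agent.Lib.MP_399f8e_an.Ur

namespace SepAux

theorem glog {g : ℂ → ℂ} (hg : Continuous g) (h0 : ∀ x, g x ≠ 0) :
    ∃ f : ℂ → ℂ, Continuous f ∧ ∀ x, Complex.exp (f x) = g x := by
  rcases isCoveringMapOn_exp.existsUnique_continuousMap_lifts
    (⟨g, hg⟩ : C(ℂ, ℂ)) (a₀ := (0 : ℂ)) (Complex.exp_log (h0 0)) (fun x => h0 x) with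
    ⟨f, ⟨-, hf⟩, -⟩
  exact ⟨f, f.continuous, fun x => congrFun hf x⟩

theorem core {K u v : Set ℂ} (hK : IsClosed K) (hu : IsOpen u) (hv : IsOpen v)
    (hc : Kᶜ ⊆ u ∪ v) (hd : ∀ z, z ∉ K → z ∈ u → z ∈ v → False) {z0 : ℂ} (hz0 : z0 ∉ K)
    (hz0u : z0 ∈ u) {Lt : ℂ → ℂ} (hLt : Continuous Lt)
    (hL : ∀ z ∈ K, Complex.exp (Lt z) = z - z0) {R : ℝ} (hR : 0 < R)
    (hs : ∀ t : ℝ, z0 + R * Complex.exp (t * I) ∉ K ∧ z0 + R * Complex.exp (t * I) ∈ v) :
    False := by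
  classical
  let F : ℂ → ℂ := fun z => if z ∈ u ∧ z ∉ K then Complex.exp (Lt z) else z - z0
  have hA : IsClosed (v ∩ Kᶜ)ᶜ := (hv.inter hK.isOpen_compl).isClosed_compl
  have hB : IsClosed (u ∩ Kᶜ)ᶜ := (hu.inter hK.isOpen_compl).isClosed_compl
  have hFA : ContinuousOn F (v ∩ Kᶜ)ᶜ := by
    refine (Complex.continuous_exp.comp hLt).continuousOn.congr ?_
    intro z hz
    by_cases h : z ∈ u ∧ z ∉ K
    · simp only [F, if_pos h, Function.comp]
    · simp only [F, if_neg h, Function.comp]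
      by_cases hk : z ∈ K
      · exact (hL z hk).symm
      · rcases hc hk with h1 | h1
        · exact absurd ⟨h1, hk⟩ h
        · exact absurd ⟨h1, hk⟩ hz
  have hFB : ContinuousOn F (u ∩ Kᶜ)ᶜ := by
    have hsub : Continuous fun z : ℂ => z - z0 := by fun_prop
    refine hsub.continuousOn.congr ?_
    intro z hz
    have h : ¬(z ∈ u ∧ z ∉ K) := hz
    simp only [F, if_neg h]
  have hF : Continuous F := by
    have := hFA.union_of_isClosed hFB hA hB
    rw [← continuousOn_univ]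
    refine this.mono ?_
    intro z _
    by_cases h : z ∈ v ∩ Kᶜ
    · right
      intro h'
      exact hd z h.2 h'.1 h.1
    · left
      exact h
  have hF0 : ∀ z, F z ≠ 0 := by
    intro z
    by_cases h : z ∈ u ∧ z ∉ K
    · simp only [F, if_pos h]
      exact Complex.exp_ne_zero _
    · simp only [F, if_neg h]
      intro h'
      have : z = z0 := sub_eq_zero.mp h'
      exact h (this ▸ ⟨hz0u, hz0⟩)
  obtain ⟨G, hG, hGe⟩ := glog hF hF0
  let θ : ℝ → ℝ := fun t => (G (z0 + R * Complex.exp (t * I))).im - t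
  have hθ : Continuous θ := by
    refine (Complex.continuous_im.comp (hG.comp ?_)).sub continuous_id
    fun_prop
  have hi : ∀ t ∈ (univ : Set ℝ), ∃ n : ℤ, θ t = 2 * π * n := by
    intro t _
    have h1 := hGe (z0 + R * Complex.exp (t * I))
    have h2 : ¬(z0 + R * Complex.exp (t * I) ∈ u ∧ z0 + R * Complex.exp (t * I) ∉ K) :=
      fun h => hd _ h.2 h.1 (hs t).2
    simp only [F, if_neg h2, add_sub_cancel_left] at h1
    have h3 : (R : ℂ) * Complex.exp (t * I) = Complex.exp ((Real.log R : ℝ) + t * I) := by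
      rw [Complex.exp_add, ← Complex.ofReal_exp, Real.exp_log hR]
    obtain ⟨n, hn⟩ := Complex.exp_eq_exp_iff_exists_int.mp (h1.trans h3)
    refine ⟨n, ?_⟩
    show (G (z0 + R * Complex.exp (t * I))).im - t = 2 * π * n
    rw [hn]
    simp only [add_im, ofReal_im, mul_im, ofReal_re, I_im, I_re, mul_re, intCast_re, intCast_im,
      re_ofNat, im_ofNat]
    ring
  have h := int_const isPreconnected_univ hθ.continuousOn hi 0 trivial (2 * π) trivial
  have e : Complex.exp (((2 * π : ℝ) : ℂ) * I) = Complex.exp (((0 : ℝ) : ℂ) * I) := by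
    push_cast
    rw [Complex.exp_two_pi_mul_I]
    simp
  simp only [θ, e] at h
  have := Real.pi_pos
  linarith

theorem ext_log {P : ℝ → ℂ} {a b : ℝ} (hP : Continuous P) (hab : a ≤ b)
    (hi : InjOn P (Icc a b)) {z0 : ℂ} (hz0 : z0 ∉ P '' Icc a b) :
    ∃ Lt : ℂ → ℂ, Continuous Lt ∧ ∀ z ∈ P '' Icc a b, Complex.exp (Lt z) = z - z0 := by
  have hok : Ok (fun t => P t - z0) a b := by
    refine ⟨(hP.sub continuous_const).continuousOn, ?_⟩
    intro t ht h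
    rw [uIcc_of_le hab] at ht
    exact hz0 ⟨t, ht, sub_eq_zero.mp h⟩
  obtain ⟨Lg, hc, he⟩ := exists_log hok
  rw [uIcc_of_le hab] at hc he
  have hemb : IsClosedEmbedding (fun t : Icc a b => P t) := by
    refine (hP.comp continuous_subtype_val).isClosedEmbedding ?_
    intro s t h
    exact Subtype.ext (hi s.2 t.2 h)
  let f : C(Icc a b, ℂ) := ⟨fun t => Lg t, hc.comp_continuous continuous_subtype_val fun t => t.2⟩
  obtain ⟨g, hg⟩ := f.exists_extension' hemb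
  refine ⟨g, g.continuous, ?_⟩
  rintro z ⟨t, ht, rfl⟩
  have : g (P t) = Lg t := congrFun hg ⟨t, ht⟩
  rw [this]
  exact he t ht

theorem far_pre (r : ℝ) : IsPreconnected {z : ℂ | r < ‖z‖ ∧ 0 < ‖z‖} := by
  have h : IsPreconnected ((Ioi (max r 0)) ×ˢ (univ : Set ℝ)) :=
    isPreconnected_Ioi.prod isPreconnected_univ
  have hc : Continuous fun p : ℝ × ℝ => (p.1 : ℂ) * Complex.exp (p.2 * I) := by fun_prop
  have := h.image _ hc.continuousOn
  convert this using 1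
  ext z
  constructor
  · rintro ⟨h1, h2⟩
    exact ⟨(‖z‖, arg z), ⟨max_lt h1 h2, trivial⟩, Complex.norm_mul_exp_arg_mul_I z⟩
  · rintro ⟨⟨s, t⟩, ⟨hs, -⟩, rfl⟩
    have hs' : max r 0 < s := hs
    have h0 : 0 < s := lt_of_le_of_lt (le_max_right _ _) hs'
    have : ‖(s : ℂ) * Complex.exp (t * I)‖ = s := by
      rw [norm_mul, Complex.norm_exp_ofReal_mul_I, mul_one, Complex.norm_real,
        Real.norm_of_nonneg h0.le]
    show r < ‖(s : ℂ) * Complex.exp (t * I)‖ ∧ 0 < ‖(s : ℂ) * Complex.exp (t * I)‖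
    rw [this]
    exact ⟨lt_of_le_of_lt (le_max_left _ _) hs', h0⟩

theorem half {P : ℝ → ℂ} {a b : ℝ} (hP : Continuous P) (hab : a ≤ b)
    (hi : InjOn P (Icc a b)) {u v : Set ℂ} (hu : IsOpen u) (hv : IsOpen v)
    (hc : (P '' Icc a b)ᶜ ⊆ u ∪ v) (hd : ∀ z, z ∉ P '' Icc a b → z ∈ u → z ∈ v → False)
    {z0 : ℂ} (hz0 : z0 ∉ P '' Icc a b) (hz0u : z0 ∈ u) {r : ℝ}
    (hr : ∀ z ∈ P '' Icc a b, ‖z‖ ≤ r) (hf : {z : ℂ | r < ‖z‖ ∧ 0 < ‖z‖} ⊆ v) : False := by
  obtain ⟨Lt, hLt, hL⟩ := ext_log hP hab hi hz0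
  have hK : IsClosed (P '' Icc a b) := (isCompact_Icc.image hP).isClosed
  have hR : 0 < |r| + ‖z0‖ + 1 := by positivity
  refine core hK hu hv hc hd hz0 hz0u hLt hL hR ?_
  intro t
  have h1 : ‖((|r| + ‖z0‖ + 1 : ℝ) : ℂ) * Complex.exp (t * I)‖ = |r| + ‖z0‖ + 1 := by
    rw [norm_mul, Complex.norm_exp_ofReal_mul_I, mul_one, Complex.norm_real,
      Real.norm_of_nonneg hR.le]
  have h2 := norm_sub_le (z0 + ((|r| + ‖z0‖ + 1 : ℝ) : ℂ) * Complex.exp (t * I)) z0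
  rw [add_sub_cancel_left, h1] at h2
  have h3 := le_abs_self r
  have h4 := abs_nonneg r
  refine ⟨fun h => ?_, hf ⟨by linarith, by linarith⟩⟩
  have := hr _ h
  linarith

end SepAux

theorem arc_compl {P : ℝ → ℂ} {a b : ℝ} (hP : Continuous P) (hab : a ≤ b)
    (hi : InjOn P (Icc a b)) : IsPreconnected (P '' Icc a b)ᶜ := by
  rintro u v hu hv hc ⟨x, hx, hxu⟩ ⟨y, hy, hyv⟩
  by_contra hne
  have hd : ∀ z, z ∉ P '' Icc a b → z ∈ u → z ∈ v → False :=
    fun z h1 h2 h3 => hne ⟨z, h1, h2, h3⟩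
  obtain ⟨r, hr⟩ := (isCompact_Icc.image hP : IsCompact (P '' Icc a b)).isBounded.exists_norm_le
  have hsub : {z : ℂ | r < ‖z‖ ∧ 0 < ‖z‖} ⊆ (P '' Icc a b)ᶜ := by
    intro z hz h
    exact absurd (hr z h) (not_le.mpr hz.1)
  have hK : IsOpen (P '' Icc a b)ᶜ := (isCompact_Icc.image hP).isClosed.isOpen_compl
  have hdis : Disjoint (u ∩ (P '' Icc a b)ᶜ) (v ∩ (P '' Icc a b)ᶜ) := by
    rw [Set.disjoint_left]
    intro z h1 h2
    exact hd z h1.2 h1.1 h2.1
  rcases (SepAux.far_pre r).subset_or_subset (hu.inter hK) (hv.inter hK) hdis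
    (fun z hz => (hc (hsub hz)).imp (fun h => ⟨h, hsub hz⟩) (fun h => ⟨h, hsub hz⟩)) with h | h
  · exact SepAux.half hP hab hi hv hu (fun z hz => (hc hz).symm)
      (fun z h1 h2 h3 => hd z h1 h3 h2) hy hyv hr (fun z hz => (h hz).1)
  · exact SepAux.half hP hab hi hu hv hc hd hx hxu hr (fun z hz => (h hz).1)

end Pool.Agent.Lib.MP_399f8e_an.Ur
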