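import Pool.Agent.Lib.MP_399f8e_an.Ur.Line
import Pool.Agent.Lib.MP_399f8e_an.Ur.Nest
import Pool.Agent.Lib.MP_399f8e_an.Ur.Jordan

open Set Filter Topology Metric Complex
open scoped Real
open Pool.Agent.Lib.MP_399f8e_an.Rg

noncomputable section

namespace Pool.Agent.Lib.MP_399f8e_an.Ur

namespace SideSAux

variable {g g' : ℂ → ℂ} {R r l s s₁ u e t : ℝ} {L σ : ℝ → ℂ} {v d : ℂ}

theorem back (hT : Top g g' R) (hL : Line g L l r) (hr : r ≤ R) {p : ℝ} (h1 : -l ≤ p)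
    (h2 : p ≤ 3 * l) : g' (L p) = L (p - l) := by
  have hl := hL.pos
  have e := hL.per (p - l) ⟨by linarith, by linarith⟩
  rw [sub_add_cancel] at e
  rw [e, hT.inv _ ((hL.bd _ ⟨by linarith, by linarith⟩).trans hr)]

theorem mid (hc : Continuous L) (hd : d ≠ 0) {s₂ x₂ : ℝ} (hs : s < s₂) (h0 : L s = v)
    (h2 : L s₂ = v + x₂ * d) (hx : 0 < x₂) (hm : ∀ p ∈ Icc s s₂, ∃ x : ℝ, L p = v + x * d) :
    ∃ q ∈ Ioo s s₂, L q = v + (x₂ / 2 : ℝ) * d := by
  have hf : Continuous fun p => ((L p - v) / d).re :=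
    Complex.continuous_re.comp ((hc.sub continuous_const).div_const d)
  have key : ∀ (p : ℝ) (x : ℝ), L p = v + x * d → ((L p - v) / d).re = x := fun p x h => by
    rw [h, add_sub_cancel_left, mul_div_cancel_right₀ _ hd, ofReal_re]
  have e0 : ((L s - v) / d).re = 0 := key s 0 (by rw [h0]; simp)
  have e2 := key s₂ x₂ h2
  obtain ⟨q, hq, hq'⟩ := intermediate_value_Ioo hs.le hf.continuousOn
    (show x₂ / 2 ∈ Ioo ((L s - v) / d).re ((L s₂ - v) / d).re by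
      rw [e0, e2]; constructor <;> linarith)
  obtain ⟨x, hx'⟩ := hm q (Ioo_subset_Icc_self hq)
  have e3 : x = x₂ / 2 := (key q x hx').symm.trans hq'
  exact ⟨q, hq, e3 ▸ hx'⟩

/-- the choice of the side -/
theorem side {U V : Set ℂ} {w : ℂ → ℝ} {c : ℝ} (hU : ∀ z ∈ U, w z = c) (hV : ∀ z ∈ V, w z = 0)
    {a b : ℂ} (ha : a ∈ U ∨ a ∈ V) (hb : b ∈ U ∨ b ∈ V) (h : w a = w b + 2 * π) :
    (c = 2 * π → a ∈ U) ∧ (c = -(2 * π) → b ∈ U) := by
  have hπ := Real.pi_pos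
  refine ⟨fun hc => ha.resolve_right fun ha => ?_, fun hc => hb.resolve_right fun hb => ?_⟩
  · have := hV a ha
    rcases hb with hb | hb
    · linarith [hU b hb]
    · linarith [hV b hb]
  · have := hV b hb
    rcases ha with ha | ha
    · linarith [hU a ha]
    · linarith [hV a ha]

theorem exists_in (hT : Top g g' R) (hL : Line g L l r) (hF : Fst g L l s σ u r)
    (hr : r + 20 ≤ R) (hd : d ≠ 0) (hseg : Seg L s s₁ v d e) (ht : t ∈ Icc s₁ (2 * l))
    (hu : σ u = L t) (hlt : s + l < t) {U V : Set ℂ} {c : ℝ}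
    (hJ : Jor (L '' Icc s t ∪ σ '' Icc 0 u) U V) (hc : c = 2 * π ∨ c = -(2 * π))
    (hU : ∀ z ∈ U, var L s t z - var σ 0 u z = c)
    (hV : ∀ z ∈ V, var L s t z - var σ 0 u z = 0) : ∃ z ∈ U, g z ∈ U := by
  have hl := hL.pos
  have hu0 := hF.pos
  obtain ⟨hs0, hsl⟩ := hF.hs
  have hss := hseg.lt
  obtain ⟨ht1, ht2⟩ := ht
  have hrR : r ≤ R := by linarith
  have star := sigma_star hT hL hF (by linarith)
  obtain ⟨s₂, h21, h22, h23⟩ : ∃ s₂, s < s₂ ∧ s₂ ≤ s₁ ∧ s₂ ≤ t - l :=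
    ⟨min s₁ (t - l), lt_min hss (by linarith), min_le_left _ _, min_le_right _ _⟩
  have hm : ∀ p ∈ Icc s s₂, ∃ x : ℝ, L p = v + x * d := fun p hp =>
    (hseg.mem p ⟨hp.1, hp.2.trans h22⟩).imp fun _ h => h.2
  obtain ⟨x₂, hx₂, e₂⟩ := hseg.mem s₂ ⟨h21.le, h22⟩
  have hx : 0 < x₂ := lt_of_le_of_ne hx₂.1 fun h => by
    have : L s = L s₂ := by rw [e₂, ← h, hseg.fst]; simp
    exact h21.ne (hL.inj2 s ⟨by linarith, by linarith⟩ s₂ ⟨by linarith, by linarith⟩
      (abs_le.2 ⟨by linarith, by linarith⟩) this)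
  obtain ⟨q, ⟨hq1, hq2⟩, hq⟩ := mid hL.cont hd h21 hseg.fst e₂ hx hm
  have hgσ : Continuous fun x => g' (σ x) := hT.cont'.comp hF.cont
  have injq : ∀ p, s - l ≤ p → p ≤ t → L p = L q → p = q := fun p h1 h2 h =>
    hL.inj2 p ⟨by linarith, by linarith⟩ q ⟨by linarith, by linarith⟩
      (abs_le.2 ⟨by linarith, by linarith⟩) h
  set K : Set ℂ := (L '' Icc s₂ t ∪ σ '' Icc 0 u) ∪
    (L '' Icc (s - l) s ∪ (fun x => g' (σ x)) '' Icc 0 u) with hK
  have hKc : IsClosed K :=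
    ((((isCompact_Icc.image hL.cont).union (isCompact_Icc.image hF.cont)).union
      ((isCompact_Icc.image hL.cont).union (isCompact_Icc.image hgσ)))).isClosed
  have hμ : L q ∉ K := by
    rintro ((⟨p, hp, h⟩ | ⟨x, hx, h⟩) | (⟨p, hp, h⟩ | ⟨x, hx, h⟩))
    · linarith [injq p (by linarith [hp.1]) hp.2 h, hp.1]
    · rcases hx.2.lt_or_eq with h1 | h1
      · linarith [(star x ⟨hx.1, h1⟩ q ⟨by linarith, by linarith⟩ h).2]
      · rw [h1, hu] at h
        linarith [injq t (by linarith) le_rfl h]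
    · linarith [injq p hp.1 (by linarith [hp.2]) h, hp.2]
    · rcases hx.2.lt_or_eq with h1 | h1
      · have h' : σ x = L (q + l) := by
          rw [hL.per q ⟨by linarith, by linarith⟩, ← h, hT.inv' _ ((hF.bd x hx).trans hrR)]
        linarith [(star x ⟨hx.1, h1⟩ (q + l) ⟨by linarith, by linarith⟩ h').2]
      · have h' : L (t - l) = L q := by
          rw [← back hT hL hrR (by linarith) (by linarith), ← hu, ← h1]; exact h
        linarith [injq (t - l) (by linarith) (by linarith) h']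
  obtain ⟨ρ₀, hρ₀, hb₀⟩ := Metric.isOpen_iff.1 hKc.isOpen_compl _ hμ
  obtain ⟨ρ, hρ, hρ1, hb⟩ : ∃ ρ : ℝ, 0 < ρ ∧ ρ ≤ 1 ∧ ball (L q) ρ ⊆ Kᶜ :=
    ⟨min ρ₀ 1, lt_min hρ₀ one_pos, min_le_right _ _,
      (ball_subset_ball (min_le_left _ _)).trans hb₀⟩
  have quo : ∀ (p : ℝ) (x : ℝ), L p = v + x * d → (L p - L q) / d = ((x - x₂ / 2 : ℝ) : ℂ) :=
    fun p x h => by
      rw [h, hq, div_eq_iff hd]
      push_cast
      ring
  have hline : ∀ p ∈ uIcc s s₂, ((L p - L q) / d).im = 0 := fun p hp => by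
    obtain ⟨x, h⟩ := hm p (by rwa [uIcc_of_le h21.le] at hp)
    rw [quo p x h, ofReal_im]
  have ha : ((L s - L q) / d).re < 0 := by
    rw [quo s 0 (by rw [hseg.fst]; simp), ofReal_re]; linarith
  have hb' : 0 < ((L s₂ - L q) / d).re := by
    rw [quo s₂ x₂ e₂, ofReal_re]; linarith
  have offL : ∀ z ∈ ball (L q) ρ, ((z - L q) / d).im ≠ 0 → ∀ p, s - l ≤ p → p ≤ t → L p ≠ z := by
    rintro z hz hi p h1 h2 rfl
    rcases le_total p s with h3 | h3
    · exact hb hz (Or.inr (Or.inl ⟨p, ⟨h1, h3⟩, rfl⟩))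
    rcases le_total p s₂ with h4 | h4
    · exact hi (hline p (by rw [uIcc_of_le h21.le]; exact ⟨h3, h4⟩))
    · exact hb hz (Or.inl (Or.inl ⟨p, ⟨h4, h2⟩, rfl⟩))
  have off : ∀ z ∈ ball (L q) ρ, ((z - L q) / d).im ≠ 0 → ∀ a b, s - l ≤ a → a ≤ b → b ≤ t →
      Off L a b z := fun z hz hi a b h1 h2 h3 =>
    off_of_icc hL.cont h2 fun ⟨p, hp, h⟩ => offL z hz hi p (h1.trans hp.1) (hp.2.trans h3) h
  have cv : ∀ (P : ℝ → ℂ) (a b : ℝ), Continuous P → a ≤ b → P '' Icc a b ⊆ K →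
      ContinuousOn (var P a b) (ball (L q) ρ) := fun P a b hP hab hs =>
    (var_cont hP.continuousOn).mono fun z hz h => hb hz (hs (by rwa [uIcc_of_le hab] at h))
  have notJ : ∀ z ∈ ball (L q) ρ, ((z - L q) / d).im ≠ 0 → z ∈ U ∨ z ∈ V := fun z hz hi =>
    (hJ.cover z).resolve_left fun h => h.elim
      (fun ⟨p, hp, h⟩ => offL z hz hi p (by linarith [hp.1]) hp.2 h)
      fun h => hb hz (Or.inl (Or.inr h))
  have j1 := jump (w := fun z => var L s t z - var σ 0 u z)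
    (rest := fun z => var L s₂ t z - var σ 0 u z) (r := ρ) hL.cont.continuousOn hd hline ha hb'
    ((cv L s₂ t hL.cont (by linarith) fun _ h => Or.inl (Or.inl h)).sub
      (cv σ 0 u hF.cont hu0.le fun _ h => Or.inl (Or.inr h))) fun z hz hi => by
      refine ⟨?_, var_two_int (off z hz hi s t (by linarith) (by linarith) le_rfl)
        (off_of_icc hF.cont hu0.le fun h => hb hz (Or.inl (Or.inr h))) hF.start.symm hu.symm⟩
      have := var_add (off z hz hi s s₂ (by linarith) h21.le (by linarith))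
        (off z hz hi s₂ t (by linarith) (by linarith) le_rfl)
      linarith
  have e0 : L (s - l) = g' (σ 0) := by rw [hF.start, back hT hL hrR (by linarith) (by linarith)]
  have e1 : L (t - l) = g' (σ u) := by rw [hu, back hT hL hrR (by linarith) (by linarith)]
  have j2 := jump (w := fun z => var L (s - l) (t - l) z - var (fun x => g' (σ x)) 0 u z)
    (rest := fun z => var L (s - l) s z + var L s₂ (t - l) z - var (fun x => g' (σ x)) 0 u z)
    (r := ρ) hL.cont.continuousOn hd hline ha hb'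
    (((cv L (s - l) s hL.cont (by linarith) fun _ h => Or.inr (Or.inl h)).add
      (cv L s₂ (t - l) hL.cont h23 fun _ h => Or.inl (Or.inl
        (image_mono (Icc_subset_Icc le_rfl (by linarith)) h)))).sub
      (cv _ 0 u hgσ hu0.le fun _ h => Or.inr (Or.inr h))) fun z hz hi => by
      refine ⟨?_, var_two_int (off z hz hi (s - l) (t - l) le_rfl (by linarith) (by linarith))
        (off_of_icc hgσ hu0.le fun h => hb hz (Or.inr (Or.inr h))) e0 e1⟩
      have h1 := var_add (off z hz hi (s - l) s le_rfl (by linarith) (by linarith))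
        (off z hz hi s s₂ (by linarith) h21.le (by linarith))
      have h2 := var_add (off z hz hi (s - l) s₂ le_rfl (by linarith) (by linarith))
        (off z hz hi s₂ (t - l) (by linarith) h23 (by linarith))
      linarith
  obtain ⟨A, hA⟩ := exists_A (g := g') (r := r + 2) hT.cont' hT.near' fun x hx y hy h =>
    hT.symm.inj (by linarith [mem_closedBall_zero_iff.1 hx])
      (by linarith [mem_closedBall_zero_iff.1 hy]) h
  have tr : ∀ y ∈ ball (L q) ρ, ((y - L q) / d).im ≠ 0 → (g y ∈ U ∨ g y ∈ V) ∧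
      var L (s - l) (t - l) y - var (fun x => g' (σ x)) 0 u y =
        var L s t (g y) - var σ 0 u (g y) := fun y hy hi => by
    have hy1 : ‖y‖ ≤ r + 1 := by
      have h1 := hL.bd q ⟨by linarith, by linarith⟩
      have h2 := mem_ball_iff_norm.1 hy
      have h3 := norm_sub_norm_le y (L q)
      linarith
    have hy2 : ‖g y‖ ≤ r + 2 := by linarith [hT.norm_le y]
    have ey : g' (g y) = y := hT.inv y (by linarith)
    have n1 : g y ∉ L '' Icc s t := fun ⟨p, hp, h⟩ =>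
      offL y hy hi (p - l) (by linarith [hp.1]) (by linarith [hp.2])
        (by rw [← back hT hL hrR (by linarith [hp.1]) (by linarith [hp.2]), h, ey])
    have n2 : g y ∉ σ '' Icc 0 u := fun ⟨x, hx, h⟩ =>
      hb hy (Or.inr (Or.inr ⟨x, hx, by simp only [h, ey]⟩))
    refine ⟨(hJ.cover _).resolve_left fun h => h.elim n1 n2, ?_⟩
    have hst : s ≤ t := by linarith
    have v1 := var_map hA hT.cont' (off_of_icc hL.cont hst n1) (fun p hp => by
      rw [uIcc_of_le hst] at hp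
      linarith [hL.bd p ⟨by linarith [hp.1], by linarith [hp.2]⟩]) hy2
    have v2 := var_map hA hT.cont' (off_of_icc hF.cont hu0.le n2) (fun p hp => by
      rw [uIcc_of_le hu0.le] at hp
      linarith [hF.bd p hp]) hy2
    have v3 : var (fun p => g' (L p)) s t y = var L (s - l) (t - l) y := by
      rw [sub_eq_add_neg s, sub_eq_add_neg t, ← var_shift]
      refine var_congr (fun p hp => ?_) y
      rw [uIcc_of_le hst] at hp
      exact back hT hL hrR (by linarith [hp.1]) (by linarith [hp.2])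
    rw [ey, v3] at v1
    rw [ey, hu, hF.start] at v2
    linarith
  have hdn : 0 < ‖d‖ := norm_pos_iff.2 hd
  have pt : ∀ τ : ℝ, |τ| = ρ / (2 * ‖d‖) → L q + τ * I * d ∈ ball (L q) ρ ∧
      ((L q + τ * I * d - L q) / d).im = τ := fun τ hτ => by
    refine ⟨?_, by rw [add_sub_cancel_left, mul_div_cancel_right₀ _ hd]; simp⟩
    rw [mem_ball_iff_norm, add_sub_cancel_left, norm_mul, norm_mul, norm_I, norm_real,
      Real.norm_eq_abs, hτ, mul_one]
    have : ρ / (2 * ‖d‖) * ‖d‖ = ρ / 2 := by field_simp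
    linarith
  have hτ : 0 < ρ / (2 * ‖d‖) := by positivity
  obtain ⟨a1, a2⟩ := pt (ρ / (2 * ‖d‖)) (abs_of_pos hτ)
  obtain ⟨b1, b2⟩ := pt (-(ρ / (2 * ‖d‖))) (by rw [abs_neg, abs_of_pos hτ])
  generalize L q + ((ρ / (2 * ‖d‖) : ℝ) : ℂ) * I * d = a at a1 a2
  generalize L q + ((-(ρ / (2 * ‖d‖)) : ℝ) : ℂ) * I * d = b at b1 b2
  have a3 : 0 < ((a - L q) / d).im := by rw [a2]; exact hτ
  have b3 : ((b - L q) / d).im < 0 := by rw [b2]; linarith
  have k1 := side hU hV (notJ a a1 a3.ne') (notJ b b1 b3.ne) (j1 a a1 b b1 a3 b3)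
  have k2 := side hU hV (tr a a1 a3.ne').1 (tr b b1 b3.ne).1 (by
    have := j2 a a1 b b1 a3 b3
    rw [← (tr a a1 a3.ne').2, ← (tr b b1 b3.ne).2]
    exact this)
  rcases hc with hc | hc
  · exact ⟨a, k1.1 hc, k2.1 hc⟩
  · exact ⟨b, k1.2 hc, k2.2 hc⟩

end SideSAux

theorem side_S {g g' : ℂ → ℂ} {R r l s s₁ u e t : ℝ} {L σ : ℝ → ℂ} {v d : ℂ} (hT : Top g g' R)
    (hL : Line g L l r) (hF : Fst g L l s σ u r) (hr : r + 20 ≤ R) (hd : d ≠ 0)
    (hseg : Seg L s s₁ v d e) (hfree : ∀ x ∈ Icc 0 u, ∀ y ∈ Icc 0 u, σ x ≠ g (σ y))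
    (ht : t ∈ Icc s₁ (2 * l)) (hu : σ u = L t) :
    t < s + l ∧ ∃ (U V : Set ℂ) (c : ℝ), Jor (L '' Icc s t ∪ σ '' Icc 0 u) U V ∧
      (c = 2 * π ∨ c = -(2 * π)) ∧ (∀ z ∈ U, var L s t z - var σ 0 u z = c) ∧
      (∀ z ∈ V, var L s t z - var σ 0 u z = 0) ∧ L '' Ico (s - l) s ⊆ V := by
  have hl := hL.pos
  have hu0 := hF.pos
  obtain ⟨hs0, hsl⟩ := hF.hs
  have hss := hseg.lt
  have ht1 := ht.1
  have ht2 := ht.2
  have hrR : r ≤ R := by linarith
  have star := sigma_star hT hL hF (by linarith)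
  have inj : ∀ p q, s - l ≤ p → p ≤ t → s - l ≤ q → q ≤ t → L p = L q → p = q :=
    fun p q h1 h2 h3 h4 h => hL.inj3 p ⟨by linarith, by linarith⟩ q ⟨by linarith, by linarith⟩
      (abs_lt.2 ⟨by linarith, by linarith⟩) h
  obtain ⟨U, V, c, hJ, hc, hU, hV⟩ := jordan2 (P := L) (Q := σ) (a := s) (a' := s₁) (b := t)
    (c := 0) (d := u) (d₀ := d) hL.cont hF.cont hss ht1 hu0.le
    (fun p hp q hq h => inj p q (by linarith [hp.1]) hp.2 (by linarith [hq.1]) hq.2 h) hF.inj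
    hF.start.symm hu.symm
    (fun p hp x hx h => by
      rcases hx.2.lt_or_eq with h1 | h1
      · exact Or.inl (star x ⟨hx.1, h1⟩ p ⟨by linarith [hp.1], by linarith [hp.2]⟩ h.symm).2
      · rw [h1, hu] at h
        exact Or.inr (inj p t (by linarith [hp.1]) hp.2 (by linarith) le_rfl h))
    hd fun p hp => by
      obtain ⟨x, -, h⟩ := hseg.mem p hp
      rw [h, hseg.fst, add_sub_cancel_left, mul_div_cancel_right₀ _ hd, ofReal_im]
  set J : Set ℂ := L '' Icc s t ∪ σ '' Icc 0 u with hJd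
  set E : Set ℂ := L '' Ico (s - l) s ∪ (fun x => g' (σ x)) '' Ico 0 u with hE
  have hb : ∀ z ∈ J, ‖z‖ ≤ R - 5 := by
    rintro z (⟨p, hp, rfl⟩ | ⟨x, hx, rfl⟩)
    · linarith [hL.bd p ⟨by linarith [hp.1], by linarith [hp.2]⟩]
    · linarith [hF.bd x hx]
  have hEc : IsPreconnected E :=
    IsPreconnected.union (L (s - l)) ⟨s - l, ⟨le_rfl, by linarith⟩, rfl⟩
      ⟨0, ⟨le_rfl, hu0⟩, by
        simp only [hF.start]; exact SideSAux.back hT hL hrR (by linarith) (by linarith)⟩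
      (isPreconnected_Ico.image _ hL.cont.continuousOn)
      (isPreconnected_Ico.image _ (hT.cont'.comp hF.cont).continuousOn)
  have hEJ : ∀ z ∈ E, z ∉ J := by
    rintro z (⟨q, hq, rfl⟩ | ⟨x, hx, rfl⟩) (⟨p, hp, h⟩ | ⟨y, hy, h⟩)
    · linarith [inj p q (by linarith [hp.1]) hp.2 hq.1 (by linarith [hq.2]) h, hp.1, hq.2]
    · rcases hy.2.lt_or_eq with h1 | h1
      · linarith [(star y ⟨hy.1, h1⟩ q ⟨by linarith [hq.1], by linarith [hq.2]⟩ h).2, hq.2]
      · rw [h1, hu] at h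
        linarith [inj t q (by linarith) le_rfl hq.1 (by linarith [hq.2]) h, hq.2]
    · have h' : σ x = L (p + l) := by
        rw [hL.per p ⟨by linarith [hp.1], by linarith [hp.2]⟩, h,
          hT.inv' _ ((hF.bd x ⟨hx.1, hx.2.le⟩).trans hrR)]
      linarith [(star x hx (p + l) ⟨by linarith [hp.1], by linarith [hp.2]⟩ h').2, hp.1]
    · refine hfree x ⟨hx.1, hx.2.le⟩ y hy ?_
      rw [h, hT.inv' _ ((hF.bd x ⟨hx.1, hx.2.le⟩).trans hrR)]
  have hgL : ∀ p ∈ Icc s t, g' (L p) ∈ E ∨ g' (L p) ∈ J := fun p hp => by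
    rw [SideSAux.back hT hL hrR (by linarith [hp.1]) (by linarith [hp.2])]
    rcases lt_or_ge (p - l) s with h | h
    · exact Or.inl (Or.inl ⟨p - l, ⟨by linarith [hp.1], h⟩, rfl⟩)
    · exact Or.inr (Or.inl ⟨p - l, ⟨h, by linarith [hp.2]⟩, rfl⟩)
  have hgJ : ∀ z ∈ J, g' z ∈ E ∨ g' z ∈ J := by
    rintro z (⟨p, hp, rfl⟩ | ⟨x, hx, rfl⟩)
    · exact hgL p hp
    · rcases hx.2.lt_or_eq with h1 | h1
      · exact Or.inl (Or.inr ⟨x, ⟨hx.1, h1⟩, rfl⟩)
      · rw [h1, hu]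
        exact hgL t ⟨by linarith, le_rfl⟩
  have hLt : L t ∈ J := Or.inl ⟨t, ⟨by linarith, le_rfl⟩, rfl⟩
  have hEV : E ⊆ V := (hJ.sub_or hEc hEJ).resolve_left fun hEU => by
    refine nest hT.symm hJ hb (fun z hz => (hgJ z hz).elim (fun h => hJ.dUV _ (hEU h))
      fun h => hJ.dJV _ h) ⟨L t, hLt, ?_⟩
    have key : ∀ p ∈ Icc s t, g' (L p) ≠ L t := fun p hp h => by
      rw [SideSAux.back hT hL hrR (by linarith [hp.1]) (by linarith [hp.2])] at h
      linarith [inj (p - l) t (by linarith [hp.1]) (by linarith [hp.2]) (by linarith) le_rfl h,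
        hp.2]
    rintro ⟨z, ⟨p, hp, rfl⟩ | ⟨x, hx, rfl⟩, h⟩
    · exact key p hp h
    · rcases hx.2.lt_or_eq with h1 | h1
      · exact hEJ _ (Or.inr ⟨x, ⟨hx.1, h1⟩, h⟩) hLt
      · rw [h1, hu] at h
        exact key t ⟨by linarith, le_rfl⟩ h
  refine ⟨?_, U, V, c, hJ, hc, hU, hV, fun z hz => hEV (Or.inl hz)⟩
  by_contra hlt
  rcases (not_lt.1 hlt).lt_or_eq with h1 | h1
  · refine nest' hT hJ hb (fun z hz => (hgJ z hz).elim (fun h h' => hJ.dUV _ h' (hEV h))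
      fun h => hJ.dJU _ h) (SideSAux.exists_in hT hL hF hr hd hseg ht hu h1 hJ hc hU hV)
      ⟨L s, Or.inl ⟨s, ⟨le_rfl, by linarith⟩, rfl⟩, ?_⟩
    rintro ⟨z, ⟨p, hp, rfl⟩ | ⟨x, hx, rfl⟩, h⟩
    · have h' : σ 0 = L (p + l) := by
        rw [hL.per p ⟨by linarith [hp.1], by linarith [hp.2]⟩, h, hF.start]
      linarith [(star 0 ⟨le_rfl, hu0⟩ (p + l) ⟨by linarith [hp.1], by linarith [hp.2]⟩ h').2, hp.1]
    · exact hfree 0 ⟨le_rfl, hu0.le⟩ x hx (by rw [h, hF.start])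
  · refine hfree u ⟨hu0.le, le_rfl⟩ 0 ⟨le_rfl, hu0.le⟩ ?_
    rw [hu, ← h1, hL.per s ⟨by linarith, by linarith⟩, hF.start]

end Pool.Agent.Lib.MP_399f8e_an.Ur
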