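import Pool.Agent.Lib.MP_399f8e_an.Ur.Defs
import Pool.Agent.Lib.MP_399f8e_an.Rg.Norm

open Set Filter Topology Metric Complex
open scoped Real RealInnerProductSpace
open Pool.Agent.Lib.MP_399f8e_an.Rg

noncomputable section

namespace Pool.Agent.Lib.MP_399f8e_an.Ur

variable {φ : ℝ → S → S} {X : S → E} {m M L : ℝ}

theorem exists_time (h : FD φ X m M L) : ∃ ϱ δ C : ℝ, 0 < ϱ ∧ 0 < δ ∧ 0 < C ∧ ∃ T : S → S → ℝ,
    ContinuousOn (fun p : S × S => T p.1 p.2) {p | ‖(p.2 : E) - p.1‖ ≤ ϱ} ∧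
    (∀ c q : S, ‖(q : E) - c‖ ≤ ϱ → |T c q| ≤ C * ‖(q : E) - c‖ ∧ ⟪(φ (T c q) q : E), X c⟫ = 0) ∧
    ∀ (c q : S) (t : ℝ), ‖(q : E) - c‖ ≤ ϱ → |t| ≤ δ → ⟪(φ t q : E), X c⟫ = 0 → t = T c q := by
  have hm := h.m_pos
  obtain ⟨δ, hδ, hU⟩ := h.unif (m / 2) (by positivity)
  obtain ⟨ϱ, hϱ0, hϱ1, hϱ2⟩ : ∃ ϱ : ℝ, 0 < ϱ ∧ ϱ ≤ δ ∧ ϱ ≤ δ * m / 2 :=
    ⟨min δ (δ * m / 2), by positivity, min_le_left _ _, min_le_right _ _⟩
  have hXp : ∀ c, 0 < ‖X c‖ := fun c => hm.trans_le (h.low c)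
  have est : ∀ (c q : S) (t t' : ℝ), ‖(q : E) - c‖ ≤ ϱ → |t| ≤ δ → |t'| ≤ δ →
      |⟪(φ t q : E), X c⟫ - ⟪(φ t' q : E), X c⟫ - (t - t') * ‖X c‖ ^ 2|
        ≤ m / 2 * |t - t'| * ‖X c‖ := by
    intro c q t t' hq ht ht'
    have h1 := hU c q q t t' (hq.trans hϱ1) (hq.trans hϱ1) ht ht'
    rw [hext_coe, hext_coe, sub_self, sub_zero, norm_zero, zero_add] at h1
    have e : ⟪(φ t q : E), X c⟫ - ⟪(φ t' q : E), X c⟫ - (t - t') * ‖X c‖ ^ 2
        = ⟪(φ t q : E) - φ t' q - (t - t') • X c, X c⟫ := by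
      rw [inner_sub_left, inner_sub_left, real_inner_smul_left, real_inner_self_eq_norm_sq]
    rw [e]
    exact (abs_real_inner_le_norm _ _).trans (mul_le_mul_of_nonneg_right h1 (norm_nonneg _))
  have low : ∀ (c q : S) (t t' : ℝ), ‖(q : E) - c‖ ≤ ϱ → |t| ≤ δ → |t'| ≤ δ →
      m / 2 * |t - t'| * ‖X c‖ ≤ |⟪(φ t q : E), X c⟫ - ⟪(φ t' q : E), X c⟫| := by
    intro c q t t' hq ht ht'
    have h1 := est c q t t' hq ht ht'
    have h2 := abs_sub_abs_le_abs_sub ((t - t') * ‖X c‖ ^ 2)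
      (⟪(φ t q : E), X c⟫ - ⟪(φ t' q : E), X c⟫)
    rw [abs_sub_comm ((t - t') * ‖X c‖ ^ 2), abs_mul, abs_of_nonneg (sq_nonneg ‖X c‖)] at h2
    have h3 : m * |t - t'| * ‖X c‖ ≤ |t - t'| * ‖X c‖ ^ 2 := by
      have := mul_le_mul_of_nonneg_left (h.low c) (mul_nonneg (abs_nonneg (t - t')) (hXp c).le)
      nlinarith
    linarith
  have z0 : ∀ c q : S, |⟪(φ 0 q : E), X c⟫| ≤ ‖(q : E) - c‖ * ‖X c‖ := fun c q => by
    have := abs_real_inner_le_norm ((q : E) - c) (X c)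
    rw [inner_sub_left, h.perp c, sub_zero] at this
    rwa [h.zero]
  have ex : ∀ c q : S, ∃ t : ℝ, ‖(q : E) - c‖ ≤ ϱ → |t| ≤ δ ∧ ⟪(φ t q : E), X c⟫ = 0 := by
    intro c q
    by_cases hq : ‖(q : E) - c‖ ≤ ϱ
    swap
    · exact ⟨0, fun h' => absurd h' hq⟩
    have hc : Continuous fun t : ℝ => (⟪(φ t q : E), X c⟫ : ℝ) :=
      (continuous_subtype_val.comp (h.cont.comp (continuous_id.prodMk continuous_const))).inner
        continuous_const
    have a1 : |δ| = δ := abs_of_pos hδ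
    have a2 : |-δ| = δ := by rw [abs_neg, a1]
    have h4 := abs_le.1 (est c q δ 0 hq a1.le (by simpa using hδ.le))
    have h5 := abs_le.1 (est c q (-δ) 0 hq a2.le (by simpa using hδ.le))
    rw [sub_zero, a1] at h4
    rw [sub_zero, a2] at h5
    have h6 := abs_le.1 ((z0 c q).trans
      (mul_le_mul_of_nonneg_right (hq.trans hϱ2) (norm_nonneg _)))
    have h7 : m * δ * ‖X c‖ ≤ δ * ‖X c‖ ^ 2 := by
      have := mul_le_mul_of_nonneg_left (h.low c) (mul_nonneg hδ.le (hXp c).le)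
      nlinarith
    obtain ⟨t, ht, ht0⟩ := intermediate_value_Icc (show -δ ≤ δ by linarith)
      hc.continuousOn (show (0 : ℝ) ∈ Icc _ _ from
        ⟨by linarith [h5.2, h6.2], by linarith [h4.1, h6.1]⟩)
    exact ⟨t, fun _ => ⟨abs_le.2 ht, ht0⟩⟩
  choose T hT using ex
  have canc : ∀ (c : S) (a b : ℝ), m / 2 * a * ‖X c‖ ≤ b * ‖X c‖ → a ≤ 2 / m * b := by
    intro c a b hab
    have := le_of_mul_le_mul_right hab (hXp c)
    rw [div_mul_eq_mul_div, le_div_iff₀ hm]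
    linarith
  refine ⟨ϱ, δ, 2 / m, hϱ0, hδ, by positivity, T, fun p hp => ?_, fun c q hq => ⟨?_, (hT c q hq).2⟩,
    fun c q t hq ht h0 => ?_⟩
  · have hX : Continuous X := by
      refine (LipschitzWith.of_dist_le_mul (K := ⟨L, h.L_nonneg⟩) fun x y => ?_).continuous
      rw [dist_eq_norm, Subtype.dist_eq, dist_eq_norm]
      exact h.lip x y
    have hc : Continuous fun q : S × S =>
        2 / m * (|⟪(φ (T p.1 p.2) q.2 : E), X q.1⟫| / m) := by
      have : Continuous fun q : S × S => (φ (T p.1 p.2) q.2 : E) :=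
        continuous_subtype_val.comp (h.cont.comp (continuous_const.prodMk continuous_snd))
      exact continuous_const.mul ((this.inner (hX.comp continuous_fst)).abs.div_const m)
    have h0 := (hc.tendsto p).mono_left (nhdsWithin_le_nhds (s := {p | ‖(p.2 : E) - p.1‖ ≤ ϱ}))
    rw [(hT _ _ hp).2, abs_zero, zero_div, mul_zero] at h0
    refine tendsto_iff_dist_tendsto_zero.2 (squeeze_zero' (Eventually.of_forall fun _ =>
      dist_nonneg) (eventually_nhdsWithin_of_forall fun q hq => ?_) h0)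
    have h1 := low q.1 q.2 _ _ hq (hT _ _ hq).1 (hT _ _ hp).1
    rw [(hT _ _ hq).2, zero_sub, abs_neg] at h1
    refine canc q.1 _ _ (h1.trans ?_)
    rw [div_mul_eq_mul_div, le_div_iff₀ hm]
    exact mul_le_mul_of_nonneg_left (h.low _) (abs_nonneg _)
  · have h1 := low c q _ 0 hq (hT c q hq).1 (by simpa using hδ.le)
    rw [(hT c q hq).2, zero_sub, abs_neg, sub_zero] at h1
    exact canc c _ _ (h1.trans (z0 c q))
  · have h1 := low c q t _ hq ht (hT c q hq).1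
    rw [h0, (hT c q hq).2, sub_zero, abs_zero] at h1
    have h2 := canc c |t - T c q| 0 (by linarith)
    exact sub_eq_zero.1 (abs_nonpos_iff.1 (by linarith))

end Pool.Agent.Lib.MP_399f8e_an.Ur
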